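import Pool.Agent.Helper82.GS.Final
import Pool.Agent.Helper82.GS.Bridge2

/-!
# The interface between the min-max block and the persistence block (MP_6f990d_gt)

`MinMaxClosing S` is what the min-max block proves; `PersistenceBlock S` is what the persistence block proves.
The final theorem follows from both.
-/

set_option maxSynthPendingDepth 3

namespace Pool.Agent.Helper82.PE

open MeasureTheory Filter Topology Pool.Agent.Helper82.GS
open scoped ContDiff Manifold

section Surface

variable (S : Type*) [TopologicalSpace S] [ChartedSpace P2 S]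

variable {S} in
/-- A smooth function on the surface. -/
def SmoothFun (b : S → ℝ) : Prop := ∀ e ∈ atlas P2 S, ContDiffOn ℝ ∞ (b ∘ e.symm) e.target

/-- Interface of the min-max block: if the integral of `b` over the surface is negative, then for arbitrarily small
`t ≥ 0` some closed geodesic of the metric `exp (t b) g` has a negative integral of `b`. -/
def MinMaxClosing [MeasurableSpace S] : Prop :=
  ∀ (g : RMetric S) (μ : Measure S), IsArea g μ → ∀ b : S → ℝ, SmoothFun b → ∫ x, b x ∂μ < 0 → ∀ δ > 0,
    ∃ t, 0 ≤ t ∧ t < δ ∧ ∃ g' : RMetric S,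
      (∀ e ∈ atlas P2 S, ∀ y ∈ e.target, g'.comp e y = Real.exp (t * b (e.symm y)) • g.comp e y) ∧
      ∃ (γ : ℝ → S) (T : ℝ), IsClosedGeodesic g' γ T ∧ ∫ s in (0 : ℝ)..T, b (γ s) < 0

/-- The result of the persistence block: near a metric with a closed geodesic there is a metric `g'` such that all
metrics near `g'` have closed geodesics passing near the velocity of the given one at time `0`. -/
def PersistenceBlock : Prop :=
  ∀ (g : RMetric S) (γ : ℝ → S) (T : ℝ), IsClosedGeodesic g γ T → ∀ e ∈ atlas P2 S, γ 0 ∈ e.source →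
    ∀ N ∈ 𝓝 g, ∃ g' ∈ N, ∀ ε > 0, ∀ᶠ h in 𝓝 g', ∃ (γ' : ℝ → S) (T' : ℝ), IsClosedGeodesic h γ' T' ∧
      γ' 0 ∈ e.source ∧ ‖e (γ' 0) - e (γ 0)‖ < ε ∧ ‖deriv (e ∘ γ') 0 - deriv (e ∘ γ) 0‖ < ε

end Surface

end Pool.Agent.Helper82.PE
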