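import Pool.Agent.Helper82.PE.FinalS
import Pool.Agent.Helper53.CL.Iface

/-!
# From the analytic theorem (Prop `Iface.Int`) to the closing lemma (module PE-49)
-/

set_option maxSynthPendingDepth 3

namespace Pool.Agent.Helper82.PE

open MeasureTheory Filter Topology Pool.Agent.Helper82.GS Pool.Agent.Helper53.CL
open scoped ContDiff Manifold NNReal

theorem minMaxClosing_of_int (S : Type*) [TopologicalSpace S] [CompactSpace S] [T2Space S] [ChartedSpace P2 S]
    [IsManifold (modelWithCornersSelf ℝ P2) ∞ S] [MeasurableSpace S] [BorelSpace S] (h : Iface.Int S) :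
    MinMaxClosing S := by
  intro g μ hμ b hb hneg δ hδ
  obtain ⟨t, ht, hw, γ, T, hγ, hint⟩ := h g μ hμ b hb hneg δ hδ
  exact ⟨t, ht.1.le, ht.2, g.scale (fun x => Real.exp (t * b x)) hw (fun _ => Real.exp_pos _),
    fun e he y hy => rfl, γ, T, hγ, hint⟩

theorem closing_of_int (S : Type*) [TopologicalSpace S] [CompactSpace S] [T2Space S] [ChartedSpace P2 S]
    [IsManifold (modelWithCornersSelf ℝ P2) ∞ S] [MeasurableSpace S] [BorelSpace S] (h : Iface.Int S) :
    ∀ᶠ g in residual (Stmt.RMetric P2 S), Stmt.ClosedGeodesicsDense g :=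
  closing_stmt S (minMaxClosing_of_int S h)

end Pool.Agent.Helper82.PE
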