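import Pool.Agent.Helper82.PE.FHam

/-!
# Conformal perturbations to second order (module PE-9)
-/

set_option maxSynthPendingDepth 3

namespace Pool.Agent.Helper82.PE

open MeasureTheory Filter Topology Pool.Agent.Helper82.GS
open scoped ContDiff Manifold NNReal

variable {D : Set P2} {G : P2 → Bil}

private theorem inverse_smul' {A : Bil} (hA : PosDef A) {s : ℝ} (hs : s ≠ 0) (σ : P2 →L[ℝ] ℝ) :
    ContinuousLinearMap.inverse (s • A) σ = s⁻¹ • ContinuousLinearMap.inverse A σ := by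
  obtain ⟨e, he⟩ := hA.exists_equiv
  have h1 : ((e.trans (ContinuousLinearEquiv.smulLeft (Units.mk0 s hs)) : P2 ≃L[ℝ] (P2 →L[ℝ] ℝ)) :
      P2 →L[ℝ] (P2 →L[ℝ] ℝ)) = s • A := by
    rw [← he]
    ext v w
    simp [Units.smul_def]
  rw [← h1, ContinuousLinearMap.inverse_equiv]
  apply (e.trans (ContinuousLinearEquiv.smulLeft (Units.mk0 s hs))).injective
  rw [ContinuousLinearEquiv.coe_coe, ContinuousLinearEquiv.apply_symm_apply]
  have h2 : ∀ v, (e.trans (ContinuousLinearEquiv.smulLeft (Units.mk0 s hs))) v = (s • A) v := by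
    intro v
    rw [← h1]
    rfl
  rw [h2]
  simp only [smul_apply, map_smul]
  rw [hA.apply_inverse, smul_smul, inv_mul_cancel₀ hs, one_smul]

/-- The Hamiltonian of `s⁻¹ G` is `s` times the Hamiltonian of `G` (`inverse (s⁻¹ • A) = s • inverse A`). -/
theorem ham_conf {G' : P2 → Bil} {s : ℝ} (hs : s ≠ 0) {q : P2} (hpos : PosDef (G q)) (h : G' q = s⁻¹ • G q)
    (p : Cov) : ham G' (q, p) = s * ham G (q, p) := by
  unfold ham velo
  simp only
  rw [h, inverse_smul' hpos (inv_ne_zero hs), inv_inv, map_smul, smul_eq_mul]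
  ring

/-- Second derivative of the Hamiltonian of `(1 + ε f)⁻¹ G` at a point where `f` vanishes to second order: near `z` it
is the product `(1 + ε f (z.1)) * ham G z` (`ham_conf`). -/
theorem fderiv2_ham_conf (hD : IsOpen D) (hG : ContDiffOn ℝ ∞ G D) (hpos : ∀ y ∈ D, PosDef (G y)) {f : P2 → ℝ}
    (hf : ContDiff ℝ ∞ f) {ε : ℝ} (hε : ∀ y, 0 < 1 + ε * f y) {G' : P2 → Bil}
    (hG' : ∀ y ∈ D, G' y = (1 + ε * f y)⁻¹ • G y) {z : Ph} (hz : z.1 ∈ D) (h0 : f z.1 = 0)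
    (h1 : fderiv ℝ f z.1 = 0) (ζ η : Ph) :
    fderiv ℝ (fderiv ℝ (ham G')) z ζ η =
      fderiv ℝ (fderiv ℝ (ham G)) z ζ η + ε * ham G z * fderiv ℝ (fderiv ℝ f) z.1 ζ.1 η.1 := by
  set u : Ph → ℝ := fun w => 1 + ε * f w.1 with hu
  have hU : IsOpen (D ×ˢ (Set.univ : Set Cov)) := hD.prod isOpen_univ
  have hzU : z ∈ D ×ˢ (Set.univ : Set Cov) := ⟨hz, Set.mem_univ _⟩
  have hh : ContDiffOn ℝ ∞ (ham G) (D ×ˢ Set.univ) := contDiffOn_ham hD hG hpos
  have huc : ContDiff ℝ ∞ u := contDiff_const.add (contDiff_const.mul (hf.comp contDiff_fst))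
  have heq : Set.EqOn (ham G') (fun w => u w * ham G w) (D ×ˢ (Set.univ : Set Cov)) := by
    intro w hw
    have := ham_conf (G := G) (G' := G') (s := 1 + ε * f w.1) (hε w.1).ne' (hpos w.1 hw.1)
      (hG' w.1 hw.1) w.2
    exact this
  have hdu : ∀ w, HasFDerivAt u (ε • (fderiv ℝ f w.1 ∘L ContinuousLinearMap.fst ℝ P2 Cov)) w := by
    intro w
    have h2 : HasFDerivAt f (fderiv ℝ f w.1) w.1 :=
      (hf.differentiable (by simp) w.1).hasFDerivAt
    have h3 : HasFDerivAt (fun w : Ph => f w.1)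
        (fderiv ℝ f w.1 ∘L ContinuousLinearMap.fst ℝ P2 Cov) w :=
      HasFDerivAt.comp w h2 hasFDerivAt_fst
    exact (h3.const_mul ε).const_add 1
  have hfd : ∀ w ∈ D ×ˢ (Set.univ : Set Cov), fderiv ℝ (ham G') w =
      u w • fderiv ℝ (ham G) w +
        ham G w • (ε • (fderiv ℝ f w.1 ∘L ContinuousLinearMap.fst ℝ P2 Cov)) := by
    intro w hw
    have hnh : D ×ˢ (Set.univ : Set Cov) ∈ 𝓝 w := hU.mem_nhds hw
    have h2 : HasFDerivAt (ham G) (fderiv ℝ (ham G) w) w :=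
      ((hh.contDiffAt hnh).differentiableAt (by simp)).hasFDerivAt
    have h3 := (hdu w).mul h2
    have h4 : ham G' =ᶠ[𝓝 w] fun w => u w * ham G w :=
      Filter.eventuallyEq_of_mem hnh heq
    rw [h4.fderiv_eq]
    exact h3.fderiv
  have hnz : D ×ˢ (Set.univ : Set Cov) ∈ 𝓝 z := hU.mem_nhds hzU
  have hfd' : fderiv ℝ (ham G') =ᶠ[𝓝 z] fun w => u w • fderiv ℝ (ham G) w +
        ham G w • (ε • (fderiv ℝ f w.1 ∘L ContinuousLinearMap.fst ℝ P2 Cov)) :=
    Filter.eventuallyEq_of_mem hnz hfd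
  have hDh : HasFDerivAt (fderiv ℝ (ham G)) (fderiv ℝ (fderiv ℝ (ham G)) z) z := by
    have h2 : ContDiffAt ℝ 2 (ham G) z := (hh.contDiffAt hnz).of_le (by norm_cast)
    exact ((h2.fderiv_right (m := 1) (by norm_num)).differentiableAt (by simp)).hasFDerivAt
  have hhz : HasFDerivAt (ham G) (fderiv ℝ (ham G) z) z :=
    ((hh.contDiffAt hnz).differentiableAt (by simp)).hasFDerivAt
  have hDf : HasFDerivAt (fderiv ℝ f) (fderiv ℝ (fderiv ℝ f) z.1) z.1 := by
    have h2 : ContDiffAt ℝ 2 f z.1 := (hf.contDiffAt).of_le (by norm_cast)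
    exact ((h2.fderiv_right (m := 1) (by norm_num)).differentiableAt (by simp)).hasFDerivAt
  have hDf' : HasFDerivAt (fun w : Ph => fderiv ℝ f w.1)
      (fderiv ℝ (fderiv ℝ f) z.1 ∘L ContinuousLinearMap.fst ℝ P2 Cov) z :=
    HasFDerivAt.comp z hDf hasFDerivAt_fst
  have hL : HasFDerivAt (fun w : Ph => ε • (fderiv ℝ f w.1 ∘L ContinuousLinearMap.fst ℝ P2 Cov))
      (ε • ((ContinuousLinearMap.compL ℝ Ph P2 ℝ).flip (ContinuousLinearMap.fst ℝ P2 Cov) ∘L
        (fderiv ℝ (fderiv ℝ f) z.1 ∘L ContinuousLinearMap.fst ℝ P2 Cov))) z := by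
    have h5 := (((ContinuousLinearMap.compL ℝ Ph P2 ℝ).flip
      (ContinuousLinearMap.fst ℝ P2 Cov)).hasFDerivAt (x := fderiv ℝ f z.1)).comp z hDf'
    exact h5.const_smul ε
  have hA := (hdu z).smul hDh
  have hB := hhz.smul hL
  have hAB := hA.add hB
  have e0 : fderiv ℝ (fun w => u w • fderiv ℝ (ham G) w +
        ham G w • (ε • (fderiv ℝ f w.1 ∘L ContinuousLinearMap.fst ℝ P2 Cov))) z = _ := hAB.fderiv
  rw [hfd'.fderiv_eq, e0]
  have huz : u z = 1 := by simp [hu, h0]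
  simp only [huz, h1, one_smul, ContinuousLinearMap.zero_comp, smul_zero,
    add_apply, smul_apply,
    ContinuousLinearMap.smulRight_apply, zero_apply, zero_smul,
    ContinuousLinearMap.comp_apply, ContinuousLinearMap.flip_apply,
    ContinuousLinearMap.compL_apply, ContinuousLinearMap.coe_fst', smul_eq_mul, add_zero, mul_zero]
  ring

/-- At such a point the vector fields agree (`G' q = G q` and `fderiv G' q = fderiv G q`). -/
theorem hvec_conf (hD : IsOpen D) (hG : ContDiffOn ℝ ∞ G D) {f : P2 → ℝ}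
    (hf : ContDiff ℝ ∞ f) {ε : ℝ} (hε : ∀ y, 0 < 1 + ε * f y) {G' : P2 → Bil}
    (hG' : ∀ y ∈ D, G' y = (1 + ε * f y)⁻¹ • G y) {z : Ph} (hz : z.1 ∈ D) (h0 : f z.1 = 0)
    (h1 : fderiv ℝ f z.1 = 0) : hvec G' z = hvec G z ∧ ham G' z = ham G z := by
  have e1 : G' z.1 = G z.1 := by
    rw [hG' z.1 hz, h0]
    simp
  have hv : velo G' z = velo G z := by
    unfold velo
    rw [e1]
  have hnh : D ∈ 𝓝 z.1 := hD.mem_nhds hz
  have h4 : G' =ᶠ[𝓝 z.1] fun y => (1 + ε * f y)⁻¹ • G y :=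
    Filter.eventuallyEq_of_mem hnh hG'
  have hf1 : HasFDerivAt f (0 : P2 →L[ℝ] ℝ) z.1 := by
    have := (hf.differentiable (by simp) z.1).hasFDerivAt
    rwa [h1] at this
  have hi : HasFDerivAt (fun y => (1 + ε * f y)⁻¹) (0 : P2 →L[ℝ] ℝ) z.1 := by
    have h2 : HasFDerivAt (fun y => 1 + ε * f y) (ε • (0 : P2 →L[ℝ] ℝ)) z.1 :=
      (hf1.const_mul ε).const_add 1
    have h3 : HasFDerivAt (fun y => (1 + ε * f y)⁻¹) _ z.1 :=
      (hasDerivAt_inv (hε z.1).ne').comp_hasFDerivAt z.1 h2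
    refine h3.congr_fderiv ?_
    simp
  have hGd : HasFDerivAt G (fderiv ℝ G z.1) z.1 :=
    ((hG.contDiffAt hnh).differentiableAt (by simp)).hasFDerivAt
  have hfd : fderiv ℝ G' z.1 = fderiv ℝ G z.1 := by
    rw [h4.fderiv_eq]
    have h5 := (hi.smul hGd).fderiv
    rw [show (fun y => (1 + ε * f y)⁻¹ • G y) = (fun y => (1 + ε * f y)⁻¹) • G from rfl] at *
    rw [h5, h0]
    ext v w x
    simp
  constructor
  · unfold hvec
    rw [hv, hfd]
  · unfold ham
    rw [hv]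

/-- The perturbed metric is smooth and positive definite. -/
theorem smooth_conf (hG : ContDiffOn ℝ ∞ G D) (hpos : ∀ y ∈ D, PosDef (G y)) {f : P2 → ℝ}
    (hf : ContDiff ℝ ∞ f) {ε : ℝ} (hε : ∀ y, 0 < 1 + ε * f y) {G' : P2 → Bil}
    (hG' : ∀ y ∈ D, G' y = (1 + ε * f y)⁻¹ • G y) : ContDiffOn ℝ ∞ G' D ∧ ∀ y ∈ D, PosDef (G' y) := by
  constructor
  · have h3 : ContDiff ℝ ∞ fun y => 1 + ε * f y := contDiff_const.add (contDiff_const.mul hf)
    have h5 : ContDiffOn ℝ ∞ (fun y => (1 + ε * f y)⁻¹) D :=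
      (h3.inv fun y => (hε y).ne').contDiffOn
    exact (h5.smul hG).congr hG'
  · intro y hy
    rw [hG' y hy]
    exact (hpos y hy).smul (inv_pos.2 (hε y))

end Pool.Agent.Helper82.PE
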