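import Pool.Agent.Helper82.PE.Ctr

/-!
# Coordinates of phase points of the surface (module PE-14)
-/

set_option maxSynthPendingDepth 3

namespace Pool.Agent.Helper82.PE

open MeasureTheory Filter Topology Pool.Agent.Helper82.GS
open scoped ContDiff Manifold NNReal

variable {S : Type*} [TopologicalSpace S] [ChartedSpace P2 S]

theorem crd_fst (e : OpenPartialHomeomorph S P2) (x : S × Cov) : (crd e x).1 = e x.1 := by
  change e ((chartAt P2 x.1).symm (chartAt P2 x.1 x.1)) = e x.1
  rw [(chartAt P2 x.1).left_inv (mem_chart_source P2 x.1)]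

theorem crd_smul (e : OpenPartialHomeomorph S P2) (x : S) (p : Cov) (c : ℝ) :
    crd e (x, c • p) = ((crd e (x, p)).1, c • (crd e (x, p)).2) := by
  exact ctr_smul (chartAt P2 x) e (chartAt P2 x x) p c

theorem crd_mem_cdom {e e' : OpenPartialHomeomorph S P2} {x : S × Cov} (h : x.1 ∈ e.source) (h' : x.1 ∈ e'.source) :
    crd e x ∈ cdom e e' := by
  refine ⟨?_, ?_⟩
  · rw [crd_fst]
    exact e.map_source h
  · rw [crd_fst, e.left_inv h]
    exact h'

theorem uncrd_mem {e : OpenPartialHomeomorph S P2} {z : Ph} (hz : z.1 ∈ e.target) : (uncrd e z).1 ∈ e.source := by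
  exact e.map_target hz

variable [IsManifold (modelWithCornersSelf ℝ P2) ∞ S]

theorem ctr_crd {e e' : OpenPartialHomeomorph S P2} (he : e ∈ atlas P2 S) (he' : e' ∈ atlas P2 S) {x : S × Cov}
    (h : x.1 ∈ e.source) (h' : x.1 ∈ e'.source) : ctr e e' (crd e x) = crd e' x := by
  have h1 : (chartAt P2 x.1).symm (chartAt P2 x.1 x.1) = x.1 :=
    (chartAt P2 x.1).left_inv (mem_chart_source P2 x.1)
  refine ctr_ctr (chart_mem_atlas P2 x.1) he he' ⟨?_, ?_⟩ ?_
  · exact (chartAt P2 x.1).map_source (mem_chart_source P2 x.1)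
  · change (chartAt P2 x.1).symm (chartAt P2 x.1 x.1) ∈ e.source
    rw [h1]
    exact h
  · change (chartAt P2 x.1).symm (chartAt P2 x.1 x.1) ∈ e'.source
    rw [h1]
    exact h'

theorem uncrd_crd {e : OpenPartialHomeomorph S P2} (he : e ∈ atlas P2 S) {x : S × Cov} (h : x.1 ∈ e.source) :
    uncrd e (crd e x) = x := by
  have h1 : e.symm (crd e x).1 = x.1 := by
    rw [crd_fst, e.left_inv h]
  have h2 : ctr e (chartAt P2 x.1) (crd e x) = (chartAt P2 x.1 x.1, x.2) := by
    rw [ctr_crd he (chart_mem_atlas P2 x.1) h (mem_chart_source P2 x.1)]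
    exact ctr_self ((chartAt P2 x.1).map_source (mem_chart_source P2 x.1))
  unfold uncrd
  rw [h1, h2]

theorem crd_uncrd {e e' : OpenPartialHomeomorph S P2} (he : e ∈ atlas P2 S) (he' : e' ∈ atlas P2 S) {z : Ph}
    (hz : z ∈ cdom e e') : crd e' (uncrd e z) = ctr e e' z := by
  have h1 : z ∈ cdom e (chartAt P2 (e.symm z.1)) := ⟨hz.1, mem_chart_source P2 _⟩
  have h2 := ctr_ctr he (chart_mem_atlas P2 (e.symm z.1)) he' h1 hz.2
  rw [← h2]
  rfl

theorem crd_uncrd_self {e : OpenPartialHomeomorph S P2} (he : e ∈ atlas P2 S) {z : Ph} (hz : z.1 ∈ e.target) :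
    crd e (uncrd e z) = z := by
  rw [crd_uncrd he he ⟨hz, e.map_target hz⟩]
  exact ctr_self hz

theorem crd_inj {e : OpenPartialHomeomorph S P2} (he : e ∈ atlas P2 S) {x y : S × Cov} (hx : x.1 ∈ e.source)
    (hy : y.1 ∈ e.source) (h : crd e x = crd e y) : x = y := by
  rw [← uncrd_crd he hx, h, uncrd_crd he hy]

end Pool.Agent.Helper82.PE
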