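import Pool.Agent.Helper82.PE.Om

/-!
# The change of charts on the cotangent bundle (module PE-10)
-/

set_option maxSynthPendingDepth 3

namespace Pool.Agent.Helper82.PE

open MeasureTheory Filter Topology Pool.Agent.Helper82.GS
open scoped ContDiff Manifold NNReal

variable {S : Type*} [TopologicalSpace S]

theorem isOpen_cdom (e e' : OpenPartialHomeomorph S P2) : IsOpen (cdom e e') := by
  have h : IsOpen (e.target ∩ e.symm ⁻¹' e'.source) := e.isOpen_inter_preimage_symm e'.open_source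
  exact h.preimage continuous_fst

theorem ctr_mem {e e' : OpenPartialHomeomorph S P2} {z : Ph} (hz : z ∈ cdom e e') : ctr e e' z ∈ cdom e' e := by
  refine ⟨e'.map_source hz.2, ?_⟩
  show e'.symm (e' (e.symm z.1)) ∈ e.source
  rw [e'.left_inv hz.2]
  exact e.map_target hz.1

theorem symm_ctr {e e' : OpenPartialHomeomorph S P2} {z : Ph} (hz : z ∈ cdom e e') :
    e'.symm (ctr e e' z).1 = e.symm z.1 :=
  e'.left_inv hz.2

theorem ctr_smul (e e' : OpenPartialHomeomorph S P2) (q : P2) (p : Cov) (c : ℝ) :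
    ctr e e' (q, c • p) = ((ctr e e' (q, p)).1, c • (ctr e e' (q, p)).2) := by
  simp [ctr, ContinuousLinearMap.smul_comp]

theorem ctr_self {e : OpenPartialHomeomorph S P2} {z : Ph} (hz : z.1 ∈ e.target) : ctr e e z = z := by
  have h1 : e (e.symm z.1) = z.1 := e.right_inv hz
  have h2 : fderiv ℝ (e ∘ e.symm) z.1 = ContinuousLinearMap.id ℝ P2 := by
    have h : (e ∘ e.symm) =ᶠ[𝓝 z.1] id := by
      filter_upwards [e.open_target.mem_nhds hz] with y hy
      exact e.right_inv hy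
    rw [h.fderiv_eq, fderiv_id]
  refine Prod.ext h1 ?_
  show z.2 ∘L fderiv ℝ (e ∘ e.symm) (e (e.symm z.1)) = z.2
  rw [h1, h2, ContinuousLinearMap.comp_id]

variable [ChartedSpace P2 S] [IsManifold (modelWithCornersSelf ℝ P2) ∞ S]

/-- Use `trans_smooth` (`GS/Scale.lean`): the transition map `e ∘ e'.symm` is smooth on the open set
`e'.target ∩ e'.symm ⁻¹' e.source`, hence so is its `fderiv`. -/
theorem contDiffOn_ctr {e e' : OpenPartialHomeomorph S P2} (he : e ∈ atlas P2 S) (he' : e' ∈ atlas P2 S) :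
    ContDiffOn ℝ ∞ (ctr e e') (cdom e e') := by
  have hτ : ContDiffOn ℝ ∞ (fun z : Ph => e' (e.symm z.1)) (cdom e e') :=
    (trans_smooth he' he).comp contDiff_fst.contDiffOn (fun z hz => hz)
  have hO : IsOpen (e'.target ∩ e'.symm ⁻¹' e.source) := e'.isOpen_inter_preimage_symm e.open_source
  have hD : ContDiffOn ℝ ∞ (fderiv ℝ (e ∘ e'.symm)) (e'.target ∩ e'.symm ⁻¹' e.source) :=
    (trans_smooth he he').fderiv_of_isOpen hO (by simp)
  have hDτ : ContDiffOn ℝ ∞ (fun z : Ph => fderiv ℝ (e ∘ e'.symm) (e' (e.symm z.1))) (cdom e e') :=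
    hD.comp hτ (fun z hz => ctr_mem hz)
  exact hτ.prodMk (contDiff_snd.contDiffOn.clm_comp hDτ)

/-- Cocycle property: near `y = e'' x` one has `e ∘ e''.symm = (e ∘ e'.symm) ∘ (e' ∘ e''.symm)`. -/
theorem ctr_ctr {e e' e'' : OpenPartialHomeomorph S P2} (he : e ∈ atlas P2 S) (he' : e' ∈ atlas P2 S)
    (he'' : e'' ∈ atlas P2 S) {z : Ph} (hz : z ∈ cdom e e') (h : e.symm z.1 ∈ e''.source) :
    ctr e' e'' (ctr e e' z) = ctr e e'' z := by
  have hx : e'.symm (e' (e.symm z.1)) = e.symm z.1 := e'.left_inv hz.2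
  have hx'' : e''.symm (e'' (e.symm z.1)) = e.symm z.1 := e''.left_inv h
  have hxe : e.symm z.1 ∈ e.source := e.map_target hz.1
  have hdiff : ∀ {f f' : OpenPartialHomeomorph S P2}, f ∈ atlas P2 S → f' ∈ atlas P2 S → ∀ {y : P2},
      y ∈ f'.target → f'.symm y ∈ f.source → DifferentiableAt ℝ (f ∘ f'.symm) y := by
    intro f f' hf hf' y hy hy'
    have hO : IsOpen (f'.target ∩ f'.symm ⁻¹' f.source) := f'.isOpen_inter_preimage_symm f.open_source
    exact ((trans_smooth hf hf').contDiffAt (hO.mem_nhds ⟨hy, hy'⟩)).differentiableAt (by simp)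
  have hτ : (e' ∘ e''.symm) (e'' (e.symm z.1)) = e' (e.symm z.1) := by
    show e' (e''.symm (e'' (e.symm z.1))) = _
    rw [hx'']
  have hd1 : DifferentiableAt ℝ (e' ∘ e''.symm) (e'' (e.symm z.1)) :=
    hdiff he' he'' (e''.map_source h) (by rw [hx'']; exact hz.2)
  have hd2 : DifferentiableAt ℝ (e ∘ e'.symm) ((e' ∘ e''.symm) (e'' (e.symm z.1))) := by
    rw [hτ]
    exact hdiff he he' (e'.map_source hz.2) (by rw [hx]; exact hxe)
  have hev : (e ∘ e''.symm) =ᶠ[𝓝 (e'' (e.symm z.1))] ((e ∘ e'.symm) ∘ (e' ∘ e''.symm)) := by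
    have hO : IsOpen (e''.target ∩ e''.symm ⁻¹' e'.source) := e''.isOpen_inter_preimage_symm e'.open_source
    filter_upwards [hO.mem_nhds ⟨e''.map_source h, by
      show e''.symm (e'' (e.symm z.1)) ∈ e'.source
      rw [hx'']; exact hz.2⟩] with y hy
    show e (e''.symm y) = e (e'.symm (e' (e''.symm y)))
    rw [e'.left_inv hy.2]
  refine Prod.ext ?_ ?_
  · show e'' (e'.symm (e' (e.symm z.1))) = e'' (e.symm z.1)
    rw [hx]
  · show (z.2 ∘L fderiv ℝ (e ∘ e'.symm) (e' (e.symm z.1))) ∘L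
        fderiv ℝ (e' ∘ e''.symm) (e'' (e'.symm (e' (e.symm z.1)))) = z.2 ∘L fderiv ℝ (e ∘ e''.symm) (e'' (e.symm z.1))
    rw [hx, hev.fderiv_eq, fderiv_comp _ hd2 hd1, hτ, ContinuousLinearMap.comp_assoc]

end Pool.Agent.Helper82.PE
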