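import Pool.Agent.Helper82.PE.Smooth

/-!
# The derivative of the Hamiltonian (module PE-3)
-/

set_option maxSynthPendingDepth 3

namespace Pool.Agent.Helper82.PE

open MeasureTheory Filter Topology Pool.Agent.Helper82.GS
open scoped ContDiff Manifold NNReal

variable {D : Set P2} {G : P2 → Bil}

/-- `d H (ζ) = ω (ζ, X_H)`.  Proof: write `v = velo G z`, so that `G z.1 v = z.2` near `z` (`PosDef.apply_inverse`).
Differentiate this identity in the direction `ζ`: `(D G ζ.1) v + G (D v ζ) = ζ.2`; evaluate at `v`: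
`z.2 (D v ζ) = G v (D v ζ) = G (D v ζ) v = ζ.2 v - (D G ζ.1) v v`.  Hence
`D H ζ = 1/2 (ζ.2 v + z.2 (D v ζ)) = ζ.2 v - 1/2 (D G ζ.1) v v = om ζ (hvec G z)`. -/
theorem fderiv_ham (hD : IsOpen D) (hG : ContDiffOn ℝ ∞ G D) (hpos : ∀ y ∈ D, PosDef (G y)) {z : Ph}
    (hz : z.1 ∈ D) (ζ : Ph) : fderiv ℝ (ham G) z ζ = om ζ (hvec G z) := by
  have hzn : D ×ˢ (Set.univ : Set Cov) ∈ 𝓝 z :=
    (hD.prod isOpen_univ).mem_nhds ⟨hz, Set.mem_univ _⟩
  have hv : DifferentiableAt ℝ (velo G) z :=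
    ((contDiffOn_velo hD hG hpos).contDiffAt hzn).differentiableAt (by simp)
  have hGd : DifferentiableAt ℝ G z.1 :=
    (hG.contDiffAt (hD.mem_nhds hz)).differentiableAt (by simp)
  have h1 : HasFDerivAt (fun y : Ph => G y.1)
      ((fderiv ℝ G z.1).comp (ContinuousLinearMap.fst ℝ P2 Cov)) z :=
    hGd.hasFDerivAt.comp z hasFDerivAt_fst
  have h2 := h1.clm_apply hv.hasFDerivAt
  have h3 : (fun y : Ph => (G y.1) (velo G y)) =ᶠ[𝓝 z] fun y : Ph => y.2 := by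
    filter_upwards [hzn] with y hy
    exact (hpos y.1 hy.1).apply_inverse y.2
  have h4 : HasFDerivAt (fun y : Ph => (G y.1) (velo G y)) (ContinuousLinearMap.snd ℝ P2 Cov) z :=
    (hasFDerivAt_snd (𝕜 := ℝ) (E := P2) (F := Cov) (p := z)).congr_of_eventuallyEq h3
  have h5 := h2.unique h4
  have h6 := congrArg (fun L : Ph →L[ℝ] Cov => L ζ (velo G z)) h5
  have h7 : (G z.1) (fderiv ℝ (velo G) z ζ) (velo G z) +
      (fderiv ℝ G z.1 ζ.1) (velo G z) (velo G z) = ζ.2 (velo G z) := h6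
  have h8 : (G z.1) (fderiv ℝ (velo G) z ζ) (velo G z) = z.2 (fderiv ℝ (velo G) z ζ) := by
    rw [(hpos z.1 hz).1]
    have : G z.1 (velo G z) = z.2 := (hpos z.1 hz).apply_inverse z.2
    rw [this]
  have h9 : HasFDerivAt (ham G) ((1 / 2 : ℝ) • ((z.2).comp (fderiv ℝ (velo G) z) +
      (ContinuousLinearMap.snd ℝ P2 Cov).flip (velo G z))) z :=
    ((hasFDerivAt_snd (𝕜 := ℝ) (E := P2) (F := Cov) (p := z)).clm_apply
      hv.hasFDerivAt).const_mul (1 / 2 : ℝ)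
  rw [h9.fderiv]
  have h10 : ((1 / 2 : ℝ) • ((z.2).comp (fderiv ℝ (velo G) z) +
      (ContinuousLinearMap.snd ℝ P2 Cov).flip (velo G z))) ζ =
      (1 / 2) * (z.2 (fderiv ℝ (velo G) z ζ) + ζ.2 (velo G z)) := rfl
  have h11 : om ζ (hvec G z) = ζ.2 (velo G z) -
      (1 / 2) * (fderiv ℝ G z.1 ζ.1) (velo G z) (velo G z) := rfl
  rw [h10, h11]
  linarith

end Pool.Agent.Helper82.PE
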