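import Pool.Agent.Helper82.PE.Smooth

/-!
# Homogeneity in the momentum (module PE-5)
-/

set_option maxSynthPendingDepth 3

namespace Pool.Agent.Helper82.PE

open MeasureTheory Filter Topology Pool.Agent.Helper82.GS
open scoped ContDiff Manifold NNReal

variable {D : Set P2} {G : P2 → Bil}

theorem velo_smul (G : P2 → Bil) (q : P2) (p : Cov) (c : ℝ) : velo G (q, c • p) = c • velo G (q, p) := by
  simp only [velo, map_smul]

theorem ham_smul (G : P2 → Bil) (q : P2) (p : Cov) (c : ℝ) : ham G (q, c • p) = c ^ 2 * ham G (q, p) := by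
  unfold ham
  rw [velo_smul]
  simp only [ContinuousLinearMap.smul_apply, map_smul, smul_eq_mul]
  ring

theorem hvec_smul (G : P2 → Bil) (q : P2) (p : Cov) (c : ℝ) :
    hvec G (q, c • p) = (c • (hvec G (q, p)).1, c ^ 2 • (hvec G (q, p)).2) := by
  unfold hvec
  rw [velo_smul]
  refine Prod.ext rfl ?_
  ext w
  simp only [ContinuousLinearMap.smul_apply, ContinuousLinearMap.flip_apply, map_smul, smul_eq_mul]
  ring

theorem om_radial (G : P2 → Bil) (z : Ph) : om (0, z.2) (hvec G z) = 2 * ham G z := by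
  unfold om hvec ham
  simp only [map_zero]
  ring

/-- The derivative of `hvec G` at `z` in the direction `(0, z.2)`: differentiate `hvec_smul` in `c` at `c = 1`
(`hvec G` is differentiable at `z` by `contDiffOn_hvec`). -/
theorem fderiv_hvec_radial (hD : IsOpen D) (hG : ContDiffOn ℝ ∞ G D) (hpos : ∀ y ∈ D, PosDef (G y)) {z : Ph}
    (hz : z.1 ∈ D) : fderiv ℝ (hvec G) z (0, z.2) = ((hvec G z).1, (2 : ℝ) • (hvec G z).2) := by
  have hopen : IsOpen (D ×ˢ (Set.univ : Set Cov)) := hD.prod isOpen_univ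
  have hmem : z ∈ D ×ˢ (Set.univ : Set Cov) := ⟨hz, Set.mem_univ _⟩
  have hdiff : DifferentiableAt ℝ (hvec G) z :=
    ((contDiffOn_hvec hD hG hpos).contDiffAt (hopen.mem_nhds hmem)).differentiableAt (by simp)
  have h1 : HasDerivAt (fun c : ℝ => ((z.1, c • z.2) : Ph)) (0, z.2) 1 := by
    have h2 : HasDerivAt (fun c : ℝ => c • z.2) z.2 1 := by
      simpa using (hasDerivAt_id (1 : ℝ)).smul_const z.2
    exact (hasDerivAt_const (1 : ℝ) z.1).prodMk h2
  have hz1 : ((z.1, (1 : ℝ) • z.2) : Ph) = z := by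
    rw [one_smul]
  have h3 : HasDerivAt (fun c : ℝ => hvec G (z.1, c • z.2)) (fderiv ℝ (hvec G) z (0, z.2)) 1 := by
    have h4 : HasFDerivAt (hvec G) (fderiv ℝ (hvec G) z) ((z.1, (1 : ℝ) • z.2) : Ph) := by
      rw [hz1]
      exact hdiff.hasFDerivAt
    exact h4.comp_hasDerivAt (1 : ℝ) h1
  have h5 : HasDerivAt (fun c : ℝ => ((c • (hvec G z).1, c ^ 2 • (hvec G z).2) : Ph))
      ((hvec G z).1, (2 : ℝ) • (hvec G z).2) 1 := by
    have h6 : HasDerivAt (fun c : ℝ => c • (hvec G z).1) (hvec G z).1 1 := by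
      simpa using (hasDerivAt_id (1 : ℝ)).smul_const (hvec G z).1
    have h7 : HasDerivAt (fun c : ℝ => c ^ 2 • (hvec G z).2) ((2 : ℝ) • (hvec G z).2) 1 := by
      have h8 : HasDerivAt (fun c : ℝ => c ^ 2) 2 1 := by
        simpa using hasDerivAt_pow 2 (1 : ℝ)
      exact h8.smul_const (hvec G z).2
    exact h6.prodMk h7
  have h9 : (fun c : ℝ => hvec G (z.1, c • z.2)) =
      fun c : ℝ => ((c • (hvec G z).1, c ^ 2 • (hvec G z).2) : Ph) := by
    funext c
    rw [hvec_smul]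
  rw [h9] at h3
  exact h3.unique h5

/-- The first component of `hvec G (q, p)` is linear in `p`. -/
theorem fderiv_hvec_vert_fst (hD : IsOpen D) (hG : ContDiffOn ℝ ∞ G D) (hpos : ∀ y ∈ D, PosDef (G y)) {z : Ph}
    (hz : z.1 ∈ D) (π : Cov) : (fderiv ℝ (hvec G) z (0, π)).1 = velo G (z.1, π) := by
  have hopen : IsOpen (D ×ˢ (Set.univ : Set Cov)) := hD.prod isOpen_univ
  have hmem : z ∈ D ×ˢ (Set.univ : Set Cov) := ⟨hz, Set.mem_univ _⟩
  have hdiff : DifferentiableAt ℝ (hvec G) z :=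
    ((contDiffOn_hvec hD hG hpos).contDiffAt (hopen.mem_nhds hmem)).differentiableAt (by simp)
  have h1 : HasDerivAt (fun t : ℝ => ((z.1, z.2 + t • π) : Ph)) (0, π) 0 := by
    have h2 : HasDerivAt (fun t : ℝ => z.2 + t • π) π 0 := by
      have h3 : HasDerivAt (fun t : ℝ => t • π) π 0 := by
        simpa using (hasDerivAt_id (0 : ℝ)).smul_const π
      exact h3.const_add z.2
    exact (hasDerivAt_const (0 : ℝ) z.1).prodMk h2
  have hz1 : ((z.1, z.2 + (0 : ℝ) • π) : Ph) = z := by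
    rw [zero_smul, add_zero]
  have h3 : HasDerivAt (fun t : ℝ => hvec G (z.1, z.2 + t • π)) (fderiv ℝ (hvec G) z (0, π)) 0 := by
    have h4 : HasFDerivAt (hvec G) (fderiv ℝ (hvec G) z) ((z.1, z.2 + (0 : ℝ) • π) : Ph) := by
      rw [hz1]
      exact hdiff.hasFDerivAt
    exact h4.comp_hasDerivAt (0 : ℝ) h1
  have h4 : HasDerivAt (fun t : ℝ => (hvec G (z.1, z.2 + t • π)).1)
      (fderiv ℝ (hvec G) z (0, π)).1 0 :=
    (hasFDerivAt_fst (𝕜 := ℝ) (E := P2) (F := Cov)).comp_hasDerivAt (0 : ℝ) h3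
  have h5 : (fun t : ℝ => (hvec G (z.1, z.2 + t • π)).1) =
      fun t : ℝ => velo G (z.1, z.2) + t • velo G (z.1, π) := by
    funext t
    simp only [hvec, velo, map_add, map_smul]
  have h6 : HasDerivAt (fun t : ℝ => velo G (z.1, z.2) + t • velo G (z.1, π))
      (velo G (z.1, π)) 0 := by
    have h7 : HasDerivAt (fun t : ℝ => t • velo G (z.1, π)) (velo G (z.1, π)) 0 := by
      simpa using (hasDerivAt_id (0 : ℝ)).smul_const (velo G (z.1, π))
    exact h7.const_add _
  rw [h5] at h4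
  exact h4.unique h6

end Pool.Agent.Helper82.PE
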