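import Pool.Agent.Helper82.PE.CtrSymp
import Pool.Agent.Helper82.PE.FHam
import Pool.Agent.Helper82.PE.Homog

/-!
# The change of charts and the Hamiltonian (module PE-12)
-/

set_option maxSynthPendingDepth 3

namespace Pool.Agent.Helper82.PE

open MeasureTheory Filter Topology Pool.Agent.Helper82.GS
open scoped ContDiff Manifold NNReal

variable {S : Type*} [TopologicalSpace S] [ChartedSpace P2 S] [IsManifold (modelWithCornersSelf ℝ P2) ∞ S]

private theorem fd_trans {e e' : OpenPartialHomeomorph S P2} (he : e ∈ atlas P2 S) (he' : e' ∈ atlas P2 S)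
    {x : S} (hx : x ∈ e.source) (hx' : x ∈ e'.source) (v : P2) :
    fderiv ℝ (e ∘ e'.symm) (e' x) (fderiv ℝ (e' ∘ e.symm) (e x) v) = v := by
  have hO1 : IsOpen (e'.target ∩ e'.symm ⁻¹' e.source) :=
    e'.isOpen_inter_preimage_symm e.open_source
  have hO2 : IsOpen (e.target ∩ e.symm ⁻¹' e'.source) :=
    e.isOpen_inter_preimage_symm e'.open_source
  have hΨ : ContDiffOn ℝ ∞ (e ∘ e'.symm) (e'.target ∩ e'.symm ⁻¹' e.source) := trans_smooth he he'
  have hΦ : ContDiffOn ℝ ∞ (e' ∘ e.symm) (e.target ∩ e.symm ⁻¹' e'.source) := trans_smooth he' he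
  have hy'O : e' x ∈ e'.target ∩ e'.symm ⁻¹' e.source := by
    refine ⟨e'.map_source hx', ?_⟩
    show e'.symm (e' x) ∈ e.source
    rw [e'.left_inv hx']
    exact hx
  have hyO : e x ∈ e.target ∩ e.symm ⁻¹' e'.source := by
    refine ⟨e.map_source hx, ?_⟩
    show e.symm (e x) ∈ e'.source
    rw [e.left_inv hx]
    exact hx'
  have hex : (e' ∘ e.symm) (e x) = e' x := by
    show e' (e.symm (e x)) = e' x
    rw [e.left_inv hx]
  have hΨd : DifferentiableAt ℝ (e ∘ e'.symm) ((e' ∘ e.symm) (e x)) := by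
    rw [hex]
    exact (hΨ.differentiableOn (by simp)).differentiableAt (hO1.mem_nhds hy'O)
  have hΦd : DifferentiableAt ℝ (e' ∘ e.symm) (e x) :=
    ((hΦ.differentiableOn (by simp)).differentiableAt (hO2.mem_nhds hyO))
  have h1 : fderiv ℝ ((e ∘ e'.symm) ∘ (e' ∘ e.symm)) (e x) =
      (fderiv ℝ (e ∘ e'.symm) ((e' ∘ e.symm) (e x))).comp (fderiv ℝ (e' ∘ e.symm) (e x)) :=
    fderiv_comp (e x) hΨd hΦd
  have h2 : ((e ∘ e'.symm) ∘ (e' ∘ e.symm)) =ᶠ[𝓝 (e x)] id := by
    filter_upwards [hO2.mem_nhds hyO] with z hz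
    show e (e'.symm (e' (e.symm z))) = z
    rw [e'.left_inv hz.2, e.right_inv hz.1]
  rw [h2.fderiv_eq, fderiv_id, hex] at h1
  have := DFunLike.congr_fun h1 v
  simpa using this.symm

/-- With `v = velo (g.comp e) z` and `τ = e' ∘ e.symm`, `σ = e ∘ e'.symm`: by `g.change`,
`g.comp e' (τ q) (Dτ v) w = g.comp e q v (Dσ w) = z.2 (Dσ w)`, so `velo (g.comp e') (ctr e e' z) = Dτ v` and
`(ctr e e' z).2 (Dτ v) = z.2 v`. -/
theorem ham_ctr (g : RMetric S) {e e' : OpenPartialHomeomorph S P2} (he : e ∈ atlas P2 S) (he' : e' ∈ atlas P2 S)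
    {z : Ph} (hz : z ∈ cdom e e') : ham (g.comp e') (ctr e e' z) = ham (g.comp e) z := by
  obtain ⟨x, hx⟩ : ∃ x, x = e.symm z.1 := ⟨_, rfl⟩
  have hxe : x ∈ e.source := by
    rw [hx]
    exact e.map_target hz.1
  have hxe' : x ∈ e'.source := by
    rw [hx]
    exact hz.2
  have hex : e x = z.1 := by
    rw [hx, e.right_inv hz.1]
  have hG := (g.posDef e he z.1 hz.1).apply_inverse z.2
  have hp' : PosDef (g.comp e' (e' x)) := g.posDef e' he' _ (e'.map_source hxe')
  obtain ⟨v, hv⟩ : ∃ v, v = velo (g.comp e) z := ⟨_, rfl⟩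
  have hGv : g.comp e z.1 v = z.2 := by
    rw [hv]
    exact hG
  have h1 : ctr e e' z = (e' x, z.2 ∘L fderiv ℝ (e ∘ e'.symm) (e' x)) := by
    rw [ctr, ← hx]
  have h2 : g.comp e' (e' x) (fderiv ℝ (e' ∘ e.symm) (e x) v) =
      z.2 ∘L fderiv ℝ (e ∘ e'.symm) (e' x) := by
    ext w
    have h3 := g.change e he e' he' x hxe hxe' v (fderiv ℝ (e ∘ e'.symm) (e' x) w)
    rw [fd_trans he' he hxe' hxe w, hex, hGv] at h3
    rw [hex]
    exact h3.symm
  have h4 : velo (g.comp e') (ctr e e' z) = fderiv ℝ (e' ∘ e.symm) (e x) v := by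
    rw [h1, velo]
    simp only
    rw [← h2, hp'.inverse_apply]
  rw [ham, ham, h4, ← hv, h1]
  simp only [ContinuousLinearMap.comp_apply]
  rw [fd_trans he he' hxe hxe' v]

/-- Proof: differentiate `ham_ctr` on the open set `cdom e e'`: for all `ζ`,
`om (D ctr ζ) (hvec' (ctr z)) = D ham' (D ctr ζ) = D ham ζ = om ζ (hvec z) = om (D ctr ζ) (D ctr (hvec z))` (`fderiv_ham`,
`om_ctr`), and `D ctr` is surjective (`fderiv_ctr_ctr` for `e', e` at `ctr e e' z`), conclude by `om_ext`. -/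
theorem fderiv_ctr_hvec (g : RMetric S) {e e' : OpenPartialHomeomorph S P2} (he : e ∈ atlas P2 S)
    (he' : e' ∈ atlas P2 S) {z : Ph} (hz : z ∈ cdom e e') :
    fderiv ℝ (ctr e e') z (hvec (g.comp e) z) = hvec (g.comp e') (ctr e e' z) := by
  have hz' : ctr e e' z ∈ cdom e' e := ctr_mem hz
  have hback : ctr e' e (ctr e e' z) = z := by
    rw [ctr_ctr he he' he hz (e.map_target hz.1), ctr_self hz.1]
  have hd1 : DifferentiableAt ℝ (ctr e e') z :=
    ((contDiffOn_ctr he he').differentiableOn (by simp)).differentiableAt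
      ((isOpen_cdom e e').mem_nhds hz)
  have hd2 : DifferentiableAt ℝ (ham (g.comp e')) (ctr e e' z) :=
    ((contDiffOn_ham e'.open_target (g.smooth e' he') (g.posDef e' he')).differentiableOn
      (by simp)).differentiableAt ((e'.open_target.prod isOpen_univ).mem_nhds ⟨hz'.1, trivial⟩)
  have hc : fderiv ℝ (ham (g.comp e)) z =
      (fderiv ℝ (ham (g.comp e')) (ctr e e' z)).comp (fderiv ℝ (ctr e e') z) := by
    rw [← fderiv_comp z hd2 hd1]
    refine Filter.EventuallyEq.fderiv_eq ?_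
    filter_upwards [(isOpen_cdom e e').mem_nhds hz] with w hw
    exact (ham_ctr g he he' hw).symm
  refine om_ext fun η => ?_
  obtain ⟨ζ, hζ⟩ : ∃ ζ, fderiv ℝ (ctr e e') z ζ = η := by
    refine ⟨fderiv ℝ (ctr e' e) (ctr e e' z) η, ?_⟩
    have h1 := fderiv_ctr_ctr he' he hz' η
    rwa [hback] at h1
  rw [← hζ, om_ctr he he' hz, ← fderiv_ham e.open_target (g.smooth e he) (g.posDef e he) hz.1 ζ,
    ← fderiv_ham e'.open_target (g.smooth e' he') (g.posDef e' he') hz'.1, hc]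
  rfl

/-- Differentiate `ctr_smul` in `c` at `c = 1`. -/
theorem fderiv_ctr_radial {e e' : OpenPartialHomeomorph S P2} (he : e ∈ atlas P2 S) (he' : e' ∈ atlas P2 S)
    {z : Ph} (hz : z ∈ cdom e e') : fderiv ℝ (ctr e e') z (0, z.2) = (0, (ctr e e' z).2) := by
  have hd1 : DifferentiableAt ℝ (ctr e e') z :=
    ((contDiffOn_ctr he he').differentiableOn (by simp)).differentiableAt
      ((isOpen_cdom e e').mem_nhds hz)
  have hpath : HasDerivAt (fun c : ℝ => ((z.1, c • z.2) : Ph)) (0, z.2) 1 := by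
    have h1 : HasDerivAt (fun c : ℝ => c • z.2) ((1 : ℝ) • z.2) 1 :=
      (hasDerivAt_id (1 : ℝ)).smul_const z.2
    rw [one_smul] at h1
    exact (hasDerivAt_const (1 : ℝ) z.1).prodMk h1
  have hz1 : ((z.1, (1 : ℝ) • z.2) : Ph) = z := by
    rw [one_smul]
  have hA : HasDerivAt (fun c : ℝ => ctr e e' (z.1, c • z.2)) (fderiv ℝ (ctr e e') z (0, z.2)) 1 := by
    have h2 : HasFDerivAt (ctr e e') (fderiv ℝ (ctr e e') z) ((z.1, (1 : ℝ) • z.2) : Ph) := by
      rw [hz1]
      exact hd1.hasFDerivAt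
    exact h2.comp_hasDerivAt (1 : ℝ) hpath
  have hB : HasDerivAt (fun c : ℝ => ctr e e' (z.1, c • z.2)) (0, (ctr e e' z).2) 1 := by
    have h1 : HasDerivAt (fun c : ℝ => c • (ctr e e' z).2) ((1 : ℝ) • (ctr e e' z).2) 1 :=
      (hasDerivAt_id (1 : ℝ)).smul_const _
    rw [one_smul] at h1
    have h3 := (hasDerivAt_const (1 : ℝ) (ctr e e' z).1).prodMk h1
    refine h3.congr_of_eventuallyEq (Filter.Eventually.of_forall fun c => ?_)
    have h4 := ctr_smul e e' z.1 z.2 c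
    simpa using h4
  exact hA.unique hB

end Pool.Agent.Helper82.PE
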