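import Pool.Agent.Helper82.PE.Ctr

/-!
# The change of charts is symplectic (module PE-11)
-/

set_option maxSynthPendingDepth 3

namespace Pool.Agent.Helper82.PE

open MeasureTheory Filter Topology Pool.Agent.Helper82.GS
open scoped ContDiff Manifold NNReal

variable {S : Type*} [TopologicalSpace S] [ChartedSpace P2 S] [IsManifold (modelWithCornersSelf ℝ P2) ∞ S]

/-- The transition maps are smooth at the points of their domain. -/
theorem contDiffAt_trans {e e' : OpenPartialHomeomorph S P2} (he : e ∈ atlas P2 S) (he' : e' ∈ atlas P2 S) {y : P2}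
    (hy : y ∈ e'.target) (hy' : e'.symm y ∈ e.source) : ContDiffAt ℝ ∞ (e ∘ e'.symm) y :=
  (trans_smooth he he').contDiffAt ((e'.isOpen_inter_preimage_symm e.open_source).mem_nhds ⟨hy, hy'⟩)

/-- The derivative of the transition maps, chain rule. -/
theorem fderiv_trans_comp {e e' : OpenPartialHomeomorph S P2} (he : e ∈ atlas P2 S) (he' : e' ∈ atlas P2 S) {q : P2}
    (hq : q ∈ e.target) (hq' : e.symm q ∈ e'.source) :
    (fderiv ℝ (e ∘ e'.symm) (e' (e.symm q))) ∘L (fderiv ℝ (e' ∘ e.symm) q) = ContinuousLinearMap.id ℝ P2 := by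
  have hx : e'.symm (e' (e.symm q)) = e.symm q := e'.left_inv hq'
  have h1 : DifferentiableAt ℝ (e' ∘ e.symm) q := (contDiffAt_trans he' he hq hq').differentiableAt (by simp)
  have h2 : DifferentiableAt ℝ (e ∘ e'.symm) ((e' ∘ e.symm) q) :=
    (contDiffAt_trans he he' (e'.map_source hq') (by rw [hx]; exact e.map_target hq)).differentiableAt (by simp)
  have h3 : ((e ∘ e'.symm) ∘ (e' ∘ e.symm)) =ᶠ[𝓝 q] id := by
    filter_upwards [(e.isOpen_inter_preimage_symm e'.open_source).mem_nhds ⟨hq, hq'⟩] with y hy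
    show e (e'.symm (e' (e.symm y))) = y
    rw [e'.left_inv hy.2, e.right_inv hy.1]
  have h4 := fderiv_comp q h2 h1
  rw [h3.fderiv_eq, fderiv_id] at h4
  exact h4.symm

/-- The derivative of the change of charts. -/
theorem fderiv_ctr_apply {e e' : OpenPartialHomeomorph S P2} (he : e ∈ atlas P2 S) (he' : e' ∈ atlas P2 S) {z : Ph}
    (hz : z ∈ cdom e e') (ζ : Ph) :
    fderiv ℝ (ctr e e') z ζ = (fderiv ℝ (e' ∘ e.symm) z.1 ζ.1,
      z.2 ∘L (fderiv ℝ (fderiv ℝ (e ∘ e'.symm)) (e' (e.symm z.1)) (fderiv ℝ (e' ∘ e.symm) z.1 ζ.1)) +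
        ζ.2 ∘L (fderiv ℝ (e ∘ e'.symm) (e' (e.symm z.1)))) := by
  have hx : e'.symm (e' (e.symm z.1)) = e.symm z.1 := e'.left_inv hz.2
  have h1 : HasFDerivAt (e' ∘ e.symm) (fderiv ℝ (e' ∘ e.symm) z.1) z.1 :=
    ((contDiffAt_trans he' he hz.1 hz.2).differentiableAt (by simp)).hasFDerivAt
  have h2 : ContDiffAt ℝ ∞ (e ∘ e'.symm) (e' (e.symm z.1)) :=
    contDiffAt_trans he he' (e'.map_source hz.2) (by rw [hx]; exact e.map_target hz.1)
  have h3 : HasFDerivAt (fderiv ℝ (e ∘ e'.symm)) (fderiv ℝ (fderiv ℝ (e ∘ e'.symm)) (e' (e.symm z.1)))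
      (e' (e.symm z.1)) :=
    ((h2.fderiv_right (m := ∞) (by simp)).differentiableAt (by simp)).hasFDerivAt
  have h4 : HasFDerivAt (fun w : Ph => (e' ∘ e.symm) w.1)
      ((fderiv ℝ (e' ∘ e.symm) z.1) ∘L (ContinuousLinearMap.fst ℝ P2 Cov)) z :=
    HasFDerivAt.comp z (by exact h1) hasFDerivAt_fst
  have h5 : HasFDerivAt (fun w : Ph => fderiv ℝ (e ∘ e'.symm) ((e' ∘ e.symm) w.1))
      ((fderiv ℝ (fderiv ℝ (e ∘ e'.symm)) (e' (e.symm z.1))) ∘L
        ((fderiv ℝ (e' ∘ e.symm) z.1) ∘L (ContinuousLinearMap.fst ℝ P2 Cov))) z :=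
    HasFDerivAt.comp z (by exact h3) h4
  have h6 : HasFDerivAt (fun w : Ph => w.2) (ContinuousLinearMap.snd ℝ P2 Cov) z := hasFDerivAt_snd
  have h7 := h4.prodMk (h6.clm_comp h5)
  have h8 : fderiv ℝ (ctr e e') z = _ := h7.fderiv
  rw [h8]
  rfl

/-- Proof: write `τ = e' ∘ e.symm` near `z.1`, `σ = e ∘ e'.symm` near `τ z.1`, so `ctr e e' z = (τ q, p ∘ Dσ (τ q))`.
Derivative in the direction `ζ = (Y, P)`: `(Dτ Y, P ∘ Dσ + p ∘ D²σ (Dτ Y, ·))`.  Then for `η = (Z, Q)`: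
`om (D ctr ζ) (D ctr η) = P (Dσ Dτ Z) + p (D²σ (Dτ Y, Dτ Z)) - Q (Dσ Dτ Y) - p (D²σ (Dτ Z, Dτ Y)) = P Z - Q Y`,
by the symmetry of the second derivative and `Dσ (τ q) ∘ Dτ q = id`. -/
theorem om_ctr {e e' : OpenPartialHomeomorph S P2} (he : e ∈ atlas P2 S) (he' : e' ∈ atlas P2 S) {z : Ph}
    (hz : z ∈ cdom e e') (ζ η : Ph) :
    om (fderiv ℝ (ctr e e') z ζ) (fderiv ℝ (ctr e e') z η) = om ζ η := by
  have hx : e'.symm (e' (e.symm z.1)) = e.symm z.1 := e'.left_inv hz.2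
  have h2 : ContDiffAt ℝ ∞ (e ∘ e'.symm) (e' (e.symm z.1)) :=
    contDiffAt_trans he he' (e'.map_source hz.2) (by rw [hx]; exact e.map_target hz.1)
  have hsym : IsSymmSndFDerivAt ℝ (e ∘ e'.symm) (e' (e.symm z.1)) :=
    h2.isSymmSndFDerivAt (by
      rw [minSmoothness_of_isRCLikeNormedField]
      norm_cast)
  have hid := fderiv_trans_comp he he' hz.1 hz.2
  have hid' : ∀ v : P2, fderiv ℝ (e ∘ e'.symm) (e' (e.symm z.1)) (fderiv ℝ (e' ∘ e.symm) z.1 v) = v := by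
    intro v
    have := congrArg (fun L : P2 →L[ℝ] P2 => L v) hid
    simpa using this
  rw [fderiv_ctr_apply he he' hz, fderiv_ctr_apply he he' hz]
  simp only [om, add_apply, ContinuousLinearMap.comp_apply, hid']
  rw [hsym.eq (fderiv ℝ (e' ∘ e.symm) z.1 ζ.1) (fderiv ℝ (e' ∘ e.symm) z.1 η.1)]
  ring

/-- Chain rule for `ctr e' e ∘ ctr e e' = id` on `cdom e e'` (`ctr_ctr`, `ctr_self`). -/
theorem fderiv_ctr_ctr {e e' : OpenPartialHomeomorph S P2} (he : e ∈ atlas P2 S) (he' : e' ∈ atlas P2 S) {z : Ph}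
    (hz : z ∈ cdom e e') (ζ : Ph) :
    fderiv ℝ (ctr e' e) (ctr e e' z) (fderiv ℝ (ctr e e') z ζ) = ζ := by
  have h1 : DifferentiableAt ℝ (ctr e e') z :=
    ((contDiffOn_ctr he he').contDiffAt ((isOpen_cdom e e').mem_nhds hz)).differentiableAt (by simp)
  have h2 : DifferentiableAt ℝ (ctr e' e) (ctr e e' z) :=
    ((contDiffOn_ctr he' he).contDiffAt ((isOpen_cdom e' e).mem_nhds (ctr_mem hz))).differentiableAt (by simp)
  have h3 : (ctr e' e ∘ ctr e e') =ᶠ[𝓝 z] id := by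
    filter_upwards [(isOpen_cdom e e').mem_nhds hz] with w hw
    show ctr e' e (ctr e e' w) = w
    rw [ctr_ctr he he' he hw (e.map_target hw.1), ctr_self hw.1]
  have h4 := fderiv_comp z h2 h1
  rw [h3.fderiv_eq, fderiv_id] at h4
  have := congrArg (fun L : Ph →L[ℝ] Ph => L ζ) h4
  simpa using this.symm

end Pool.Agent.Helper82.PE
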