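import Pool.Agent.Helper82.PE.Glue
import Pool.Agent.Helper82.PE.Homog
import Pool.Agent.Helper82.PE.CtrHam

/-!
# Energy, rescaling, and back to geodesics (module PE-17)
-/

set_option maxSynthPendingDepth 3

namespace Pool.Agent.Helper82.PE

open MeasureTheory Filter Topology Pool.Agent.Helper82.GS
open scoped ContDiff Manifold NNReal

variable {S : Type*} [TopologicalSpace S] [ChartedSpace P2 S] [IsManifold (modelWithCornersSelf ℝ P2) ∞ S]

/-- `ham_ctr` and `ctr_crd`. -/
theorem ham_crd (g : RMetric S) {e : OpenPartialHomeomorph S P2} (he : e ∈ atlas P2 S) {x : S × Cov}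
    (h : x.1 ∈ e.source) : ham (g.comp e) (crd e x) = energy g x := by
  have hc : chartAt P2 x.1 ∈ atlas P2 S := chart_mem_atlas P2 x.1
  have hx : x.1 ∈ (chartAt P2 x.1).source := mem_chart_source P2 x.1
  unfold energy
  rw [← ctr_crd hc he hx h]
  exact ham_ctr g hc he (crd_mem_cdom hx h)

theorem energy_smul (g : RMetric S) (x : S) (p : Cov) (c : ℝ) : energy g (x, c • p) = c ^ 2 * energy g (x, p) := by
  unfold energy
  rw [crd_smul, ham_smul]

omit [IsManifold (modelWithCornersSelf ℝ P2) ∞ S] in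
theorem en_isOpen (e : OpenPartialHomeomorph S P2) : IsOpen (e.target ×ˢ (Set.univ : Set Cov)) :=
  e.open_target.prod isOpen_univ

omit [IsManifold (modelWithCornersSelf ℝ P2) ∞ S] in
theorem en_mem {e : OpenPartialHomeomorph S P2} {x : S × Cov} (h : x.1 ∈ e.source) :
    crd e x ∈ e.target ×ˢ (Set.univ : Set Cov) := by
  refine ⟨?_, Set.mem_univ _⟩
  rw [crd_fst]
  exact e.map_source h

omit [IsManifold (modelWithCornersSelf ℝ P2) ∞ S] in
theorem en_mem_fst {e : OpenPartialHomeomorph S P2} {x : S × Cov} (h : x.1 ∈ e.source) :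
    (crd e x).1 ∈ e.target := (en_mem h).1

/-- The derivative of the energy vanishes. -/
theorem en_deriv {g : RMetric S} {ψ : ℝ → S × Cov} {I : Set ℝ} (h : IsSol g ψ I) {t : ℝ} (ht : t ∈ I) :
    HasDerivWithinAt (fun s => energy g (ψ s)) 0 I t := by
  set e := chartAt P2 (ψ t).1 with he'
  have he : e ∈ atlas P2 S := chart_mem_atlas P2 (ψ t).1
  have hx : (ψ t).1 ∈ e.source := mem_chart_source P2 (ψ t).1
  have h1 := h.2 e he t ht hx
  have hd : DifferentiableAt ℝ (ham (g.comp e)) (crd e (ψ t)) :=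
    ((contDiffOn_ham e.open_target (g.smooth e he) (g.posDef e he)).contDiffAt
      ((en_isOpen e).mem_nhds (en_mem hx))).differentiableAt (by simp)
  have hF : HasFDerivAt (ham (g.comp e)) (fderiv ℝ (ham (g.comp e)) (crd e (ψ t)))
      ((fun s => crd e (ψ s)) t) := hd.hasFDerivAt
  have h2' := HasFDerivAt.comp_hasDerivWithinAt t hF h1
  have h2 : HasDerivWithinAt (fun s => ham (g.comp e) (crd e (ψ s)))
      (fderiv ℝ (ham (g.comp e)) (crd e (ψ t)) (hvec (g.comp e) (crd e (ψ t)))) I t := h2'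
  rw [fderiv_ham e.open_target (g.smooth e he) (g.posDef e he) (en_mem_fst hx), om_self] at h2
  refine h2.congr_of_eventuallyEq ?_ (ham_crd g he hx).symm
  have h3 : ∀ᶠ s in 𝓝[I] t, (ψ s).1 ∈ e.source :=
    (h.1 t ht).eventually (e.open_source.mem_nhds hx)
  filter_upwards [h3] with s hs
  exact (ham_crd g he hs).symm

/-- The energy is constant: near each time it is `ham (g.comp e) (crd e (ψ t))`, whose derivative within `I` is
`om (hvec ..) (hvec ..) = 0` (`fderiv_ham`, `om_self`). -/
theorem IsSol.energy_eq {g : RMetric S} {ψ : ℝ → S × Cov} {a b : ℝ} (hab : a ≤ b)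
    (h : IsSol g ψ (Set.Icc a b)) : energy g (ψ b) = energy g (ψ a) := by
  have h1 : ContinuousOn (fun s => energy g (ψ s)) (Set.Icc a b) := fun t ht =>
    (en_deriv h ht).continuousWithinAt
  have h2 : ∀ t ∈ Set.Ico a b, HasDerivWithinAt (fun s => energy g (ψ s)) 0 (Set.Ici t) t := by
    intro t ht
    exact (en_deriv h (Set.Ico_subset_Icc_self ht)).mono_of_mem_nhdsWithin
      (Icc_mem_nhdsGE_of_mem ht)
  exact constant_of_has_deriv_right_zero h1 h2 b ⟨hab, le_refl b⟩

omit [IsManifold (modelWithCornersSelf ℝ P2) ∞ S] in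
theorem en_mono {g : RMetric S} {ψ : ℝ → S × Cov} {I J : Set ℝ} (h : IsSol g ψ I) (hJ : J ⊆ I) :
    IsSol g ψ J :=
  ⟨h.1.mono hJ, fun e he t ht hx => (h.2 e he t (hJ ht) hx).mono hJ⟩

theorem IsSol.energy_eq_univ {g : RMetric S} {ψ : ℝ → S × Cov} (h : IsSol g ψ Set.univ) (s t : ℝ) :
    energy g (ψ s) = energy g (ψ t) := by
  rcases le_total s t with hst | hst
  · exact (IsSol.energy_eq hst (en_mono h (Set.subset_univ _))).symm
  · exact IsSol.energy_eq hst (en_mono h (Set.subset_univ _))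

/-- `crd_smul`, `hvec_smul` and the chain rule. -/
theorem IsSol.rescale {g : RMetric S} {ψ : ℝ → S × Cov} (h : IsSol g ψ Set.univ) (c : ℝ) :
    IsSol g (fun t => ((ψ (c * t)).1, c • (ψ (c * t)).2)) Set.univ := by
  refine ⟨?_, ?_⟩
  · have h1 : Continuous (fun t => (ψ t).1) := continuousOn_univ.1 h.1
    exact (h1.comp (continuous_const.mul continuous_id)).continuousOn
  · intro e he t _ hx
    have hx' : (ψ (c * t)).1 ∈ e.source := hx
    have h1 : HasDerivAt (fun s => crd e (ψ s)) (hvec (g.comp e) (crd e (ψ (c * t)))) (c * t) :=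
      (h.2 e he (c * t) (Set.mem_univ _) hx').hasDerivAt (by simp)
    have h2 : HasDerivAt (fun s : ℝ => c * s) c t := by
      simpa using (hasDerivAt_id t).const_mul c
    have h3 : HasDerivAt (fun s => crd e (ψ (c * s))) (c • hvec (g.comp e) (crd e (ψ (c * t)))) t :=
      h1.scomp t h2
    rw [hasDerivWithinAt_univ]
    have e1 : ∀ s, crd e ((ψ (c * s)).1, c • (ψ (c * s)).2) =
        ((crd e (ψ (c * s))).1, c • (crd e (ψ (c * s))).2) := fun s =>
      crd_smul e (ψ (c * s)).1 (ψ (c * s)).2 c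
    have e2 : (fun s => crd e ((ψ (c * s)).1, c • (ψ (c * s)).2)) =
        fun s => ((crd e (ψ (c * s))).1, c • (crd e (ψ (c * s))).2) := funext e1
    show HasDerivAt (fun s => crd e ((ψ (c * s)).1, c • (ψ (c * s)).2))
      (hvec (g.comp e) (crd e ((ψ (c * t)).1, c • (ψ (c * t)).2))) t
    rw [e2, e1, hvec_smul]
    have h4 := hasDerivWithinAt_fst (hasDerivWithinAt_univ.2 h3)
    have h5 := (hasDerivWithinAt_snd (hasDerivWithinAt_univ.2 h3)).const_smul c
    rw [hasDerivWithinAt_univ] at h4 h5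
    have h6 := h4.prodMk h5
    refine h6.congr_deriv ?_
    rw [Prod.smul_fst, Prod.smul_snd, smul_smul, ← pow_two]

theorem en_hasDerivAt {g : RMetric S} {ψ : ℝ → S × Cov} (h : IsSol g ψ Set.univ)
    {e : OpenPartialHomeomorph S P2} (he : e ∈ atlas P2 S) {t : ℝ} (ht : (ψ t).1 ∈ e.source) :
    HasDerivAt (fun s => crd e (ψ s)) (hvec (g.comp e) (crd e (ψ t))) t :=
  (h.2 e he t (Set.mem_univ _) ht).hasDerivAt (by simp)

theorem en_hasDerivAt_fst {g : RMetric S} {ψ : ℝ → S × Cov} (h : IsSol g ψ Set.univ)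
    {e : OpenPartialHomeomorph S P2} (he : e ∈ atlas P2 S) {t : ℝ} (ht : (ψ t).1 ∈ e.source) :
    HasDerivAt (e ∘ fun s => (ψ s).1) (velo (g.comp e) (crd e (ψ t))) t := by
  have h1 := hasDerivWithinAt_fst (hasDerivWithinAt_univ.2 (en_hasDerivAt h he ht))
  rw [hasDerivWithinAt_univ] at h1
  have e1 : (e ∘ fun s => (ψ s).1) = fun s => (crd e (ψ s)).1 := by
    funext s
    rw [crd_fst]
    rfl
  rw [e1]
  exact h1

theorem deriv_of_isSol {g : RMetric S} {ψ : ℝ → S × Cov} (h : IsSol g ψ Set.univ)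
    {e : OpenPartialHomeomorph S P2} (he : e ∈ atlas P2 S) {t : ℝ} (ht : (ψ t).1 ∈ e.source) :
    deriv (e ∘ fun t => (ψ t).1) t = velo (g.comp e) (crd e (ψ t)) :=
  (en_hasDerivAt_fst h he ht).deriv

/-- The projection of a solution with energy `1/2` is a unit speed geodesic.  In a chart `e`: `c = e ∘ γ` has derivative
`v = velo (g.comp e) (z t)`, `z = crd e ∘ ψ` near `t`, which is of class `C¹` since `z` is; so `c` is of class `C²`;
`g.comp e c v = z.2`, `g.comp e c v v = 2 * ham = 1`; differentiating `g.comp e (c t) (v t) w = (z t).2 w` gives the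
Euler-Lagrange equation. -/
theorem isGeodesic_of_isSol {g : RMetric S} {ψ : ℝ → S × Cov} (h : IsSol g ψ Set.univ)
    (hE : ∀ t, energy g (ψ t) = 1 / 2) : IsGeodesic g (fun t => (ψ t).1) := by
  have hγ : Continuous (fun t => (ψ t).1) := continuousOn_univ.1 h.1
  refine ⟨hγ, ?_⟩
  intro e he t ht
  have ht' : (ψ t).1 ∈ e.source := ht
  set O : Set ℝ := (fun t => (ψ t).1) ⁻¹' e.source with hO
  have hOo : IsOpen O := e.open_source.preimage hγ
  have htO : t ∈ O := ht'
  set z : ℝ → Ph := fun s => crd e (ψ s) with hz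
  set G := g.comp e with hG
  have hGs : ContDiffOn ℝ ∞ G e.target := g.smooth e he
  have hGp : ∀ y ∈ e.target, PosDef (G y) := g.posDef e he
  have hzd : ∀ s ∈ O, HasDerivAt z (hvec G (z s)) s := fun s hs => en_hasDerivAt h he hs
  have hzm : ∀ s ∈ O, z s ∈ e.target ×ˢ (Set.univ : Set Cov) := fun s hs => en_mem hs
  have hhv := contDiffOn_hvec e.open_target hGs hGp
  have hzdiff : DifferentiableOn ℝ z O := fun s hs => (hzd s hs).differentiableAt.differentiableWithinAt
  have hzder : ∀ s ∈ O, deriv z s = hvec G (z s) := fun s hs => (hzd s hs).deriv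
  have hz0 : ContDiffOn ℝ 0 z O := contDiffOn_zero.2 hzdiff.continuousOn
  have step : ∀ n : ℕ, ContDiffOn ℝ n z O → ContDiffOn ℝ (n + 1) z O := by
    intro n hn
    rw [contDiffOn_succ_iff_deriv_of_isOpen hOo]
    refine ⟨hzdiff, fun hω => absurd hω (by simp), ?_⟩
    have h1 : ContDiffOn ℝ n (fun s => hvec G (z s)) O :=
      (hhv.of_le (by exact_mod_cast le_top)).comp hn hzm
    exact h1.congr hzder
  have hz2 : ContDiffOn ℝ 2 z O := by
    have h1 := step 1 (by simpa using step 0 (by simpa using hz0))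
    have e2 : ((1 : ℕ) : WithTop ℕ∞) + 1 = 2 := by norm_num
    rwa [e2] at h1
  have hc2 : ContDiffAt ℝ 2 (e ∘ fun s => (ψ s).1) t := by
    have h1 : ContDiffAt ℝ 2 z t := hz2.contDiffAt (hOo.mem_nhds htO)
    have e1 : (e ∘ fun s => (ψ s).1) = fun s => (z s).1 := by
      funext s
      rw [hz]
      simp only
      rw [crd_fst]
      rfl
    rw [e1]
    exact contDiffAt_fst.comp t h1
  set c : ℝ → P2 := e ∘ fun s => (ψ s).1 with hc
  have hcz : ∀ s, (z s).1 = c s := fun s => crd_fst e (ψ s)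
  have hcd : ∀ s ∈ O, HasDerivAt c (velo G (z s)) s := fun s hs => en_hasDerivAt_fst h he hs
  have hc' : ∀ s ∈ O, deriv c s = velo G (z s) := fun s hs => (hcd s hs).deriv
  have hGv : ∀ s ∈ O, G (c s) (deriv c s) = (z s).2 := by
    intro s hs
    rw [hc' s hs, ← hcz]
    exact (hGp _ (hzm s hs).1).apply_inverse _
  refine ⟨hc2, ?_, ?_⟩
  · show G (c t) (deriv c t) (deriv c t) = 1
    rw [hGv t htO, hc' t htO]
    have h1 : ham G (z t) = 1 / 2 := (ham_crd g he ht').trans (hE t)
    unfold ham at h1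
    linarith
  · intro w
    show G (c t) (deriv (deriv c) t) w + fderiv ℝ G (c t) (deriv c t) (deriv c t) w =
      (1 / 2) * fderiv ℝ G (c t) w (deriv c t) (deriv c t)
    have hct : c t ∈ e.target := e.map_source ht'
    have hGd : HasFDerivAt G (fderiv ℝ G (c t)) (c t) :=
      ((hGs.contDiffAt (e.open_target.mem_nhds hct)).differentiableAt (by simp)).hasFDerivAt
    have h1 : HasDerivAt (fun s => G (c s)) (fderiv ℝ G (c t) (deriv c t)) t := by
      have h2 := hGd.comp_hasDerivAt t (hcd t htO)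
      rw [hc' t htO]
      exact h2
    have hdd : HasDerivAt (deriv c) (deriv (deriv c) t) t := by
      have h3 : ContDiffAt ℝ (1 + 1) c t := by
        have e2 : (1 : WithTop ℕ∞) + 1 = 2 := by norm_num
        rw [e2]
        exact hc2
      have h4 : ContDiffAt ℝ 1 (deriv c) t := by
        have h5 := (contDiffAt_succ_iff_hasFDerivAt (n := 1)).1 (by exact_mod_cast h3)
        obtain ⟨f', ⟨u, hu, hf'⟩, hf'1⟩ := h5
        have h6 : ContDiffAt ℝ 1 (fun s => f' s 1) t := hf'1.clm_apply contDiffAt_const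
        refine h6.congr_of_eventuallyEq ?_
        filter_upwards [hu] with s hs
        exact (hf' s hs).hasDerivAt.deriv
      exact (h4.differentiableAt (by norm_num)).hasDerivAt
    have h7 : HasDerivAt (fun s => G (c s) (deriv c s))
        (fderiv ℝ G (c t) (deriv c t) (deriv c t) + G (c t) (deriv (deriv c) t)) t :=
      h1.clm_apply hdd
    have h8 : HasDerivAt (fun s => G (c s) (deriv c s)) (hvec G (z t)).2 t := by
      have h9 := hasDerivWithinAt_snd (hasDerivWithinAt_univ.2 (hzd t htO))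
      rw [hasDerivWithinAt_univ] at h9
      refine h9.congr_of_eventuallyEq ?_
      filter_upwards [hOo.mem_nhds htO] with s hs
      exact hGv s hs
    have h10 := h7.unique h8
    have h11 := congrArg (fun L : Cov => L w) h10
    simp only [add_apply] at h11
    have h12 : (hvec G (z t)).2 w = (1 / 2) * fderiv ℝ G (c t) w (deriv c t) (deriv c t) := by
      rw [hc' t htO, ← hcz]
      simp [hvec]
    rw [h12] at h11
    linarith

end Pool.Agent.Helper82.PE
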