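import Pool.Agent.Helper82.PE.FHam

/-!
# The derivative of the Hamiltonian vector field (module PE-4)
-/

set_option maxSynthPendingDepth 3

namespace Pool.Agent.Helper82.PE

open MeasureTheory Filter Topology Pool.Agent.Helper82.GS
open scoped ContDiff Manifold NNReal

variable {D : Set P2} {G : P2 → Bil}

/-- The symplectic form with a fixed first argument, as a continuous linear map. -/
private noncomputable def omR (ζ : Ph) : Ph →L[ℝ] ℝ :=
  LinearMap.mkContinuous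
    { toFun := fun w => om ζ w
      map_add' := fun w w' => om_add_right ζ w w'
      map_smul' := fun c w => om_smul_right c ζ w } (2 * ‖ζ‖)
    (fun w => by rw [Real.norm_eq_abs]; exact om_bound ζ w)

private theorem omR_apply (ζ w : Ph) : omR ζ w = om ζ w := rfl

private theorem nhds_mem (hD : IsOpen D) {z : Ph} (hz : z.1 ∈ D) :
    D ×ˢ (Set.univ : Set Cov) ∈ 𝓝 z :=
  (hD.prod isOpen_univ).mem_nhds ⟨hz, trivial⟩

/-- Differentiate the identity `fderiv_ham` (valid on the open set `D ×ˢ univ`) in the direction `η`. -/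
theorem fderiv2_ham (hD : IsOpen D) (hG : ContDiffOn ℝ ∞ G D) (hpos : ∀ y ∈ D, PosDef (G y)) {z : Ph}
    (hz : z.1 ∈ D) (η ζ : Ph) :
    fderiv ℝ (fderiv ℝ (ham G)) z η ζ = om ζ (fderiv ℝ (hvec G) z η) := by
  have h1 : ContDiffAt ℝ ∞ (ham G) z := (contDiffOn_ham hD hG hpos).contDiffAt (nhds_mem hD hz)
  have h2 : ContDiffAt ℝ ∞ (hvec G) z := (contDiffOn_hvec hD hG hpos).contDiffAt (nhds_mem hD hz)
  have h3 : DifferentiableAt ℝ (fderiv ℝ (ham G)) z :=
    (h1.fderiv_right (m := 1) (by norm_cast)).differentiableAt (by norm_num)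
  have h4 : DifferentiableAt ℝ (hvec G) z := h2.differentiableAt (by norm_num)
  have h5 : (fun w => fderiv ℝ (ham G) w ζ) =ᶠ[𝓝 z] fun w => omR ζ (hvec G w) := by
    filter_upwards [nhds_mem hD hz] with w hw
    rw [omR_apply]
    exact fderiv_ham hD hG hpos hw.1 ζ
  have h6 : fderiv ℝ (fun w => fderiv ℝ (ham G) w ζ) z η = fderiv ℝ (fderiv ℝ (ham G)) z η ζ := by
    rw [fderiv_clm_apply h3 (differentiableAt_const ζ)]
    simp
  have h7 : fderiv ℝ (fun w => omR ζ (hvec G w)) z = (omR ζ).comp (fderiv ℝ (hvec G) z) :=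
    ((omR ζ).hasFDerivAt.comp z h4.hasFDerivAt).fderiv
  rw [← h6, h5.fderiv_eq, h7]
  rfl

/-- Symmetry of the second derivative. -/
theorem fderiv2_ham_symm (hD : IsOpen D) (hG : ContDiffOn ℝ ∞ G D) (hpos : ∀ y ∈ D, PosDef (G y)) {z : Ph}
    (hz : z.1 ∈ D) (η ζ : Ph) :
    fderiv ℝ (fderiv ℝ (ham G)) z η ζ = fderiv ℝ (fderiv ℝ (ham G)) z ζ η := by
  have h1 : ContDiffAt ℝ ∞ (ham G) z := (contDiffOn_ham hD hG hpos).contDiffAt (nhds_mem hD hz)
  have h2 : (2 : WithTop ℕ∞) ≤ ∞ := by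
    have h3 : ((2 : ℕ∞) : WithTop ℕ∞) ≤ ((⊤ : ℕ∞) : WithTop ℕ∞) := WithTop.coe_le_coe.2 le_top
    exact h3
  exact (h1.isSymmSndFDerivAt (by simpa using h2)).eq η ζ

end Pool.Agent.Helper82.PE
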