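import Pool.Agent.Helper82.PE.Sol

/-!
# Gluing of solutions (module PE-16)
-/

set_option maxSynthPendingDepth 3

namespace Pool.Agent.Helper82.PE

open MeasureTheory Filter Topology Pool.Agent.Helper82.GS
open scoped ContDiff Manifold NNReal

variable {S : Type*} [TopologicalSpace S] [ChartedSpace P2 S] [IsManifold (modelWithCornersSelf ℝ P2) ∞ S]

/-- Solutions on a single point. -/
theorem isSol_singleton (g : RMetric S) (ψ : ℝ → S × Cov) (a : ℝ) : IsSol g ψ (Set.Icc a a) := by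
  rw [Set.Icc_self]
  refine ⟨continuousOn_singleton _ _, ?_⟩
  intro e _ t ht _
  rw [Set.mem_singleton_iff] at ht
  subst ht
  exact HasFDerivWithinAt.of_finite (Set.finite_singleton t)

theorem IsSol.congr_icc {g : RMetric S} {ψ₁ ψ₂ : ℝ → S × Cov} {I : Set ℝ} (h : IsSol g ψ₁ I)
    (he : ∀ t ∈ I, ψ₂ t = ψ₁ t) : IsSol g ψ₂ I := by
  refine ⟨h.1.congr fun t ht => by rw [he t ht], ?_⟩
  intro e hea t ht hs
  rw [he t ht] at hs ⊢
  exact (h.2 e hea t ht hs).congr (fun s hs' => by rw [he s hs']) (by rw [he t ht])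

/-- Take `ψ t = ψ₁ t` for `t ≤ b` and `ψ₂ t` for `t > b`.  At `t = b` use `HasDerivWithinAt.union` (on
`Icc a b ∪ Icc b c`); at the other points the derivative within `Icc a c` is the derivative within the piece. -/
theorem IsSol.glue {g : RMetric S} {ψ₁ ψ₂ : ℝ → S × Cov} {a b c : ℝ} (hab : a ≤ b) (hbc : b ≤ c)
    (h₁ : IsSol g ψ₁ (Set.Icc a b)) (h₂ : IsSol g ψ₂ (Set.Icc b c)) (h : ψ₁ b = ψ₂ b) :
    ∃ ψ : ℝ → S × Cov, IsSol g ψ (Set.Icc a c) ∧ ψ a = ψ₁ a ∧ ψ c = ψ₂ c := by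
  classical
  let ψ : ℝ → S × Cov := fun t => if t ≤ b then ψ₁ t else ψ₂ t
  have e1 : ∀ t ∈ Set.Icc a b, ψ t = ψ₁ t := fun t ht => if_pos ht.2
  have e2 : ∀ t ∈ Set.Icc b c, ψ t = ψ₂ t := by
    intro t ht
    by_cases htb : t ≤ b
    · have : t = b := le_antisymm htb ht.1
      subst this
      change (if t ≤ t then ψ₁ t else ψ₂ t) = ψ₂ t
      rw [if_pos le_rfl, h]
    · exact if_neg htb
  have s1 : IsSol g ψ (Set.Icc a b) := h₁.congr_icc e1
  have s2 : IsSol g ψ (Set.Icc b c) := h₂.congr_icc e2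
  have hU : Set.Icc a c = Set.Icc a b ∪ Set.Icc b c := (Set.Icc_union_Icc_eq_Icc hab hbc).symm
  refine ⟨ψ, ?_, e1 a ⟨le_rfl, hab⟩, e2 c ⟨hbc, le_rfl⟩⟩
  constructor
  · rw [hU]
    exact s1.1.union_of_isClosed s2.1 isClosed_Icc isClosed_Icc
  · intro e he t ht hs
    rw [hU]
    have key : ∀ {x y : ℝ}, IsSol g ψ (Set.Icc x y) →
        HasDerivWithinAt (fun s => crd e (ψ s)) (hvec (g.comp e) (crd e (ψ t))) (Set.Icc x y) t := by
      intro x y hsol
      by_cases hm : t ∈ Set.Icc x y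
      · exact hsol.2 e he t hm hs
      · have : t ∉ closure (Set.Icc x y) := by rwa [isClosed_Icc.closure_eq]
        exact HasFDerivWithinAt.of_notMem_closure this
    exact (key s1).union (key s2)

/-- Take `ψ' t = ψ (t - T * ⌊t / T⌋)`. -/
theorem IsSol.periodic {g : RMetric S} {ψ : ℝ → S × Cov} {T : ℝ} (hT : 0 < T) (h : IsSol g ψ (Set.Icc 0 T))
    (h0 : ψ 0 = ψ T) :
    ∃ ψ' : ℝ → S × Cov, IsSol g ψ' Set.univ ∧ (∀ t, ψ' (t + T) = ψ' t) ∧ ψ' 0 = ψ 0 := by
  classical
  let r : ℝ → ℝ := fun t => t - T * (⌊t / T⌋ : ℝ)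
  let ψ' : ℝ → S × Cov := fun t => ψ (r t)
  have hr0 : ∀ t, 0 ≤ r t := by
    intro t
    have h1 := Int.floor_le (t / T)
    have h2 : T * (⌊t / T⌋ : ℝ) ≤ T * (t / T) := mul_le_mul_of_nonneg_left h1 hT.le
    rw [mul_div_cancel₀ _ hT.ne'] at h2
    change 0 ≤ t - T * (⌊t / T⌋ : ℝ)
    linarith
  have hrT : ∀ t, r t < T := by
    intro t
    have h1 := Int.lt_floor_add_one (t / T)
    have h2 : T * (t / T) < T * ((⌊t / T⌋ : ℝ) + 1) := mul_lt_mul_of_pos_left h1 hT
    rw [mul_div_cancel₀ _ hT.ne'] at h2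
    change t - T * (⌊t / T⌋ : ℝ) < T
    linarith
  have hper : ∀ t, r (t + T) = r t := by
    intro t
    change (t + T) - T * (⌊(t + T) / T⌋ : ℝ) = t - T * (⌊t / T⌋ : ℝ)
    have : (t + T) / T = t / T + 1 := by
      field_simp
    rw [this, Int.floor_add_one]
    push_cast
    ring
  -- the piece number `k`
  have hpiece : ∀ k : ℤ, ∀ t ∈ Set.Icc ((k : ℝ) * T) ((k : ℝ) * T + T), ψ' t = ψ (t - k * T) := by
    intro k t ht
    rcases lt_or_eq_of_le ht.2 with hlt | heq
    · have hfl : ⌊t / T⌋ = k := by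
        rw [Int.floor_eq_iff]
        constructor
        · rw [le_div_iff₀ hT]
          exact ht.1
        · rw [div_lt_iff₀ hT]
          linarith
      change ψ (t - T * (⌊t / T⌋ : ℝ)) = ψ (t - k * T)
      rw [hfl, mul_comm]
    · have hfl : ⌊t / T⌋ = k + 1 := by
        have : t / T = ((k + 1 : ℤ) : ℝ) := by
          rw [heq]
          push_cast
          field_simp
        rw [this, Int.floor_intCast]
      change ψ (t - T * (⌊t / T⌋ : ℝ)) = ψ (t - k * T)
      rw [hfl]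
      have e1 : t - T * (((k + 1 : ℤ)) : ℝ) = 0 := by
        rw [heq]
        push_cast
        ring
      have e2 : t - k * T = T := by
        rw [heq]
        ring
      rw [e1, e2, h0]
  have hsol : ∀ k : ℤ, IsSol g ψ' (Set.Icc ((k : ℝ) * T) ((k : ℝ) * T + T)) := by
    intro k
    have hmaps : Set.MapsTo (fun t : ℝ => t - k * T) (Set.Icc ((k : ℝ) * T) ((k : ℝ) * T + T))
        (Set.Icc 0 T) := by
      intro t ht
      exact ⟨by have := ht.1; simp only; linarith, by have := ht.2; simp only; linarith⟩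
    have h1 : IsSol g (fun t => ψ (t - k * T)) (Set.Icc ((k : ℝ) * T) ((k : ℝ) * T + T)) := by
      constructor
      · exact h.1.comp (f := fun t : ℝ => t - k * T) (by fun_prop) hmaps
      · intro e he t ht hs
        have h2 := h.2 e he (t - k * T) (hmaps ht) hs
        have h3 : HasDerivWithinAt (fun t : ℝ => t - k * T) 1
            (Set.Icc ((k : ℝ) * T) ((k : ℝ) * T + T)) t :=
          ((hasDerivAt_id t).sub_const _).hasDerivWithinAt
        have h4 := HasDerivWithinAt.scomp t h2 h3 hmaps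
        rw [one_smul] at h4
        exact h4
    exact h1.congr_icc (hpiece k)
  have hglue : ∀ k : ℤ, IsSol g ψ' (Set.Icc ((k : ℝ) * T) ((k : ℝ) * T + T + T)) := by
    intro k
    have s1 := hsol k
    have s2 := hsol (k + 1)
    have e1 : (((k + 1 : ℤ)) : ℝ) * T = (k : ℝ) * T + T := by push_cast; ring
    rw [e1] at s2
    have hU : Set.Icc ((k : ℝ) * T) ((k : ℝ) * T + T + T) =
        Set.Icc ((k : ℝ) * T) ((k : ℝ) * T + T) ∪ Set.Icc ((k : ℝ) * T + T) ((k : ℝ) * T + T + T) :=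
      (Set.Icc_union_Icc_eq_Icc (by linarith) (by linarith)).symm
    constructor
    · rw [hU]
      exact s1.1.union_of_isClosed s2.1 isClosed_Icc isClosed_Icc
    · intro e he t ht hs
      rw [hU]
      have key : ∀ {x y : ℝ}, IsSol g ψ' (Set.Icc x y) →
          HasDerivWithinAt (fun s => crd e (ψ' s)) (hvec (g.comp e) (crd e (ψ' t))) (Set.Icc x y) t := by
        intro x y hsol'
        by_cases hm : t ∈ Set.Icc x y
        · exact hsol'.2 e he t hm hs
        · have : t ∉ closure (Set.Icc x y) := by rwa [isClosed_Icc.closure_eq]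
          exact HasFDerivWithinAt.of_notMem_closure this
      exact (key s1).union (key s2)
  have hloc : ∀ t : ℝ, ∃ k : ℤ, Set.Icc ((k : ℝ) * T) ((k : ℝ) * T + T + T) ∈ 𝓝 t := by
    intro t
    refine ⟨⌊t / T - 1 / 2⌋, ?_⟩
    have h1 := Int.floor_le (t / T - 1 / 2)
    have h2 := Int.lt_floor_add_one (t / T - 1 / 2)
    have e1 : t / T * T = t := div_mul_cancel₀ _ hT.ne'
    apply Icc_mem_nhds
    · have := mul_le_mul_of_nonneg_right h1 hT.le
      rw [sub_mul, e1] at this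
      linarith
    · have := mul_lt_mul_of_pos_right h2 hT
      rw [sub_mul, e1, add_mul] at this
      linarith
  refine ⟨ψ', ⟨?_, ?_⟩, ?_, ?_⟩
  · rw [continuousOn_univ, continuous_iff_continuousAt]
    intro t
    obtain ⟨k, hk⟩ := hloc t
    exact (hglue k).1.continuousAt hk
  · intro e he t _ hs
    obtain ⟨k, hk⟩ := hloc t
    have h1 := (hglue k).2 e he t (mem_of_mem_nhds hk) hs
    exact (h1.hasDerivAt hk).hasDerivWithinAt
  · intro t
    change ψ (r (t + T)) = ψ (r t)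
    rw [hper]
  · change ψ (0 - T * (⌊0 / T⌋ : ℝ)) = ψ 0
    simp

end Pool.Agent.Helper82.PE
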