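import Pool.Agent.Helper82.PE.CtrHam

/-!
# Geodesics solve the Hamilton equations (module PE-13)
-/

set_option maxSynthPendingDepth 3

namespace Pool.Agent.Helper82.PE

open MeasureTheory Filter Topology Pool.Agent.Helper82.GS
open scoped ContDiff Manifold NNReal

variable {S : Type*} [TopologicalSpace S] [ChartedSpace P2 S]

theorem velo_zc {g : RMetric S} {γ : ℝ → S} {e : OpenPartialHomeomorph S P2} (he : e ∈ atlas P2 S) {t : ℝ}
    (ht : γ t ∈ e.source) : velo (g.comp e) (zc g γ e t) = deriv (e ∘ γ) t :=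
  (g.posDef e he _ (e.map_source ht)).inverse_apply _

theorem ham_zc {g : RMetric S} {γ : ℝ → S} (hγ : IsGeodesic g γ) {e : OpenPartialHomeomorph S P2}
    (he : e ∈ atlas P2 S) {t : ℝ} (ht : γ t ∈ e.source) : ham (g.comp e) (zc g γ e t) = 1 / 2 := by
  unfold ham
  rw [velo_zc he ht]
  have h := (hγ.2 e he t ht).2.1
  show 1 / 2 * g.comp e (e (γ t)) (deriv (e ∘ γ) t) (deriv (e ∘ γ) t) = 1 / 2
  rw [h, mul_one]

/-- The Euler-Lagrange equation in `IsGeodesic` is exactly `p' = (1/2) (D G) (v, v)` for `p = G v`: the derivative of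
`t ↦ g.comp e (e (γ t)) (c' t)` is `(D G (c')) (c') + G (c'')`.  (`e ∘ γ` is of class `C²` at `t`.) -/
theorem hasDerivAt_zc {g : RMetric S} {γ : ℝ → S} (hγ : IsGeodesic g γ) {e : OpenPartialHomeomorph S P2}
    (he : e ∈ atlas P2 S) {t : ℝ} (ht : γ t ∈ e.source) :
    HasDerivAt (zc g γ e) (hvec (g.comp e) (zc g γ e t)) t := by
  obtain ⟨hc2, h1, hEL⟩ := hγ.2 e he t ht
  have hc1 : HasDerivAt (e ∘ γ) (deriv (e ∘ γ) t) t :=
    (hc2.differentiableAt (by norm_num)).hasDerivAt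
  have hd2 : HasDerivAt (deriv (e ∘ γ)) (deriv (deriv (e ∘ γ)) t) t := by
    obtain ⟨u, hu, hcu⟩ := hc2.contDiffOn (m := 2) le_rfl (by simp)
    have hu' : u ∈ 𝓝 t := by simpa using hu
    obtain ⟨v, hvu, hv, htv⟩ := mem_nhds_iff.1 hu'
    have h3 : ContDiffOn ℝ 1 (deriv (e ∘ γ)) v :=
      (hcu.mono hvu).deriv_of_isOpen hv (by norm_num)
    exact ((h3.differentiableOn (by norm_num)).differentiableAt (hv.mem_nhds htv)).hasDerivAt
  have hG : HasFDerivAt (g.comp e) (fderiv ℝ (g.comp e) (e (γ t))) (e (γ t)) := by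
    have h4 := (g.smooth e he).contDiffAt (e.open_target.mem_nhds (e.map_source ht))
    exact (h4.differentiableAt (by simp)).hasFDerivAt
  have hGc : HasDerivAt (fun s => g.comp e ((e ∘ γ) s))
      (fderiv ℝ (g.comp e) (e (γ t)) (deriv (e ∘ γ) t)) t :=
    HasFDerivAt.comp_hasDerivAt t (f := e ∘ γ) hG hc1
  have h5 : HasDerivAt (fun s => g.comp e ((e ∘ γ) s) (deriv (e ∘ γ) s))
      (fderiv ℝ (g.comp e) (e (γ t)) (deriv (e ∘ γ) t) (deriv (e ∘ γ) t) +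
        g.comp e (e (γ t)) (deriv (deriv (e ∘ γ)) t)) t := hGc.clm_apply hd2
  have h6 : HasDerivAt (zc g γ e) (deriv (e ∘ γ) t,
      fderiv ℝ (g.comp e) (e (γ t)) (deriv (e ∘ γ) t) (deriv (e ∘ γ) t) +
        g.comp e (e (γ t)) (deriv (deriv (e ∘ γ)) t)) t := hc1.prodMk h5
  have h7 : hvec (g.comp e) (zc g γ e t) = (deriv (e ∘ γ) t,
      fderiv ℝ (g.comp e) (e (γ t)) (deriv (e ∘ γ) t) (deriv (e ∘ γ) t) +
        g.comp e (e (γ t)) (deriv (deriv (e ∘ γ)) t)) := by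
    unfold hvec
    rw [velo_zc he ht]
    refine Prod.ext rfl ?_
    ext w
    have h8 := hEL w
    show (1 / 2 : ℝ) * fderiv ℝ (g.comp e) (e (γ t)) w (deriv (e ∘ γ) t) (deriv (e ∘ γ) t) =
      fderiv ℝ (g.comp e) (e (γ t)) (deriv (e ∘ γ) t) (deriv (e ∘ γ) t) w +
        g.comp e (e (γ t)) (deriv (deriv (e ∘ γ)) t) w
    rw [← h8]
    ring
  rw [h7]
  exact h6

/-- With `τ = e' ∘ e.symm`, `σ = e ∘ e'.symm`: `deriv (e' ∘ γ) t = Dτ (deriv (e ∘ γ) t)` and `g.change`. -/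
theorem ctr_zc [IsManifold (modelWithCornersSelf ℝ P2) ∞ S] {g : RMetric S} {γ : ℝ → S} (hγ : IsGeodesic g γ)
    {e e' : OpenPartialHomeomorph S P2} (he : e ∈ atlas P2 S) (he' : e' ∈ atlas P2 S) {t : ℝ}
    (ht : γ t ∈ e.source) (ht' : γ t ∈ e'.source) : ctr e e' (zc g γ e t) = zc g γ e' t := by
  have hsym : e.symm (e (γ t)) = γ t := e.left_inv ht
  have hsm := trans_smooth he he'
  have hmem : e' (γ t) ∈ e'.target ∩ e'.symm ⁻¹' e.source := by
    refine ⟨e'.map_source ht', ?_⟩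
    show e'.symm (e' (γ t)) ∈ e.source
    rw [e'.left_inv ht']
    exact ht
  have hopen : IsOpen (e'.target ∩ e'.symm ⁻¹' e.source) :=
    e'.symm.isOpen_inter_preimage e.open_source
  have hσ : DifferentiableAt ℝ (e ∘ e'.symm) (e' (γ t)) :=
    ((hsm.contDiffAt (hopen.mem_nhds hmem)).differentiableAt (by simp))
  have hc' : DifferentiableAt ℝ (e' ∘ γ) t := ((hγ.2 e' he' t ht').1).differentiableAt (by norm_num)
  have hchain : deriv (e ∘ γ) t = fderiv ℝ (e ∘ e'.symm) (e' (γ t)) (deriv (e' ∘ γ) t) := by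
    have h1 : HasDerivAt ((e ∘ e'.symm) ∘ (e' ∘ γ))
        (fderiv ℝ (e ∘ e'.symm) (e' (γ t)) (deriv (e' ∘ γ) t)) t :=
      HasFDerivAt.comp_hasDerivAt t (f := e' ∘ γ) hσ.hasFDerivAt hc'.hasDerivAt
    have h2 : (e ∘ γ) =ᶠ[𝓝 t] ((e ∘ e'.symm) ∘ (e' ∘ γ)) := by
      have h3 : ∀ᶠ s in 𝓝 t, γ s ∈ e'.source :=
        hγ.1.continuousAt.eventually (e'.open_source.mem_nhds ht')
      filter_upwards [h3] with s hs
      show e (γ s) = e (e'.symm (e' (γ s)))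
      rw [e'.left_inv hs]
    rw [h2.deriv_eq]
    exact h1.deriv
  refine Prod.ext ?_ ?_
  · show e' (e.symm (e (γ t))) = e' (γ t)
    rw [hsym]
  · show (g.comp e (e (γ t)) (deriv (e ∘ γ) t)) ∘L
      fderiv ℝ (e ∘ e'.symm) (e' (e.symm (e (γ t)))) = g.comp e' (e' (γ t)) (deriv (e' ∘ γ) t)
    rw [hsym]
    ext w
    rw [g.change e' he' e he (γ t) ht' ht, ← hchain]
    rfl

theorem zc_mem_cdom {g : RMetric S} {γ : ℝ → S} {e e' : OpenPartialHomeomorph S P2} {t : ℝ}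
    (ht : γ t ∈ e.source) (ht' : γ t ∈ e'.source) : zc g γ e t ∈ cdom e e' := by
  refine ⟨e.map_source ht, ?_⟩
  show e.symm (e (γ t)) ∈ e'.source
  rw [e.left_inv ht]
  exact ht'

end Pool.Agent.Helper82.PE
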