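import Pool.Agent.Helper82.PE.Energy
import Pool.Agent.Helper82.PE.Zc

/-!
# Lifting geodesics and uniqueness (module PE-18)
-/

set_option maxSynthPendingDepth 3

namespace Pool.Agent.Helper82.PE

open MeasureTheory Filter Topology Pool.Agent.Helper82.GS
open scoped ContDiff Manifold NNReal

variable {S : Type*} [TopologicalSpace S] [ChartedSpace P2 S] [IsManifold (modelWithCornersSelf ℝ P2) ∞ S]

/-- The phase curve of a curve. -/
noncomputable def liftc (g : RMetric S) (γ : ℝ → S) (t : ℝ) : S × Cov := (γ t, (zc g γ (chartAt P2 (γ t)) t).2)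

/-- `ctr_zc`. -/
theorem crd_liftc {g : RMetric S} {γ : ℝ → S} (hγ : IsGeodesic g γ) {e : OpenPartialHomeomorph S P2}
    (he : e ∈ atlas P2 S) {t : ℝ} (ht : γ t ∈ e.source) : crd e (liftc g γ t) = zc g γ e t :=
  ctr_zc hγ (chart_mem_atlas P2 (γ t)) he (mem_chart_source P2 (γ t)) ht

/-- `hasDerivAt_zc`. -/
theorem isSol_liftc {g : RMetric S} {γ : ℝ → S} (hγ : IsGeodesic g γ) : IsSol g (liftc g γ) Set.univ := by
  refine ⟨hγ.1.continuousOn, ?_⟩
  intro e he t _ ht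
  have ht' : γ t ∈ e.source := ht
  have hev : ∀ᶠ s in 𝓝 t, γ s ∈ e.source :=
    hγ.1.continuousAt.eventually (e.open_source.mem_nhds ht')
  have h1 : (fun s => crd e (liftc g γ s)) =ᶠ[𝓝 t] zc g γ e := by
    filter_upwards [hev] with s hs
    exact crd_liftc hγ he hs
  rw [crd_liftc hγ he ht']
  exact ((hasDerivAt_zc hγ he ht').congr_of_eventuallyEq h1).hasDerivWithinAt

private theorem IsSol.continuous_fst {g : RMetric S} {ψ : ℝ → S × Cov} (h : IsSol g ψ Set.univ) :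
    Continuous fun t => (ψ t).1 := continuousOn_univ.1 h.1

private theorem IsSol.hasDerivAt_crd {g : RMetric S} {ψ : ℝ → S × Cov} (h : IsSol g ψ Set.univ)
    {e : OpenPartialHomeomorph S P2} (he : e ∈ atlas P2 S) {t : ℝ} (ht : (ψ t).1 ∈ e.source) :
    HasDerivAt (fun s => crd e (ψ s)) (hvec (g.comp e) (crd e (ψ t))) t :=
  hasDerivWithinAt_univ.1 (h.2 e he t (Set.mem_univ t) ht)

/-- the set of agreement is closed -/
private theorem closed_aux [T2Space S] {g : RMetric S} {ψ₁ ψ₂ : ℝ → S × Cov} (h₁ : IsSol g ψ₁ Set.univ)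
    (h₂ : IsSol g ψ₂ Set.univ) : IsClosed {t | ψ₁ t = ψ₂ t} := by
  rw [← closure_subset_iff_isClosed]
  intro t ht
  have hbase : (ψ₁ t).1 = (ψ₂ t).1 := by
    have hc : IsClosed {s | (ψ₁ s).1 = (ψ₂ s).1} := isClosed_eq h₁.continuous_fst h₂.continuous_fst
    have hsub : {s | ψ₁ s = ψ₂ s} ⊆ {s | (ψ₁ s).1 = (ψ₂ s).1} := fun s hs => by
      have hs' : ψ₁ s = ψ₂ s := hs
      show (ψ₁ s).1 = (ψ₂ s).1
      rw [hs']
    exact closure_minimal hsub hc ht
  set e := chartAt P2 (ψ₁ t).1 with he_def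
  have he : e ∈ atlas P2 S := chart_mem_atlas P2 _
  have hs1 : (ψ₁ t).1 ∈ e.source := mem_chart_source P2 _
  have hs2 : (ψ₂ t).1 ∈ e.source := hbase ▸ hs1
  have c1 : ContinuousAt (fun s => crd e (ψ₁ s)) t := (h₁.hasDerivAt_crd he hs1).continuousAt
  have c2 : ContinuousAt (fun s => crd e (ψ₂ s)) t := (h₂.hasDerivAt_crd he hs2).continuousAt
  have hcl : t ∈ closure {s | ψ₁ s = ψ₂ s} := ht
  have hne : (𝓝[{s | ψ₁ s = ψ₂ s}] t).NeBot := mem_closure_iff_nhdsWithin_neBot.1 hcl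
  have t1 : Tendsto (fun s => crd e (ψ₁ s)) (𝓝[{s | ψ₁ s = ψ₂ s}] t) (𝓝 (crd e (ψ₁ t))) :=
    c1.tendsto.mono_left nhdsWithin_le_nhds
  have t2 : Tendsto (fun s => crd e (ψ₂ s)) (𝓝[{s | ψ₁ s = ψ₂ s}] t) (𝓝 (crd e (ψ₂ t))) :=
    c2.tendsto.mono_left nhdsWithin_le_nhds
  have t3 : Tendsto (fun s => crd e (ψ₁ s)) (𝓝[{s | ψ₁ s = ψ₂ s}] t) (𝓝 (crd e (ψ₂ t))) := by
    refine t2.congr' ?_
    filter_upwards [self_mem_nhdsWithin] with s hs
    have hs' : ψ₁ s = ψ₂ s := hs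
    rw [hs']
  have heq : crd e (ψ₁ t) = crd e (ψ₂ t) := tendsto_nhds_unique t1 t3
  exact crd_inj he hs1 hs2 heq

/-- the set of agreement is open -/
private theorem open_aux {g : RMetric S} {ψ₁ ψ₂ : ℝ → S × Cov} (h₁ : IsSol g ψ₁ Set.univ)
    (h₂ : IsSol g ψ₂ Set.univ) : IsOpen {t | ψ₁ t = ψ₂ t} := by
  rw [isOpen_iff_mem_nhds]
  intro t ht
  have ht' : ψ₁ t = ψ₂ t := ht
  set e := chartAt P2 (ψ₁ t).1 with he_def
  have he : e ∈ atlas P2 S := chart_mem_atlas P2 _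
  have hs1 : (ψ₁ t).1 ∈ e.source := mem_chart_source P2 _
  have hs2 : (ψ₂ t).1 ∈ e.source := ht' ▸ hs1
  have ev1 : ∀ᶠ s in 𝓝 t, (ψ₁ s).1 ∈ e.source :=
    h₁.continuous_fst.continuousAt.eventually (e.open_source.mem_nhds hs1)
  have ev2 : ∀ᶠ s in 𝓝 t, (ψ₂ s).1 ∈ e.source :=
    h₂.continuous_fst.continuousAt.eventually (e.open_source.mem_nhds hs2)
  have c1 : ContinuousAt (fun s => crd e (ψ₁ s)) t := (h₁.hasDerivAt_crd he hs1).continuousAt
  have c2 : ContinuousAt (fun s => crd e (ψ₂ s)) t := (h₂.hasDerivAt_crd he hs2).continuousAt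
  have heq : crd e (ψ₁ t) = crd e (ψ₂ t) := by rw [ht']
  have hsm : ContDiffOn ℝ ∞ (hvec (g.comp e)) (e.target ×ˢ Set.univ) :=
    contDiffOn_hvec e.open_target (g.smooth e he) (g.posDef e he)
  have hmem : crd e (ψ₁ t) ∈ e.target ×ˢ (Set.univ : Set Cov) := by
    refine ⟨?_, Set.mem_univ _⟩
    rw [crd_fst]
    exact e.map_source hs1
  have hop : IsOpen (e.target ×ˢ (Set.univ : Set Cov)) := e.open_target.prod isOpen_univ
  have hcd : ContDiffAt ℝ 1 (hvec (g.comp e)) (crd e (ψ₁ t)) :=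
    (hsm.contDiffAt (hop.mem_nhds hmem)).of_le (by exact_mod_cast le_top)
  obtain ⟨K, U, hU, hLip⟩ := hcd.exists_lipschitzOnWith
  have hloc : (fun s => crd e (ψ₁ s)) =ᶠ[𝓝 t] fun s => crd e (ψ₂ s) := by
    refine ODE_solution_unique_of_eventually (K := K) (v := fun _ => hvec (g.comp e)) (s := fun _ => U)
      (Eventually.of_forall fun _ => hLip) ?_ ?_ heq
    · filter_upwards [ev1, c1.eventually hU] with s hs hsU
      exact ⟨h₁.hasDerivAt_crd he hs, hsU⟩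
    · rw [heq] at hU
      filter_upwards [ev2, c2.eventually hU] with s hs hsU
      exact ⟨h₂.hasDerivAt_crd he hs, hsU⟩
  filter_upwards [hloc, ev1, ev2] with s hs hs1' hs2'
  exact crd_inj he hs1' hs2' hs

/-- Uniqueness of solutions.  The set of the times where the solutions agree is closed (`S` is Hausdorff: at a limit
point `t` the base points agree, then compare in one chart) and open (in a chart `hvec (g.comp e)` is of class `C¹`,
hence locally Lipschitz: `ODE_solution_unique_of_eventually`, `ContDiffAt.exists_lipschitzOnWith`). -/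
theorem IsSol.unique [T2Space S] {g : RMetric S} {ψ₁ ψ₂ : ℝ → S × Cov} (h₁ : IsSol g ψ₁ Set.univ)
    (h₂ : IsSol g ψ₂ Set.univ) {t₀ : ℝ} (h : ψ₁ t₀ = ψ₂ t₀) : ψ₁ = ψ₂ := by
  have hcl : IsClopen {t | ψ₁ t = ψ₂ t} := ⟨closed_aux h₁ h₂, open_aux h₁ h₂⟩
  have huniv : {t | ψ₁ t = ψ₂ t} = Set.univ := hcl.eq_univ ⟨t₀, h⟩
  funext t
  have : t ∈ {t | ψ₁ t = ψ₂ t} := huniv ▸ Set.mem_univ t
  exact this

/-- Two geodesics with the same position and velocity at time `0` agree. -/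
theorem geodesic_unique [T2Space S] {g : RMetric S} {γ₁ γ₂ : ℝ → S} (h₁ : IsGeodesic g γ₁) (h₂ : IsGeodesic g γ₂)
    {e : OpenPartialHomeomorph S P2} (he : e ∈ atlas P2 S) (h0 : γ₁ 0 ∈ e.source) (h : γ₁ 0 = γ₂ 0)
    (hv : deriv (e ∘ γ₁) 0 = deriv (e ∘ γ₂) 0) : γ₁ = γ₂ := by
  have h0' : γ₂ 0 ∈ e.source := h ▸ h0
  have hz : zc g γ₁ e 0 = zc g γ₂ e 0 := by
    unfold zc
    rw [h, hv]
  have hc : crd e (liftc g γ₁ 0) = crd e (liftc g γ₂ 0) := by
    rw [crd_liftc h₁ he h0, crd_liftc h₂ he h0', hz]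
  have hl : liftc g γ₁ 0 = liftc g γ₂ 0 := crd_inj he h0 h0' hc
  have := IsSol.unique (isSol_liftc h₁) (isSol_liftc h₂) hl
  funext t
  have ht := congrFun this t
  exact congrArg Prod.fst ht

end Pool.Agent.Helper82.PE
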