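import Pool.Agent.Helper82.PE.Om

/-!
# Closeness of metrics in terms of ordinary derivatives (module PE-6)
-/

set_option maxSynthPendingDepth 3

namespace Pool.Agent.Helper82.PE

open MeasureTheory Filter Topology Pool.Agent.Helper82.GS
open scoped ContDiff Manifold NNReal

variable {S : Type*} [TopologicalSpace S] [ChartedSpace P2 S]

/-- Intersection of `g₀.near e K r δ` for `r = 0, 1, 2` (open by `isOpen_near`, contain `g₀` by `mem_near_self`).  For
`r = 0, 1` see the proof of `isOpen_cert` in `GS/Topo.lean`; for `r = 2` use `iteratedFDeriv_succ_eq_comp_left` /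
`norm_iteratedFDeriv_fderiv` style isometries (on the open set `e.target`, where both components are smooth, one may
also apply them to the difference `g.comp e - g₀.comp e`). -/
theorem near_C2 (g₀ : RMetric S) {e : OpenPartialHomeomorph S P2} (he : e ∈ atlas P2 S) {K : Set P2}
    (hK : IsCompact K) (hKe : K ⊆ e.target) {δ : ℝ} (hδ : 0 < δ) :
    ∀ᶠ g in 𝓝 g₀, ∀ y ∈ K, ‖g.comp e y - g₀.comp e y‖ < δ ∧
      ‖fderiv ℝ (g.comp e) y - fderiv ℝ (g₀.comp e) y‖ < δ ∧
      ‖fderiv ℝ (fderiv ℝ (g.comp e)) y - fderiv ℝ (fderiv ℝ (g₀.comp e)) y‖ < δ := by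
  have hU : g₀.near e K 0 δ ∩ (g₀.near e K 1 δ ∩ g₀.near e K 2 δ) ∈ 𝓝 g₀ :=
    inter_mem ((isOpen_near g₀ he hK hKe 0 δ).mem_nhds (mem_near_self g₀ e _ 0 hδ))
      (inter_mem ((isOpen_near g₀ he hK hKe 1 δ).mem_nhds (mem_near_self g₀ e _ 1 hδ))
        ((isOpen_near g₀ he hK hKe 2 δ).mem_nhds (mem_near_self g₀ e _ 2 hδ)))
  filter_upwards [hU] with g hg y hy
  refine ⟨?_, ?_, ?_⟩
  · have h1 := hg.1 y hy
    rw [iteratedFDeriv_zero_eq_comp, iteratedFDeriv_zero_eq_comp, Function.comp_apply,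
      Function.comp_apply, ← map_sub, LinearIsometryEquiv.norm_map] at h1
    exact h1
  · have h1 := hg.2.1 y hy
    refine lt_of_le_of_lt ?_ h1
    refine ContinuousLinearMap.opNorm_le_bound _ (norm_nonneg _) fun v => ?_
    have h2 : (fderiv ℝ (g.comp e) y - fderiv ℝ (g₀.comp e) y) v =
        (iteratedFDeriv ℝ 1 (g.comp e) y - iteratedFDeriv ℝ 1 (g₀.comp e) y) (fun _ => v) := by
      change _ = iteratedFDeriv ℝ 1 (g.comp e) y (fun _ => v) -
        iteratedFDeriv ℝ 1 (g₀.comp e) y (fun _ => v)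
      rw [iteratedFDeriv_one_apply, iteratedFDeriv_one_apply]
      rfl
    rw [h2]
    refine (ContinuousMultilinearMap.le_opNorm _ _).trans (le_of_eq ?_)
    simp
  · have h1 := hg.2.2 y hy
    refine lt_of_le_of_lt ?_ h1
    refine ContinuousLinearMap.opNorm_le_bound₂ _ (norm_nonneg _) fun v w => ?_
    have h2 : (fderiv ℝ (fderiv ℝ (g.comp e)) y - fderiv ℝ (fderiv ℝ (g₀.comp e)) y) v w =
        (iteratedFDeriv ℝ 2 (g.comp e) y - iteratedFDeriv ℝ 2 (g₀.comp e) y) ![v, w] := by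
      change _ = iteratedFDeriv ℝ 2 (g.comp e) y ![v, w] -
        iteratedFDeriv ℝ 2 (g₀.comp e) y ![v, w]
      rw [iteratedFDeriv_two_apply, iteratedFDeriv_two_apply]
      rfl
    rw [h2]
    refine (ContinuousMultilinearMap.le_opNorm _ _).trans (le_of_eq ?_)
    rw [Fin.prod_univ_two]
    simp only [Matrix.cons_val_zero, Matrix.cons_val_one]
    ring

end Pool.Agent.Helper82.PE
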