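import Pool.Agent.Helper82.PE.NearHvec
import Pool.Agent.Helper82.PE.FHam

/-!
# Closeness of the Hamiltonians (module PE-8)
-/

set_option maxSynthPendingDepth 3

namespace Pool.Agent.Helper82.PE

open MeasureTheory Filter Topology Pool.Agent.Helper82.GS
open scoped ContDiff Manifold NNReal

variable {S : Type*} [TopologicalSpace S] [ChartedSpace P2 S]

omit [ChartedSpace P2 S] in
/-- A compact neighbourhood of a point of the phase space. -/
theorem nearHam_box {e : OpenPartialHomeomorph S P2} {z : Ph} (hz : z.1 ∈ e.target) :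
    ∃ r > 0, ∃ K : Set P2, IsCompact K ∧ K ⊆ e.target ∧
      ∀ x ∈ Metric.ball z r, x.1 ∈ K ∧ ‖x.2‖ ≤ ‖z.2‖ + r := by
  obtain ⟨r, hr, hrt⟩ := Metric.isOpen_iff.1 e.open_target z.1 hz
  refine ⟨r / 2, by positivity, Metric.closedBall z.1 (r / 2), isCompact_closedBall _ _, ?_, ?_⟩
  · exact (Metric.closedBall_subset_ball (by linarith)).trans hrt
  · intro x hx
    have hx' : dist x z < r / 2 := hx
    rw [Prod.dist_eq] at hx'
    have h1 : dist x.1 z.1 < r / 2 := lt_of_le_of_lt (le_max_left _ _) hx'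
    have h2 : dist x.2 z.2 < r / 2 := lt_of_le_of_lt (le_max_right _ _) hx'
    refine ⟨h1.le, ?_⟩
    rw [dist_eq_norm] at h2
    have h3 : ‖x.2‖ ≤ ‖z.2‖ + ‖x.2 - z.2‖ := by
      have : x.2 = z.2 + (x.2 - z.2) := by abel
      calc ‖x.2‖ = ‖z.2 + (x.2 - z.2)‖ := by rw [← this]
        _ ≤ _ := norm_add_le _ _
    linarith

/-- Proof: choose a closed ball around `z` in `e.target ×ˢ univ`.  On it `fderiv (ham (g.comp e)) x ζ = om ζ (hvec ..)`
(`fderiv_ham`), so by `near_hvec` and `om_bound` the derivative of `ham (g.comp e)` is uniformly close to that of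
`ham (g₀.comp e)`, which is continuous; the estimate follows from the mean value inequality on the (convex) ball.
For the values at `z`: `ham G z = (1/2) z.2 (hvec G z).1`, use `near_hvec` with `K = {z.1}`. -/
theorem ual_ham (g₀ : RMetric S) {e : OpenPartialHomeomorph S P2} (he : e ∈ atlas P2 S) {z : Ph}
    (hz : z.1 ∈ e.target) :
    UAL (𝓝 g₀) (fun g => ham (g.comp e)) (fderiv ℝ (ham (g₀.comp e)) z) z (ham (g₀.comp e) z) := by
  have hopen : IsOpen (e.target ×ˢ (Set.univ : Set Cov)) := e.open_target.prod isOpen_univ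
  constructor
  · rw [Metric.tendsto_nhds]
    intro ε hε
    have hη : 0 < ε / (‖z.2‖ + 1) := by positivity
    filter_upwards [near_hvec g₀ he (isCompact_singleton (x := z.1))
      (Set.singleton_subset_iff.2 hz) ‖z.2‖ hη] with g hg
    have h1 := (hg z rfl le_rfl).1
    have e1 : ham (g.comp e) z - ham (g₀.comp e) z =
        (1 / 2) * z.2 ((hvec (g.comp e) z - hvec (g₀.comp e) z).1) := by
      have a1 : ham (g.comp e) z = (1 / 2) * z.2 (hvec (g.comp e) z).1 := rfl
      have a2 : ham (g₀.comp e) z = (1 / 2) * z.2 (hvec (g₀.comp e) z).1 := rfl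
      rw [a1, a2, Prod.fst_sub, map_sub]
      ring
    rw [Real.dist_eq, e1, abs_mul]
    have h2 : |z.2 ((hvec (g.comp e) z - hvec (g₀.comp e) z).1)| ≤
        ‖z.2‖ * (ε / (‖z.2‖ + 1)) := by
      rw [← Real.norm_eq_abs]
      exact (z.2.le_opNorm _).trans
        (mul_le_mul_of_nonneg_left ((norm_fst_le _).trans h1) (norm_nonneg _))
    have h3 : ‖z.2‖ * (ε / (‖z.2‖ + 1)) ≤ ε := by
      rw [← mul_div_assoc, div_le_iff₀ (by positivity)]
      nlinarith [norm_nonneg z.2]
    have h4 : |(1 / 2 : ℝ)| = 1 / 2 := abs_of_pos (by norm_num)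
    rw [h4]
    linarith
  · intro η hη
    obtain ⟨r₀, hr₀, K, hK, hKt, hbox⟩ := nearHam_box (e := e) hz
    have hcont : ContinuousAt (fderiv ℝ (ham (g₀.comp e))) z :=
      ((contDiffOn_ham e.open_target (g₀.smooth e he) (g₀.posDef e he)).continuousOn_fderiv_of_isOpen
        hopen (by norm_num)).continuousAt (hopen.mem_nhds ⟨hz, Set.mem_univ _⟩)
    obtain ⟨r₁, hr₁, hr₁'⟩ := Metric.continuousAt_iff.1 hcont (η / 2) (by positivity)
    refine ⟨min r₀ r₁, lt_min hr₀ hr₁, ?_⟩
    filter_upwards [near_hvec g₀ he hK hKt (‖z.2‖ + r₀) (show 0 < η / 4 by positivity)]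
      with g hg x hx y hy
    have hbd : ∀ w ∈ Metric.ball z (min r₀ r₁),
        ‖fderiv ℝ (ham (g.comp e)) w - fderiv ℝ (ham (g₀.comp e)) z‖ ≤ η := by
      intro w hw
      have hw0 : w ∈ Metric.ball z r₀ := Metric.ball_subset_ball (min_le_left _ _) hw
      have hw1 : w ∈ Metric.ball z r₁ := Metric.ball_subset_ball (min_le_right _ _) hw
      obtain ⟨hwK, hwB⟩ := hbox w hw0
      have h1 := (hg w hwK hwB).1
      have h2 : ‖fderiv ℝ (ham (g.comp e)) w - fderiv ℝ (ham (g₀.comp e)) w‖ ≤ η / 2 := by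
        refine ContinuousLinearMap.opNorm_le_bound _ (by positivity) fun ζ => ?_
        rw [sub_apply,
          fderiv_ham e.open_target (g.smooth e he) (g.posDef e he) (hKt hwK),
          fderiv_ham e.open_target (g₀.smooth e he) (g₀.posDef e he) (hKt hwK),
          ← om_sub_right, Real.norm_eq_abs]
        refine (om_bound _ _).trans ?_
        have := mul_le_mul_of_nonneg_left h1 (by positivity : 0 ≤ 2 * ‖ζ‖)
        linarith
      have h3 : ‖fderiv ℝ (ham (g₀.comp e)) w - fderiv ℝ (ham (g₀.comp e)) z‖ ≤ η / 2 := by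
        have := hr₁' hw1
        rw [dist_eq_norm] at this
        exact this.le
      have h4 : fderiv ℝ (ham (g.comp e)) w - fderiv ℝ (ham (g₀.comp e)) z =
          (fderiv ℝ (ham (g.comp e)) w - fderiv ℝ (ham (g₀.comp e)) w) +
          (fderiv ℝ (ham (g₀.comp e)) w - fderiv ℝ (ham (g₀.comp e)) z) := by abel
      rw [h4]
      refine (norm_add_le _ _).trans ?_
      linarith
    have hdiff : ∀ w ∈ Metric.ball z (min r₀ r₁), DifferentiableAt ℝ (ham (g.comp e)) w := by
      intro w hw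
      have hw0 : w ∈ Metric.ball z r₀ := Metric.ball_subset_ball (min_le_left _ _) hw
      have hwK := (hbox w hw0).1
      exact ((contDiffOn_ham e.open_target (g.smooth e he) (g.posDef e he)).contDiffAt
        (hopen.mem_nhds ⟨hKt hwK, Set.mem_univ _⟩)).differentiableAt (by norm_num)
    exact (convex_ball z (min r₀ r₁)).norm_image_sub_le_of_norm_fderiv_le' hdiff hbd hy hx

/-- For velocities: `velo G x = (hvec G x).1`. -/
theorem near_velo (g₀ : RMetric S) {e : OpenPartialHomeomorph S P2} (he : e ∈ atlas P2 S) {z : Ph}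
    (hz : z.1 ∈ e.target) {η : ℝ} (hη : 0 < η) :
    ∃ r > 0, ∀ᶠ g in 𝓝 g₀, ∀ x ∈ Metric.ball z r, ‖velo (g.comp e) x - velo (g₀.comp e) z‖ < η := by
  have hopen : IsOpen (e.target ×ˢ (Set.univ : Set Cov)) := e.open_target.prod isOpen_univ
  obtain ⟨r₀, hr₀, K, hK, hKt, hbox⟩ := nearHam_box (e := e) hz
  have hcont : ContinuousAt (velo (g₀.comp e)) z :=
    (contDiffOn_velo e.open_target (g₀.smooth e he) (g₀.posDef e he)).continuousOn.continuousAt
      (hopen.mem_nhds ⟨hz, Set.mem_univ _⟩)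
  obtain ⟨r₁, hr₁, hr₁'⟩ := Metric.continuousAt_iff.1 hcont (η / 2) (by positivity)
  refine ⟨min r₀ r₁, lt_min hr₀ hr₁, ?_⟩
  filter_upwards [near_hvec g₀ he hK hKt (‖z.2‖ + r₀) (show 0 < η / 2 by positivity)] with g hg x hx
  have hx0 : x ∈ Metric.ball z r₀ := Metric.ball_subset_ball (min_le_left _ _) hx
  have hx1 : x ∈ Metric.ball z r₁ := Metric.ball_subset_ball (min_le_right _ _) hx
  obtain ⟨hxK, hxB⟩ := hbox x hx0
  have h1 := (hg x hxK hxB).1
  have h2 : ‖velo (g.comp e) x - velo (g₀.comp e) x‖ ≤ η / 2 := by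
    have e1 : velo (g.comp e) x - velo (g₀.comp e) x =
        (hvec (g.comp e) x - hvec (g₀.comp e) x).1 := rfl
    rw [e1]
    exact (norm_fst_le _).trans h1
  have h3 : ‖velo (g₀.comp e) x - velo (g₀.comp e) z‖ < η / 2 := by
    have := hr₁' hx1
    rw [dist_eq_norm] at this
    exact this
  have h4 : velo (g.comp e) x - velo (g₀.comp e) z =
      (velo (g.comp e) x - velo (g₀.comp e) x) +
      (velo (g₀.comp e) x - velo (g₀.comp e) z) := by abel
  rw [h4]
  refine lt_of_le_of_lt (norm_add_le _ _) ?_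
  linarith

end Pool.Agent.Helper82.PE
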