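import Pool.Agent.Helper82.PE.Om

/-!
# Smoothness of the velocity, the Hamiltonian and its vector field (module PE-2)
-/

set_option maxSynthPendingDepth 3

namespace Pool.Agent.Helper82.PE

open MeasureTheory Filter Topology Pool.Agent.Helper82.GS
open scoped ContDiff Manifold NNReal

variable {D : Set P2} {G : P2 → Bil}

private theorem sm_velo (hD : IsOpen D) (hG : ContDiffOn ℝ ∞ G D) (hpos : ∀ y ∈ D, PosDef (G y))
    {z : Ph} (hz : z.1 ∈ D) : ContDiffAt ℝ ∞ (velo G) z := by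
  obtain ⟨e, he⟩ := (hpos z.1 hz).exists_equiv
  have h1 : ContDiffAt ℝ ∞ (ContinuousLinearMap.inverse : Bil → _) (G z.1) := by
    rw [← he]
    exact contDiffAt_map_inverse e
  have hGy : ContDiffAt ℝ ∞ G z.1 := hG.contDiffAt (hD.mem_nhds hz)
  have h2 : ContDiffAt ℝ ∞ (fun z : Ph => G z.1) z := ContDiffAt.comp z hGy contDiffAt_fst
  have h3 : ContDiffAt ℝ ∞ (fun z : Ph => ContinuousLinearMap.inverse (G z.1)) z :=
    ContDiffAt.comp (g := (ContinuousLinearMap.inverse : Bil → Cov →L[ℝ] P2))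
      (f := fun z : Ph => G z.1) z h1 h2
  exact h3.clm_apply contDiffAt_snd

private theorem sm_flip {F : Type*} [NormedAddCommGroup F] [NormedSpace ℝ F]
    {E' : Type*} [NormedAddCommGroup E'] [NormedSpace ℝ E'] {f : F → P2 →L[ℝ] P2 →L[ℝ] E'} {z : F}
    (hf : ContDiffAt ℝ ∞ f z) : ContDiffAt ℝ ∞ (fun z => (f z).flip) z :=
  ContDiffAt.comp z (ContinuousLinearMap.flipₗᵢ ℝ P2 P2 E').contDiff.contDiffAt hf

private theorem sm_hvec (hD : IsOpen D) (hG : ContDiffOn ℝ ∞ G D) (hpos : ∀ y ∈ D, PosDef (G y))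
    {z : Ph} (hz : z.1 ∈ D) : ContDiffAt ℝ ∞ (hvec G) z := by
  have hv := sm_velo hD hG hpos hz
  have hfd : ContDiffOn ℝ ∞ (fderiv ℝ G) D := hG.fderiv_of_isOpen hD (by simp)
  have hfdy : ContDiffAt ℝ ∞ (fderiv ℝ G) z.1 := hfd.contDiffAt (hD.mem_nhds hz)
  have h1 : ContDiffAt ℝ ∞ (fun z : Ph => fderiv ℝ G z.1) z :=
    ContDiffAt.comp z hfdy contDiffAt_fst
  have h2 : ContDiffAt ℝ ∞ (fun z : Ph => (fderiv ℝ G z.1).flip) z := sm_flip h1
  have h3 : ContDiffAt ℝ ∞ (fun z : Ph => (fderiv ℝ G z.1).flip (velo G z)) z := h2.clm_apply hv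
  have h4 : ContDiffAt ℝ ∞ (fun z : Ph => ((fderiv ℝ G z.1).flip (velo G z)).flip) z := sm_flip h3
  have h5 : ContDiffAt ℝ ∞
      (fun z : Ph => ((fderiv ℝ G z.1).flip (velo G z)).flip (velo G z)) z := h4.clm_apply hv
  exact hv.prodMk (h5.const_smul (1 / 2 : ℝ))

private theorem sm_ham (hD : IsOpen D) (hG : ContDiffOn ℝ ∞ G D) (hpos : ∀ y ∈ D, PosDef (G y))
    {z : Ph} (hz : z.1 ∈ D) : ContDiffAt ℝ ∞ (ham G) z := by
  have hv := sm_velo hD hG hpos hz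
  exact contDiffAt_const.mul (contDiffAt_snd.clm_apply hv)

/-- Proof: `ContinuousLinearMap.inverse` is smooth at the invertible `G y` (see `contDiffAt_map_inverse` and the proof of
`contDiffOn_acc` in `GS/Acc.lean`, `PosDef.exists_equiv`), apply it to `z.2`. -/
theorem contDiffOn_velo (hD : IsOpen D) (hG : ContDiffOn ℝ ∞ G D) (hpos : ∀ y ∈ D, PosDef (G y)) :
    ContDiffOn ℝ ∞ (velo G) (D ×ˢ Set.univ) := fun _ hz =>
  (sm_velo hD hG hpos hz.1).contDiffWithinAt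

/-- Same proof as `contDiffOn_acc` (`GS/Acc.lean`). -/
theorem contDiffOn_hvec (hD : IsOpen D) (hG : ContDiffOn ℝ ∞ G D) (hpos : ∀ y ∈ D, PosDef (G y)) :
    ContDiffOn ℝ ∞ (hvec G) (D ×ˢ Set.univ) := fun _ hz =>
  (sm_hvec hD hG hpos hz.1).contDiffWithinAt

theorem contDiffOn_ham (hD : IsOpen D) (hG : ContDiffOn ℝ ∞ G D) (hpos : ∀ y ∈ D, PosDef (G y)) :
    ContDiffOn ℝ ∞ (ham G) (D ×ˢ Set.univ) := fun _ hz =>
  (sm_ham hD hG hpos hz.1).contDiffWithinAt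

end Pool.Agent.Helper82.PE
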