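import Pool.Agent.Helper82.PE.NearC2
import Pool.Agent.Helper82.PE.Smooth

/-!
# Closeness of the Hamiltonian vector fields (module PE-7)
-/

set_option maxSynthPendingDepth 3

namespace Pool.Agent.Helper82.PE

open MeasureTheory Filter Topology Pool.Agent.Helper82.GS
open scoped ContDiff Manifold NNReal

variable {S : Type*} [TopologicalSpace S] [ChartedSpace P2 S]

/-- the vector field in terms of the metric, its derivative and the momentum -/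
private noncomputable def Th (t : Bil × (P2 →L[ℝ] Bil) × Cov) : Ph :=
  (ContinuousLinearMap.inverse t.1 t.2.2,
    (1 / 2 : ℝ) • (t.2.1.flip (ContinuousLinearMap.inverse t.1 t.2.2)).flip
      (ContinuousLinearMap.inverse t.1 t.2.2))

private theorem contDiffAt_Th {n : WithTop ℕ∞} {A : Bil} (hA : PosDef A) (B : P2 →L[ℝ] Bil) (p : Cov) :
    ContDiffAt ℝ n Th (A, B, p) := by
  unfold Th
  obtain ⟨e, he⟩ := hA.exists_equiv
  have h1 : ContDiffAt ℝ n (ContinuousLinearMap.inverse : Bil → _) A := by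
    rw [← he]
    exact contDiffAt_map_inverse e
  have h2 : ContDiffAt ℝ n (fun t : Bil × (P2 →L[ℝ] Bil) × Cov =>
      ContinuousLinearMap.inverse t.1) (A, B, p) :=
    ContDiffAt.comp (A, B, p) h1 contDiffAt_fst
  have h3 : ContDiffAt ℝ n (fun t : Bil × (P2 →L[ℝ] Bil) × Cov =>
      ContinuousLinearMap.inverse t.1 t.2.2) (A, B, p) :=
    h2.clm_apply (contDiff_snd.snd.contDiffAt)
  have h4 : ContDiff ℝ n (fun t : Bil × (P2 →L[ℝ] Bil) × Cov => t.2.1.flip) :=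
    (ContinuousLinearMap.flipₗᵢ ℝ P2 P2 (P2 →L[ℝ] ℝ)).contDiff.comp contDiff_snd.fst
  have h5 : ContDiffAt ℝ n (fun t : Bil × (P2 →L[ℝ] Bil) × Cov =>
      t.2.1.flip (ContinuousLinearMap.inverse t.1 t.2.2)) (A, B, p) :=
    h4.contDiffAt.clm_apply h3
  have h6 : ContDiffAt ℝ n (fun t : Bil × (P2 →L[ℝ] Bil) × Cov =>
      (t.2.1.flip (ContinuousLinearMap.inverse t.1 t.2.2)).flip) (A, B, p) :=
    ContDiffAt.comp (A, B, p)
      ((ContinuousLinearMap.flipₗᵢ ℝ P2 P2 ℝ).contDiff.contDiffAt) h5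
  have h7 : ContDiffAt ℝ n (fun t : Bil × (P2 →L[ℝ] Bil) × Cov =>
      (t.2.1.flip (ContinuousLinearMap.inverse t.1 t.2.2)).flip
        (ContinuousLinearMap.inverse t.1 t.2.2)) (A, B, p) :=
    h6.clm_apply h3
  exact h3.prodMk (h7.const_smul (1 / 2 : ℝ))

/-- the linear map given by the derivatives of the metric -/
private noncomputable def Lm (B : P2 →L[ℝ] Bil) (C : P2 →L[ℝ] P2 →L[ℝ] Bil) :
    Ph →L[ℝ] (Bil × (P2 →L[ℝ] Bil) × Cov) :=
  (B ∘L ContinuousLinearMap.fst ℝ P2 Cov).prod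
    ((C ∘L ContinuousLinearMap.fst ℝ P2 Cov).prod (ContinuousLinearMap.snd ℝ P2 Cov))

private noncomputable def Xi (x : (Bil × (P2 →L[ℝ] Bil) × Cov) × (P2 →L[ℝ] P2 →L[ℝ] Bil)) :
    Ph × (Ph →L[ℝ] Ph) :=
  (Th x.1, (fderiv ℝ Th x.1) ∘L (Lm x.1.2.1 x.2))

private theorem continuous_Lm : Continuous fun x : (P2 →L[ℝ] Bil) × (P2 →L[ℝ] P2 →L[ℝ] Bil) =>
    Lm x.1 x.2 := by
  unfold Lm
  have h1 : Continuous fun x : (P2 →L[ℝ] Bil) × (P2 →L[ℝ] P2 →L[ℝ] Bil) =>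
      x.1 ∘L ContinuousLinearMap.fst ℝ P2 Cov := continuous_fst.clm_comp continuous_const
  have h2 : Continuous fun x : (P2 →L[ℝ] Bil) × (P2 →L[ℝ] P2 →L[ℝ] Bil) =>
      x.2 ∘L ContinuousLinearMap.fst ℝ P2 Cov := continuous_snd.clm_comp continuous_const
  have h3 : Continuous fun x : (P2 →L[ℝ] Bil) × (P2 →L[ℝ] P2 →L[ℝ] Bil) =>
      (x.2 ∘L ContinuousLinearMap.fst ℝ P2 Cov).prod (ContinuousLinearMap.snd ℝ P2 Cov) :=
    (ContinuousLinearMap.prodₗᵢ ℝ).continuous.comp (h2.prodMk continuous_const)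
  exact (ContinuousLinearMap.prodₗᵢ ℝ).continuous.comp (h1.prodMk h3)

private theorem continuousAt_Xi {A : Bil} (hA : PosDef A) (B : P2 →L[ℝ] Bil) (p : Cov)
    (C : P2 →L[ℝ] P2 →L[ℝ] Bil) : ContinuousAt Xi ((A, B, p), C) := by
  have h0 : ContDiffAt ℝ 2 Th (A, B, p) := contDiffAt_Th hA B p
  have h1 : ContinuousAt Th (A, B, p) := h0.continuousAt
  have h2 : ContinuousAt (fderiv ℝ Th) (A, B, p) :=
    (h0.fderiv_right (m := 1) (by norm_num)).continuousAt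
  have h3 : ContinuousAt (fun x : (Bil × (P2 →L[ℝ] Bil) × Cov) × (P2 →L[ℝ] P2 →L[ℝ] Bil) =>
      Th x.1) ((A, B, p), C) :=
    ContinuousAt.comp (f := Prod.fst) (g := Th) (x := ((A, B, p), C)) h1 continuousAt_fst
  have h4 : ContinuousAt (fun x : (Bil × (P2 →L[ℝ] Bil) × Cov) × (P2 →L[ℝ] P2 →L[ℝ] Bil) =>
      fderiv ℝ Th x.1) ((A, B, p), C) :=
    ContinuousAt.comp (f := Prod.fst) (g := fderiv ℝ Th) (x := ((A, B, p), C)) h2 continuousAt_fst
  have h5 : Continuous (fun x : (Bil × (P2 →L[ℝ] Bil) × Cov) × (P2 →L[ℝ] P2 →L[ℝ] Bil) =>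
      Lm x.1.2.1 x.2) :=
    continuous_Lm.comp (continuous_fst.snd.fst.prodMk continuous_snd)
  exact h3.prodMk (h4.clm_comp h5.continuousAt)

private theorem hvec_eq (G : P2 → Bil) :
    hvec G = fun z : Ph => Th (G z.1, fderiv ℝ G z.1, z.2) := rfl

private theorem Xi_eq {D : Set P2} (hD : IsOpen D) {G : P2 → Bil} (hG : ContDiffOn ℝ ∞ G D)
    (hpos : ∀ y ∈ D, PosDef (G y)) {z : Ph} (hz : z.1 ∈ D) :
    Xi ((G z.1, fderiv ℝ G z.1, z.2), fderiv ℝ (fderiv ℝ G) z.1) =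
      (hvec G z, fderiv ℝ (hvec G) z) := by
  have hfd : ContDiffOn ℝ ∞ (fderiv ℝ G) D := hG.fderiv_of_isOpen hD (by simp)
  have h1 : HasFDerivAt G (fderiv ℝ G z.1) z.1 :=
    ((hG.contDiffAt (hD.mem_nhds hz)).differentiableAt (by simp)).hasFDerivAt
  have h2 : HasFDerivAt (fderiv ℝ G) (fderiv ℝ (fderiv ℝ G) z.1) z.1 :=
    ((hfd.contDiffAt (hD.mem_nhds hz)).differentiableAt (by simp)).hasFDerivAt
  have h3 : HasFDerivAt (fun z : Ph => (G z.1, fderiv ℝ G z.1, z.2))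
      (Lm (fderiv ℝ G z.1) (fderiv ℝ (fderiv ℝ G) z.1)) z :=
    (h1.comp z hasFDerivAt_fst).prodMk ((h2.comp z hasFDerivAt_fst).prodMk hasFDerivAt_snd)
  have h4 : HasFDerivAt Th (fderiv ℝ Th (G z.1, fderiv ℝ G z.1, z.2))
      (G z.1, fderiv ℝ G z.1, z.2) :=
    ((contDiffAt_Th (n := 1) (hpos _ hz) (fderiv ℝ G z.1) z.2).differentiableAt
      (by norm_num)).hasFDerivAt
  have h5 := (HasFDerivAt.comp z h4 h3).fderiv
  unfold Xi
  refine Prod.ext rfl ?_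
  exact h5.symm

private theorem abs_unif {E F : Type*} [NormedAddCommGroup E] [NormedAddCommGroup F]
    (f : E → F) {s : Set E} (hs : IsCompact s) (hf : ∀ a ∈ s, ContinuousAt f a) {η : ℝ} (hη : 0 < η) :
    ∃ δ > 0, ∀ a ∈ s, ∀ b, ‖b - a‖ < δ → ‖f b - f a‖ < η := by
  have hunif := hs.uniformContinuousAt_of_continuousAt f hf (Metric.dist_mem_uniformity hη)
  obtain ⟨δ, hδ, hδ'⟩ := Metric.mem_uniformity_dist.1 hunif
  refine ⟨δ, hδ, fun a ha b h1 => ?_⟩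
  have hd : dist a b < δ := by
    rw [dist_comm, dist_eq_norm]
    exact h1
  have h5 : dist (f a) (f b) < η := hδ' hd ha
  rw [dist_comm, dist_eq_norm] at h5
  exact h5

private theorem Xi_unif {s : Set ((Bil × (P2 →L[ℝ] Bil) × Cov) × (P2 →L[ℝ] P2 →L[ℝ] Bil))}
    (hs : IsCompact s) (hf : ∀ a ∈ s, ContinuousAt Xi a) {η : ℝ} (hη : 0 < η) :
    ∃ δ > 0, ∀ a ∈ s, ∀ b, ‖b - a‖ < δ → ‖Xi b - Xi a‖ < η :=
  abs_unif Xi hs hf hη

/-- the jet of the metric -/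
private noncomputable def Jt (G : P2 → Bil) (z : P2 × Cov) :
    (Bil × (P2 →L[ℝ] Bil) × Cov) × (P2 →L[ℝ] P2 →L[ℝ] Bil) :=
  ((G z.1, fderiv ℝ G z.1, z.2), fderiv ℝ (fderiv ℝ G) z.1)

private theorem compact_Jt {D : Set P2} (hD : IsOpen D) {G : P2 → Bil} (hG : ContDiffOn ℝ ∞ G D)
    {K : Set P2} (hK : IsCompact K) (hKD : K ⊆ D) (B : ℝ) :
    IsCompact (Jt G '' (K ×ˢ Metric.closedBall (0 : Cov) B)) := by
  have hfd : ContDiffOn ℝ ∞ (fderiv ℝ G) D := hG.fderiv_of_isOpen hD (by simp)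
  have hfdd : ContDiffOn ℝ ∞ (fderiv ℝ (fderiv ℝ G)) D := hfd.fderiv_of_isOpen hD (by simp)
  refine (hK.prod (isCompact_closedBall 0 B)).image_of_continuousOn ?_
  have hm : Set.MapsTo (Prod.fst : P2 × Cov → P2) (K ×ˢ Metric.closedBall (0 : Cov) B) D :=
    fun z hz => hKD hz.1
  have c1 : ContinuousOn (fun z : P2 × Cov => G z.1) (K ×ˢ Metric.closedBall (0 : Cov) B) :=
    hG.continuousOn.comp continuousOn_fst hm
  have c2 : ContinuousOn (fun z : P2 × Cov => fderiv ℝ G z.1)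
      (K ×ˢ Metric.closedBall (0 : Cov) B) :=
    hfd.continuousOn.comp continuousOn_fst hm
  have c3 : ContinuousOn (fun z : P2 × Cov => fderiv ℝ (fderiv ℝ G) z.1)
      (K ×ˢ Metric.closedBall (0 : Cov) B) :=
    hfdd.continuousOn.comp continuousOn_fst hm
  exact (c1.prodMk (c2.prodMk continuousOn_snd)).prodMk c3

private theorem Xi_Jt {D : Set P2} (hD : IsOpen D) {G : P2 → Bil} (hG : ContDiffOn ℝ ∞ G D)
    (hpos : ∀ y ∈ D, PosDef (G y)) {z : Ph} (hz : z.1 ∈ D) :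
    Xi (Jt G z) = (hvec G z, fderiv ℝ (hvec G) z) := Xi_eq hD hG hpos hz

/-- Proof: `hvec G z = Θ (G z.1, fderiv ℝ G z.1, z.2)` with `Θ (A, B, p) = (v, (1/2) (B.flip v).flip v)`,
`v = inverse A p`, which is smooth at `(A, B, p)` for positive definite `A`.  By the chain rule
`fderiv (hvec G) z = Ξ (G q, D G q, D D G q, p)` where `Ξ (A, B, C, p) = fderiv Θ (A, B, p) ∘ (ζ ↦ (B ζ.1, C ζ.1, ζ.2))`
is continuous at the points with `A` positive definite.  The set of the points `(G₀ q, D G₀ q, D D G₀ q, p)`,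
`q ∈ K`, `‖p‖ ≤ B`, is compact, so `IsCompact.uniformContinuousAt_of_continuousAt` and `near_C2` finish the proof. -/
theorem near_hvec (g₀ : RMetric S) {e : OpenPartialHomeomorph S P2} (he : e ∈ atlas P2 S) {K : Set P2}
    (hK : IsCompact K) (hKe : K ⊆ e.target) (B : ℝ) {η : ℝ} (hη : 0 < η) :
    ∀ᶠ g in 𝓝 g₀, ∀ z : Ph, z.1 ∈ K → ‖z.2‖ ≤ B → ‖hvec (g.comp e) z - hvec (g₀.comp e) z‖ ≤ η ∧
      ‖fderiv ℝ (hvec (g.comp e)) z - fderiv ℝ (hvec (g₀.comp e)) z‖ ≤ η := by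
  obtain ⟨δ, hδ, hδ'⟩ := Xi_unif (compact_Jt e.open_target (g₀.smooth e he) hK hKe B) (by
    rintro _ ⟨z, hz, rfl⟩
    exact continuousAt_Xi (g₀.posDef e he z.1 (hKe hz.1)) _ _ _) hη
  filter_upwards [near_C2 g₀ he hK hKe hδ] with g hg z hzK hzB
  obtain ⟨n1, n2, n3⟩ := hg z.1 hzK
  have h0 : ‖Jt (g.comp e) z - Jt (g₀.comp e) z‖ < δ := by
    have h3 : ‖z.2 - z.2‖ < δ := by rw [sub_self, norm_zero]; exact hδ
    exact max_lt (max_lt n1 (max_lt n2 h3)) n3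
  have h1 := hδ' (Jt (g₀.comp e) z) ⟨z, ⟨hzK, mem_closedBall_zero_iff.2 hzB⟩, rfl⟩
    (Jt (g.comp e) z) h0
  rw [Xi_Jt e.open_target (g.smooth e he) (g.posDef e he) (hKe hzK),
    Xi_Jt e.open_target (g₀.smooth e he) (g₀.posDef e he) (hKe hzK)] at h1
  exact ⟨(norm_fst_le _).trans h1.le, (norm_snd_le _).trans h1.le⟩

end Pool.Agent.Helper82.PE
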