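import Pool.Agent.Helper82.PE.Zc
import Pool.Agent.Helper82.PE.Smooth

/-!
# Geodesics are smooth (module PE-19)
-/

set_option maxSynthPendingDepth 3

namespace Pool.Agent.Helper82.PE

open MeasureTheory Filter Topology Pool.Agent.Helper82.GS
open scoped ContDiff Manifold NNReal

/-- Bootstrapping: `z` is continuous; if `z` is of class `C^n` on `I` then so is `z' = X ∘ z`, hence `z` is of class
`C^(n+1)` (`contDiffOn_succ_iff_deriv_of_isOpen`). -/
theorem contDiffOn_of_ode {E : Type*} [NormedAddCommGroup E] [NormedSpace ℝ E] {X : E → E} {O : Set E}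
    (hO : IsOpen O) (hX : ContDiffOn ℝ ∞ X O) {z : ℝ → E} {I : Set ℝ} (hI : IsOpen I)
    (hz : ∀ t ∈ I, z t ∈ O ∧ HasDerivAt z (X (z t)) t) : ContDiffOn ℝ ∞ z I := by
  have hdiff : DifferentiableOn ℝ z I := fun t ht =>
    (hz t ht).2.differentiableAt.differentiableWithinAt
  rw [contDiffOn_infty]
  intro n
  induction n with
  | zero => exact contDiffOn_zero.2 hdiff.continuousOn
  | succ n ih =>
    have h1 : ContDiffOn ℝ n (X ∘ z) I := by
      refine ContDiffOn.comp (hX.of_le ?_) ih (fun t ht => (hz t ht).1)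
      exact mod_cast le_top
    have h2 : ContDiffOn ℝ n (deriv z) I := h1.congr (fun t ht => (hz t ht).2.deriv)
    push_cast
    rw [contDiffOn_succ_iff_deriv_of_isOpen hI]
    refine ⟨hdiff, ?_, h2⟩
    intro h3
    exact absurd h3 (by simp)

variable {S : Type*} [TopologicalSpace S] [ChartedSpace P2 S]

/-- Apply the previous theorem to `z = zc g γ e` (`hasDerivAt_zc`, `contDiffOn_hvec`) on the open set
`γ ⁻¹' e.source`. -/
theorem contDiffAt_geodesic {g : RMetric S} {γ : ℝ → S} (hγ : IsGeodesic g γ) {e : OpenPartialHomeomorph S P2}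
    (he : e ∈ atlas P2 S) {t : ℝ} (ht : γ t ∈ e.source) : ContDiffAt ℝ ∞ (e ∘ γ) t := by
  have hI : IsOpen (γ ⁻¹' e.source) := e.open_source.preimage hγ.1
  have h := contDiffOn_of_ode (e.open_target.prod isOpen_univ)
    (contDiffOn_hvec e.open_target (g.smooth e he) (g.posDef e he)) hI
    (z := zc g γ e) (fun s hs => ⟨⟨e.map_source hs, trivial⟩, hasDerivAt_zc hγ he hs⟩)
  exact (h.contDiffAt (hI.mem_nhds ht)).fst

end Pool.Agent.Helper82.PE
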