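import Pool.Agent.Helper82.PE.Smooth
import Pool.Agent.Helper82.PE.FHam
import Pool.Agent.Helper82.PE.FHvec
import Pool.Agent.Helper82.PE.Homog
import Pool.Agent.Helper82.PE.NearC2
import Pool.Agent.Helper82.PE.NearHvec
import Pool.Agent.Helper82.PE.NearHam
import Pool.Agent.Helper82.PE.Conf
import Pool.Agent.Helper82.PE.Ctr
import Pool.Agent.Helper82.PE.CtrSymp
import Pool.Agent.Helper82.PE.CtrHam
import Pool.Agent.Helper82.PE.Zc
import Pool.Agent.Helper82.PE.Crd
import Pool.Agent.Helper82.PE.Sol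
import Pool.Agent.Helper82.PE.Glue
import Pool.Agent.Helper82.PE.Energy
import Pool.Agent.Helper82.PE.Lift
import Pool.Agent.Helper82.PE.SmoothGeo
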