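import Pool.Agent.Helper82.PE.Defs

/-!
# Countability of orthogonal families (module PE-31)
-/

set_option maxSynthPendingDepth 3

namespace Pool.Agent.Helper82.PE

open MeasureTheory Filter Topology Pool.Agent.Helper82.GS
open scoped ContDiff Manifold NNReal

/-- For each `n` the points `φ i` with `q i > 1 / (n+1)` are `c`-separated with `c > 0` (for different indices `i, j`), so
the balls of radius `c / 2` around them are pairwise disjoint and there are countably many
(`Set.PairwiseDisjoint.countable_of_isOpen`). -/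
theorem countable_of_separated {X ι : Type*} [PseudoMetricSpace X] [TopologicalSpace.SeparableSpace X] {φ : ι → X}
    {q : ι → ℝ} {C : ℝ} (hq : ∀ i, 0 < q i) (h : ∀ i j, i ≠ j → q i + q j ≤ C * dist (φ i) (φ j) ^ 2) :
    Countable ι := by
  rcases le_or_gt C 0 with hC | hC
  · have : Subsingleton ι := by
      refine ⟨fun i j => ?_⟩
      by_contra hij
      have h1 := h i j hij
      have h2 : C * dist (φ i) (φ j) ^ 2 ≤ 0 := mul_nonpos_of_nonpos_of_nonneg hC (sq_nonneg _)
      have h3 := hq i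
      have h4 := hq j
      linarith
    infer_instance
  · have hn : ∀ n : ℕ, {i | 1 / ((n : ℝ) + 1) < q i}.Countable := by
      intro n
      have hpos : 0 < 2 / (((n : ℝ) + 1) * C) := by positivity
      set ρ := Real.sqrt (2 / (((n : ℝ) + 1) * C)) / 2 with hρ
      have hρ0 : 0 < ρ := by
        have := Real.sqrt_pos.2 hpos
        positivity
      refine Set.PairwiseDisjoint.countable_of_isOpen (s := fun i => Metric.ball (φ i) ρ) ?_ ?_ ?_
      · intro i hi j hj hij
        apply Metric.ball_disjoint_ball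
        have e1 : ρ + ρ = Real.sqrt (2 / (((n : ℝ) + 1) * C)) := by rw [hρ]; ring
        rw [e1, Real.sqrt_le_iff]
        refine ⟨dist_nonneg, ?_⟩
        have h1 := h i j hij
        have h2 : 1 / ((n : ℝ) + 1) < q i := hi
        have h3 : 1 / ((n : ℝ) + 1) < q j := hj
        have e2 : 2 / (((n : ℝ) + 1) * C) = (2 / ((n : ℝ) + 1)) / C := by
          field_simp
        rw [e2, div_le_iff₀ hC]
        have e3 : 2 / ((n : ℝ) + 1) = 1 / ((n : ℝ) + 1) + 1 / ((n : ℝ) + 1) := by ring
        rw [e3]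
        linarith
      · intro i _
        exact Metric.isOpen_ball
      · intro i _
        exact ⟨φ i, Metric.mem_ball_self hρ0⟩
    have hU : (Set.univ : Set ι) = ⋃ n : ℕ, {i | 1 / ((n : ℝ) + 1) < q i} := by
      ext i
      simp only [Set.mem_univ, Set.mem_iUnion, true_iff]
      exact exists_nat_one_div_lt (hq i)
    rw [← Set.countable_univ_iff, hU]
    exact Set.countable_iUnion hn

/-- A family of continuous curves in the plane which are pairwise orthogonal for a weighted scalar product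
`∫ t in a..b, B t (φ t) (ψ t)`, with positive norms, is countable: apply the previous theorem in `C(Icc a b, P2)`
(separable), with `q i = ∫ B (φ i) (φ i)`, `∫ B (φ i - φ j) (φ i - φ j) = q i + q j`, `C = (b - a) sup ‖B t‖`. -/
theorem countable_of_orthogonal {ι : Type*} {a b : ℝ} (hab : a ≤ b) {B : ℝ → Bil}
    (hB : ContinuousOn B (Set.Icc a b)) {φ : ι → ℝ → P2} (hφ : ∀ i, ContinuousOn (φ i) (Set.Icc a b))
    (hq : ∀ i, 0 < ∫ t in a..b, B t (φ i t) (φ i t))
    (h : ∀ i j, i ≠ j → ∫ t in a..b, B t (φ i t) (φ j t) = 0) : Countable ι := by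
  obtain ⟨M, hM⟩ := isCompact_Icc.exists_bound_of_continuousOn hB
  have hM0 : 0 ≤ M := (norm_nonneg _).trans (hM a ⟨le_rfl, hab⟩)
  let Φ : ι → C(Set.Icc a b, P2) := fun i => ⟨Set.restrict (Set.Icc a b) (φ i), (hφ i).restrict⟩
  have hint : ∀ i j, IntervalIntegrable (fun t => B t (φ i t) (φ j t)) volume a b := by
    intro i j
    apply ContinuousOn.intervalIntegrable_of_Icc hab
    exact (hB.clm_apply (hφ i)).clm_apply (hφ j)
  refine countable_of_separated (φ := Φ) (q := fun i => ∫ t in a..b, B t (φ i t) (φ i t))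
    (C := M * (b - a)) hq ?_
  intro i j hij
  have e1 : ∫ t in a..b, B t (φ i t - φ j t) (φ i t - φ j t) =
      (∫ t in a..b, B t (φ i t) (φ i t)) + ∫ t in a..b, B t (φ j t) (φ j t) := by
    have e2 : (fun t => B t (φ i t - φ j t) (φ i t - φ j t)) = fun t =>
        (B t (φ i t) (φ i t) + B t (φ j t) (φ j t)) -
          (B t (φ i t) (φ j t) + B t (φ j t) (φ i t)) := by
      funext t
      simp only [map_sub, ContinuousLinearMap.sub_apply]
      ring
    rw [e2, intervalIntegral.integral_sub ((hint i i).add (hint j j)) ((hint i j).add (hint j i)),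
      intervalIntegral.integral_add (hint i i) (hint j j),
      intervalIntegral.integral_add (hint i j) (hint j i), h i j hij, h j i hij.symm]
    ring
  change (∫ t in a..b, B t (φ i t) (φ i t)) + (∫ t in a..b, B t (φ j t) (φ j t)) ≤ _
  rw [← e1]
  have hd : ∀ t ∈ Set.Icc a b, ‖φ i t - φ j t‖ ≤ dist (Φ i) (Φ j) := by
    intro t ht
    rw [← dist_eq_norm]
    exact ContinuousMap.dist_apply_le_dist (f := Φ i) (g := Φ j) ⟨t, ht⟩
  have h3 : ‖∫ t in a..b, B t (φ i t - φ j t) (φ i t - φ j t)‖ ≤
      (M * dist (Φ i) (Φ j) ^ 2) * |b - a| := by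
    apply intervalIntegral.norm_integral_le_of_norm_le_const
    intro t ht
    rw [Set.uIoc_of_le hab] at ht
    have ht' : t ∈ Set.Icc a b := ⟨ht.1.le, ht.2⟩
    have h4 := (B t).le_opNorm₂ (φ i t - φ j t) (φ i t - φ j t)
    have h5 := hM t ht'
    have h6 := hd t ht'
    have h7 := norm_nonneg (φ i t - φ j t)
    calc ‖B t (φ i t - φ j t) (φ i t - φ j t)‖
        ≤ ‖B t‖ * ‖φ i t - φ j t‖ * ‖φ i t - φ j t‖ := h4
      _ = ‖B t‖ * ‖φ i t - φ j t‖ ^ 2 := by ring
      _ ≤ M * dist (Φ i) (Φ j) ^ 2 :=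
        mul_le_mul h5 (pow_le_pow_left₀ h7 h6 2) (sq_nonneg _) hM0
  rw [abs_of_nonneg (by linarith)] at h3
  calc (∫ t in a..b, B t (φ i t - φ j t) (φ i t - φ j t))
      ≤ ‖∫ t in a..b, B t (φ i t - φ j t) (φ i t - φ j t)‖ := le_abs_self _
    _ ≤ (M * dist (Φ i) (Φ j) ^ 2) * (b - a) := h3
    _ = M * (b - a) * dist (Φ i) (Φ j) ^ 2 := by ring

end Pool.Agent.Helper82.PE
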