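import Pool.Agent.Helper82.PE.Tang
import Pool.Agent.Helper82.PE.Orth
import Pool.Agent.Helper82.PE.Conf

/-!
# Degenerate parameters are countable (module PE-32)
-/

set_option maxSynthPendingDepth 3

namespace Pool.Agent.Helper82.PE

open MeasureTheory Filter Topology Pool.Agent.Helper82.GS
open scoped ContDiff Manifold NNReal

private theorem om_add_smul_right (ζ V X : Ph) (T : ℝ) : om ζ (V + T • X) = om ζ V + T * om ζ X := by
  simp only [om, Prod.fst_add, Prod.snd_add, Prod.smul_fst, Prod.smul_snd, map_add, map_smul,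
    _root_.add_apply, _root_.smul_apply, smul_eq_mul]
  ring

/-- Let `M ε = Rr ∘ m ε b`, `X = hvec G (z a)`, `V = (0, (z a).2)`, `T = τ + (b - a) ≠ 0`.  The curve `z` solves the Hamilton
equations of `Gε ε` too (`hvec_conf`), so by `propagator_*`, `M ε` is symplectic, `M ε X = X`, `M ε V = V + T X`
(`propagator_radial` at `t = b`, `hRV`, `hRX`; use `hvec_conf` to pass from `Gε ε` to `G`).
(i) If `M ζ = ζ` then `om ζ X = 0`: `om ζ V = om (M ζ) (M V) = om ζ V + T om ζ X`.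
(ii) For bad `ε ≠ ε'` with vectors `ζ, ζ'` and `B t = fderiv (fderiv f) (z t).1`: by `wronskian` and `fderiv2_ham_conf`
(`ham = 1/2`): `om (m ε b ζ) (m ε' b ζ') - om ζ ζ' = (1/2) (ε' - ε) ∫ B t (m ε t ζ).1 (m ε' t ζ').1`; the left side is
`om (M ε ζ) (M ε' ζ') - om ζ ζ' = 0`.
(iii) If `∫ B t (φ t) (φ t) = 0` for `φ t = (m ε t ζ).1` then, `B t` being nonnegative and everything continuous,
`B t (φ t) (φ t) = 0` for all `t ∈ Ioo s₁ s₂`, so `φ t` is a multiple of `velo G (z t) = velo (Gε ε) (z t)` by `hf3`, and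
`tangential` (for `Gε ε`) says `ζ` is a multiple of `X`.
(iv) Choose `ζ` for every bad `ε`; `countable_of_orthogonal` with the index set the bad parameters. -/
theorem countable_bad {D : Set P2} (hD : IsOpen D) {G : P2 → Bil} (hG : ContDiffOn ℝ ∞ G D)
    (hpos : ∀ y ∈ D, PosDef (G y)) {f : P2 → ℝ} (hf : ContDiff ℝ ∞ f) {Gε : ℝ → P2 → Bil} {P : Set ℝ}
    (hP : ∀ ε ∈ P, ∀ y, 0 < 1 + ε * f y) (hGε : ∀ ε ∈ P, ∀ y ∈ D, Gε ε y = (1 + ε * f y)⁻¹ • G y)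
    {z : ℝ → Ph} {a b : ℝ} (hab : a < b)
    (hz : ∀ t ∈ Set.Icc a b, HasDerivWithinAt z (hvec G (z t)) (Set.Icc a b) t)
    (hzD : ∀ t ∈ Set.Icc a b, (z t).1 ∈ D) (hH : ∀ t ∈ Set.Icc a b, ham G (z t) = 1 / 2)
    (hf0 : ∀ t ∈ Set.Icc a b, f (z t).1 = 0 ∧ fderiv ℝ f (z t).1 = 0)
    (hf2 : ∀ t ∈ Set.Icc a b, ∀ u, 0 ≤ fderiv ℝ (fderiv ℝ f) (z t).1 u u)
    {s₁ s₂ : ℝ} (h₁ : a ≤ s₁) (h₁₂ : s₁ < s₂) (h₂ : s₂ ≤ b)
    (hf3 : ∀ t ∈ Set.Ioo s₁ s₂, ∀ u, fderiv ℝ (fderiv ℝ f) (z t).1 u u = 0 → ∃ c : ℝ, u = c • velo G (z t))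
    {m : ℝ → ℝ → Ph →L[ℝ] Ph} (hma : ∀ ε ∈ P, m ε a = ContinuousLinearMap.id ℝ Ph)
    (hm : ∀ ε ∈ P, ∀ t ∈ Set.Icc a b,
      HasDerivWithinAt (m ε) ((fderiv ℝ (hvec (Gε ε)) (z t)) ∘L m ε t) (Set.Icc a b) t)
    {Rr : Ph →L[ℝ] Ph} (hR : ∀ ζ η, om (Rr ζ) (Rr η) = om ζ η) (hRX : Rr (hvec G (z b)) = hvec G (z a)) {τ : ℝ}
    (hτ : τ + (b - a) ≠ 0) (hRV : Rr (0, (z b).2) = (0, (z a).2) + τ • hvec G (z a)) :
    {ε | ε ∈ P ∧ ∃ ζ, Rr (m ε b ζ) = ζ ∧ ∀ c : ℝ, ζ ≠ c • hvec G (z a)}.Countable := by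
  classical
  have hbI : b ∈ Set.Icc a b := Set.right_mem_Icc.2 hab.le
  have haI : a ∈ Set.Icc a b := Set.left_mem_Icc.2 hab.le
  have hzc : ContinuousOn z (Set.Icc a b) := fun t ht => (hz t ht).continuousWithinAt
  have hsm : ∀ ε ∈ P, ContDiffOn ℝ ∞ (Gε ε) D ∧ ∀ y ∈ D, PosDef (Gε ε y) := fun ε hε =>
    smooth_conf hG hpos hf (hP ε hε) (hGε ε hε)
  have hcf : ∀ ε ∈ P, ∀ t ∈ Set.Icc a b, hvec (Gε ε) (z t) = hvec G (z t) ∧
      ham (Gε ε) (z t) = ham G (z t) := fun ε hε t ht =>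
    hvec_conf hD hG hf (hP ε hε) (hGε ε hε) (hzD t ht) (hf0 t ht).1 (hf0 t ht).2
  have hz' : ∀ ε ∈ P, ∀ t ∈ Set.Icc a b,
      HasDerivWithinAt z (hvec (Gε ε) (z t)) (Set.Icc a b) t := by
    intro ε hε t ht
    rw [(hcf ε hε t ht).1]
    exact hz t ht
  have hvel : ∀ ε ∈ P, ∀ t ∈ Set.Icc a b, velo (Gε ε) (z t) = velo G (z t) := by
    intro ε hε t ht
    exact congrArg Prod.fst (hcf ε hε t ht).1
  have hom : ∀ ε ∈ P, ∀ ζ η : Ph, om (m ε b ζ) (m ε b η) = om ζ η := fun ε hε ζ η =>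
    propagator_om hD (hsm ε hε).1 (hsm ε hε).2 hzc hzD (hma ε hε) (hm ε hε) hbI ζ η
  have hMV : ∀ ε ∈ P, Rr (m ε b (0, (z a).2)) =
      (0, (z a).2) + (τ + (b - a)) • hvec G (z a) := by
    intro ε hε
    rw [propagator_radial hD (hsm ε hε).1 (hsm ε hε).2 (hz' ε hε) hzD (hma ε hε) (hm ε hε) hbI,
      map_add, map_smul, hRV, (hcf ε hε b hbI).1, hRX, add_assoc, ← add_smul]
  have hX : ∀ ε ∈ P, ∀ ζ : Ph, Rr (m ε b ζ) = ζ → om ζ (hvec G (z a)) = 0 := by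
    intro ε hε ζ hζ
    have h1 : om (Rr (m ε b ζ)) (Rr (m ε b (0, (z a).2))) = om ζ (0, (z a).2) := by
      rw [hR, hom ε hε]
    rw [hζ, hMV ε hε, om_add_smul_right] at h1
    have h2 : (τ + (b - a)) * om ζ (hvec G (z a)) = 0 := by linarith
    exact (mul_eq_zero.1 h2).resolve_left hτ
  have hBc : ContinuousOn (fun t => fderiv ℝ (fderiv ℝ f) (z t).1) (Set.Icc a b) := by
    have h1 : Continuous (fderiv ℝ (fderiv ℝ f)) := by
      have h2 : ContDiff ℝ 1 (fderiv ℝ f) := hf.fderiv_right (by norm_cast)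
      exact h2.continuous_fderiv (by simp)
    exact h1.comp_continuousOn (continuous_fst.comp_continuousOn hzc)
  have hφc : ∀ ε ∈ P, ∀ ζ : Ph, ContinuousOn (fun t => (m ε t ζ).1) (Set.Icc a b) := by
    intro ε hε ζ
    have h1 : ContinuousOn (m ε) (Set.Icc a b) := fun t ht => (hm ε hε t ht).continuousWithinAt
    exact continuous_fst.comp_continuousOn (h1.clm_apply continuousOn_const)
  choose! ζ hζ1 hζ2 using fun (ε : ℝ) (h : ε ∈ P ∧ ∃ ζ, Rr (m ε b ζ) = ζ ∧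
    ∀ c : ℝ, ζ ≠ c • hvec G (z a)) => h.2
  refine Set.countable_coe_iff.1 (countable_of_orthogonal
    (ι := {ε | ε ∈ P ∧ ∃ ζ, Rr (m ε b ζ) = ζ ∧ ∀ c : ℝ, ζ ≠ c • hvec G (z a)}) hab.le
    (B := fun t => fderiv ℝ (fderiv ℝ f) (z t).1) hBc
    (φ := fun i t => (m i.1 t (ζ i.1)).1) (fun i => hφc i.1 i.2.1 _) ?_ ?_)
  · rintro ⟨ε, hε⟩
    simp only
    have hεP := hε.1
    have hcont : ContinuousOn (fun t => fderiv ℝ (fderiv ℝ f) (z t).1 (m ε t (ζ ε)).1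
        (m ε t (ζ ε)).1) (Set.Icc a b) :=
      (hBc.clm_apply (hφc ε hεP _)).clm_apply (hφc ε hεP _)
    refine intervalIntegral.integral_pos hab hcont
      (fun t ht => hf2 t ⟨ht.1.le, ht.2⟩ _) ?_
    by_contra hcon
    push Not at hcon
    have htan : ∀ t ∈ Set.Ioo s₁ s₂, ∃ c : ℝ, (m ε t (ζ ε)).1 = c • velo (Gε ε) (z t) := by
      intro t ht
      have htI : t ∈ Set.Icc a b := ⟨h₁.trans ht.1.le, ht.2.le.trans h₂⟩
      have h0 : fderiv ℝ (fderiv ℝ f) (z t).1 (m ε t (ζ ε)).1 (m ε t (ζ ε)).1 = 0 :=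
        le_antisymm (hcon t htI) (hf2 t htI _)
      obtain ⟨c, hc⟩ := hf3 t ht _ h0
      exact ⟨c, by rw [hvel ε hεP t htI]; exact hc⟩
    have hHε : ∀ t ∈ Set.Icc a b, ham (Gε ε) (z t) = 1 / 2 := by
      intro t ht
      rw [(hcf ε hεP t ht).2]
      exact hH t ht
    have hXε : om (ζ ε) (hvec (Gε ε) (z a)) = 0 := by
      rw [(hcf ε hεP a haI).1]
      exact hX ε hεP _ (hζ1 ε hε)
    obtain ⟨c, hc⟩ := tangential hD (hsm ε hεP).1 (hsm ε hεP).2 (hz' ε hεP) hzD hHε (hma ε hεP)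
      (hm ε hεP) h₁ h₁₂ h₂ hXε htan
    rw [(hcf ε hεP a haI).1] at hc
    exact hζ2 ε hε c hc
  · rintro ⟨ε, hε⟩ ⟨ε', hε'⟩ hne
    simp only
    have hne' : ε ≠ ε' := fun h => hne (Subtype.ext h)
    have hεP := hε.1
    have hεP' := hε'.1
    have hw := wronskian hD (hsm ε hεP).1 (hsm ε hεP).2 (hsm ε' hεP').1 (hsm ε' hεP').2 hab.le hzc
      hzD (hma ε hεP) (hma ε' hεP') (hm ε hεP) (hm ε' hεP') (ζ ε) (ζ ε')
    have hL : om (m ε b (ζ ε)) (m ε' b (ζ ε')) - om (ζ ε) (ζ ε') = 0 := by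
      rw [← hR (m ε b (ζ ε)) (m ε' b (ζ ε')), hζ1 ε hε, hζ1 ε' hε', sub_self]
    rw [hL] at hw
    have hint : ∫ t in a..b, (fderiv ℝ (fderiv ℝ (ham (Gε ε'))) (z t) (m ε t (ζ ε)) (m ε' t (ζ ε')) -
        fderiv ℝ (fderiv ℝ (ham (Gε ε))) (z t) (m ε t (ζ ε)) (m ε' t (ζ ε'))) =
        ∫ t in a..b, ((ε' - ε) * (1 / 2)) * (fderiv ℝ (fderiv ℝ f) (z t).1 (m ε t (ζ ε)).1
          (m ε' t (ζ ε')).1) := by
      refine intervalIntegral.integral_congr fun t ht => ?_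
      rw [Set.uIcc_of_le hab.le] at ht
      rw [fderiv2_ham_conf hD hG hpos hf (hP ε' hεP') (hGε ε' hεP') (hzD t ht) (hf0 t ht).1
          (hf0 t ht).2,
        fderiv2_ham_conf hD hG hpos hf (hP ε hεP) (hGε ε hεP) (hzD t ht) (hf0 t ht).1
          (hf0 t ht).2, hH t ht]
      ring
    rw [hint, intervalIntegral.integral_const_mul] at hw
    have h0 : (ε' - ε) * (1 / 2) ≠ 0 :=
      mul_ne_zero (sub_ne_zero.2 (Ne.symm hne')) (by norm_num)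
    exact (mul_eq_zero.1 hw.symm).resolve_left h0

end Pool.Agent.Helper82.PE
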