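import Pool.Agent.Helper82.PE.Defs

/-!
# A local defining function of a smooth curve (module PE-38)
-/

set_option maxSynthPendingDepth 3

namespace Pool.Agent.Helper82.PE

open MeasureTheory Filter Topology Pool.Agent.Helper82.GS
open scoped ContDiff Manifold NNReal

/-- Choose linear forms `α`, `β` on the plane, forming a basis, with `α (deriv c t₁) ≠ 0`.  The real function `α ∘ c` has a
smooth local inverse `θ` at `t₁` (`ContDiffAt.to_localInverse`).  Put `ρ y = β y - β (c (θ (α y)))`.  On the curve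
`ρ (c t) = 0`; differentiating, `fderiv ρ (c t) (deriv c t) = 0`; and `fderiv ρ y` is not zero (its restriction to the
kernel of `α` is `β`), so its kernel is a line, spanned by `deriv c t ≠ 0` for `t` near `t₁`. -/
theorem exists_defining {c : ℝ → P2} {t₁ : ℝ} (hc : ∀ᶠ t in 𝓝 t₁, ContDiffAt ℝ ∞ c t) (hd : deriv c t₁ ≠ 0) :
    ∃ η > 0, ∃ r > 0, ∃ ρ : P2 → ℝ, ContDiffOn ℝ ∞ ρ (Metric.ball (c t₁) r) ∧
      ∀ t, |t - t₁| < η → c t ∈ Metric.ball (c t₁) r → ρ (c t) = 0 ∧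
        ∀ u, fderiv ℝ ρ (c t) u = 0 → ∃ k : ℝ, u = k • deriv c t := by
  set v : P2 := deriv c t₁ with hv
  let p0 : P2 →L[ℝ] ℝ := EuclideanSpace.proj 0
  let p1 : P2 →L[ℝ] ℝ := EuclideanSpace.proj 1
  let α : P2 →L[ℝ] ℝ := v 0 • p0 + v 1 • p1
  let β : P2 →L[ℝ] ℝ := v 0 • p1 - v 1 • p0
  have hα : ∀ y, α y = v 0 * y 0 + v 1 * y 1 := fun y => rfl
  have hβ : ∀ y, β y = v 0 * y 1 - v 1 * y 0 := fun y => rfl
  have hvv : 0 < v 0 ^ 2 + v 1 ^ 2 := by
    rcases eq_or_ne (v 0) 0 with h0 | h0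
    · rcases eq_or_ne (v 1) 0 with h1 | h1
      · exfalso
        apply hd
        ext i
        fin_cases i
        · exact h0
        · exact h1
      · have := sq_nonneg (v 0)
        positivity
    · have := sq_nonneg (v 1)
      positivity
  have hinj : ∀ y, α y = 0 → β y = 0 → y = 0 := by
    intro y h1 h2
    rw [hα] at h1
    rw [hβ] at h2
    have e0 : (v 0 ^ 2 + v 1 ^ 2) * y 0 = 0 := by linear_combination v 0 * h1 - v 1 * h2
    have e1 : (v 0 ^ 2 + v 1 ^ 2) * y 1 = 0 := by linear_combination v 1 * h1 + v 0 * h2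
    have f0 := (mul_eq_zero.1 e0).resolve_left hvv.ne'
    have f1 := (mul_eq_zero.1 e1).resolve_left hvv.ne'
    ext i
    fin_cases i
    · exact f0
    · exact f1
  let g : ℝ → ℝ := fun t => α (c t)
  have hc1 : ContDiffAt ℝ ∞ c t₁ := hc.self_of_nhds
  have hcd : ∀ t, ContDiffAt ℝ ∞ c t → HasDerivAt c (deriv c t) t := fun t h =>
    (h.differentiableAt (by simp)).hasDerivAt
  have hgd : ∀ t, ContDiffAt ℝ ∞ c t → HasDerivAt g (α (deriv c t)) t := fun t h =>
    α.hasFDerivAt.comp_hasDerivAt t (hcd t h)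
  have hgc : ∀ t, ContDiffAt ℝ ∞ c t → ContDiffAt ℝ ∞ g t := fun t h =>
    α.contDiff.contDiffAt.comp t h
  have hαv : α v ≠ 0 := by
    rw [hα]
    have : v 0 * v 0 + v 1 * v 1 = v 0 ^ 2 + v 1 ^ 2 := by ring
    rw [this]
    exact hvv.ne'
  let Φ : OpenPartialHomeomorph ℝ ℝ := (hgc t₁ hc1).toOpenPartialHomeomorph g
    ((hgd t₁ hc1).hasFDerivAt_equiv hαv) (by simp)
  have hΦ : ∀ t, Φ t = g t := fun t => rfl
  have hΦs : t₁ ∈ Φ.source := (hgc t₁ hc1).mem_toOpenPartialHomeomorph_source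
    ((hgd t₁ hc1).hasFDerivAt_equiv hαv) (by simp)
  -- the good times
  have hev : ∀ᶠ t in 𝓝 t₁, ContDiffAt ℝ ∞ c t ∧ α (deriv c t) ≠ 0 := by
    have h1 : ContinuousAt (deriv c) t₁ := by
      have h2 : ContDiffAt ℝ 1 (deriv c) t₁ := by
        have h3 : ContDiffAt ℝ 2 c t₁ := hc1.of_le ENat.LEInfty.out
        have h4 := h3.fderiv_right (m := 1) (by norm_num)
        have h5 : deriv c = fun t => fderiv ℝ c t 1 := by
          funext t
          exact (fderiv_apply_one_eq_deriv).symm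
        rw [h5]
        exact h4.clm_apply contDiffAt_const
      exact h2.continuousAt
    have h6 : ContinuousAt (fun t => α (deriv c t)) t₁ := α.continuous.continuousAt.comp h1
    exact hc.and (h6.eventually_ne hαv)
  obtain ⟨U, hUsub, hUo, hUt⟩ := eventually_nhds_iff.1 hev
  have hUo' : IsOpen (Φ.source ∩ U) := Φ.open_source.inter hUo
  let V : Set ℝ := Φ.target ∩ Φ.symm ⁻¹' U
  have hVo : IsOpen V := Φ.isOpen_inter_preimage_symm hUo
  have hVt : α (c t₁) ∈ V := by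
    refine ⟨Φ.map_source hΦs, ?_⟩
    change Φ.symm (Φ t₁) ∈ U
    rw [Φ.left_inv hΦs]
    exact hUt
  obtain ⟨r, hr, hrV⟩ := Metric.isOpen_iff.1 (hVo.preimage α.continuous) (c t₁) hVt
  obtain ⟨η, hη, hηU⟩ := Metric.isOpen_iff.1 hUo' t₁ ⟨hΦs, hUt⟩
  let F : ℝ → ℝ := fun s => β (c (Φ.symm s))
  have hFc : ∀ s ∈ V, ContDiffAt ℝ ∞ F s := by
    intro s hs
    have h1 := hUsub _ hs.2
    have h2 : ContDiffAt ℝ ∞ Φ.symm s :=
      Φ.contDiffAt_symm_deriv h1.2 hs.1 (hgd _ h1.1) (hgc _ h1.1)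
    exact β.contDiff.contDiffAt.comp s (h1.1.comp s h2)
  let ρ : P2 → ℝ := fun y => β y - F (α y)
  have hρc : ∀ y ∈ Metric.ball (c t₁) r, ContDiffAt ℝ ∞ ρ y := by
    intro y hy
    have h1 : α y ∈ V := hrV hy
    exact β.contDiff.contDiffAt.sub ((hFc _ h1).comp y α.contDiff.contDiffAt)
  have hρ0 : ∀ t, t ∈ Φ.source → ρ (c t) = 0 := by
    intro t ht
    change β (c t) - β (c (Φ.symm (Φ t))) = 0
    rw [Φ.left_inv ht, sub_self]
  refine ⟨η, hη, r, hr, ρ, fun y hy => (hρc y hy).contDiffWithinAt, ?_⟩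
  intro t ht htb
  have htU : t ∈ Φ.source ∩ U := by
    apply hηU
    rw [Metric.mem_ball, Real.dist_eq]
    exact ht
  have hct := hUsub t htU.2
  refine ⟨hρ0 t htU.1, ?_⟩
  intro u hu
  have hFd : HasDerivAt F (deriv F (α (c t))) (α (c t)) :=
    ((hFc _ (hrV htb)).differentiableAt (by simp)).hasDerivAt
  have hρd : HasFDerivAt ρ (β - (deriv F (α (c t))) • α) (c t) := by
    have h1 : HasFDerivAt (fun y => F (α y)) ((deriv F (α (c t))) • α) (c t) := by
      exact hFd.comp_hasFDerivAt (c t) α.hasFDerivAt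
    exact β.hasFDerivAt.sub h1
  rw [hρd.fderiv] at hu
  have hu' : β u = deriv F (α (c t)) * α u := by
    have h1 : β u - deriv F (α (c t)) * α u = 0 := hu
    linarith
  have hw' : β (deriv c t) = deriv F (α (c t)) * α (deriv c t) := by
    have h1 : HasDerivAt (fun s => ρ (c s)) ((β - (deriv F (α (c t))) • α) (deriv c t)) t :=
      hρd.comp_hasDerivAt t (hcd t hct.1)
    have h2 : (fun s => ρ (c s)) =ᶠ[𝓝 t] fun _ => (0 : ℝ) := by
      filter_upwards [Φ.open_source.mem_nhds htU.1] with s hs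
      exact hρ0 s hs
    have h3 := (h2.hasDerivAt_iff.1 h1).unique (hasDerivAt_const t (0 : ℝ))
    have h4 : β (deriv c t) - deriv F (α (c t)) * α (deriv c t) = 0 := h3
    linarith
  refine ⟨α u / α (deriv c t), ?_⟩
  have key := hinj (u - (α u / α (deriv c t)) • deriv c t) (by
    rw [map_sub, map_smul, smul_eq_mul, div_mul_cancel₀ _ hct.2, sub_self]) (by
    rw [map_sub, map_smul, smul_eq_mul, hu', hw']
    have := hct.2
    field_simp
    ring)
  exact sub_eq_zero.1 key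

end Pool.Agent.Helper82.PE
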