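import Pool.Agent.Helper82.PE.Defs

/-!
# Cut-off of the square of a defining function (module PE-39)
-/

set_option maxSynthPendingDepth 3

namespace Pool.Agent.Helper82.PE

open MeasureTheory Filter Topology Pool.Agent.Helper82.GS
open scoped ContDiff Manifold NNReal

/-- `f = χ * ρ ^ 2` with `χ` a smooth bump function, positive on `ball p r'`, zero off it (`ContDiffBump` with radii
`r'/2 < r'`, or `exists_contDiff_...`; `χ = 0` exactly off `ball p r'`), extended by zero.  Where `ρ y = 0`: `f y = 0`,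
`D f = 0`, `D² f (u, u) = 2 χ y (D ρ u)²`. -/
theorem exists_sq_bump {p : P2} {r r' : ℝ} (hr' : 0 < r') (hrr : r' < r) {ρ : P2 → ℝ}
    (hρ : ContDiffOn ℝ ∞ ρ (Metric.ball p r)) :
    ∃ f χ : P2 → ℝ, ContDiff ℝ ∞ f ∧ (∀ y, y ∉ Metric.closedBall p r' → f y = 0) ∧ (∀ y, 0 ≤ χ y) ∧
      (∀ y ∈ Metric.ball p r', 0 < χ y) ∧ ∀ y ∈ Metric.ball p r, ρ y = 0 → f y = 0 ∧ fderiv ℝ f y = 0 ∧
        ∀ u, fderiv ℝ (fderiv ℝ f) y u u = 2 * χ y * (fderiv ℝ ρ y u) ^ 2 := by
  let b : ContDiffBump p := ⟨r' / 2, r', by positivity, by linarith⟩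
  let χ : P2 → ℝ := fun y => b y
  let f : P2 → ℝ := fun y => χ y * ρ y ^ 2
  have hχc : ContDiff ℝ ∞ χ := b.contDiff
  have hχ0 : ∀ y, y ∉ Metric.ball p r' → χ y = 0 := by
    intro y hy
    by_contra h
    have h1 : y ∈ Function.support (b : P2 → ℝ) := h
    rw [b.support_eq] at h1
    exact hy h1
  have hρc : ∀ y ∈ Metric.ball p r, ContDiffAt ℝ ∞ ρ y := fun y hy =>
    hρ.contDiffAt (Metric.isOpen_ball.mem_nhds hy)
  have hf0 : ∀ y, y ∉ Metric.closedBall p r' → f y = 0 := by
    intro y hy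
    have : y ∉ Metric.ball p r' := fun h => hy (Metric.ball_subset_closedBall h)
    change χ y * ρ y ^ 2 = 0
    rw [hχ0 y this, zero_mul]
  refine ⟨f, χ, ?_, hf0, fun y => b.nonneg, fun y hy => b.pos_of_mem_ball hy, ?_⟩
  · rw [contDiff_iff_contDiffAt]
    intro y
    by_cases hy : y ∈ Metric.ball p r
    · exact hχc.contDiffAt.mul ((hρc y hy).pow 2)
    · have h1 : y ∈ (Metric.closedBall p r')ᶜ := by
        intro h
        apply hy
        rw [Metric.mem_closedBall] at h
        rw [Metric.mem_ball]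
        linarith
      have h2 : f =ᶠ[𝓝 y] fun _ => 0 := by
        filter_upwards [Metric.isClosed_closedBall.isOpen_compl.mem_nhds h1] with z hz
        exact hf0 z hz
      exact contDiffAt_const.congr_of_eventuallyEq h2
  · intro y hy hy0
    have hd : ∀ z ∈ Metric.ball p r, HasFDerivAt f
        ((2 * χ z * ρ z) • fderiv ℝ ρ z + (ρ z ^ 2) • fderiv ℝ χ z) z := by
      intro z hz
      have h1 : HasFDerivAt ρ (fderiv ℝ ρ z) z := ((hρc z hz).differentiableAt (by simp)).hasFDerivAt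
      have h2 : HasFDerivAt χ (fderiv ℝ χ z) z :=
        (hχc.contDiffAt.differentiableAt (by simp)).hasFDerivAt
      have h3 := h2.mul (h1.pow 2)
      refine h3.congr_fderiv ?_
      ext w
      simp
      ring
    have hfd : ∀ z ∈ Metric.ball p r, fderiv ℝ f z =
        (2 * χ z * ρ z) • fderiv ℝ ρ z + (ρ z ^ 2) • fderiv ℝ χ z := fun z hz => (hd z hz).fderiv
    have e0 : f y = 0 := by
      change χ y * ρ y ^ 2 = 0
      rw [hy0]
      ring
    refine ⟨e0, ?_, ?_⟩
    · rw [hfd y hy, hy0]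
      simp
    · intro u
      have hev : fderiv ℝ f =ᶠ[𝓝 y] fun z =>
          (2 * χ z * ρ z) • fderiv ℝ ρ z + (ρ z ^ 2) • fderiv ℝ χ z := by
        filter_upwards [Metric.isOpen_ball.mem_nhds hy] with z hz
        exact hfd z hz
      have h1 : HasFDerivAt ρ (fderiv ℝ ρ y) y := ((hρc y hy).differentiableAt (by simp)).hasFDerivAt
      have h2 : HasFDerivAt χ (fderiv ℝ χ y) y :=
        (hχc.contDiffAt.differentiableAt (by simp)).hasFDerivAt
      have h3 : HasFDerivAt (fderiv ℝ ρ) (fderiv ℝ (fderiv ℝ ρ) y) y := by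
        have : ContDiffAt ℝ 1 (fderiv ℝ ρ) y := 
          ((hρc y hy).of_le (m := 2) ENat.LEInfty.out).fderiv_right (m := 1) (by norm_num)
        exact (this.differentiableAt (by simp)).hasFDerivAt
      have h4 : HasFDerivAt (fderiv ℝ χ) (fderiv ℝ (fderiv ℝ χ) y) y := by
        have : ContDiffAt ℝ 1 (fderiv ℝ χ) y := 
          (hχc.contDiffAt.of_le (m := 2) ENat.LEInfty.out).fderiv_right (m := 1) (by norm_num)
        exact (this.differentiableAt (by simp)).hasFDerivAt
      have h5 := (((h2.const_mul 2).mul h1).smul h3).add ((h1.pow 2).smul h4)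
      have h6 : HasFDerivAt (fun z => (2 * χ z * ρ z) • fderiv ℝ ρ z + (ρ z ^ 2) • fderiv ℝ χ z) _ y := h5
      rw [hev.fderiv_eq, h6.fderiv]
      simp [hy0]
      ring

end Pool.Agent.Helper82.PE
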