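import Pool.Agent.Helper82.PE.Cross
import Pool.Agent.Helper82.PE.LocDef
import Pool.Agent.Helper82.PE.SqBump
import Pool.Agent.Helper82.PE.SmoothGeo

/-!
# The perturbing function (module PE-40)
-/

set_option maxSynthPendingDepth 3

namespace Pool.Agent.Helper82.PE

open MeasureTheory Filter Topology Pool.Agent.Helper82.GS
open scoped ContDiff Manifold NNReal

variable {S : Type*} [TopologicalSpace S] [T2Space S] [ChartedSpace P2 S]
  [IsManifold (modelWithCornersSelf ℝ P2) ∞ S]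

omit [IsManifold (modelWithCornersSelf ℝ P2) ∞ S] in
/-- Points of the closed curve near `γ t₁` come from times near `t₁`, up to the period. -/
private theorem near_time {g : RMetric S} {γ : ℝ → S} {T₀ : ℝ} (hγ : IsClosedGeodesic g γ T₀)
    {e : OpenPartialHomeomorph S P2} {t₁ η : ℝ} (h1 : γ t₁ ∈ e.source) (hη : 0 < η)
    (ht : ∀ t, γ t = γ t₁ → ∃ k : ℤ, t - t₁ = k * T₀) :
    ∃ r > 0, Metric.ball (e (γ t₁)) r ⊆ e.target ∧
      ∀ t, γ t ∈ e.symm '' Metric.ball (e (γ t₁)) r → ∃ k : ℤ, |t - k * T₀ - t₁| < η := by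
  obtain ⟨hgeo, hT, hper⟩ := hγ
  set A : Set S := γ '' (Set.Icc (t₁ - T₀ / 2) (t₁ + T₀ / 2) ∩ {t | η ≤ |t - t₁|}) with hA
  have hAc : IsCompact A := by
    refine IsCompact.image (isCompact_Icc.inter_right ?_) hgeo.1
    exact isClosed_le continuous_const (continuous_id.sub continuous_const).abs
  have hnot : γ t₁ ∉ A := by
    rintro ⟨t, ⟨⟨ha, hb⟩, hc⟩, htt⟩
    obtain ⟨k, hk⟩ := ht t htt
    have hk0 : k = 0 := by
      have h2 : |(k : ℝ) * T₀| ≤ T₀ / 2 := by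
        rw [← hk, abs_le]
        constructor <;> linarith
      rw [abs_mul, abs_of_pos hT] at h2
      have h3 : |(k : ℝ)| ≤ 1 / 2 := by
        by_contra h4
        rw [not_le] at h4
        nlinarith
      have h4 : |k| < 1 := by
        have h5 : ((|k| : ℤ) : ℝ) < 1 := by
          rw [Int.cast_abs]
          linarith
        exact_mod_cast h5
      exact Int.abs_lt_one_iff.1 h4
    rw [hk0] at hk
    have h5 : t - t₁ = 0 := by simpa using hk
    have h6 : η ≤ |t - t₁| := hc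
    rw [h5, abs_zero] at h6
    linarith
  have hO : IsOpen (e.target ∩ e.symm ⁻¹' Aᶜ) :=
    e.isOpen_inter_preimage_symm hAc.isClosed.isOpen_compl
  have hmem : e (γ t₁) ∈ e.target ∩ e.symm ⁻¹' Aᶜ := by
    refine ⟨e.map_source h1, ?_⟩
    show e.symm (e (γ t₁)) ∉ A
    rw [e.left_inv h1]
    exact hnot
  obtain ⟨r, hr, hball⟩ := Metric.isOpen_iff.1 hO _ hmem
  refine ⟨r, hr, fun y hy => (hball hy).1, ?_⟩
  rintro t ⟨y, hy, hyt⟩
  refine ⟨round ((t - t₁) / T₀), ?_⟩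
  set k := round ((t - t₁) / T₀) with hk
  have h2 := abs_sub_round ((t - t₁) / T₀)
  rw [← hk] at h2
  have h3 : |t - k * T₀ - t₁| ≤ T₀ / 2 := by
    have h4 : t - k * T₀ - t₁ = ((t - t₁) / T₀ - k) * T₀ := by
      field_simp
      ring
    rw [h4, abs_mul, abs_of_pos hT]
    nlinarith
  by_contra hcon
  rw [not_lt] at hcon
  have h4 : Function.Periodic γ T₀ := hper
  have h5 : γ (t - k * T₀) = γ t := h4.sub_int_mul_eq k
  refine (hball hy).2 ?_
  show e.symm y ∈ A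
  rw [hyt, ← h5]
  refine ⟨t - k * T₀, ⟨?_, hcon⟩, rfl⟩
  rw [abs_le] at h3
  constructor <;> linarith [h3.1, h3.2]

private theorem fderiv_off {f : P2 → ℝ} {K : Set P2} (hK : IsClosed K) (h : ∀ y, y ∉ K → f y = 0) {y : P2}
    (hy : y ∉ K) : fderiv ℝ f y = 0 ∧ fderiv ℝ (fderiv ℝ f) y = 0 := by
  have h1 : ∀ y, y ∉ K → fderiv ℝ f y = 0 := by
    intro y hy
    have h2 : f =ᶠ[𝓝 y] fun _ => 0 := by
      filter_upwards [hK.isOpen_compl.mem_nhds hy] with z hz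
      exact h z hz
    rw [h2.fderiv_eq]
    simp
  refine ⟨h1 y hy, ?_⟩
  have h2 : fderiv ℝ f =ᶠ[𝓝 y] fun _ => 0 := by
    filter_upwards [hK.isOpen_compl.mem_nhds hy] with z hz
    exact h1 z hz
  rw [h2.fderiv_eq]
  simp

/-- Let `c = e ∘ γ`, `b₁ < T₀` with `γ (Icc 0 b₁) ⊆ e.source`, `t₁` from `exists_good_time` on `(0, b₁)`, `η, r, ρ` from
`exists_defining` at `t₁` (`contDiffAt_geodesic`), shrunk so that `(t₁ - η, t₁ + η) ⊆ (0, b₁)` and
`closedBall (c t₁) r ⊆ e.target`.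
Claim: for some `r' < r`, if `γ t ∈ e.source` and `c t ∈ closedBall (c t₁) r'` then `|t - k T₀ - t₁| < η` for some integer
`k`.  Indeed the set of `t ∈ [t₁ - T₀/2, t₁ + T₀/2]` with `|t - t₁| ≥ η` is compact and its image under `γ` does not
contain `γ t₁`; the complement of this image is an open neighbourhood of `γ t₁`, containing `e.symm (closedBall (c t₁) r')`
for small `r'`; every `t` can be moved to this interval by a multiple of `T₀`.
Take `f, χ` from `exists_sq_bump` with `r'`, `K = closedBall (c t₁) r'`.  If `c t ∉ K` then `f = 0` near `c t`; if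
`c t ∈ K` then `c t = c t'` with `|t' - t₁| < η`, so `ρ (c t) = 0`.  For `t ∈ [b₁, T₀]` the claim excludes `c t ∈ K`.
The interval `(s₁, s₂)` is a small interval around `t₁`, on which `c t ∈ ball (c t₁) r'`. -/
theorem exists_bump {g : RMetric S} {γ : ℝ → S} {T₀ : ℝ} (hγ : IsClosedGeodesic g γ T₀)
    (hmin : ∀ s, (∀ t, γ (t + s) = γ t) → ∃ k : ℤ, s = k * T₀) {e : OpenPartialHomeomorph S P2}
    (he : e ∈ atlas P2 S) (h0 : γ 0 ∈ e.source) :
    ∃ b₁, 0 < b₁ ∧ b₁ < T₀ ∧ (∀ t ∈ Set.Icc 0 b₁, γ t ∈ e.source) ∧ ∃ (f : P2 → ℝ) (K : Set P2),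
      ContDiff ℝ ∞ f ∧ IsCompact K ∧ K ⊆ e.target ∧ (∀ y, y ∉ K → f y = 0) ∧
      (∀ t, γ t ∈ e.source → f (e (γ t)) = 0 ∧ fderiv ℝ f (e (γ t)) = 0) ∧
      (∀ t ∈ Set.Icc b₁ T₀, γ t ∉ e.symm '' K) ∧
      (∀ t ∈ Set.Icc 0 b₁, ∀ u, 0 ≤ fderiv ℝ (fderiv ℝ f) (e (γ t)) u u) ∧
      ∃ s₁ s₂, 0 ≤ s₁ ∧ s₁ < s₂ ∧ s₂ ≤ b₁ ∧ ∀ t ∈ Set.Ioo s₁ s₂, ∀ u,
        fderiv ℝ (fderiv ℝ f) (e (γ t)) u u = 0 → ∃ c : ℝ, u = c • deriv (e ∘ γ) t := by
  obtain ⟨hgeo, hT, hper⟩ := id hγ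
  have hperiodic : Function.Periodic γ T₀ := hper
  -- the interval
  have hO : IsOpen (γ ⁻¹' e.source) := e.open_source.preimage hgeo.1
  obtain ⟨δ, hδ, hball⟩ := Metric.isOpen_iff.1 hO 0 h0
  set b₁ := min (δ / 2) (T₀ / 2) with hb₁
  have hb0 : 0 < b₁ := lt_min (by linarith) (by linarith)
  have hbδ : b₁ ≤ δ / 2 := min_le_left _ _
  have hbT : b₁ ≤ T₀ / 2 := min_le_right _ _
  have hsrc : ∀ t ∈ Set.Icc 0 b₁, γ t ∈ e.source := by
    intro t ht
    apply hball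
    rw [Metric.mem_ball, Real.dist_eq, sub_zero, abs_of_nonneg ht.1]
    linarith [ht.2]
  obtain ⟨t₁, ⟨ht0, htb⟩, htgood⟩ := exists_good_time hgeo hmin hb0
  have hs1 : γ t₁ ∈ e.source := hsrc t₁ ⟨ht0.le, htb.le⟩
  have hc : ContDiffAt ℝ ∞ (e ∘ γ) t₁ := contDiffAt_geodesic hgeo he hs1
  have hd : deriv (e ∘ γ) t₁ ≠ 0 := by
    intro h
    have h2 := (hgeo.2 e he t₁ hs1).2.1
    rw [h] at h2
    simp at h2
  have hce : ∀ᶠ t in 𝓝 t₁, ContDiffAt ℝ ∞ (e ∘ γ) t := by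
    filter_upwards [hO.mem_nhds hs1] with t ht
    exact contDiffAt_geodesic hgeo he ht
  obtain ⟨η₀, hη₀, r₀, hr₀, ρ, hρ, hdef⟩ := exists_defining hce hd
  set η := min η₀ (min t₁ (b₁ - t₁)) with hη
  have hη0 : 0 < η := lt_min hη₀ (lt_min ht0 (by linarith))
  have hηη : η ≤ η₀ := min_le_left _ _
  have hηt : η ≤ t₁ := (min_le_right _ _).trans (min_le_left _ _)
  have hηb : η ≤ b₁ - t₁ := (min_le_right _ _).trans (min_le_right _ _)
  obtain ⟨r₂, hr₂, hr₂t, hclaim⟩ := near_time hγ hs1 hη0 htgood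
  set r' := min (r₂ / 2) (r₀ / 2) with hr'
  have hr'0 : 0 < r' := lt_min (by linarith) (by linarith)
  have hr'2 : r' < r₂ := (min_le_left _ _).trans_lt (by linarith)
  have hr'r : r' < r₀ := (min_le_right _ _).trans_lt (by linarith)
  obtain ⟨f, χ, hf, hfK, hχ0, hχ, hfz⟩ := exists_sq_bump (p := (e ∘ γ) t₁) hr'0 hr'r hρ
  set K : Set P2 := Metric.closedBall ((e ∘ γ) t₁) r' with hKdef
  have hKball : K ⊆ Metric.ball (e (γ t₁)) r₂ := Metric.closedBall_subset_ball hr'2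
  have hKr : K ⊆ Metric.ball ((e ∘ γ) t₁) r₀ := Metric.closedBall_subset_ball hr'r
  have hKcl : IsClosed K := Metric.isClosed_closedBall
  -- all times with value in K
  have hzero : ∀ t, γ t ∈ e.source → e (γ t) ∈ K → ρ (e (γ t)) = 0 := by
    intro t ht htK
    obtain ⟨k, hk⟩ := hclaim t ⟨e (γ t), hKball htK, e.left_inv ht⟩
    have h5 : γ (t - k * T₀) = γ t := hperiodic.sub_int_mul_eq k
    have h6 := hdef (t - k * T₀) (hk.trans_le hηη) (by
      show e (γ (t - k * T₀)) ∈ _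
      rw [h5]
      exact hKr htK)
    have h7 : ρ (e (γ (t - k * T₀))) = 0 := h6.1
    rwa [h5] at h7
  refine ⟨b₁, hb0, by linarith, hsrc, f, K, hf, isCompact_closedBall _ _, hKball.trans hr₂t, hfK, ?_, ?_, ?_, ?_⟩
  · intro t ht
    by_cases htK : e (γ t) ∈ K
    · have h6 := hfz (e (γ t)) (hKr htK) (hzero t ht htK)
      exact ⟨h6.1, h6.2.1⟩
    · exact ⟨hfK _ htK, (fderiv_off hKcl hfK htK).1⟩
  · rintro t ⟨hta, htb'⟩ ⟨y, hy, hyt⟩
    obtain ⟨k, hk⟩ := hclaim t ⟨y, hKball hy, hyt⟩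
    rw [abs_lt] at hk
    rcases le_or_gt k 0 with hk0 | hk0
    · have h6 : (k : ℝ) ≤ 0 := by exact_mod_cast hk0
      have h7 : (k : ℝ) * T₀ ≤ 0 := mul_nonpos_of_nonpos_of_nonneg h6 hT.le
      linarith [hk.2]
    · have h6 : (1 : ℝ) ≤ k := by exact_mod_cast hk0
      have h7 : T₀ ≤ k * T₀ := by nlinarith
      linarith [hk.1]
  · intro t ht u
    by_cases htK : e (γ t) ∈ K
    · have h6 := (hfz (e (γ t)) (hKr htK) (hzero t (hsrc t ht) htK)).2.2 u
      rw [h6]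
      have := hχ0 (e (γ t))
      positivity
    · rw [(fderiv_off hKcl hfK htK).2]
      simp
  · have hcont : ∀ᶠ t in 𝓝 t₁, (e ∘ γ) t ∈ Metric.ball ((e ∘ γ) t₁) r' :=
      hc.continuousAt.eventually (Metric.ball_mem_nhds _ hr'0)
    obtain ⟨δ', hδ', hball'⟩ := Metric.eventually_nhds_iff.1 hcont
    set δ₂ := min δ' η with hδ₂
    have hδ₂0 : 0 < δ₂ := lt_min hδ' hη0
    have hδ₂η : δ₂ ≤ η := min_le_right _ _
    refine ⟨t₁ - δ₂, t₁ + δ₂, by linarith, by linarith, by linarith, ?_⟩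
    intro t ht u hu
    have h5 : |t - t₁| < δ₂ := by
      rw [abs_lt]
      constructor <;> linarith [ht.1, ht.2]
    have h6 : (e ∘ γ) t ∈ Metric.ball ((e ∘ γ) t₁) r' :=
      hball' (by rw [Real.dist_eq]; exact h5.trans_le (min_le_left _ _))
    have h7 : (e ∘ γ) t ∈ Metric.ball ((e ∘ γ) t₁) r₀ := Metric.ball_subset_ball hr'r.le h6
    have h8 := hdef t (h5.trans_le (hδ₂η.trans hηη)) h7
    have h9 : fderiv ℝ (fderiv ℝ f) (e (γ t)) u u = 2 * χ ((e ∘ γ) t) * (fderiv ℝ ρ ((e ∘ γ) t) u) ^ 2 :=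
      (hfz _ h7 h8.1).2.2 u
    have h10 := hχ _ h6
    apply h8.2
    rw [h9] at hu
    have h11 : (fderiv ℝ ρ ((e ∘ γ) t) u) ^ 2 = 0 := by
      rcases mul_eq_zero.1 hu with h | h
      · exfalso
        linarith
      · exact h
    exact pow_eq_zero_iff two_ne_zero |>.1 h11

end Pool.Agent.Helper82.PE
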