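import Pool.Agent.Helper82.PE.Defs

/-!
# Certificates with a fixed smooth function (module PE-44)
-/

set_option maxSynthPendingDepth 3

namespace Pool.Agent.Helper82.PE

open MeasureTheory Filter Topology Pool.Agent.Helper82.GS
open scoped ContDiff Manifold NNReal

/-- Same proof as `cert_open` (`GS/Open.lean`), with smooth functions.  There: `b' = b + ε η` with `η` a continuous bump
function, `η = 1` on `K`, supported in `L`, `K ⊆ interior L`.  Here take `η` smooth (`exists_contDiff_...` /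
`exists_smooth_...`, values in `[0,1]`) and `b' = η * (b₁ + ε)` where `b₁` is smooth with `|b₁ - b| ≤ ε / 4` on `L`
(smooth approximation of a continuous compactly supported function, e.g. by convolution with a bump, or
`exists_contDiff_approx`-like theorems); then `b' ≥ b + ε / 2` on `K` and `b' ≥ 0` off `K`, `|b' - b| ≤ 2 ε` on `L`, so the
integral of `b' dens` is still negative for small `ε`.  The same functions `b'`, `u` work for all `G'` near `G`. -/
theorem cert_fixed {D : Set P2} (hD : IsOpen D) {G : P2 → Bil} (hG : ContDiffOn ℝ ∞ G D)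
    (hpos : ∀ y ∈ D, PosDef (G y)) {p : P2} {ℓ : P2 →L[ℝ] ℝ} {r : ℝ} (hr : 0 < r)
    (hball : Metric.closedBall p r ⊆ D) (hc : Cert G p ℓ r) :
    ∃ (L : Set P2) (b : P2 → ℝ) (u : P2 × P2 → ℝ), IsCompact L ∧ L ⊆ Metric.ball p r ∧ ContDiff ℝ ∞ b ∧
      (∀ y, y ∉ L → b y = 0) ∧ ContDiffOn ℝ 1 u {q | ℓ q.2 ≠ 0} ∧ (∀ q : P2 × P2, q.1 ∉ L → u q = 0) ∧
      ∫ y, b y * dens (G y) < 0 ∧ ∃ δ > 0, ∀ G' : P2 → Bil, ContDiffOn ℝ ∞ G' D → (∀ y ∈ D, PosDef (G' y)) →
        (∀ y ∈ Metric.closedBall p r, ‖G' y - G y‖ < δ) →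
        (∀ y ∈ Metric.closedBall p r, ‖fderiv ℝ G' y - fderiv ℝ G y‖ < δ) →
        ∀ y ∈ L, ∀ v, G' y v v = 1 → r * ‖v‖ ≤ |ℓ v| → 0 ≤ b y + spray G' u (y, v) := by
  obtain ⟨K, b, u, hK, hKb, hb, hbK, hu, huK, hineq, hint⟩ := hc
  obtain ⟨L, hL, hKL, hLb⟩ := exists_compact_between hK Metric.isOpen_ball hKb
  have hLD : L ⊆ D := hLb.trans (Metric.ball_subset_closedBall.trans hball)
  have hKL' : K ⊆ L := hKL.trans interior_subset
  have hKD : K ⊆ D := hKL'.trans hLD
  obtain ⟨η, hη1', hηL, hηI⟩ :=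
    exists_contMDiffMap_one_nhds_of_subset_interior (n := ⊤) (modelWithCornersSelf ℝ P2) hK.isClosed hKL
  have hη1 : ∀ y ∈ K, η y = 1 := fun y hy => hη1'.self_of_nhdsSet y hy
  have hηs : ContDiff ℝ ∞ η := η.contMDiff.contDiff
  have hbL : ∀ y, y ∉ L → b y = 0 := fun y hy => hbK y (fun h => hy (hKL' h))
  have hGcD : ContinuousOn G D := hG.continuousOn
  have hGL : ContinuousOn G L := hGcD.mono hLD
  have hdG : ContinuousOn (fun y => dens (G y)) L := continuous_dens.comp_continuousOn hGL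
  have hi1 : Integrable (fun y => b y * dens (G y)) :=
    integrable_of_supp hL (hb.continuousOn.mul hdG) (fun y hy => by simp [hbL y hy])
  have hi2 : Integrable (fun y => η y * dens (G y)) :=
    integrable_of_supp hL (hηs.continuous.continuousOn.mul hdG) (fun y hy => by simp [hηL y hy])
  have hJ : 0 ≤ ∫ y, η y * dens (G y) :=
    integral_nonneg fun y => mul_nonneg (hηI y).1 (Real.sqrt_nonneg _)
  obtain ⟨ε, hε, hεI⟩ : ∃ ε > 0, (∫ y, b y * dens (G y)) + (2 * ε) * (∫ y, η y * dens (G y)) < 0 := by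
    refine ⟨-(∫ y, b y * dens (G y)) / (4 * ((∫ y, η y * dens (G y)) + 1)), by
      apply div_pos <;> linarith, ?_⟩
    set I := ∫ y, b y * dens (G y)
    set J := ∫ y, η y * dens (G y)
    have h1 : 2 * (-I / (4 * (J + 1))) * J ≤ -I / 2 := by
      rw [mul_div_assoc', div_mul_eq_mul_div, div_le_div_iff₀ (by linarith) (by norm_num)]
      nlinarith
    linarith
  obtain ⟨b₁, hb₁s, hb₁, -⟩ := hb.exists_contDiff_approx ⊤ (ε := fun _ => ε / 4) continuous_const
    (fun _ => by positivity)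
  have hb₁' : ∀ y, b y - ε / 4 < b₁ y ∧ b₁ y < b y + ε / 4 := fun y => by
    have h1 := hb₁ y
    rw [Real.dist_eq, abs_lt] at h1
    constructor <;> linarith [h1.1, h1.2]
  set b' : P2 → ℝ := fun y => η y * (b₁ y + ε) with hb'
  have hb's : ContDiff ℝ ∞ b' := hηs.mul (hb₁s.add contDiff_const)
  have hb'c : Continuous b' := hb's.continuous
  have hb'L : ∀ y, y ∉ L → b' y = 0 := fun y hy => by simp [hb', hηL y hy]
  have hb'K : ∀ y, y ∉ K → 0 ≤ b' y := fun y hy => by
    have h1 := (hηI y).1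
    have h2 := (hb₁' y).1
    rw [hbK y hy] at h2
    exact mul_nonneg h1 (by linarith)
  have hb'gt : ∀ y ∈ K, b y < b' y := fun y hy => by
    have h2 := (hb₁' y).1
    simp only [hb', hη1 y hy]
    linarith
  have hb'le : ∀ y, b' y ≤ b y + (2 * ε) * η y := fun y => by
    have h1 := (hηI y).1
    have h2 := (hb₁' y).2
    by_cases hy : y ∈ K
    · simp only [hb', hη1 y hy]
      linarith
    · rw [hbK y hy] at h2 ⊢
      simp only [hb']
      nlinarith
  have hi3 : Integrable (fun y => b' y * dens (G y)) :=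
    integrable_of_supp hL (hb'c.continuousOn.mul hdG) (fun y hy => by simp [hb'L y hy])
  have hint' : ∫ y, b' y * dens (G y) < 0 := by
    have e : ∫ y, b' y * dens (G y) ≤ ∫ y, (b y * dens (G y) + (2 * ε) * (η y * dens (G y))) := by
      refine integral_mono hi3 (hi1.add (hi2.const_mul (2 * ε))) fun y => ?_
      have h1 : 0 ≤ dens (G y) := Real.sqrt_nonneg _
      have h2 := mul_le_mul_of_nonneg_right (hb'le y) h1
      simp only
      linarith
    rw [integral_add hi1 (hi2.const_mul (2 * ε)), integral_const_mul] at e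
    linarith
  -- the ellipticity constant
  obtain ⟨c, hc0, hc⟩ := exists_lower_bound hK (hGcD.mono hKD) (fun y hy => hpos y (hKD hy))
  -- the compact set of admissible vectors
  set T1 : Set (P2 × P2) := K ×ˢ Metric.closedBall 0 (1 + 1 / c) with hT1
  have hT1c : IsCompact T1 := hK.prod (isCompact_closedBall _ _)
  set T : Set (P2 × P2) := (T1 ∩ (fun q : P2 × P2 => G q.1 q.2 q.2) ⁻¹' {1}) ∩
    {q | r * ‖q.2‖ ≤ |ℓ q.2|} with hT
  have hGq : ContinuousOn (fun q : P2 × P2 => G q.1) T1 :=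
    (hGcD.mono hKD).comp continuous_fst.continuousOn fun q hq => hq.1
  have hTc : IsCompact T := by
    refine IsCompact.inter_right ?_ (isClosed_le (by fun_prop) (by fun_prop))
    refine hT1c.of_isClosed_subset ?_ Set.inter_subset_left
    refine ContinuousOn.preimage_isClosed_of_isClosed ?_ hT1c.isClosed isClosed_singleton
    exact (hGq.clm_apply continuous_snd.continuousOn).clm_apply continuous_snd.continuousOn
  have hmemT : ∀ y ∈ K, ∀ v : P2, G y v v = 1 → r * ‖v‖ ≤ |ℓ v| → (y, v) ∈ T := by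
    intro y hy v hv hv2
    refine ⟨⟨⟨hy, ?_⟩, hv⟩, hv2⟩
    rw [mem_closedBall_zero_iff]
    have h1 := hc y hy v
    rw [hv] at h1
    have h2 : ‖v‖ ^ 2 ≤ 1 / c := by
      rw [le_div_iff₀ hc0]
      linarith
    nlinarith [sq_nonneg (‖v‖ - 1)]
  have hUo : IsOpen {q : P2 × P2 | ℓ q.2 ≠ 0} := by
    have : Continuous fun q : P2 × P2 => ℓ q.2 := by fun_prop
    exact isOpen_ne.preimage this
  have hfd : ContinuousOn (fderiv ℝ u) {q : P2 × P2 | ℓ q.2 ≠ 0} :=
    hu.continuousOn_fderiv_of_isOpen hUo le_rfl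
  have hTne : ∀ q ∈ T, ℓ q.2 ≠ 0 := by
    intro q hq h0
    have h1 : r * ‖q.2‖ ≤ |ℓ q.2| := hq.2
    rw [h0, abs_zero] at h1
    have h2 : ‖q.2‖ = 0 := by
      have := norm_nonneg q.2
      nlinarith
    have h3 : q.2 = 0 := norm_eq_zero.mp h2
    have h4 : G q.1 q.2 q.2 = 1 := hq.1.2
    rw [h3] at h4
    simp at h4
  let Ψ : Bil × (P2 →L[ℝ] Bil) × P2 × P2 → ℝ := fun z =>
    b' z.2.2.1 + fderiv ℝ u z.2.2 (z.2.2.2, acc z.1 z.2.1 z.2.2.2)
  let F : P2 × P2 → Bil × (P2 →L[ℝ] Bil) × P2 × P2 := fun q => (G q.1, fderiv ℝ G q.1, q)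
  have hfG : ContinuousOn (fderiv ℝ G) D := hG.continuousOn_fderiv_of_isOpen hD (by simp)
  have hTK : ∀ q ∈ T, q.1 ∈ K := fun q hq => hq.1.1.1
  have hFc : ContinuousOn F T := by
    refine ContinuousOn.prodMk ?_ (ContinuousOn.prodMk ?_ continuousOn_id)
    · exact (hGcD.mono hKD).comp continuous_fst.continuousOn hTK
    · exact (hfG.mono hKD).comp continuous_fst.continuousOn hTK
  have hFT : IsCompact (F '' T) := hTc.image_of_continuousOn hFc
  have hΨpos : ∀ z ∈ F '' T, {z | 0 < Ψ z} ∈ 𝓝 z := by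
    rintro z ⟨q, hq, rfl⟩
    have hqK := hTK q hq
    have hval : 0 < Ψ (F q) := by
      have h1 := hineq q.1 hqK q.2 hq.1.2 hq.2
      have h2 := hb'gt q.1 hqK
      have h3 : Ψ (F q) = b' q.1 + spray G u (q.1, q.2) := rfl
      rw [h3]
      linarith
    have hcont : ContinuousAt Ψ (F q) := by
      have c1 : ContinuousAt (fun z : Bil × (P2 →L[ℝ] Bil) × P2 × P2 => b' z.2.2.1) (F q) := by
        exact (hb'c.comp (by fun_prop)).continuousAt
      have c2 : ContinuousAt (fun z : Bil × (P2 →L[ℝ] Bil) × P2 × P2 => fderiv ℝ u z.2.2) (F q) := by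
        have h1 : ContinuousAt (fderiv ℝ u) (F q).2.2 :=
          hfd.continuousAt (hUo.mem_nhds (hTne q hq))
        exact ContinuousAt.comp (f := fun z : Bil × (P2 →L[ℝ] Bil) × P2 × P2 => z.2.2) h1
          (by fun_prop)
      have c3 : ContinuousAt (fun z : Bil × (P2 →L[ℝ] Bil) × P2 × P2 =>
          acc z.1 z.2.1 z.2.2.2) (F q) := by
        have h1 := continuousAt_acc (hpos q.1 (hKD hqK)) (fderiv ℝ G q.1) q.2
        exact ContinuousAt.comp (g := fun t : Bil × (P2 →L[ℝ] Bil) × P2 => acc t.1 t.2.1 t.2.2)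
          (f := fun z : Bil × (P2 →L[ℝ] Bil) × P2 × P2 => (z.1, z.2.1, z.2.2.2)) (x := F q) h1
          (by fun_prop)
      exact c1.add (c2.clm_apply ((by fun_prop : ContinuousAt
        (fun z : Bil × (P2 →L[ℝ] Bil) × P2 × P2 => z.2.2.2) (F q)).prodMk c3))
    exact hcont.eventually (lt_mem_nhds hval)
  obtain ⟨δ₀, hδ₀, hthick⟩ := hFT.exists_thickening_subset_open (isOpen_interior (s := {z | 0 < Ψ z}))
    (fun z hz => mem_interior_iff_mem_nhds.mpr (hΨpos z hz))
  set R₀ := 1 + 2 / c with hR₀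
  have hR₀p : 0 < R₀ := by positivity
  set δ := min δ₀ (min (c / 4) (δ₀ * c / (8 * R₀))) with hδ
  have hδp : 0 < δ := lt_min hδ₀ (lt_min (by positivity) (by positivity))
  have hδ1 : δ ≤ δ₀ := min_le_left _ _
  have hδ3 : δ ≤ c / 4 := (min_le_right _ _).trans (min_le_left _ _)
  have hδ4 : δ ≤ δ₀ * c / (8 * R₀) := (min_le_right _ _).trans (min_le_right _ _)
  have hLcb : L ⊆ Metric.closedBall p r := hLb.trans Metric.ball_subset_closedBall
  refine ⟨L, b', u, hL, hLb, hb's, hb'L, hu, fun q hq => huK q (fun h => hq (hKL' h)), hint', δ, hδp,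
    fun G' hG' hpos' hclose hclose' => ?_⟩
  intro y hy v hv hv2
  by_cases hyK : y ∈ K
  · obtain ⟨w, hw1, ⟨t, ht, hwt⟩, hvw⟩ := rescale_bound hc0 (hc y hyK) hδ3
      (hclose y (hLcb hy)).le hv
    have hw2 : r * ‖w‖ ≤ |ℓ w| := by
      rw [hwt, norm_smul, map_smul, smul_eq_mul, abs_mul, Real.norm_eq_abs, abs_of_pos ht]
      nlinarith
    have hwT : (y, w) ∈ T := hmemT y hyK w hw1 hw2
    have hvw2 : ‖v - w‖ < δ₀ := by
      refine lt_of_le_of_lt hvw ?_
      rw [← hR₀]
      calc 4 * δ / c * R₀ ≤ 4 * (δ₀ * c / (8 * R₀)) / c * R₀ := by gcongr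
        _ = δ₀ / 2 := by field_simp; ring
        _ < δ₀ := by linarith
    have hmem : (G' y, fderiv ℝ G' y, y, v) ∈ Metric.thickening δ₀ (F '' T) := by
      rw [Metric.mem_thickening_iff]
      refine ⟨F (y, w), ⟨(y, w), hwT, rfl⟩, ?_⟩
      simp only [F, Prod.dist_eq, max_lt_iff, dist_self]
      refine ⟨?_, ?_, hδ₀, ?_⟩
      · rw [dist_eq_norm]
        exact (hclose y (hLcb hy)).trans_le hδ1
      · rw [dist_eq_norm]
        exact (hclose' y (hLcb hy)).trans_le hδ1
      · rw [dist_eq_norm]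
        exact hvw2
    have h := interior_subset (hthick hmem)
    exact le_of_lt h
  · have h1 : spray G' u (y, v) = 0 := by
      simp only [spray]
      rw [fderiv_eq_zero_of_supp hK.isClosed huK hyK]
      rfl
    rw [h1, add_zero]
    exact hb'K y hyK

end Pool.Agent.Helper82.PE
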