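import Pool.Agent.Helper82.PE.Period

/-!
# Self-intersections (module PE-37)
-/

set_option maxSynthPendingDepth 3

namespace Pool.Agent.Helper82.PE

open MeasureTheory Filter Topology Pool.Agent.Helper82.GS
open scoped ContDiff Manifold NNReal

variable {S : Type*} [TopologicalSpace S] [T2Space S] [ChartedSpace P2 S]
  [IsManifold (modelWithCornersSelf ℝ P2) ∞ S]

omit [T2Space S] [IsManifold (modelWithCornersSelf ℝ P2) ∞ S] in
private theorem geo_shift {g : RMetric S} {γ : ℝ → S} (hγ : IsGeodesic g γ) (s : ℝ) :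
    IsGeodesic g (fun r => γ (s + r)) := by
  refine ⟨hγ.1.comp (continuous_const.add continuous_id), fun e he t ht => ?_⟩
  obtain ⟨h1, h2, h3⟩ := hγ.2 e he (s + t) ht
  have hd : deriv (e ∘ fun r => γ (s + r)) = fun r => deriv (e ∘ γ) (s + r) := by
    funext r
    exact deriv_comp_const_add (e ∘ γ) s r
  have hdd : deriv (deriv (e ∘ fun r => γ (s + r))) t = deriv (deriv (e ∘ γ)) (s + t) := by
    rw [hd]
    exact deriv_comp_const_add (deriv (e ∘ γ)) s t
  refine ⟨?_, ?_, ?_⟩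
  · exact h1.comp (x := t) (f := fun r : ℝ => s + r) ((contDiff_const.add contDiff_id).contDiffAt)
  · rw [hd]
    exact h2
  · intro w
    rw [hdd, hd]
    exact h3 w

omit [T2Space S] [IsManifold (modelWithCornersSelf ℝ P2) ∞ S] in
private theorem geo_rev {g : RMetric S} {γ : ℝ → S} (hγ : IsGeodesic g γ) (s : ℝ) :
    IsGeodesic g (fun r => γ (s - r)) := by
  refine ⟨hγ.1.comp (continuous_const.sub continuous_id), fun e he t ht => ?_⟩
  obtain ⟨h1, h2, h3⟩ := hγ.2 e he (s - t) ht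
  have hd : deriv (e ∘ fun r => γ (s - r)) = fun r => -deriv (e ∘ γ) (s - r) := by
    funext r
    exact deriv_comp_const_sub (e ∘ γ) s r
  have hdd : deriv (deriv (e ∘ fun r => γ (s - r))) t = deriv (deriv (e ∘ γ)) (s - t) := by
    rw [hd]
    have h4 : deriv (fun r => -deriv (e ∘ γ) (s - r)) t = -deriv (fun r => deriv (e ∘ γ) (s - r)) t :=
      deriv.fun_neg
    rw [h4, deriv_comp_const_sub (deriv (e ∘ γ)) s t, neg_neg]
  refine ⟨?_, ?_, ?_⟩
  · exact h1.comp (x := t) (f := fun r : ℝ => s - r) ((contDiff_const.sub contDiff_id).contDiffAt)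
  · rw [hd]
    have h2' : g.comp e (e (γ (s - t))) (-deriv (e ∘ γ) (s - t)) (-deriv (e ∘ γ) (s - t)) = 1 := by
      simpa using h2
    exact h2'
  · intro w
    rw [hdd, hd]
    have h3' : g.comp e (e (γ (s - t))) (deriv (deriv (e ∘ γ)) (s - t)) w +
        fderiv ℝ (g.comp e) (e (γ (s - t))) (-deriv (e ∘ γ) (s - t)) (-deriv (e ∘ γ) (s - t)) w =
      (1 / 2) * fderiv ℝ (g.comp e) (e (γ (s - t))) w (-deriv (e ∘ γ) (s - t)) (-deriv (e ∘ γ) (s - t)) := by
      have e1 : fderiv ℝ (g.comp e) (e (γ (s - t))) (-deriv (e ∘ γ) (s - t)) (-deriv (e ∘ γ) (s - t)) w =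
          fderiv ℝ (g.comp e) (e (γ (s - t))) (deriv (e ∘ γ) (s - t)) (deriv (e ∘ γ) (s - t)) w := by
        simp
      have e2 : fderiv ℝ (g.comp e) (e (γ (s - t))) w (-deriv (e ∘ γ) (s - t)) (-deriv (e ∘ γ) (s - t)) =
          fderiv ℝ (g.comp e) (e (γ (s - t))) w (deriv (e ∘ γ) (s - t)) (deriv (e ∘ γ) (s - t)) := by
        simp
      rw [e1, e2]
      exact h3 w
    exact h3'

/-- At a self-intersection which does not come from a period the two velocities are linearly independent.  Both are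
unit vectors for `g`, so otherwise they agree up to sign.  If `γ' s = γ' t` then `γ (s + τ) = γ (t + τ)` for all `τ`
(`geodesic_unique` for the shifted geodesics), so `s - t` is a period.  If `γ' s = - γ' t` then
`γ (s + τ) = γ (t - τ)`; with `μ = (s + t) / 2`: `γ (μ + σ) = γ (μ - σ)` for all `σ`, so the velocity at `μ` is zero,
contradiction. -/
theorem transverse {g : RMetric S} {γ : ℝ → S} (hγ : IsGeodesic g γ) {T₀ : ℝ}
    (hmin : ∀ s, (∀ t, γ (t + s) = γ t) → ∃ k : ℤ, s = k * T₀) {s t : ℝ} (hst : γ s = γ t)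
    (hne : ∀ k : ℤ, s - t ≠ k * T₀) {e : OpenPartialHomeomorph S P2} (he : e ∈ atlas P2 S) (hs : γ s ∈ e.source)
    {c₁ c₂ : ℝ} (hc : c₁ • deriv (e ∘ γ) s = c₂ • deriv (e ∘ γ) t) : c₁ = 0 ∧ c₂ = 0 := by
  have hs' : γ t ∈ e.source := hst ▸ hs
  obtain ⟨a1, a2, -⟩ := hγ.2 e he s hs
  obtain ⟨b1, b2, -⟩ := hγ.2 e he t hs'
  set v := deriv (e ∘ γ) s with hv
  set w := deriv (e ∘ γ) t with hw
  rw [← hst] at b2
  set B := g.comp e (e (γ s)) with hB
  have hsq : c₁ ^ 2 = c₂ ^ 2 := by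
    have h1 : B (c₁ • v) (c₁ • v) = c₁ ^ 2 := by
      simp only [map_smul, _root_.smul_apply, smul_eq_mul, a2]
      ring
    have h2 : B (c₂ • w) (c₂ • w) = c₂ ^ 2 := by
      simp only [map_smul, _root_.smul_apply, smul_eq_mul, b2]
      ring
    rw [← h1, ← h2, hc]
  -- not equal and not opposite
  have hne1 : v ≠ w := by
    intro hvw
    have hu := geodesic_unique (geo_shift hγ s) (geo_shift hγ t) he (by simpa using hs) (by simpa using hst) (by
      have d1 : deriv (e ∘ fun r => γ (s + r)) 0 = deriv (e ∘ γ) (s + 0) :=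
        deriv_comp_const_add (e ∘ γ) s 0
      have d2 : deriv (e ∘ fun r => γ (t + r)) 0 = deriv (e ∘ γ) (t + 0) :=
        deriv_comp_const_add (e ∘ γ) t 0
      rw [d1, d2, add_zero, add_zero]
      exact hvw)
    have hper : ∀ r, γ (r + (s - t)) = γ r := by
      intro r
      have h3 : γ (s + (r - t)) = γ (t + (r - t)) := congrFun hu (r - t)
      have e1 : s + (r - t) = r + (s - t) := by ring
      have e2 : t + (r - t) = r := by ring
      rw [e1, e2] at h3
      exact h3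
    obtain ⟨k, hk⟩ := hmin _ hper
    exact hne k hk
  have hne2 : v ≠ -w := by
    intro hvw
    have hu := geodesic_unique (geo_shift hγ s) (geo_rev hγ t) he (by simpa using hs) (by simpa using hst) (by
      have d1 : deriv (e ∘ fun r => γ (s + r)) 0 = deriv (e ∘ γ) (s + 0) :=
        deriv_comp_const_add (e ∘ γ) s 0
      have d2 : deriv (e ∘ fun r => γ (t - r)) 0 = -deriv (e ∘ γ) (t - 0) :=
        deriv_comp_const_sub (e ∘ γ) t 0
      rw [d1, d2, add_zero, sub_zero]
      exact hvw)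
    set m := (s + t) / 2 with hm
    have hmr : ∀ r, γ (m + r) = γ (m - r) := by
      intro r
      have h3 : γ (s + (m - s + r)) = γ (t - (m - s + r)) := congrFun hu (m - s + r)
      have e1 : s + (m - s + r) = m + r := by ring
      have e2 : t - (m - s + r) = m - r := by rw [hm]; ring
      rw [e1, e2] at h3
      exact h3
    set e' := chartAt P2 (γ m) with he'
    have hm' : γ m ∈ e'.source := mem_chart_source P2 (γ m)
    obtain ⟨-, m2, -⟩ := hγ.2 e' (chart_mem_atlas P2 (γ m)) m hm'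
    have hfun : (fun r => (e' ∘ γ) (m + r)) = fun r => (e' ∘ γ) (m - r) := by
      funext r
      simp only [Function.comp_apply]
      rw [hmr r]
    have d1 : deriv (fun r => (e' ∘ γ) (m + r)) 0 = deriv (e' ∘ γ) (m + 0) :=
      deriv_comp_const_add (e' ∘ γ) m 0
    have d2 : deriv (fun r => (e' ∘ γ) (m - r)) 0 = -deriv (e' ∘ γ) (m - 0) :=
      deriv_comp_const_sub (e' ∘ γ) m 0
    rw [hfun, d2, add_zero, sub_zero] at d1
    have h0 : deriv (e' ∘ γ) m = 0 := by
      have h5 : -deriv (e' ∘ γ) m = deriv (e' ∘ γ) m := d1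
      have h6 : (2 : ℝ) • deriv (e' ∘ γ) m = 0 := by
        rw [two_smul]
        nth_rewrite 1 [← h5]
        exact neg_add_cancel _
      exact (smul_eq_zero.1 h6).resolve_left two_ne_zero
    rw [h0] at m2
    simp at m2
  have hc1 : c₁ = 0 := by
    by_contra h0
    rcases sq_eq_sq_iff_eq_or_eq_neg.1 hsq with h | h
    · rw [← h] at hc
      exact hne1 (smul_right_injective P2 h0 hc)
    · have h3 : c₂ = -c₁ := by rw [h]; ring
      rw [h3, neg_smul, ← smul_neg] at hc
      exact hne2 (smul_right_injective P2 h0 hc)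
  refine ⟨hc1, ?_⟩
  rw [hc1] at hsq
  have : c₂ ^ 2 = 0 := by rw [← hsq]; ring
  exact pow_eq_zero_iff two_ne_zero |>.1 this

/-- the pairs of times of self-intersection which do not come from a period are countable -/
private theorem cross_countable {g : RMetric S} {γ : ℝ → S} (hγ : IsGeodesic g γ) {T₀ : ℝ}
    (hmin : ∀ s, (∀ t, γ (t + s) = γ t) → ∃ k : ℤ, s = k * T₀) :
    {p : ℝ × ℝ | γ p.1 = γ p.2 ∧ ∀ k : ℤ, p.1 - p.2 ≠ k * T₀}.Countable := by
  set Z : Set (ℝ × ℝ) := {p : ℝ × ℝ | γ p.1 = γ p.2 ∧ ∀ k : ℤ, p.1 - p.2 ≠ k * T₀} with hZ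
  have hiso : ∀ p ∈ Z, ({p} : Set (ℝ × ℝ)) ∈ 𝓝[Z] p := by
    rintro p ⟨h1, h2⟩
    set e := chartAt P2 (γ p.1) with he_def
    have he : e ∈ atlas P2 S := chart_mem_atlas P2 _
    have hi : γ p.1 ∈ e.source := mem_chart_source P2 _
    have hi' : γ p.2 ∈ e.source := h1 ▸ hi
    obtain ⟨c1, -, -⟩ := hγ.2 e he p.1 hi
    obtain ⟨d1, -, -⟩ := hγ.2 e he p.2 hi'
    set v := deriv (e ∘ γ) p.1 with hv
    set v' := deriv (e ∘ γ) p.2 with hv'
    set L : ℝ × ℝ →L[ℝ] P2 := (ContinuousLinearMap.fst ℝ ℝ ℝ).smulRight v -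
      (ContinuousLinearMap.snd ℝ ℝ ℝ).smulRight v' with hL
    have hLz : ∀ z : ℝ × ℝ, L z = z.1 • v - z.2 • v' := fun z => rfl
    have hinj : Function.Injective (L : ℝ × ℝ →ₗ[ℝ] P2) := by
      rw [← LinearMap.ker_eq_bot, LinearMap.ker_eq_bot']
      intro z hz
      have hz' : z.1 • v = z.2 • v' := by
        have h := hLz z
        have h0 : L z = 0 := hz
        rw [h0] at h
        exact (sub_eq_zero.1 h.symm)
      have h3 := transverse hγ hmin h1 h2 he hi hz'
      exact Prod.ext h3.1 h3.2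
    obtain ⟨K, -, hK⟩ := (LinearMap.injective_iff_antilipschitz _).1 hinj
    have e1 : HasDerivAt (e ∘ γ) v p.1 := (c1.differentiableAt (by norm_num)).hasDerivAt
    have e2 : HasDerivAt (e ∘ γ) v' p.2 := (d1.differentiableAt (by norm_num)).hasDerivAt
    have f1 : HasFDerivAt (fun q : ℝ × ℝ => (e ∘ γ) q.1)
        ((ContinuousLinearMap.fst ℝ ℝ ℝ).smulRight v) p := by
      have := e1.hasFDerivAt.comp p (hasFDerivAt_fst (𝕜 := ℝ) (E := ℝ) (F := ℝ))
      refine this.congr_fderiv ?_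
      apply ContinuousLinearMap.ext
      intro z
      rfl
    have f2 : HasFDerivAt (fun q : ℝ × ℝ => (e ∘ γ) q.2)
        ((ContinuousLinearMap.snd ℝ ℝ ℝ).smulRight v') p := by
      have := e2.hasFDerivAt.comp p (hasFDerivAt_snd (𝕜 := ℝ) (E := ℝ) (F := ℝ))
      refine this.congr_fderiv ?_
      apply ContinuousLinearMap.ext
      intro z
      rfl
    have hF := (f1.sub f2).eventually_ne (c := 0) ⟨K, hK⟩
    have hF' : ∀ᶠ z in 𝓝 p, z ≠ p → (e ∘ γ) z.1 - (e ∘ γ) z.2 ≠ 0 :=
      eventually_nhdsWithin_iff.1 hF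
    filter_upwards [nhdsWithin_le_nhds hF', self_mem_nhdsWithin] with q hq hqZ
    by_contra hqp
    refine hq hqp ?_
    simp only [Function.comp_apply]
    rw [hqZ.1, sub_self]
  obtain ⟨t, ht, htc, hcov⟩ := TopologicalSpace.countable_cover_nhdsWithin (f := fun p => {p}) hiso
  refine htc.mono ?_
  intro q hq
  have := hcov hq
  simp only [Set.mem_iUnion, Set.mem_singleton_iff, exists_prop, exists_eq_right'] at this
  exact this

/-- The pairs `(s, t)` with `γ s = γ t`, `s - t` not a period, form a set all of whose points are isolated: in a chart the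
map `(s', t') ↦ e (γ s') - e (γ t')` has an injective derivative at `(s, t)` by `transverse`
(`HasFDerivAt.eventually_ne`).  Hence the set is countable (second countable and discrete), and some `t₁ ∈ Ioo 0 b` is
not in its projection. -/
theorem exists_good_time {g : RMetric S} {γ : ℝ → S} (hγ : IsGeodesic g γ) {T₀ : ℝ}
    (hmin : ∀ s, (∀ t, γ (t + s) = γ t) → ∃ k : ℤ, s = k * T₀) {b : ℝ} (hb : 0 < b) :
    ∃ t₁ ∈ Set.Ioo 0 b, ∀ t, γ t = γ t₁ → ∃ k : ℤ, t - t₁ = k * T₀ := by
  have hcount := ((cross_countable hγ hmin).image Prod.snd).dense_compl ℝ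
  obtain ⟨t₁, ht1, ht2⟩ := hcount.inter_open_nonempty (Set.Ioo 0 b) isOpen_Ioo (Set.nonempty_Ioo.2 hb)
  refine ⟨t₁, ht1, ?_⟩
  intro t htt
  by_contra hno
  push Not at hno
  exact ht2 ⟨(t, t₁), ⟨htt, hno⟩, rfl⟩

end Pool.Agent.Helper82.PE
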