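import Pool.Agent.Helper82.PE.FlowData

/-!
# Uniform differentiability along the reference solution (module PE-24)
-/

set_option maxSynthPendingDepth 3

namespace Pool.Agent.Helper82.PE

open MeasureTheory Filter Topology Pool.Agent.Helper82.GS
open scoped ContDiff Manifold NNReal

variable {R E : Type*} [NormedAddCommGroup E] [NormedSpace ℝ E] {l : Filter R} {Z : R → E → E}
    {Z₀ : E → E} {O : Set E} {z₀ : ℝ → E} {a b ρ : ℝ}

private theorem fa_cont (h : FlowData l Z Z₀ O z₀ a b ρ) : ContinuousOn z₀ (Set.Icc a b) :=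
  fun t ht => (h.hz₀ t ht).continuousWithinAt

private theorem fa_mem (h : FlowData l Z Z₀ O z₀ a b ρ) {t : ℝ} (ht : t ∈ Set.Icc a b) : z₀ t ∈ O :=
  h.hball t ht (Metric.mem_closedBall_self h.hρ.le)

private theorem fa_contf (h : FlowData l Z Z₀ O z₀ a b ρ) : ContinuousOn (fderiv ℝ Z₀) O :=
  h.hZ₀.continuousOn_fderiv_of_isOpen h.hO le_rfl

private theorem fa_cont' (h : FlowData l Z Z₀ O z₀ a b ρ) :
    ContinuousOn (fun t => fderiv ℝ Z₀ (z₀ t)) (Set.Icc a b) :=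
  (fa_contf h).comp (fa_cont h) fun _ ht => fa_mem h ht

/-- The derivative of `Z₀` is bounded along the reference solution (compactness of `z₀ '' Icc a b`). -/
theorem FlowData.exists_bound (h : FlowData l Z Z₀ O z₀ a b ρ) :
    ∃ Λ, 0 ≤ Λ ∧ ∀ t ∈ Set.Icc a b, ‖fderiv ℝ Z₀ (z₀ t)‖ ≤ Λ := by
  obtain ⟨C, hC⟩ := isCompact_Icc.exists_bound_of_continuousOn (fa_cont' h)
  exact ⟨max C 0, le_max_right _ _, fun t ht => (hC t ht).trans (le_max_left _ _)⟩

theorem FlowData.continuousOn_fderiv (h : FlowData l Z Z₀ O z₀ a b ρ) :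
    ContinuousOn (fun t => fderiv ℝ Z₀ (z₀ t)) (Set.Icc a b) :=
  fa_cont' h

/-- Uniform differentiability: `fderiv Z₀` is continuous at the points of the compact set `z₀ '' Icc a b`, so there is
`r` with `‖fderiv Z₀ x - fderiv Z₀ (z₀ t)‖ ≤ η / 2` for `x ∈ closedBall (z₀ t) r` (`uniformContinuousAt_of_continuousAt`);
mean value inequality on the ball for `Z₀ - fderiv Z₀ (z₀ t)`; and `hclose` with `η / 2` for the difference. -/
theorem FlowData.unif_diff (h : FlowData l Z Z₀ O z₀ a b ρ) {η : ℝ} (hη : 0 < η) :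
    ∃ r, 0 < r ∧ r ≤ ρ ∧ ∀ᶠ g in l, ∀ t ∈ Set.Icc a b, ∀ x ∈ Metric.closedBall (z₀ t) r,
      ∀ y ∈ Metric.closedBall (z₀ t) r, ‖Z g x - Z g y - fderiv ℝ Z₀ (z₀ t) (x - y)‖ ≤ η * ‖x - y‖ := by
  have hK : IsCompact (z₀ '' Set.Icc a b) := isCompact_Icc.image_of_continuousOn (fa_cont h)
  have hη2 : 0 < η / 2 := by linarith
  have hca : ∀ x ∈ z₀ '' Set.Icc a b, ContinuousAt (fderiv ℝ Z₀) x := by
    rintro _ ⟨t, ht, rfl⟩
    exact (fa_contf h).continuousAt (h.hO.mem_nhds (fa_mem h ht))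
  have hu := hK.uniformContinuousAt_of_continuousAt (fderiv ℝ Z₀) hca (Metric.dist_mem_uniformity hη2)
  obtain ⟨δ, hδ, hd⟩ := Metric.mem_uniformity_dist.mp hu
  have hd' : ∀ t ∈ Set.Icc a b, ∀ x : E, dist (z₀ t) x < δ →
      dist (fderiv ℝ Z₀ (z₀ t)) (fderiv ℝ Z₀ x) < η / 2 := fun t ht x hx =>
    hd hx (Set.mem_image_of_mem z₀ ht)
  refine ⟨min ρ (δ / 2), lt_min h.hρ (by linarith), min_le_left _ _, ?_⟩
  filter_upwards [h.hclose (η / 2) hη2] with g hg t ht x hx y hy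
  have hsub : Metric.closedBall (z₀ t) (min ρ (δ / 2)) ⊆ Metric.closedBall (z₀ t) ρ :=
    Metric.closedBall_subset_closedBall (min_le_left _ _)
  have h1 := (hg t ht x (hsub hx)).2 y (hsub hy)
  have h2 : ‖Z₀ x - Z₀ y - fderiv ℝ Z₀ (z₀ t) (x - y)‖ ≤ η / 2 * ‖x - y‖ := by
    refine Convex.norm_image_sub_le_of_norm_hasFDerivWithin_le' (f' := fderiv ℝ Z₀)
      (s := Metric.closedBall (z₀ t) (min ρ (δ / 2))) (fun w hw => ?_) (fun w hw => ?_)
      (convex_closedBall _ _) hy hx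
    · have hwO : w ∈ O := h.hball t ht (hsub hw)
      exact ((h.hZ₀.differentiableOn one_ne_zero w hwO).differentiableAt
        (h.hO.mem_nhds hwO)).hasFDerivAt.hasFDerivWithinAt
    · have hw' : dist (z₀ t) w < δ := by
        rw [dist_comm]
        have := (Metric.mem_closedBall.mp hw).trans (min_le_right _ _)
        linarith
      have := hd' t ht w hw'
      rw [dist_comm, dist_eq_norm] at this
      exact this.le
  have h3 : Z g x - Z g y - fderiv ℝ Z₀ (z₀ t) (x - y) =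
      ((Z g x - Z₀ x) - (Z g y - Z₀ y)) + (Z₀ x - Z₀ y - fderiv ℝ Z₀ (z₀ t) (x - y)) := by
    abel
  rw [h3]
  refine (norm_add_le _ _).trans ?_
  linarith

end Pool.Agent.Helper82.PE
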