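import Pool.Agent.Helper82.PE.FlowA

/-!
# A priori bound and difference of two solutions (module PE-25)
-/

set_option maxSynthPendingDepth 3

namespace Pool.Agent.Helper82.PE

open MeasureTheory Filter Topology Pool.Agent.Helper82.GS
open scoped ContDiff Manifold NNReal

variable {R E : Type*} [NormedAddCommGroup E] [NormedSpace ℝ E] {l : Filter R} {Z : R → E → E}
    {Z₀ : E → E} {O : Set E} {z₀ : ℝ → E} {a b ρ : ℝ}

/-- A priori bound.  `r₁` from `unif_diff` with `η = 1`.  For `u = α - z₀`: `u' = Z g α - Z₀ z₀`, so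
`‖u' - L u‖ ≤ ‖Z g α - Z g z₀ - L u‖ + ‖Z g z₀ - Z₀ z₀‖ ≤ ‖u‖ + μ`; `gronwall_lin` with `κ = 1`. -/
theorem FlowData.apriori (h : FlowData l Z Z₀ O z₀ a b ρ) :
    ∃ r₁ C, 0 < r₁ ∧ r₁ ≤ ρ ∧ 0 < C ∧ ∀ μ > 0, ∀ᶠ g in l, ∀ α, Tracks (Z g) z₀ a b r₁ α →
      ∀ t ∈ Set.Icc a b, ‖α t - z₀ t‖ ≤ C * (‖α a - z₀ a‖ + μ) := by
  obtain ⟨Λ, hΛ0, hΛ⟩ := h.exists_bound
  obtain ⟨r₁, hr0, hrρ, hev⟩ := h.unif_diff one_pos
  have hab : 0 ≤ b - a := sub_nonneg.2 h.hab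
  refine ⟨r₁, (1 + (b - a)) * Real.exp ((Λ + 1) * (b - a)), hr0, hrρ, by positivity, ?_⟩
  intro μ hμ
  filter_upwards [hev, h.hclose μ hμ] with g h1 h2 α hα t ht
  have hz : ∀ s ∈ Set.Icc a b, z₀ s ∈ Metric.closedBall (z₀ s) r₁ := fun s _ =>
    Metric.mem_closedBall_self hr0.le
  have hg := gronwall_lin (L := fun s => fderiv ℝ Z₀ (z₀ s)) (Λ := Λ) (κ := 1) (μ := μ) (a := a)
    (b := b) hΛ0 zero_le_one hμ.le hΛ (u := fun s => α s - z₀ s)
    (u' := fun s => Z g (α s) - Z₀ (z₀ s))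
    (fun s hs => (hα s hs).1.sub (h.hz₀ s hs)) (by
      intro s hs
      have e1 := h1 s hs (α s) (hα s hs).2 (z₀ s) (hz s hs)
      have e2 := (h2 s hs (z₀ s) (Metric.mem_closedBall_self h.hρ.le)).1
      have e3 : Z g (α s) - Z₀ (z₀ s) - fderiv ℝ Z₀ (z₀ s) (α s - z₀ s) =
          (Z g (α s) - Z g (z₀ s) - fderiv ℝ Z₀ (z₀ s) (α s - z₀ s)) +
            (Z g (z₀ s) - Z₀ (z₀ s)) := by abel
      show ‖Z g (α s) - Z₀ (z₀ s) - fderiv ℝ Z₀ (z₀ s) (α s - z₀ s)‖ ≤ _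
      rw [e3]
      exact (norm_add_le _ _).trans (add_le_add e1 e2)) t ht
  refine hg.trans ?_
  have hn : 0 ≤ ‖α a - z₀ a‖ := norm_nonneg _
  have hexp : 0 < Real.exp ((Λ + 1) * (b - a)) := Real.exp_pos _
  have h3 : ‖α a - z₀ a‖ + μ * (b - a) ≤ (1 + (b - a)) * (‖α a - z₀ a‖ + μ) := by
    nlinarith [mul_nonneg hab hn]
  calc (‖α a - z₀ a‖ + μ * (b - a)) * Real.exp ((Λ + 1) * (b - a))
      ≤ ((1 + (b - a)) * (‖α a - z₀ a‖ + μ)) * Real.exp ((Λ + 1) * (b - a)) :=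
        mul_le_mul_of_nonneg_right h3 hexp.le
    _ = _ := by ring

/-- Difference of two solutions.  By `apriori`, if `α a, β a` are close to `z₀ a` then `α`, `β` stay in the small balls
where `unif_diff` holds with `η' > 0` (to be chosen).  Let `δ = α - β`; then `‖δ' - L δ‖ ≤ η' ‖δ‖`, so
`‖δ t‖ ≤ C' ‖δ a‖` (`gronwall_lin`); let `w = δ - m (δ a)`: `‖w' - L w‖ ≤ η' ‖δ‖ ≤ η' C' ‖δ a‖`, `w a = 0`, so
`‖w b‖ ≤ η' C'' ‖δ a‖`. -/
theorem FlowData.difference (h : FlowData l Z Z₀ O z₀ a b ρ) {m : ℝ → E →L[ℝ] E}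
    (hma : m a = ContinuousLinearMap.id ℝ E)
    (hm : ∀ t ∈ Set.Icc a b, HasDerivWithinAt m ((fderiv ℝ Z₀ (z₀ t)) ∘L m t) (Set.Icc a b) t) :
    ∃ r₁, 0 < r₁ ∧ r₁ ≤ ρ ∧ ∀ η > 0, ∃ r > 0, ∀ᶠ g in l, ∀ α β, Tracks (Z g) z₀ a b r₁ α →
      Tracks (Z g) z₀ a b r₁ β → α a ∈ Metric.ball (z₀ a) r → β a ∈ Metric.ball (z₀ a) r →
      ‖α b - β b - m b (α a - β a)‖ ≤ η * ‖α a - β a‖ := by
  obtain ⟨Λ, hΛ0, hΛ⟩ := h.exists_bound
  obtain ⟨r₁, C, hr0, hrρ, hC, hap⟩ := h.apriori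
  have hab : 0 ≤ b - a := sub_nonneg.2 h.hab
  refine ⟨r₁, hr0, hrρ, ?_⟩
  intro η hη
  set M : ℝ := Real.exp ((Λ + 1) * (b - a)) with hM
  have hM0 : 0 < M := Real.exp_pos _
  have hM1 : Real.exp (Λ * (b - a)) ≤ M := by
    apply Real.exp_le_exp.2
    nlinarith
  set η' : ℝ := min 1 (η / (M * M * (b - a) + 1)) with hη'
  have hden : 0 < M * M * (b - a) + 1 := by positivity
  have hη'0 : 0 < η' := lt_min one_pos (div_pos hη hden)
  have hη'1 : η' ≤ 1 := min_le_left _ _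
  have hη'2 : η' * (M * M * (b - a)) ≤ η := by
    have e1 : η' ≤ η / (M * M * (b - a) + 1) := min_le_right _ _
    rw [le_div_iff₀ hden] at e1
    nlinarith
  obtain ⟨r₂, hr20, hr2ρ, hev⟩ := h.unif_diff hη'0
  have hq : 0 < r₂ / (2 * C) := by positivity
  refine ⟨r₂ / (2 * C), hq, ?_⟩
  filter_upwards [hev, hap (r₂ / (2 * C)) hq] with g h1 h2 α β hα hβ hαa hβa
  have hin : ∀ γ : ℝ → E, Tracks (Z g) z₀ a b r₁ γ → γ a ∈ Metric.ball (z₀ a) (r₂ / (2 * C)) →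
      ∀ t ∈ Set.Icc a b, γ t ∈ Metric.closedBall (z₀ t) r₂ := by
    intro γ hγ hγa t ht
    have e1 := h2 γ hγ t ht
    have e2 : ‖γ a - z₀ a‖ < r₂ / (2 * C) := by
      rw [← dist_eq_norm]
      exact hγa
    rw [Metric.mem_closedBall, dist_eq_norm]
    refine e1.trans ?_
    have e3 : C * (‖γ a - z₀ a‖ + r₂ / (2 * C)) ≤ C * (r₂ / (2 * C) + r₂ / (2 * C)) :=
      mul_le_mul_of_nonneg_left (by linarith) hC.le
    refine e3.trans (le_of_eq ?_)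
    field_simp
    ring
  have hαb := hin α hα hαa
  have hβb := hin β hβ hβa
  have hδ' : ∀ t ∈ Set.Icc a b, HasDerivWithinAt (fun s => α s - β s) (Z g (α t) - Z g (β t))
      (Set.Icc a b) t := fun t ht => (hα t ht).1.sub (hβ t ht).1
  have hδ : ∀ t ∈ Set.Icc a b, ‖α t - β t‖ ≤ M * ‖α a - β a‖ := by
    intro t ht
    have hg := gronwall_lin (L := fun s => fderiv ℝ Z₀ (z₀ s)) (Λ := Λ) (κ := 1) (μ := 0) (a := a)
      (b := b) hΛ0 zero_le_one le_rfl hΛ (u := fun s => α s - β s)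
      (u' := fun s => Z g (α s) - Z g (β s)) hδ' (by
        intro s hs
        have e1 := h1 s hs (α s) (hαb s hs) (β s) (hβb s hs)
        rw [add_zero]
        exact e1.trans (mul_le_mul_of_nonneg_right hη'1 (norm_nonneg _))) t ht
    refine hg.trans (le_of_eq ?_)
    rw [zero_mul, add_zero, mul_comm]
  have hw' : ∀ t ∈ Set.Icc a b, HasDerivWithinAt (fun s => α s - β s - m s (α a - β a))
      (Z g (α t) - Z g (β t) - fderiv ℝ Z₀ (z₀ t) (m t (α a - β a))) (Set.Icc a b) t := by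
    intro t ht
    have e1 := (hm t ht).clm_apply (hasDerivWithinAt_const t (Set.Icc a b) (α a - β a))
    have e2 : (fderiv ℝ Z₀ (z₀ t) ∘L m t) (α a - β a) + m t 0 =
        fderiv ℝ Z₀ (z₀ t) (m t (α a - β a)) := by
      rw [map_zero, add_zero]
      rfl
    rw [e2] at e1
    exact (hδ' t ht).sub e1
  have hg := gronwall_lin (L := fun s => fderiv ℝ Z₀ (z₀ s)) (Λ := Λ) (κ := 0)
    (μ := η' * (M * ‖α a - β a‖)) (a := a) (b := b) hΛ0 le_rfl (by positivity) hΛ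
    (u := fun s => α s - β s - m s (α a - β a))
    (u' := fun t => Z g (α t) - Z g (β t) - fderiv ℝ Z₀ (z₀ t) (m t (α a - β a))) hw' (by
      intro s hs
      have e1 := h1 s hs (α s) (hαb s hs) (β s) (hβb s hs)
      have e2 : Z g (α s) - Z g (β s) - fderiv ℝ Z₀ (z₀ s) (m s (α a - β a)) -
          fderiv ℝ Z₀ (z₀ s) (α s - β s - m s (α a - β a)) =
          Z g (α s) - Z g (β s) - fderiv ℝ Z₀ (z₀ s) (α s - β s) := by
        rw [map_sub (fderiv ℝ Z₀ (z₀ s)) (α s - β s) (m s (α a - β a))]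
        abel
      show ‖Z g (α s) - Z g (β s) - fderiv ℝ Z₀ (z₀ s) (m s (α a - β a)) -
          fderiv ℝ Z₀ (z₀ s) (α s - β s - m s (α a - β a))‖ ≤ _
      rw [e2, zero_mul, zero_add]
      exact e1.trans (mul_le_mul_of_nonneg_left (hδ s hs) hη'0.le)) b (Set.right_mem_Icc.2 h.hab)
  have hwa : α a - β a - m a (α a - β a) = 0 := by
    rw [hma]
    simp
  simp only [hwa, norm_zero, zero_add, add_zero] at hg
  refine hg.trans ?_
  have hn : 0 ≤ ‖α a - β a‖ := norm_nonneg _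
  calc η' * (M * ‖α a - β a‖) * (b - a) * Real.exp (Λ * (b - a))
      ≤ η' * (M * ‖α a - β a‖) * (b - a) * M :=
        mul_le_mul_of_nonneg_left hM1 (by positivity)
    _ = η' * (M * M * (b - a)) * ‖α a - β a‖ := by ring
    _ ≤ η * ‖α a - β a‖ := mul_le_mul_of_nonneg_right hη'2 hn

end Pool.Agent.Helper82.PE
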