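import Pool.Agent.Helper82.PE.FlowB

/-!
# Existence of solutions near the reference solution (module PE-26)
-/

set_option maxSynthPendingDepth 3

namespace Pool.Agent.Helper82.PE

open MeasureTheory Filter Topology Pool.Agent.Helper82.GS
open scoped ContDiff Manifold NNReal

variable {R E : Type*} [NormedAddCommGroup E] [NormedSpace ℝ E] {l : Filter R} {Z : R → E → E}
    {Z₀ : E → E} {O : Set E} {z₀ : ℝ → E} {a b ρ : ℝ}

/-- Radial retraction onto a closed ball, Lipschitz with constant `2`: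
`π u = u` for `‖u‖ ≤ r`, `π u = (r / ‖u‖) u` for `‖u‖ > r`. -/
theorem exists_retraction (E : Type*) [NormedAddCommGroup E] [NormedSpace ℝ E] {r : ℝ} (hr : 0 < r) :
    ∃ π : E → E, LipschitzWith 2 π ∧ (∀ u, ‖π u‖ ≤ r) ∧ ∀ u, ‖u‖ ≤ r → π u = u := by
  classical
  set π : E → E := fun u => if ‖u‖ ≤ r then u else (r / ‖u‖) • u with hπ
  have hin : ∀ u, ‖u‖ ≤ r → π u = u := fun u hu => by simp [hπ, hu]
  have hout : ∀ u, ¬ ‖u‖ ≤ r → π u = (r / ‖u‖) • u := fun u hu => by simp [hπ, hu]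
  -- the mixed case
  have hmix : ∀ u v, ‖u‖ ≤ r → ¬ ‖v‖ ≤ r → ‖π u - π v‖ ≤ 2 * ‖u - v‖ := by
    intro u v hu hv
    rw [hin u hu, hout v hv]
    have hv' : r < ‖v‖ := not_le.1 hv
    have hv0 : 0 < ‖v‖ := hr.trans hv'
    have h1 : ‖v - (r / ‖v‖) • v‖ = ‖v‖ - r := by
      have h2 : v - (r / ‖v‖) • v = (1 - r / ‖v‖) • v := by rw [sub_smul, one_smul]
      rw [h2, norm_smul, Real.norm_eq_abs, abs_of_nonneg]
      · field_simp
      · rw [sub_nonneg, div_le_one hv0]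
        exact hv'.le
    have h3 : ‖v‖ - ‖u‖ ≤ ‖u - v‖ := by
      rw [norm_sub_rev]
      exact norm_sub_norm_le v u
    calc ‖u - (r / ‖v‖) • v‖ = ‖(u - v) + (v - (r / ‖v‖) • v)‖ := by rw [sub_add_sub_cancel]
      _ ≤ ‖u - v‖ + ‖v - (r / ‖v‖) • v‖ := norm_add_le _ _
      _ ≤ 2 * ‖u - v‖ := by
          rw [h1]
          linarith
  refine ⟨π, ?_, ?_, hin⟩
  · refine LipschitzWith.of_dist_le_mul fun u v => ?_
    rw [dist_eq_norm, dist_eq_norm]
    show ‖π u - π v‖ ≤ 2 * ‖u - v‖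
    by_cases hu : ‖u‖ ≤ r
    · by_cases hv : ‖v‖ ≤ r
      · rw [hin u hu, hin v hv]
        have := norm_nonneg (u - v)
        linarith
      · exact hmix u v hu hv
    · by_cases hv : ‖v‖ ≤ r
      · rw [norm_sub_rev, norm_sub_rev u v]
        exact hmix v u hv hu
      · have hu' : r < ‖u‖ := not_le.1 hu
        have hv' : r < ‖v‖ := not_le.1 hv
        have hu0 : 0 < ‖u‖ := hr.trans hu'
        have hv0 : 0 < ‖v‖ := hr.trans hv'
        rw [hout u hu, hout v hv]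
        have h1 : (r / ‖u‖) • u - (r / ‖v‖) • v = (r / ‖u‖) • (u - v) + (r / ‖u‖ - r / ‖v‖) • v := by
          rw [smul_sub, sub_smul]
          abel
        have h2 : ‖(r / ‖u‖) • (u - v)‖ ≤ ‖u - v‖ := by
          rw [norm_smul, Real.norm_eq_abs, abs_of_nonneg (by positivity)]
          have : r / ‖u‖ ≤ 1 := by
            rw [div_le_one hu0]
            exact hu'.le
          calc r / ‖u‖ * ‖u - v‖ ≤ 1 * ‖u - v‖ := mul_le_mul_of_nonneg_right this (norm_nonneg _)
            _ = _ := one_mul _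
        have h3 : ‖(r / ‖u‖ - r / ‖v‖) • v‖ ≤ ‖u - v‖ := by
          rw [norm_smul, Real.norm_eq_abs]
          have h4 : r / ‖u‖ - r / ‖v‖ = (r / (‖u‖ * ‖v‖)) * (‖v‖ - ‖u‖) := by
            field_simp
          rw [h4, abs_mul, abs_of_nonneg (by positivity : (0 : ℝ) ≤ r / (‖u‖ * ‖v‖))]
          have h5 : |‖v‖ - ‖u‖| ≤ ‖u - v‖ := by
            rw [norm_sub_rev]
            exact abs_norm_sub_norm_le v u
          have h6 : r / (‖u‖ * ‖v‖) * ‖v‖ ≤ 1 := by
            rw [div_mul_eq_mul_div, div_le_one (by positivity)]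
            exact mul_le_mul_of_nonneg_right hu'.le hv0.le
          calc r / (‖u‖ * ‖v‖) * |‖v‖ - ‖u‖| * ‖v‖ = (r / (‖u‖ * ‖v‖) * ‖v‖) * |‖v‖ - ‖u‖| := by ring
            _ ≤ 1 * ‖u - v‖ := mul_le_mul h6 h5 (abs_nonneg _) zero_le_one
            _ = _ := one_mul _
        rw [h1]
        refine (norm_add_le _ _).trans ?_
        linarith
  · intro u
    by_cases hu : ‖u‖ ≤ r
    · rw [hin u hu]
      exact hu
    · have hu0 : 0 < ‖u‖ := hr.trans (not_le.1 hu)
      rw [hout u hu, norm_smul, Real.norm_eq_abs, abs_of_nonneg (by positivity)]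
      rw [div_mul_cancel₀ _ hu0.ne']

/-- Proof: `r₁` from `unif_diff` with `η = 1`; let `r' = min r₂ r₁`, `L t = fderiv Z₀ (z₀ t)` bounded by `Λ`.  With the
retraction `π` onto the ball of radius `r'` let `v t u = L t u + (Z g (z₀ t + π u) - Z₀ (z₀ t) - L t (π u))`: for `g` deep
in `l` it is Lipschitz in `u` with constant `Λ + 2`, continuous in `t` (`hcont`, `hball`).  Solve `u' = v t u`,
`u a = x - z₀ a` (`exists_solution_of_lipschitz`); `‖v t u - L t u‖ ≤ ‖π u‖ + μ ≤ 2 ‖u‖ + μ` with `‖Z g (z₀ t) - Z₀ (z₀ t)‖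
≤ μ`, so by `gronwall_lin` `‖u t‖ ≤ C (‖x - z₀ a‖ + μ (b - a)) ≤ r'` for `x` near `z₀ a` and `μ` small; hence `π (u t) = u t`
and `α = z₀ + u` solves `α' = Z g α`. -/
theorem FlowData.exists_tracking [CompleteSpace E] (h : FlowData l Z Z₀ O z₀ a b ρ) {r₂ : ℝ} (hr₂ : 0 < r₂) :
    ∃ r > 0, ∀ᶠ g in l, ∀ x ∈ Metric.ball (z₀ a) r, ∃ α : ℝ → E, α a = x ∧ Tracks (Z g) z₀ a b r₂ α := by
  obtain ⟨r₁, hr₁, hr₁ρ, hud⟩ := h.unif_diff one_pos
  obtain ⟨Λ, hΛ0, hΛ⟩ := h.exists_bound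
  have hLc := h.continuousOn_fderiv
  set r' : ℝ := min r₂ r₁ with hr'def
  have hr' : 0 < r' := lt_min hr₂ hr₁
  have hr'₁ : r' ≤ r₁ := min_le_right _ _
  have hr'₂ : r' ≤ r₂ := min_le_left _ _
  obtain ⟨π, hπlip, hπr, hπid⟩ := exists_retraction E hr'
  have hab := h.hab
  set C : ℝ := Real.exp ((Λ + 2) * (b - a)) with hC
  have hCpos : 0 < C := Real.exp_pos _
  set μ : ℝ := r' / (2 * C * (b - a + 1)) with hμdef
  have hba : 0 < b - a + 1 := by linarith
  have hμ : 0 < μ := by positivity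
  refine ⟨r' / (2 * C), by positivity, ?_⟩
  filter_upwards [hud, h.hcont, h.hclose μ hμ] with g hg hgc hgm x hx
  have hπ0 : π 0 = 0 := hπid 0 (by simpa using hr'.le)
  have hπn : ∀ u, ‖π u‖ ≤ 2 * ‖u‖ := by
    intro u
    have := hπlip.dist_le_mul u 0
    rw [hπ0, dist_zero_right, dist_zero_right] at this
    simpa using this
  have hz₀mem : ∀ t, z₀ t ∈ Metric.closedBall (z₀ t) r₁ := fun t => Metric.mem_closedBall_self hr₁.le
  have hmem : ∀ t u, z₀ t + π u ∈ Metric.closedBall (z₀ t) r₁ := by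
    intro t u
    rw [Metric.mem_closedBall, dist_eq_norm, add_sub_cancel_left]
    exact (hπr u).trans hr'₁
  set L : ℝ → E →L[ℝ] E := fun t => fderiv ℝ Z₀ (z₀ t) with hLdef
  set v : ℝ → E → E := fun t u => L t u + (Z g (z₀ t + π u) - Z₀ (z₀ t) - L t (π u)) with hvdef
  have hlip : ∀ t ∈ Set.Icc a b, LipschitzWith ⟨Λ + 2, by positivity⟩ (v t) := by
    intro t ht
    refine LipschitzWith.of_dist_le_mul fun u w => ?_
    rw [dist_eq_norm, dist_eq_norm]
    show ‖v t u - v t w‖ ≤ (Λ + 2) * ‖u - w‖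
    have h1 : v t u - v t w =
        L t (u - w) + (Z g (z₀ t + π u) - Z g (z₀ t + π w) - L t ((z₀ t + π u) - (z₀ t + π w))) := by
      simp only [hvdef, map_sub, map_add]
      abel
    rw [h1]
    have h2 := hg t ht _ (hmem t u) _ (hmem t w)
    have h3 : ‖(z₀ t + π u) - (z₀ t + π w)‖ ≤ 2 * ‖u - w‖ := by
      rw [add_sub_add_left_eq_sub]
      have := hπlip.dist_le_mul u w
      rw [dist_eq_norm, dist_eq_norm] at this
      simpa using this
    calc ‖L t (u - w) + (Z g (z₀ t + π u) - Z g (z₀ t + π w) - L t ((z₀ t + π u) - (z₀ t + π w)))‖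
        ≤ ‖L t (u - w)‖ + ‖Z g (z₀ t + π u) - Z g (z₀ t + π w) - L t ((z₀ t + π u) - (z₀ t + π w))‖ :=
          norm_add_le _ _
      _ ≤ Λ * ‖u - w‖ + 1 * ‖(z₀ t + π u) - (z₀ t + π w)‖ := by
          refine add_le_add ?_ h2
          exact ((L t).le_opNorm _).trans (mul_le_mul_of_nonneg_right (hΛ t ht) (norm_nonneg _))
      _ ≤ (Λ + 2) * ‖u - w‖ := by linarith
  have hz₀c : ContinuousOn z₀ (Set.Icc a b) := fun t ht => (h.hz₀ t ht).continuousWithinAt
  have hcont : ∀ u, ContinuousOn (fun t => v t u) (Set.Icc a b) := by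
    intro u
    have h1 : ContinuousOn (fun t => Z g (z₀ t + π u)) (Set.Icc a b) := by
      refine hgc.comp (hz₀c.add continuousOn_const) fun t ht => ?_
      exact h.hball t ht (Metric.closedBall_subset_closedBall hr₁ρ (hmem t u))
    have h2 : ContinuousOn (fun t => Z₀ (z₀ t)) (Set.Icc a b) := by
      refine h.hZ₀.continuousOn.comp hz₀c fun t ht => ?_
      exact h.hball t ht (Metric.mem_closedBall_self h.hρ.le)
    exact (hLc.clm_apply continuousOn_const).add ((h1.sub h2).sub (hLc.clm_apply continuousOn_const))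
  obtain ⟨u, hua, hu⟩ := exists_solution_of_lipschitz hab hlip hcont (x - z₀ a)
  have hgr := gronwall_lin (L := L) (κ := 2) hΛ0 (by norm_num) hμ.le hΛ hu (μ := μ) (by
    intro t ht
    have h1 : v t (u t) - L t (u t) =
        (Z g (z₀ t + π (u t)) - Z g (z₀ t) - L t ((z₀ t + π (u t)) - z₀ t)) + (Z g (z₀ t) - Z₀ (z₀ t)) := by
      simp only [hvdef, add_sub_cancel_left]
      abel
    rw [h1]
    have h2 := hg t ht _ (hmem t (u t)) _ (hz₀mem t)
    rw [add_sub_cancel_left] at h2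
    have h3 := (hgm t ht (z₀ t) (Metric.mem_closedBall_self h.hρ.le)).1
    have h4 := hπn (u t)
    rw [add_sub_cancel_left]
    refine (norm_add_le _ _).trans ?_
    linarith)
  have hbound : ∀ t ∈ Set.Icc a b, ‖u t‖ ≤ r' := by
    intro t ht
    refine (hgr t ht).trans ?_
    have h1 : ‖u a‖ ≤ r' / (2 * C) := by
      rw [hua, ← dist_eq_norm]
      exact (Metric.mem_ball.1 hx).le
    have h2 : μ * (b - a) ≤ r' / (2 * C) := by
      rw [hμdef, div_mul_eq_mul_div, div_le_div_iff₀ (by positivity) (by positivity)]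
      have : 0 ≤ r' * (2 * C) := by positivity
      nlinarith
    calc (‖u a‖ + μ * (b - a)) * Real.exp ((Λ + 2) * (b - a)) ≤ (r' / (2 * C) + r' / (2 * C)) * C :=
          mul_le_mul_of_nonneg_right (add_le_add h1 h2) hCpos.le
      _ = r' := by field_simp; ring
  refine ⟨fun t => z₀ t + u t, by simp [hua], fun t ht => ⟨?_, ?_⟩⟩
  · refine ((h.hz₀ t ht).add (hu t ht)).congr_deriv ?_
    simp only [hvdef, hπid (u t) (hbound t ht)]
    abel
  · rw [Metric.mem_closedBall, dist_eq_norm, add_sub_cancel_left]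
    exact (hbound t ht).trans hr'₂

end Pool.Agent.Helper82.PE
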