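import Pool.Agent.Helper82.PE.FlowC

/-!
# The flow is uniformly approximately linear (module PE-27)
-/

set_option maxSynthPendingDepth 3

namespace Pool.Agent.Helper82.PE

open MeasureTheory Filter Topology Pool.Agent.Helper82.GS
open scoped ContDiff Manifold NNReal

variable {R E : Type*} [NormedAddCommGroup E] [NormedSpace ℝ E] {l : Filter R} {Z : R → E → E}
    {Z₀ : E → E} {O : Set E} {z₀ : ℝ → E} {a b ρ : ℝ}

/-- Proof: `r₁` from `difference`; `F g x := α b` for some `α` with `α a = x` and `Tracks (Z g) z₀ a b r₁ α`, if there is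
one (`exists_tracking` with `r₂ = r₁`), else `0`.  The Lipschitz estimate is `difference`; the limit of `F g (z₀ a)` is
`z₀ b`: by `apriori`-like bound, or apply `exists_tracking` for arbitrarily small `r₂` together with `difference`
(two solutions starting at the same point and tracking agree at time `b`). -/
theorem FlowData.exists_ual_flow [CompleteSpace E] (h : FlowData l Z Z₀ O z₀ a b ρ) {m : ℝ → E →L[ℝ] E}
    (hma : m a = ContinuousLinearMap.id ℝ E)
    (hm : ∀ t ∈ Set.Icc a b, HasDerivWithinAt m ((fderiv ℝ Z₀ (z₀ t)) ∘L m t) (Set.Icc a b) t) :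
    ∃ F : R → E → E, UAL l F (m b) (z₀ a) (z₀ b) ∧ ∃ r > 0, ∀ᶠ g in l, ∀ x ∈ Metric.ball (z₀ a) r,
      ∃ α : ℝ → E, α a = x ∧ α b = F g x ∧ Tracks (Z g) z₀ a b ρ α := by
  classical
  obtain ⟨r₁, hr₁, hr₁ρ, hdiff⟩ := h.difference hma hm
  obtain ⟨r₀, hr₀, htr⟩ := h.exists_tracking hr₁
  have hex : ∃ F : R → E → E, ∀ g x, (∃ α : ℝ → E, α a = x ∧ Tracks (Z g) z₀ a b r₁ α) →
      ∃ α : ℝ → E, α a = x ∧ α b = F g x ∧ Tracks (Z g) z₀ a b r₁ α := by
    refine ⟨fun g x => if hx : ∃ α : ℝ → E, α a = x ∧ Tracks (Z g) z₀ a b r₁ α then hx.choose b else 0, ?_⟩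
    intro g x hx
    refine ⟨hx.choose, hx.choose_spec.1, ?_, hx.choose_spec.2⟩
    beta_reduce
    rw [dif_pos hx]
  obtain ⟨F, hF⟩ := hex
  refine ⟨F, ⟨?_, ?_⟩, r₀, hr₀, ?_⟩
  · rw [Metric.tendsto_nhds]
    intro ε hε
    have hr₂ : 0 < min (ε / 2) r₁ := lt_min (by positivity) hr₁
    obtain ⟨r₃, hr₃, htr₃⟩ := h.exists_tracking hr₂
    obtain ⟨r₄, hr₄, hd⟩ := hdiff 1 one_pos
    filter_upwards [htr, htr₃, hd] with g h1 h2 h3
    obtain ⟨α, hαa, hα⟩ := h2 (z₀ a) (Metric.mem_ball_self hr₃)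
    obtain ⟨β, hβa, hβb, hβ⟩ := hF g (z₀ a) (h1 (z₀ a) (Metric.mem_ball_self hr₀))
    have hα₁ : Tracks (Z g) z₀ a b r₁ α := fun t ht =>
      ⟨(hα t ht).1, Metric.closedBall_subset_closedBall (min_le_right _ _) (hα t ht).2⟩
    have h4 := h3 α β hα₁ hβ (by rw [hαa]; exact Metric.mem_ball_self hr₄)
      (by rw [hβa]; exact Metric.mem_ball_self hr₄)
    rw [hαa, hβa, sub_self, map_zero, sub_zero, norm_zero, mul_zero] at h4
    have h5 : α b = β b := sub_eq_zero.1 (norm_le_zero_iff.1 h4)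
    rw [← hβb, ← h5]
    have h6 := (hα b (Set.right_mem_Icc.2 h.hab)).2
    rw [Metric.mem_closedBall] at h6
    have h7 : min (ε / 2) r₁ ≤ ε / 2 := min_le_left _ _
    linarith
  · intro η hη
    obtain ⟨r, hr, hd⟩ := hdiff η hη
    refine ⟨min r r₀, lt_min hr hr₀, ?_⟩
    filter_upwards [htr, hd] with g h1 h2 x hx y hy
    obtain ⟨α, hαa, hαb, hα⟩ := hF g x (h1 x (Metric.ball_subset_ball (min_le_right _ _) hx))
    obtain ⟨β, hβa, hβb, hβ⟩ := hF g y (h1 y (Metric.ball_subset_ball (min_le_right _ _) hy))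
    have h3 := h2 α β hα hβ (by rw [hαa]; exact Metric.ball_subset_ball (min_le_left _ _) hx)
      (by rw [hβa]; exact Metric.ball_subset_ball (min_le_left _ _) hy)
    rwa [hαa, hβa, hαb, hβb] at h3
  · filter_upwards [htr] with g h1 x hx
    obtain ⟨α, hαa, hαb, hα⟩ := hF g x (h1 x hx)
    exact ⟨α, hαa, hαb, fun t ht =>
      ⟨(hα t ht).1, Metric.closedBall_subset_closedBall hr₁ρ (hα t ht).2⟩⟩

end Pool.Agent.Helper82.PE
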