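import Pool.Agent.Helper82.PE.Defs

/-!
# Calculus of uniformly approximately linear families (module PE-22)
-/

set_option maxSynthPendingDepth 3

namespace Pool.Agent.Helper82.PE

open MeasureTheory Filter Topology Pool.Agent.Helper82.GS
open scoped ContDiff Manifold NNReal

variable {R E E' E'' : Type*} [NormedAddCommGroup E] [NormedSpace ℝ E] [NormedAddCommGroup E'] [NormedSpace ℝ E']
  [NormedAddCommGroup E''] [NormedSpace ℝ E''] {l : Filter R}

/-- Take `η = 1` and `r` small: `‖F g x - b‖ ≤ ‖F g x - F g a‖ + ‖F g a - b‖`, `‖F g x - F g a‖ ≤ (‖A‖ + 1) ‖x - a‖`. -/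
theorem UAL.exists_ball {F : R → E → E'} {A : E →L[ℝ] E'} {a : E} {b : E'} (h : UAL l F A a b) {ε : ℝ}
    (hε : 0 < ε) : ∃ r > 0, ∀ᶠ g in l, ∀ x ∈ Metric.ball a r, F g x ∈ Metric.ball b ε := by
  obtain ⟨r₀, hr₀, hF⟩ := h.2 1 one_pos
  have hA : 0 < ‖A‖ + 1 := by positivity
  refine ⟨min r₀ (ε / (2 * (‖A‖ + 1))), by positivity, ?_⟩
  have h1 : ∀ᶠ g in l, dist (F g a) b < ε / 2 := Metric.tendsto_nhds.1 h.1 _ (by positivity)
  filter_upwards [hF, h1] with g hg hg1 x hx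
  have hx1 : x ∈ Metric.ball a r₀ := Metric.ball_subset_ball (min_le_left _ _) hx
  have hx2 : dist x a < ε / (2 * (‖A‖ + 1)) := lt_of_lt_of_le (Metric.mem_ball.1 hx) (min_le_right _ _)
  have h2 := hg x hx1 a (Metric.mem_ball_self hr₀)
  have h3 : ‖F g x - F g a‖ ≤ (‖A‖ + 1) * ‖x - a‖ := by
    calc ‖F g x - F g a‖ = ‖(F g x - F g a - A (x - a)) + A (x - a)‖ := by rw [sub_add_cancel]
      _ ≤ ‖F g x - F g a - A (x - a)‖ + ‖A (x - a)‖ := norm_add_le _ _
      _ ≤ 1 * ‖x - a‖ + ‖A‖ * ‖x - a‖ := add_le_add h2 (A.le_opNorm _)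
      _ = _ := by ring
  rw [dist_eq_norm] at hx2 hg1
  rw [Metric.mem_ball, dist_eq_norm]
  have h4 : (‖A‖ + 1) * ‖x - a‖ < ε / 2 := by
    calc (‖A‖ + 1) * ‖x - a‖ < (‖A‖ + 1) * (ε / (2 * (‖A‖ + 1))) := mul_lt_mul_of_pos_left hx2 hA
      _ = ε / 2 := by field_simp
  calc ‖F g x - b‖ = ‖(F g x - F g a) + (F g a - b)‖ := by rw [sub_add_sub_cancel]
    _ ≤ ‖F g x - F g a‖ + ‖F g a - b‖ := norm_add_le _ _
    _ < ε := by linarith

theorem UAL.comp {F : R → E → E'} {A : E →L[ℝ] E'} {a : E} {b : E'} (h : UAL l F A a b) {F' : R → E' → E''}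
    {A' : E' →L[ℝ] E''} {c : E''} (h' : UAL l F' A' b c) : UAL l (fun g x => F' g (F g x)) (A' ∘L A) a c := by
  refine ⟨?_, ?_⟩
  · obtain ⟨r, hr, hF'⟩ := h'.2 1 one_pos
    have h1 : ∀ᶠ g in l, F g a ∈ Metric.ball b r := h.1 (Metric.ball_mem_nhds b hr)
    have h2 : Tendsto (fun g => (‖A'‖ + 1) * ‖F g a - b‖) l (𝓝 0) := by
      have h3 : Tendsto (fun g => ‖F g a - b‖) l (𝓝 0) := tendsto_iff_norm_sub_tendsto_zero.1 h.1
      simpa using h3.const_mul (‖A'‖ + 1)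
    have h4 : Tendsto (fun g => F' g (F g a) - F' g b) l (𝓝 0) := by
      refine squeeze_zero_norm' ?_ h2
      filter_upwards [hF', h1] with g hg hg1
      have h5 := hg _ hg1 b (Metric.mem_ball_self hr)
      calc ‖F' g (F g a) - F' g b‖ = ‖(F' g (F g a) - F' g b - A' (F g a - b)) + A' (F g a - b)‖ := by
            rw [sub_add_cancel]
        _ ≤ ‖F' g (F g a) - F' g b - A' (F g a - b)‖ + ‖A' (F g a - b)‖ := norm_add_le _ _
        _ ≤ 1 * ‖F g a - b‖ + ‖A'‖ * ‖F g a - b‖ := add_le_add h5 (A'.le_opNorm _)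
        _ = _ := by ring
    have h6 := h4.add h'.1
    simpa using h6
  · intro η hη
    -- constants
    have hη' : 0 < η / (2 * (‖A‖ + 1)) := by positivity
    obtain ⟨r₁, hr₁, hF'⟩ := h'.2 _ hη'
    obtain ⟨r₂, hr₂, hFb⟩ := h.exists_ball hr₁
    obtain ⟨r₃, hr₃, hF⟩ := h.2 (min 1 (η / (2 * (‖A'‖ + 1)))) (by positivity)
    refine ⟨min r₂ r₃, by positivity, ?_⟩
    filter_upwards [hF', hFb, hF] with g h1 h2 h3 x hx y hy
    have hx2 := Metric.ball_subset_ball (min_le_left r₂ r₃) hx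
    have hy2 := Metric.ball_subset_ball (min_le_left r₂ r₃) hy
    have hx3 := Metric.ball_subset_ball (min_le_right r₂ r₃) hx
    have hy3 := Metric.ball_subset_ball (min_le_right r₂ r₃) hy
    have h4 := h1 _ (h2 x hx2) _ (h2 y hy2)
    have h5 := h3 x hx3 y hy3
    have h6 : ‖F g x - F g y‖ ≤ (‖A‖ + 1) * ‖x - y‖ := by
      calc ‖F g x - F g y‖ = ‖(F g x - F g y - A (x - y)) + A (x - y)‖ := by rw [sub_add_cancel]
        _ ≤ ‖F g x - F g y - A (x - y)‖ + ‖A (x - y)‖ := norm_add_le _ _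
        _ ≤ 1 * ‖x - y‖ + ‖A‖ * ‖x - y‖ := by
            refine add_le_add (h5.trans ?_) (A.le_opNorm _)
            exact mul_le_mul_of_nonneg_right (min_le_left _ _) (norm_nonneg _)
        _ = _ := by ring
    have h7 : ‖A' (F g x - F g y - A (x - y))‖ ≤ ‖A'‖ * (η / (2 * (‖A'‖ + 1)) * ‖x - y‖) := by
      refine (A'.le_opNorm _).trans (mul_le_mul_of_nonneg_left (h5.trans ?_) (norm_nonneg _))
      exact mul_le_mul_of_nonneg_right (min_le_right _ _) (norm_nonneg _)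
    have h8 : F' g (F g x) - F' g (F g y) - (A' ∘L A) (x - y) =
        (F' g (F g x) - F' g (F g y) - A' (F g x - F g y)) + A' (F g x - F g y - A (x - y)) := by
      simp only [map_sub, ContinuousLinearMap.comp_apply]
      abel
    show ‖F' g (F g x) - F' g (F g y) - (A' ∘L A) (x - y)‖ ≤ η * ‖x - y‖
    rw [h8]
    refine (norm_add_le _ _).trans ?_
    have h9 : η / (2 * (‖A‖ + 1)) * ‖F g x - F g y‖ ≤ η / 2 * ‖x - y‖ := by
      calc η / (2 * (‖A‖ + 1)) * ‖F g x - F g y‖ ≤ η / (2 * (‖A‖ + 1)) * ((‖A‖ + 1) * ‖x - y‖) :=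
            mul_le_mul_of_nonneg_left h6 hη'.le
        _ = η / 2 * ‖x - y‖ := by field_simp
    have h10 : ‖A'‖ * (η / (2 * (‖A'‖ + 1)) * ‖x - y‖) ≤ η / 2 * ‖x - y‖ := by
      calc ‖A'‖ * (η / (2 * (‖A'‖ + 1)) * ‖x - y‖) ≤ (‖A'‖ + 1) * (η / (2 * (‖A'‖ + 1)) * ‖x - y‖) :=
            mul_le_mul_of_nonneg_right (by linarith) (by positivity)
        _ = η / 2 * ‖x - y‖ := by field_simp
    linarith

theorem UAL.of_hasStrictFDerivAt {f : E → E'} {A : E →L[ℝ] E'} {a : E} (h : HasStrictFDerivAt f A a) :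
    UAL l (fun _ => f) A a (f a) := by
  refine ⟨tendsto_const_nhds, fun η hη => ?_⟩
  have h1 := h.isLittleO.bound hη
  obtain ⟨r, hr, h2⟩ := Metric.eventually_nhds_iff_ball.1 h1
  refine ⟨r, hr, Eventually.of_forall fun _ x hx y hy => ?_⟩
  have h3 : (x, y) ∈ Metric.ball (a, a) r := by
    rw [← ball_prod_same]
    exact ⟨hx, hy⟩
  exact h2 (x, y) h3

theorem UAL.add {F F' : R → E → E'} {A A' : E →L[ℝ] E'} {a : E} {b b' : E'} (h : UAL l F A a b)
    (h' : UAL l F' A' a b') : UAL l (fun g x => F g x + F' g x) (A + A') a (b + b') := by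
  refine ⟨h.1.add h'.1, fun η hη => ?_⟩
  obtain ⟨r, hr, h1⟩ := h.2 (η / 2) (by positivity)
  obtain ⟨r', hr', h1'⟩ := h'.2 (η / 2) (by positivity)
  refine ⟨min r r', by positivity, ?_⟩
  filter_upwards [h1, h1'] with g h2 h2' x hx y hy
  have h3 := h2 x (Metric.ball_subset_ball (min_le_left _ _) hx) y (Metric.ball_subset_ball (min_le_left _ _) hy)
  have h4 := h2' x (Metric.ball_subset_ball (min_le_right _ _) hx) y (Metric.ball_subset_ball (min_le_right _ _) hy)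
  have h5 : F g x + F' g x - (F g y + F' g y) - (A + A') (x - y) =
      (F g x - F g y - A (x - y)) + (F' g x - F' g y - A' (x - y)) := by
    simp only [_root_.add_apply]
    abel
  show ‖F g x + F' g x - (F g y + F' g y) - (A + A') (x - y)‖ ≤ η * ‖x - y‖
  rw [h5]
  refine (norm_add_le _ _).trans ?_
  linarith

/-- Families that are eventually equal near the base point. -/
theorem UAL.congr {F F' : R → E → E'} {A : E →L[ℝ] E'} {a : E} {b : E'} (h : UAL l F A a b) {r : ℝ} (hr : 0 < r)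
    (h' : ∀ᶠ g in l, ∀ x ∈ Metric.ball a r, F' g x = F g x) : UAL l F' A a b := by
  refine ⟨?_, fun η hη => ?_⟩
  · refine h.1.congr' ?_
    filter_upwards [h'] with g hg
    exact (hg a (Metric.mem_ball_self hr)).symm
  · obtain ⟨r₁, hr₁, h1⟩ := h.2 η hη
    refine ⟨min r r₁, by positivity, ?_⟩
    filter_upwards [h', h1] with g hg h2 x hx y hy
    rw [hg x (Metric.ball_subset_ball (min_le_left _ _) hx), hg y (Metric.ball_subset_ball (min_le_left _ _) hy)]
    exact h2 x (Metric.ball_subset_ball (min_le_right _ _) hx) y (Metric.ball_subset_ball (min_le_right _ _) hy)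

end Pool.Agent.Helper82.PE
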