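import Pool.Agent.Helper82.PE.Propag
import Pool.Agent.Helper82.PE.UALc

/-!
# Families of differential equations: data (modules PE-24 to PE-27)
-/

set_option maxSynthPendingDepth 3

namespace Pool.Agent.Helper82.PE

open MeasureTheory Filter Topology Pool.Agent.Helper82.GS
open scoped ContDiff Manifold NNReal

/-- A family `Z g` of vector fields, `C¹`-close to `Z₀` near the solution `z₀` of `z' = Z₀ z` on `[a, b]`. -/
structure FlowData {R E : Type*} [NormedAddCommGroup E] [NormedSpace ℝ E] (l : Filter R) (Z : R → E → E)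
    (Z₀ : E → E) (O : Set E) (z₀ : ℝ → E) (a b ρ : ℝ) : Prop where
  hO : IsOpen O
  hZ₀ : ContDiffOn ℝ 1 Z₀ O
  hab : a ≤ b
  hρ : 0 < ρ
  hz₀ : ∀ t ∈ Set.Icc a b, HasDerivWithinAt z₀ (Z₀ (z₀ t)) (Set.Icc a b) t
  hball : ∀ t ∈ Set.Icc a b, Metric.closedBall (z₀ t) ρ ⊆ O
  hcont : ∀ᶠ g in l, ContinuousOn (Z g) O
  hclose : ∀ η > 0, ∀ᶠ g in l, ∀ t ∈ Set.Icc a b, ∀ x ∈ Metric.closedBall (z₀ t) ρ, ‖Z g x - Z₀ x‖ ≤ η ∧
    ∀ y ∈ Metric.closedBall (z₀ t) ρ, ‖(Z g x - Z₀ x) - (Z g y - Z₀ y)‖ ≤ η * ‖x - y‖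

/-- `α` solves `α' = Z α` on `[a, b]` and stays `r`-close to `z₀`. -/
def Tracks {E : Type*} [NormedAddCommGroup E] [NormedSpace ℝ E] (Z : E → E) (z₀ : ℝ → E) (a b r : ℝ) (α : ℝ → E) :
    Prop :=
  ∀ t ∈ Set.Icc a b, HasDerivWithinAt α (Z (α t)) (Set.Icc a b) t ∧ α t ∈ Metric.closedBall (z₀ t) r

end Pool.Agent.Helper82.PE
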