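import Pool.Agent.Helper82.PE.Defs

/-!
# Small conformal factors in a chart (module PE-42)
-/

set_option maxSynthPendingDepth 3

namespace Pool.Agent.Helper82.PE

open MeasureTheory Filter Topology Pool.Agent.Helper82.GS
open scoped ContDiff Manifold NNReal

theorem iter_partial {E F : Type*} [NormedAddCommGroup E] [NormedSpace ℝ E] [NormedAddCommGroup F] [NormedSpace ℝ F]
    {W : Set (ℝ × E)} (hW : IsOpen W) {H : ℝ × E → F} (hH : ContDiffOn ℝ ∞ H W) (r : ℕ) {t : ℝ} {y : E}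
    (hy : (t, y) ∈ W) :
    iteratedFDeriv ℝ r (fun z => H (t, z)) y =
      (iteratedFDeriv ℝ r H (t, y)).compContinuousLinearMap fun _ => ContinuousLinearMap.inr ℝ ℝ E := by
  let a : ℝ × E := (t, 0)
  let W' : Set (ℝ × E) := (fun q => q + a) ⁻¹' W
  have hW' : IsOpen W' := hW.preimage (continuous_id.add continuous_const)
  let H' : ℝ × E → F := fun q => H (q + a)
  have hH' : ContDiffOn ℝ ∞ H' W' :=
    hH.comp (contDiff_id.add contDiff_const).contDiffOn (fun q hq => hq)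
  have ea : ∀ z : E, ContinuousLinearMap.inr ℝ ℝ E z + a = (t, z) := by
    intro z
    simp [a]
  have hy' : ContinuousLinearMap.inr ℝ ℝ E y ∈ W' := by
    change ContinuousLinearMap.inr ℝ ℝ E y + a ∈ W
    rw [ea]
    exact hy
  have hopen : IsOpen ((ContinuousLinearMap.inr ℝ ℝ E) ⁻¹' W') :=
    hW'.preimage (ContinuousLinearMap.inr ℝ ℝ E).continuous
  have e1 := (ContinuousLinearMap.inr ℝ ℝ E).iteratedFDerivWithin_comp_right (i := r) hH' hW'.uniqueDiffOn
    hopen.uniqueDiffOn hy' (by exact_mod_cast le_top)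
  rw [iteratedFDerivWithin_of_isOpen r hopen hy', iteratedFDerivWithin_of_isOpen r hW' hy'] at e1
  have e2 : H' ∘ (ContinuousLinearMap.inr ℝ ℝ E) = fun z => H (t, z) := by
    funext z
    change H (ContinuousLinearMap.inr ℝ ℝ E z + a) = _
    rw [ea]
  rw [e2] at e1
  rw [e1]
  have e3 : iteratedFDeriv ℝ r H' (ContinuousLinearMap.inr ℝ ℝ E y) = iteratedFDeriv ℝ r H (t, y) := by
    have := iteratedFDeriv_comp_add_right (𝕜 := ℝ) (f := H) r a (ContinuousLinearMap.inr ℝ ℝ E y)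
    rw [ea] at this
    exact this
  rw [e3]

/-- Let `H (t, z) = σ (t * φ z) • G z`, smooth on the open set of the `(t, z)` with `z ∈ D` and `t * φ z ∈ Ioo (-1) 1`,
which contains `{0} ×ˢ K`.  The iterated derivative of `z ↦ H (t, z)` at `y` is the iterated derivative of `H` at `(t, y)`
composed with the inclusion `z ↦ (0, z)` (`H (t, ·) = H ∘ (· + (t, 0)) ∘ inr`, see
`ContinuousLinearMap.iteratedFDeriv_comp_right`, `iteratedFDeriv_comp_add_right`), so it is jointly continuous in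
`(t, y)` at the points `(0, y)`, `y ∈ K`; use compactness of `K` (tube lemma,
`IsCompact.uniformContinuousAt_of_continuousAt` on `{0} ×ˢ K`). -/
theorem iter_close {F : Type*} [NormedAddCommGroup F] [NormedSpace ℝ F] {D : Set P2} (hD : IsOpen D) {G : P2 → F}
    (hG : ContDiffOn ℝ ∞ G D) {φ : P2 → ℝ} (hφ : ContDiffOn ℝ ∞ φ D) {K : Set P2} (hK : IsCompact K) (hKD : K ⊆ D)
    {σ : ℝ → ℝ} (hσ : ContDiffOn ℝ ∞ σ (Set.Ioo (-1) 1)) (h0 : σ 0 = 1) (r : ℕ) {δ' : ℝ} (hδ' : 0 < δ') :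
    ∃ δ > 0, ∀ t : ℝ, |t| < δ → ∀ y ∈ K,
      ‖iteratedFDeriv ℝ r (fun z => σ (t * φ z) • G z) y - iteratedFDeriv ℝ r G y‖ < δ' := by
  let H : ℝ × P2 → F := fun q => σ (q.1 * φ q.2) • G q.2
  let W : Set (ℝ × P2) := (Prod.snd ⁻¹' D) ∩ (fun q : ℝ × P2 => q.1 * φ q.2) ⁻¹' Set.Ioo (-1) 1
  have hD' : IsOpen (Prod.snd ⁻¹' D : Set (ℝ × P2)) := hD.preimage continuous_snd
  have hm : ContDiffOn ℝ ∞ (fun q : ℝ × P2 => q.1 * φ q.2) (Prod.snd ⁻¹' D) :=
    contDiff_fst.contDiffOn.mul (hφ.comp contDiff_snd.contDiffOn (fun q hq => hq))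
  have hW : IsOpen W := hm.continuousOn.isOpen_inter_preimage hD' isOpen_Ioo
  have hH : ContDiffOn ℝ ∞ H W := by
    have h1 : ContDiffOn ℝ ∞ (fun q : ℝ × P2 => σ (q.1 * φ q.2)) W :=
      hσ.comp (hm.mono Set.inter_subset_left) (fun q hq => hq.2)
    have h2 : ContDiffOn ℝ ∞ (fun q : ℝ × P2 => G q.2) W :=
      hG.comp contDiff_snd.contDiffOn (fun q hq => hq.1)
    exact h1.smul h2
  let Θ : ℝ × P2 → ContinuousMultilinearMap ℝ (fun _ : Fin r => P2) F := fun q =>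
    (iteratedFDeriv ℝ r H q).compContinuousLinearMap fun _ => ContinuousLinearMap.inr ℝ ℝ P2
  have hΘ : ContinuousOn Θ W := by
    have h1 : ContinuousOn (iteratedFDeriv ℝ r H) W := by
      have h2 := hH.continuousOn_iteratedFDerivWithin (m := r) (by exact_mod_cast le_top) hW.uniqueDiffOn
      exact h2.congr fun q hq => (iteratedFDerivWithin_of_isOpen r hW hq).symm
    exact (ContinuousMultilinearMap.compContinuousLinearMapL (𝕜 := ℝ) (F := F)
      (fun _ : Fin r => ContinuousLinearMap.inr ℝ ℝ P2)).continuous.comp_continuousOn h1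
  have hGH : (fun z => H (0, z)) = G := by
    funext z
    simp [H, h0]
  have key : ∀ᶠ t in 𝓝 (0 : ℝ), ∀ y ∈ K,
      ‖iteratedFDeriv ℝ r (fun z => σ (t * φ z) • G z) y - iteratedFDeriv ℝ r G y‖ < δ' := by
    apply hK.eventually_forall_of_forall_eventually
    intro y₀ hy₀
    have hmem : ((0 : ℝ), y₀) ∈ W := by
      refine ⟨hKD hy₀, ?_⟩
      change (0 : ℝ) * φ y₀ ∈ Set.Ioo (-1 : ℝ) 1
      rw [zero_mul]
      exact ⟨by norm_num, by norm_num⟩
    have hc1 : ContinuousAt Θ ((0 : ℝ), y₀) := hΘ.continuousAt (hW.mem_nhds hmem)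
    have hc2 : ContinuousAt (fun q : ℝ × P2 => ((0 : ℝ), q.2)) ((0 : ℝ), y₀) :=
      (continuous_const.prodMk continuous_snd).continuousAt
    have hc3 : ContinuousAt (fun q : ℝ × P2 => Θ ((0 : ℝ), q.2)) ((0 : ℝ), y₀) :=
      ContinuousAt.comp (f := fun q : ℝ × P2 => ((0 : ℝ), q.2)) (g := Θ) hc1 hc2
    have hc4 : ContinuousAt (fun q : ℝ × P2 => ‖Θ q - Θ ((0 : ℝ), q.2)‖) ((0 : ℝ), y₀) :=
      (hc1.sub hc3).norm
    have h5 : ∀ᶠ q in 𝓝 ((0 : ℝ), y₀), ‖Θ q - Θ ((0 : ℝ), q.2)‖ < δ' := by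
      apply hc4.eventually_lt continuousAt_const
      simpa using hδ'
    filter_upwards [h5, hW.mem_nhds hmem, hc2.preimage_mem_nhds (hW.mem_nhds hmem)] with q h6 h7 h8
    have e1 := iter_partial hW hH r (t := q.1) (y := q.2) h7
    have e2 := iter_partial hW hH r (t := 0) (y := q.2) h8
    rw [hGH] at e2
    change ‖iteratedFDeriv ℝ r (fun z => H (q.1, z)) q.2 - iteratedFDeriv ℝ r G q.2‖ < δ'
    rw [e1, e2]
    exact h6
  obtain ⟨δ, hδ, h⟩ := Metric.eventually_nhds_iff.1 key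
  refine ⟨δ, hδ, fun t ht => h ?_⟩
  rw [Real.dist_eq, sub_zero]
  exact ht

end Pool.Agent.Helper82.PE
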