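import Pool.Agent.Helper82.PE.Lift

/-!
# The minimal period (module PE-36)
-/

set_option maxSynthPendingDepth 3

namespace Pool.Agent.Helper82.PE

open MeasureTheory Filter Topology Pool.Agent.Helper82.GS
open scoped ContDiff Manifold NNReal

variable {S : Type*} [TopologicalSpace S] [ChartedSpace P2 S]

/-- The periods form an additive subgroup of `ℝ`.  Since the velocity at `0` is not zero, `γ s ≠ γ 0` for small `s ≠ 0`
(`HasDerivAt.eventually_ne` in a chart), so there is no period in some `Ioo 0 η`, and the subgroup is cyclic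
(`AddSubgroup.cyclic_of_isolated_zero`), not zero. -/
theorem exists_min_period {g : RMetric S} {γ : ℝ → S} {T : ℝ} (hγ : IsClosedGeodesic g γ T) :
    ∃ T₀, IsClosedGeodesic g γ T₀ ∧ ∀ s, (∀ t, γ (t + s) = γ t) → ∃ k : ℤ, s = k * T₀ := by
  obtain ⟨hg, hT, hper⟩ := hγ
  -- the group of periods
  let P : AddSubgroup ℝ :=
    { carrier := {s | ∀ t, γ (t + s) = γ t}
      add_mem' := by
        intro a b ha hb t
        have h1 : γ (t + a + b) = γ (t + a) := hb (t + a)
        have h2 : γ (t + a) = γ t := ha t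
        rw [← add_assoc, h1, h2]
      zero_mem' := by
        intro t
        rw [add_zero]
      neg_mem' := by
        intro a ha t
        have h1 : γ (t + -a + a) = γ (t + -a) := ha (t + -a)
        rw [neg_add_cancel_right] at h1
        exact h1.symm }
  have hPmem : ∀ s, s ∈ P ↔ ∀ t, γ (t + s) = γ t := fun s => Iff.rfl
  -- no small periods
  obtain ⟨η, hη, hdisj⟩ : ∃ η : ℝ, 0 < η ∧ Disjoint (P : Set ℝ) (Set.Ioo 0 η) := by
    set e := chartAt P2 (γ 0) with he_def
    have he : e ∈ atlas P2 S := chart_mem_atlas P2 _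
    have h0 : γ 0 ∈ e.source := mem_chart_source P2 _
    obtain ⟨c1, c2, -⟩ := hg.2 e he 0 h0
    have hv : deriv (e ∘ γ) 0 ≠ 0 := by
      intro h
      rw [h] at c2
      simp at c2
    have hd : HasDerivAt (e ∘ γ) (deriv (e ∘ γ) 0) 0 := (c1.differentiableAt (by norm_num)).hasDerivAt
    have hne := hd.eventually_ne (c := (e ∘ γ) 0) hv
    rw [eventually_nhdsWithin_iff, Metric.eventually_nhds_iff_ball] at hne
    obtain ⟨η, hη, hball⟩ := hne
    refine ⟨η, hη, ?_⟩
    rw [Set.disjoint_left]
    intro s hs hs2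
    have h3 : γ (0 + s) = γ 0 := (hPmem s).1 hs 0
    rw [zero_add] at h3
    refine hball s ?_ (by simpa using hs2.1.ne') ?_
    · rw [Real.ball_eq_Ioo]
      exact ⟨by linarith [hs2.1], by linarith [hs2.2]⟩
    · simp only [Function.comp_apply]
      rw [h3]
  obtain ⟨b, hb⟩ := AddSubgroup.cyclic_of_isolated_zero hη hdisj
  have hTP : T ∈ P := (hPmem T).2 hper
  have hbP : b ∈ P := by
    rw [hb]
    exact AddSubgroup.mem_closure_singleton_self b
  have hb0 : b ≠ 0 := by
    intro h
    rw [h, AddSubgroup.closure_singleton_zero] at hb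
    rw [hb, AddSubgroup.mem_bot] at hTP
    exact hT.ne' hTP
  have hspan : ∀ s, s ∈ P → ∃ k : ℤ, s = k * b := by
    intro s hs
    rw [hb, AddSubgroup.mem_closure_singleton] at hs
    obtain ⟨k, hk⟩ := hs
    exact ⟨k, by rw [← hk, zsmul_eq_mul]⟩
  refine ⟨|b|, ⟨hg, abs_pos.2 hb0, ?_⟩, ?_⟩
  · rcases abs_choice b with h | h
    · rw [h]
      exact (hPmem b).1 hbP
    · rw [h]
      exact (hPmem (-b)).1 (P.neg_mem hbP)
  · intro s hs
    obtain ⟨k, hk⟩ := hspan s ((hPmem s).2 hs)
    rcases abs_choice b with h | h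
    · exact ⟨k, by rw [h]; exact hk⟩
    · refine ⟨-k, ?_⟩
      rw [h, hk]
      push_cast
      ring

end Pool.Agent.Helper82.PE
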