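import Pool.Agent.Helper82.PE.Defs

/-!
# The perturbed metric (module PE-41)
-/

set_option maxSynthPendingDepth 3

namespace Pool.Agent.Helper82.PE

open MeasureTheory Filter Topology Pool.Agent.Helper82.GS
open scoped ContDiff Manifold NNReal

variable {S : Type*} [TopologicalSpace S] [T2Space S] [ChartedSpace P2 S]
  [IsManifold (modelWithCornersSelf ℝ P2) ∞ S]

omit [T2Space S] [ChartedSpace P2 S] [IsManifold (modelWithCornersSelf ℝ P2) ∞ S] in
private theorem one_add_ext_pos {e : OpenPartialHomeomorph S P2} {f : P2 → ℝ} {ε : ℝ}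
    (hε : ∀ y, 0 < 1 + ε * f y) (x : S) : 0 < 1 + ε * ext e f x := by
  unfold ext
  split_ifs
  · exact hε _
  · simp

/-- `f` is bounded (continuous, zero off a compact set); `RMetric.scale`, `ext_smooth`. -/
theorem exists_pert (g : RMetric S) {e : OpenPartialHomeomorph S P2} (he : e ∈ atlas P2 S) {f : P2 → ℝ}
    (hf : ContDiff ℝ ∞ f) {K : Set P2} (hK : IsCompact K) (hKe : K ⊆ e.target) (hfK : ∀ y, y ∉ K → f y = 0) :
    ∃ ε₀ > 0, ∀ ε : ℝ, |ε| < ε₀ → (∀ y, 0 < 1 + ε * f y) ∧ ∃ g' : RMetric S, ∀ e' ∈ atlas P2 S, ∀ y ∈ e'.target,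
      g'.comp e' y = (1 + ε * ext e f (e'.symm y))⁻¹ • g.comp e' y := by
  obtain ⟨C, hC⟩ := hK.exists_bound_of_continuousOn hf.continuous.continuousOn
  have hb : ∀ y, |f y| ≤ max C 0 := by
    intro y
    by_cases hy : y ∈ K
    · exact (hC y hy).trans (le_max_left _ _)
    · rw [hfK y hy, abs_zero]
      exact le_max_right _ _
  have hM : 0 ≤ max C 0 := le_max_right _ _
  refine ⟨1 / (max C 0 + 1), by positivity, fun ε hε => ?_⟩
  have hpos : ∀ y, 0 < 1 + ε * f y := by
    intro y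
    have h1 : |ε * f y| ≤ |ε| * max C 0 := by
      rw [abs_mul]
      exact mul_le_mul_of_nonneg_left (hb y) (abs_nonneg _)
    have h2 : |ε| * (max C 0 + 1) < 1 := by
      rwa [lt_div_iff₀ (by positivity)] at hε
    have h3 : |ε * f y| < 1 := by nlinarith [abs_nonneg ε]
    have h4 := (abs_lt.1 h3).1
    linarith
  refine ⟨hpos, g.scale (fun x => (1 + ε * ext e f x)⁻¹) (fun e' he' => ?_)
    (fun x => inv_pos.2 (one_add_ext_pos hpos x)), fun e' _ y _ => rfl⟩
  have h1 : ContDiffOn ℝ ∞ (fun y => 1 + ε * (ext e f ∘ e'.symm) y) e'.target :=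
    contDiffOn_const.add (contDiffOn_const.mul (ext_smooth he hf hK hKe hfK e' he'))
  exact h1.inv fun y _ => (one_add_ext_pos hpos (e'.symm y)).ne'

/-- If `f` vanishes with its derivative at the points of a geodesic of `g`, the curve is a geodesic of the perturbed
metric, and has the same phase curve.  In a chart `e'` at a point `x = γ t` the factor
`s = (1 + ε * ext e f (e'.symm y))⁻¹` satisfies `s = 1`, `fderiv s = 0` at `e' x` (if `x ∈ e.source`: chain rule with the
transition map; if not: `ext e f = 0` near `x` since `e.symm '' K` is closed), so `g'.comp e'` and `g.comp e'` have the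
same value and derivative at `e' x`. -/
theorem pert_geodesic {g g' : RMetric S} {e : OpenPartialHomeomorph S P2} (he : e ∈ atlas P2 S) {f : P2 → ℝ}
    (hf : ContDiff ℝ ∞ f) {K : Set P2} (hK : IsCompact K) (hKe : K ⊆ e.target) (hfK : ∀ y, y ∉ K → f y = 0) {ε : ℝ}
    (hε : ∀ y, 0 < 1 + ε * f y) (hg' : ∀ e' ∈ atlas P2 S, ∀ y ∈ e'.target,
      g'.comp e' y = (1 + ε * ext e f (e'.symm y))⁻¹ • g.comp e' y) {γ : ℝ → S} (hγ : IsGeodesic g γ)
    (h0 : ∀ t, γ t ∈ e.source → f (e (γ t)) = 0 ∧ fderiv ℝ f (e (γ t)) = 0) :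
    IsGeodesic g' γ ∧ ∀ e' ∈ atlas P2 S, ∀ t, γ t ∈ e'.source → zc g' γ e' t = zc g γ e' t := by
  have hext0 : ∀ t, ext e f (γ t) = 0 := by
    intro t
    unfold ext
    split_ifs with h
    · exact (h0 t h).1
    · rfl
  have hval : ∀ e' ∈ atlas P2 S, ∀ t, γ t ∈ e'.source →
      g'.comp e' (e' (γ t)) = g.comp e' (e' (γ t)) := by
    intro e' he' t ht
    rw [hg' e' he' _ (e'.map_source ht), e'.left_inv ht, hext0, mul_zero, add_zero, inv_one, one_smul]
  have hder : ∀ e' ∈ atlas P2 S, ∀ t, γ t ∈ e'.source →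
      fderiv ℝ (g'.comp e') (e' (γ t)) = fderiv ℝ (g.comp e') (e' (γ t)) := by
    intro e' he' t ht
    have hyt : e' (γ t) ∈ e'.target := e'.map_source ht
    have hu : HasFDerivAt (fun y => ext e f (e'.symm y)) (0 : P2 →L[ℝ] ℝ) (e' (γ t)) := by
      by_cases hx : γ t ∈ e.source
      · have hO : IsOpen (e'.target ∩ e'.symm ⁻¹' e.source) :=
          e'.isOpen_inter_preimage_symm e.open_source
        have hmem : e' (γ t) ∈ e'.target ∩ e'.symm ⁻¹' e.source := by
          refine ⟨hyt, ?_⟩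
          show e'.symm (e' (γ t)) ∈ e.source
          rw [e'.left_inv ht]
          exact hx
        have h1 : DifferentiableAt ℝ (e ∘ e'.symm) (e' (γ t)) :=
          ((trans_smooth he he').contDiffAt (hO.mem_nhds hmem)).differentiableAt (by simp)
        have hpt : (e ∘ e'.symm) (e' (γ t)) = e (γ t) := by
          show e (e'.symm (e' (γ t))) = e (γ t)
          rw [e'.left_inv ht]
        have h2 : HasFDerivAt f (0 : P2 →L[ℝ] ℝ) ((e ∘ e'.symm) (e' (γ t))) := by
          rw [hpt, ← (h0 t hx).2]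
          exact ((hf.differentiable (by simp)) _).hasFDerivAt
        have h3 := h2.comp (e' (γ t)) h1.hasFDerivAt
        rw [ContinuousLinearMap.zero_comp] at h3
        refine h3.congr_of_eventuallyEq ?_
        filter_upwards [hO.mem_nhds hmem] with z hz
        exact ext_of_mem f hz.2
      · have hO : IsOpen (e'.target ∩ e'.symm ⁻¹' (e.symm '' K)ᶜ) :=
          e'.isOpen_inter_preimage_symm (isClosed_symm_image hK hKe).isOpen_compl
        have hmem : e' (γ t) ∈ e'.target ∩ e'.symm ⁻¹' (e.symm '' K)ᶜ := by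
          refine ⟨hyt, ?_⟩
          rintro ⟨z, hz, hzy⟩
          rw [e'.left_inv ht] at hzy
          exact hx (hzy ▸ e.map_target (hKe hz))
        refine (hasFDerivAt_const (0 : ℝ) (e' (γ t))).congr_of_eventuallyEq ?_
        filter_upwards [hO.mem_nhds hmem] with z hz
        exact ext_of_notMem hfK hz.2
    have hs1 : HasFDerivAt (fun y => 1 + ε * ext e f (e'.symm y)) (ε • (0 : P2 →L[ℝ] ℝ)) (e' (γ t)) :=
      (hu.const_mul ε).const_add 1
    have hne : 1 + ε * ext e f (e'.symm (e' (γ t))) ≠ 0 := (one_add_ext_pos hε _).ne'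
    have hs2 := (hasDerivAt_inv hne).comp_hasFDerivAt (e' (γ t)) hs1
    rw [smul_zero, smul_zero] at hs2
    have hG : HasFDerivAt (g.comp e') (fderiv ℝ (g.comp e') (e' (γ t))) (e' (γ t)) :=
      (((g.smooth e' he').contDiffAt (e'.open_target.mem_nhds hyt)).differentiableAt
        (by simp)).hasFDerivAt
    have hs3 := hs2.smul hG
    have hone : ((fun x => x⁻¹) ∘ fun y => 1 + ε * ext e f (e'.symm y)) (e' (γ t)) = 1 := by
      show (1 + ε * ext e f (e'.symm (e' (γ t))))⁻¹ = 1
      rw [e'.left_inv ht, hext0, mul_zero, add_zero, inv_one]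
    have heq : g'.comp e' =ᶠ[𝓝 (e' (γ t))]
        fun y => ((fun x => x⁻¹) ∘ fun y => 1 + ε * ext e f (e'.symm y)) y • g.comp e' y := by
      filter_upwards [e'.open_target.mem_nhds hyt] with y hy
      exact hg' e' he' y hy
    rw [heq.fderiv_eq]
    have h5 := hs3.fderiv
    rw [hone, one_smul] at h5
    refine h5.trans ?_
    ext v
    simp
  refine ⟨⟨hγ.1, fun e' he' t ht => ?_⟩, fun e' he' t ht => ?_⟩
  · obtain ⟨h1, h2, h3⟩ := hγ.2 e' he' t ht
    rw [hval e' he' t ht, hder e' he' t ht]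
    exact ⟨h1, h2, h3⟩
  · unfold zc
    rw [hval e' he' t ht]

/-- Off the support the perturbed metric is the original one. -/
theorem pert_local {g g' : RMetric S} {e : OpenPartialHomeomorph S P2} {f : P2 → ℝ} {K : Set P2}
    (hK : IsCompact K) (hKe : K ⊆ e.target) (hfK : ∀ y, y ∉ K → f y = 0) {ε : ℝ}
    (hg' : ∀ e' ∈ atlas P2 S, ∀ y ∈ e'.target, g'.comp e' y = (1 + ε * ext e f (e'.symm y))⁻¹ • g.comp e' y) {x : S}
    (hx : x ∉ e.symm '' K) {e' : OpenPartialHomeomorph S P2} (he' : e' ∈ atlas P2 S) (hxe : x ∈ e'.source) :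
    g'.comp e' =ᶠ[𝓝 (e' x)] g.comp e' := by
  have hO : IsOpen (e'.target ∩ e'.symm ⁻¹' (e.symm '' K)ᶜ) :=
    e'.isOpen_inter_preimage_symm (isClosed_symm_image hK hKe).isOpen_compl
  have hmem : e' x ∈ e'.target ∩ e'.symm ⁻¹' (e.symm '' K)ᶜ := by
    refine ⟨e'.map_source hxe, ?_⟩
    show e'.symm (e' x) ∉ e.symm '' K
    rw [e'.left_inv hxe]
    exact hx
  filter_upwards [hO.mem_nhds hmem] with y hy
  rw [hg' e' he' y hy.1, ext_of_notMem hfK hy.2, mul_zero, add_zero, inv_one, one_smul]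

end Pool.Agent.Helper82.PE
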