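import Pool.Agent.Helper82.PE.Wron

/-!
# The propagator in a chart: symplectic, flow direction, radial direction (module PE-29)
-/

set_option maxSynthPendingDepth 3

namespace Pool.Agent.Helper82.PE

open MeasureTheory Filter Topology Pool.Agent.Helper82.GS
open scoped ContDiff Manifold NNReal

variable {D : Set P2} {G : P2 → Bil} {z : ℝ → Ph} {a b : ℝ} {m : ℝ → Ph →L[ℝ] Ph}

/-- `wronskian` with `G₁ = G₂` on `Icc a t`. -/
theorem propagator_om (hD : IsOpen D) (hG : ContDiffOn ℝ ∞ G D) (hpos : ∀ y ∈ D, PosDef (G y))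
    (hz : ContinuousOn z (Set.Icc a b)) (hzD : ∀ t ∈ Set.Icc a b, (z t).1 ∈ D)
    (hma : m a = ContinuousLinearMap.id ℝ Ph)
    (hm : ∀ t ∈ Set.Icc a b, HasDerivWithinAt m ((fderiv ℝ (hvec G) (z t)) ∘L m t) (Set.Icc a b) t) {t : ℝ}
    (ht : t ∈ Set.Icc a b) (ζ η : Ph) : om (m t ζ) (m t η) = om ζ η := by
  have hsub : Set.Icc a t ⊆ Set.Icc a b := Set.Icc_subset_Icc_right ht.2
  have hm' : ∀ s ∈ Set.Icc a t, HasDerivWithinAt m ((fderiv ℝ (hvec G) (z s)) ∘L m s) (Set.Icc a t) s :=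
    fun s hs => (hm s (hsub hs)).mono hsub
  have h := wronskian hD hG hpos hG hpos ht.1 (hz.mono hsub) (fun s hs => hzD s (hsub hs)) hma hma hm' hm' ζ η
  simp only [sub_self, intervalIntegral.integral_zero] at h
  linarith

theorem hasDerivWithinAt_hvec (hD : IsOpen D) (hG : ContDiffOn ℝ ∞ G D) (hpos : ∀ y ∈ D, PosDef (G y)) {t : ℝ}
    {I : Set ℝ} (hz : HasDerivWithinAt z (hvec G (z t)) I t) (hzD : (z t).1 ∈ D) :
    HasDerivWithinAt (fun s => hvec G (z s)) (fderiv ℝ (hvec G) (z t) (hvec G (z t))) I t := by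
  have h1 : DifferentiableAt ℝ (hvec G) (z t) :=
    ((contDiffOn_hvec hD hG hpos).contDiffAt ((hD.prod isOpen_univ).mem_nhds ⟨hzD, Set.mem_univ _⟩)).differentiableAt
      (by simp)
  exact h1.hasFDerivAt.comp_hasDerivWithinAt t hz

/-- `X (z t)` solves the linear equation (chain rule), so `propagator_apply`. -/
theorem propagator_hvec (hD : IsOpen D) (hG : ContDiffOn ℝ ∞ G D) (hpos : ∀ y ∈ D, PosDef (G y))
    (hz : ∀ t ∈ Set.Icc a b, HasDerivWithinAt z (hvec G (z t)) (Set.Icc a b) t)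
    (hzD : ∀ t ∈ Set.Icc a b, (z t).1 ∈ D) (hma : m a = ContinuousLinearMap.id ℝ Ph)
    (hm : ∀ t ∈ Set.Icc a b, HasDerivWithinAt m ((fderiv ℝ (hvec G) (z t)) ∘L m t) (Set.Icc a b) t) {t : ℝ}
    (ht : t ∈ Set.Icc a b) : m t (hvec G (z a)) = hvec G (z t) := by
  have hzc : ContinuousOn z (Set.Icc a b) := fun s hs => (hz s hs).continuousWithinAt
  have hL := continuousOn_fderiv_hvec hD hG hpos hzc hzD
  exact (propagator_apply hL hma hm (x := fun s => hvec G (z s))
    (fun s hs => hasDerivWithinAt_hvec hD hG hpos (hz s hs) (hzD s hs)) t ht).symm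

/-- `W t = (0, (z t).2) + (t - a) • X (z t)` solves the linear equation: `W' = (0, X.2) + X + (t - a) DX X
= (X.1, 2 X.2) + (t - a) DX X = DX W` by `fderiv_hvec_radial`. -/
theorem propagator_radial (hD : IsOpen D) (hG : ContDiffOn ℝ ∞ G D) (hpos : ∀ y ∈ D, PosDef (G y))
    (hz : ∀ t ∈ Set.Icc a b, HasDerivWithinAt z (hvec G (z t)) (Set.Icc a b) t)
    (hzD : ∀ t ∈ Set.Icc a b, (z t).1 ∈ D) (hma : m a = ContinuousLinearMap.id ℝ Ph)
    (hm : ∀ t ∈ Set.Icc a b, HasDerivWithinAt m ((fderiv ℝ (hvec G) (z t)) ∘L m t) (Set.Icc a b) t) {t : ℝ}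
    (ht : t ∈ Set.Icc a b) : m t (0, (z a).2) = (0, (z t).2) + (t - a) • hvec G (z t) := by
  have hzc : ContinuousOn z (Set.Icc a b) := fun s hs => (hz s hs).continuousWithinAt
  have hL := continuousOn_fderiv_hvec hD hG hpos hzc hzD
  have hx : ∀ s ∈ Set.Icc a b, HasDerivWithinAt (fun s => ((0 : P2), (z s).2) + (s - a) • hvec G (z s))
      (fderiv ℝ (hvec G) (z s) (((0 : P2), (z s).2) + (s - a) • hvec G (z s))) (Set.Icc a b) s := by
    intro s hs
    have h1 : HasDerivWithinAt (fun s => ((0 : P2), (z s).2)) ((0 : P2), (hvec G (z s)).2) (Set.Icc a b) s :=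
      (hasDerivWithinAt_const s _ (0 : P2)).prodMk (hasDerivWithinAt_snd (hz s hs))
    have h2 : HasDerivWithinAt (fun s => (s - a) • hvec G (z s))
        ((s - a) • fderiv ℝ (hvec G) (z s) (hvec G (z s)) + (1 : ℝ) • hvec G (z s)) (Set.Icc a b) s :=
      ((hasDerivWithinAt_id s _).sub_const a).smul (hasDerivWithinAt_hvec hD hG hpos (hz s hs) (hzD s hs))
    refine (h1.add h2).congr_deriv ?_
    rw [map_add, map_smul, fderiv_hvec_radial hD hG hpos (hzD s hs)]
    ext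
    · simp
      ring
    · simp
      ring
  have h := propagator_apply hL hma hm hx t ht
  rw [h]
  congr 1
  simp

end Pool.Agent.Helper82.PE
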