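import Pool.Agent.Helper82.PE.Solve

/-!
# Linear differential equations (module PE-21)
-/

set_option maxSynthPendingDepth 3

namespace Pool.Agent.Helper82.PE

open MeasureTheory Filter Topology Pool.Agent.Helper82.GS
open scoped ContDiff Manifold NNReal

variable {E : Type*} [NormedAddCommGroup E] [NormedSpace ℝ E]

/-- Gronwall for perturbed linear equations (`norm_le_gronwallBound_of_norm_deriv_right_le` with constant `Λ + κ`, and
`gronwallBound δ K ε x ≤ (δ + ε x) e^(K x)` for `K ≥ 0`). -/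
theorem gronwall_lin {L : ℝ → E →L[ℝ] E} {Λ κ μ a b : ℝ} (hΛ0 : 0 ≤ Λ) (hκ : 0 ≤ κ) (hμ : 0 ≤ μ)
    (hΛ : ∀ t ∈ Set.Icc a b, ‖L t‖ ≤ Λ) {u u' : ℝ → E}
    (hu : ∀ t ∈ Set.Icc a b, HasDerivWithinAt u (u' t) (Set.Icc a b) t)
    (hb : ∀ t ∈ Set.Icc a b, ‖u' t - L t (u t)‖ ≤ κ * ‖u t‖ + μ) :
    ∀ t ∈ Set.Icc a b, ‖u t‖ ≤ (‖u a‖ + μ * (b - a)) * Real.exp ((Λ + κ) * (b - a)) := by
  intro t ht
  have hab : a ≤ b := ht.1.trans ht.2
  have hcont : ContinuousOn u (Set.Icc a b) := fun s hs => (hu s hs).continuousWithinAt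
  have hright : ∀ s ∈ Set.Ico a b, HasDerivWithinAt u (u' s) (Set.Ici s) s := by
    intro s hs
    have h1 := hu s ⟨hs.1, hs.2.le⟩
    exact h1.mono_of_mem_nhdsWithin (Icc_mem_nhdsGE_of_mem hs)
  have hbound : ∀ s ∈ Set.Ico a b, ‖u' s‖ ≤ (Λ + κ) * ‖u s‖ + μ := by
    intro s hs
    have hs' : s ∈ Set.Icc a b := ⟨hs.1, hs.2.le⟩
    have h1 := hb s hs'
    have h2 : ‖L s (u s)‖ ≤ Λ * ‖u s‖ := (ContinuousLinearMap.le_opNorm _ _).trans
      (mul_le_mul_of_nonneg_right (hΛ s hs') (norm_nonneg _))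
    have h3 : ‖u' s‖ ≤ ‖u' s - L s (u s)‖ + ‖L s (u s)‖ := by
      have := norm_add_le (u' s - L s (u s)) (L s (u s))
      rwa [sub_add_cancel] at this
    have h4 : (Λ + κ) * ‖u s‖ = Λ * ‖u s‖ + κ * ‖u s‖ := by ring
    linarith
  have h5 := norm_le_gronwallBound_of_norm_deriv_right_le hcont hright (le_refl ‖u a‖) hbound t ht
  refine h5.trans ?_
  have hta : 0 ≤ t - a := by linarith [ht.1]
  have hba : 0 ≤ b - a := by linarith
  have hK : 0 ≤ Λ + κ := by linarith
  have hexp1 : 1 ≤ Real.exp ((Λ + κ) * (t - a)) := by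
    apply Real.one_le_exp
    positivity
  have hmono : Real.exp ((Λ + κ) * (t - a)) ≤ Real.exp ((Λ + κ) * (b - a)) := by
    apply Real.exp_le_exp.2
    apply mul_le_mul_of_nonneg_left _ hK
    linarith [ht.2]
  have hg : gronwallBound ‖u a‖ (Λ + κ) μ (t - a) ≤
      (‖u a‖ + μ * (t - a)) * Real.exp ((Λ + κ) * (t - a)) := by
    rcases eq_or_lt_of_le hK with h0 | h0
    · rw [← h0, gronwallBound_K0]
      simp
    · rw [gronwallBound_of_K_ne_0 h0.ne', add_mul]
      have hx : Real.exp ((Λ + κ) * (t - a)) - 1 ≤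
          (Λ + κ) * (t - a) * Real.exp ((Λ + κ) * (t - a)) := by
        have h6 := Real.add_one_le_exp (-((Λ + κ) * (t - a)))
        have h7 : Real.exp (-((Λ + κ) * (t - a))) * Real.exp ((Λ + κ) * (t - a)) = 1 := by
          rw [← Real.exp_add]
          simp
        nlinarith [Real.exp_pos ((Λ + κ) * (t - a))]
      have h8 : μ / (Λ + κ) * (Real.exp ((Λ + κ) * (t - a)) - 1) ≤
          μ / (Λ + κ) * ((Λ + κ) * (t - a) * Real.exp ((Λ + κ) * (t - a))) :=
        mul_le_mul_of_nonneg_left hx (by positivity)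
      have h9 : μ / (Λ + κ) * ((Λ + κ) * (t - a) * Real.exp ((Λ + κ) * (t - a))) =
          μ * (t - a) * Real.exp ((Λ + κ) * (t - a)) := by
        field_simp
      linarith
  refine hg.trans ?_
  apply mul_le_mul _ hmono (Real.exp_pos _).le
  · have := norm_nonneg (u a)
    positivity
  · have : μ * (t - a) ≤ μ * (b - a) := mul_le_mul_of_nonneg_left (by linarith [ht.2]) hμ
    linarith

/-- The propagator of a linear equation: `exists_solution_of_lipschitz` for `v t m = L t ∘L m`. -/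
theorem exists_propagator [CompleteSpace E] {L : ℝ → E →L[ℝ] E} {a b : ℝ} (hab : a ≤ b)
    (hL : ContinuousOn L (Set.Icc a b)) :
    ∃ m : ℝ → E →L[ℝ] E, m a = ContinuousLinearMap.id ℝ E ∧
      ∀ t ∈ Set.Icc a b, HasDerivWithinAt m (L t ∘L m t) (Set.Icc a b) t := by
  obtain ⟨C, hC⟩ := isCompact_Icc.exists_bound_of_continuousOn hL
  have hC0 : 0 ≤ C := (norm_nonneg _).trans (hC a ⟨le_rfl, hab⟩)
  refine exists_solution_of_lipschitz (E := E →L[ℝ] E) (v := fun t m => L t ∘L m) (K := ⟨C, hC0⟩)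
    hab ?_ ?_ _
  · intro t ht
    refine LipschitzWith.of_dist_le_mul fun m m' => ?_
    rw [dist_eq_norm, dist_eq_norm, ← ContinuousLinearMap.comp_sub]
    refine (ContinuousLinearMap.opNorm_comp_le _ _).trans ?_
    exact mul_le_mul_of_nonneg_right (hC t ht) (norm_nonneg _)
  · intro m
    exact hL.clm_comp continuousOn_const

/-- Uniqueness: a solution of the linear equation is given by the propagator (`gronwall_lin` with `κ = μ = 0` for
`u t = x t - m t (x a)`; `L` is bounded on `Icc a b`). -/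
theorem propagator_apply {L : ℝ → E →L[ℝ] E} {a b : ℝ} (hL : ContinuousOn L (Set.Icc a b))
    {m : ℝ → E →L[ℝ] E} (hma : m a = ContinuousLinearMap.id ℝ E)
    (hm : ∀ t ∈ Set.Icc a b, HasDerivWithinAt m (L t ∘L m t) (Set.Icc a b) t) {x : ℝ → E}
    (hx : ∀ t ∈ Set.Icc a b, HasDerivWithinAt x (L t (x t)) (Set.Icc a b) t) :
    ∀ t ∈ Set.Icc a b, x t = m t (x a) := by
  intro t ht
  have hab : a ≤ b := ht.1.trans ht.2
  obtain ⟨C, hC⟩ := isCompact_Icc.exists_bound_of_continuousOn hL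
  have hC0 : 0 ≤ C := (norm_nonneg _).trans (hC a ⟨le_rfl, hab⟩)
  have h1 : ∀ s ∈ Set.Icc a b, HasDerivWithinAt (fun s => x s - m s (x a))
      (L s (x s) - (L s ∘L m s) (x a)) (Set.Icc a b) s := by
    intro s hs
    have h2 := (hm s hs).clm_apply (hasDerivWithinAt_const s (Set.Icc a b) (x a))
    have h3 : (L s ∘L m s) (x a) + m s 0 = (L s ∘L m s) (x a) := by simp
    rw [h3] at h2
    exact (hx s hs).sub h2
  have h4 := gronwall_lin (κ := 0) (μ := 0) hC0 le_rfl le_rfl hC h1 (by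
    intro s _
    have : L s (x s) - (L s ∘L m s) (x a) - L s (x s - m s (x a)) = 0 := by
      simp
    rw [this]
    simp) t ht
  have h5 : x a - m a (x a) = 0 := by rw [hma]; simp
  simp only [h5, norm_zero, zero_mul, add_zero] at h4
  exact sub_eq_zero.1 (norm_le_zero_iff.1 h4)

end Pool.Agent.Helper82.PE
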