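import Pool.Agent.Helper82.PE.IterClose

/-!
# Small conformal factors (module PE-43)
-/

set_option maxSynthPendingDepth 3

namespace Pool.Agent.Helper82.PE

open MeasureTheory Filter Topology Pool.Agent.Helper82.GS
open scoped ContDiff Manifold NNReal

variable {S : Type*} [TopologicalSpace S] [ChartedSpace P2 S]

/-- A basic neighbourhood of `g` is a finite intersection of sets `g.near e K r δ'` (see the proof of `dense_cert` in
`GS/Topo.lean`: `TopologicalSpace.isTopologicalBasis_of_subbasis`, `exists_near_subset`); apply `iter_close` to each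
(`g'.comp e` agrees with `σ (t φ) • g.comp e` on the open set `e.target`). -/
theorem scale_small (g : RMetric S) {φ : S → ℝ} (hφ : SmoothFun φ) {σ : ℝ → ℝ}
    (hσ : ContDiffOn ℝ ∞ σ (Set.Ioo (-1) 1)) (h0 : σ 0 = 1) {N : Set (RMetric S)} (hN : N ∈ 𝓝 g) :
    ∃ δ > 0, ∀ t : ℝ, |t| < δ → ∀ g' : RMetric S,
      (∀ e ∈ atlas P2 S, ∀ y ∈ e.target, g'.comp e y = σ (t * φ (e.symm y)) • g.comp e y) → g' ∈ N := by
  obtain ⟨U, hUN, hU, hgU⟩ := mem_nhds_iff.1 hN
  have hbasis := TopologicalSpace.isTopologicalBasis_of_subbasis (t := RMetric.topology (S := S)) rfl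
  obtain ⟨V, ⟨F, ⟨hFfin, hFsub⟩, rfl⟩, hgF, hFU⟩ := hbasis.exists_subset_of_mem_open hgU hU
  have key : ∀ V ∈ F, ∀ᶠ t in 𝓝 (0 : ℝ), ∀ g' : RMetric S,
      (∀ e ∈ atlas P2 S, ∀ y ∈ e.target, g'.comp e y = σ (t * φ (e.symm y)) • g.comp e y) →
        g' ∈ V := by
    intro V hV
    obtain ⟨g₁, e, K, k, δ, he, hK, hKe, rfl⟩ := hFsub hV
    have hg1 : g ∈ g₁.near e K k δ := hgF _ hV
    obtain ⟨δ', hδ', hsub⟩ := exists_near_subset he hK hKe hg1
    obtain ⟨δ₁, hδ₁, hclose⟩ := iter_close e.open_target (g.smooth e he) (hφ e he) hK hKe hσ h0 k hδ'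
    rw [Metric.eventually_nhds_iff]
    refine ⟨δ₁, hδ₁, ?_⟩
    intro t ht g' hg'
    rw [Real.dist_eq, sub_zero] at ht
    apply hsub
    intro y hy
    have e1 : g'.comp e =ᶠ[𝓝 y] fun z => σ (t * (φ ∘ e.symm) z) • g.comp e z := by
      filter_upwards [e.open_target.mem_nhds (hKe hy)] with z hz
      exact hg' e he z hz
    have e2 : iteratedFDeriv ℝ k (g'.comp e) y =
        iteratedFDeriv ℝ k (fun z => σ (t * (φ ∘ e.symm) z) • g.comp e z) y :=
      (Filter.EventuallyEq.iteratedFDeriv ℝ e1 k).self_of_nhds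
    rw [e2]
    exact hclose t ht y hy
  have hev := (Filter.eventually_all_finite hFfin).mpr key
  rw [Metric.eventually_nhds_iff] at hev
  obtain ⟨δ, hδ, hall⟩ := hev
  refine ⟨δ, hδ, fun t ht g' hg' => hUN (hFU (Set.mem_sInter.mpr fun V hV => ?_))⟩
  exact hall (by rw [Real.dist_eq, sub_zero]; exact ht) V hV g' hg'

end Pool.Agent.Helper82.PE
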