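import Pool.Agent.Helper82.PE.PropSymp

/-!
# Tangential variation fields (module PE-30)
-/

set_option maxSynthPendingDepth 3

namespace Pool.Agent.Helper82.PE

open MeasureTheory Filter Topology Pool.Agent.Helper82.GS
open scoped ContDiff Manifold NNReal

/-- Write `X t = hvec G (z t)`, `ζ t = m t ζ`, `p = (z t).2`, `v = velo G (z t)`; `p v = 2 ham = 1`.
`om (ζ t) (X t) = om ζ (X a) = 0` (`propagator_om`, `propagator_hvec`).  For `t ∈ Ioo s₁ s₂` let `α t = (z t).2 (ζ t).1`; since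
`(ζ t).1 = c • v`, `α t = c`.  `α` is differentiable.  Let `β t = ζ t - α t • X t = (0, π t)`.  Then
`0 = om (β t) (X t) = π t v`.  Differentiating, `β' = DX ζ - α' X - α DX X = DX β - α' X`; first component:
`0 = velo G (q, π) - α' v` (`fderiv_hvec_vert_fst`), so `π = α' p` (apply `G q`), `0 = π v = α'`, so `π = 0` and
`m t ζ = α t • X t = m t (α t • X a)`; `m t` is injective (`propagator_om`, `om_ext`), so `ζ = α t • X a`. -/
theorem tangential {D : Set P2} {G : P2 → Bil} {z : ℝ → Ph} {a b : ℝ} {m : ℝ → Ph →L[ℝ] Ph} (hD : IsOpen D)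
    (hG : ContDiffOn ℝ ∞ G D) (hpos : ∀ y ∈ D, PosDef (G y))
    (hz : ∀ t ∈ Set.Icc a b, HasDerivWithinAt z (hvec G (z t)) (Set.Icc a b) t)
    (hzD : ∀ t ∈ Set.Icc a b, (z t).1 ∈ D) (hH : ∀ t ∈ Set.Icc a b, ham G (z t) = 1 / 2)
    (hma : m a = ContinuousLinearMap.id ℝ Ph)
    (hm : ∀ t ∈ Set.Icc a b, HasDerivWithinAt m ((fderiv ℝ (hvec G) (z t)) ∘L m t) (Set.Icc a b) t)
    {s₁ s₂ : ℝ} (h₁ : a ≤ s₁) (h₁₂ : s₁ < s₂) (h₂ : s₂ ≤ b) {ζ : Ph} (hζ : om ζ (hvec G (z a)) = 0)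
    (htan : ∀ t ∈ Set.Ioo s₁ s₂, ∃ c : ℝ, (m t ζ).1 = c • velo G (z t)) : ∃ c : ℝ, ζ = c • hvec G (z a) := by
  obtain ⟨t₀, ht₀⟩ : ∃ t₀, t₀ ∈ Set.Ioo s₁ s₂ := ⟨(s₁ + s₂) / 2, by linarith, by linarith⟩
  have hsub : ∀ t ∈ Set.Ioo s₁ s₂, t ∈ Set.Icc a b := fun t ht =>
    ⟨h₁.trans ht.1.le, ht.2.le.trans h₂⟩
  have hI : Set.Icc a b ∈ 𝓝 t₀ := by
    refine Filter.mem_of_superset (Ioo_mem_nhds ht₀.1 ht₀.2) hsub
  have ht₀I := hsub t₀ ht₀
  have hzc : ContinuousOn z (Set.Icc a b) := fun t ht => (hz t ht).continuousWithinAt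
  -- derivatives at `t₀`
  have hz0 : HasDerivAt z (hvec G (z t₀)) t₀ := (hz t₀ ht₀I).hasDerivAt hI
  have hm0 : HasDerivAt (fun s => m s ζ) (fderiv ℝ (hvec G) (z t₀) (m t₀ ζ)) t₀ :=
    (hasDerivWithinAt_apply (hm t₀ ht₀I) ζ).hasDerivAt hI
  have hopen : IsOpen (D ×ˢ (Set.univ : Set Cov)) := hD.prod isOpen_univ
  have hmem : z t₀ ∈ D ×ˢ (Set.univ : Set Cov) := ⟨hzD t₀ ht₀I, Set.mem_univ _⟩
  have hdiff : DifferentiableAt ℝ (hvec G) (z t₀) :=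
    ((contDiffOn_hvec hD hG hpos).contDiffAt (hopen.mem_nhds hmem)).differentiableAt (by simp)
  have hX0 : HasDerivAt (fun s => hvec G (z s)) (fderiv ℝ (hvec G) (z t₀) (hvec G (z t₀))) t₀ :=
    hdiff.hasFDerivAt.comp_hasDerivAt t₀ hz0
  -- the momentum applied to the velocity
  have hpv : ∀ t ∈ Set.Icc a b, (z t).2 (velo G (z t)) = 1 := by
    intro t ht
    have h := hH t ht
    unfold ham at h
    linarith
  obtain ⟨α, hα⟩ : ∃ α : ℝ → ℝ, α = fun t => (z t).2 (m t ζ).1 := ⟨_, rfl⟩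
  have hfst : ∀ t ∈ Set.Ioo s₁ s₂, (m t ζ).1 = α t • velo G (z t) := by
    intro t ht
    obtain ⟨c, hc⟩ := htan t ht
    have h1 : α t = c := by
      rw [hα]
      change (z t).2 (m t ζ).1 = c
      rw [hc, map_smul, hpv t (hsub t ht), smul_eq_mul, mul_one]
    rw [h1, hc]
  obtain ⟨α', hα'⟩ : ∃ α' : ℝ, HasDerivAt α α' t₀ := by
    have h1 : HasDerivAt (fun s => (z s).2) (hvec G (z t₀)).2 t₀ := by
      simpa using hz0.hasFDerivAt.snd.hasDerivAt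
    have h2 : HasDerivAt (fun s => (m s ζ).1) (fderiv ℝ (hvec G) (z t₀) (m t₀ ζ)).1 t₀ := by
      simpa using hm0.hasFDerivAt.fst.hasDerivAt
    rw [hα]
    exact ⟨_, h1.clm_apply h2⟩
  obtain ⟨β, hβ⟩ : ∃ β : ℝ → Ph, β = fun t => m t ζ - α t • hvec G (z t) := ⟨_, rfl⟩
  have hβ' : HasDerivAt β (fderiv ℝ (hvec G) (z t₀) (β t₀) - α' • hvec G (z t₀)) t₀ := by
    rw [hβ]
    refine (hm0.sub (hα'.smul hX0)).congr_deriv ?_
    change fderiv ℝ (hvec G) (z t₀) (m t₀ ζ) -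
      (α t₀ • fderiv ℝ (hvec G) (z t₀) (hvec G (z t₀)) + α' • hvec G (z t₀)) =
      fderiv ℝ (hvec G) (z t₀) (m t₀ ζ - α t₀ • hvec G (z t₀)) - α' • hvec G (z t₀)
    rw [map_sub, map_smul]
    abel
  have hβ1 : ∀ t ∈ Set.Ioo s₁ s₂, (β t).1 = 0 := by
    intro t ht
    rw [hβ]
    change (m t ζ).1 - α t • (hvec G (z t)).1 = 0
    rw [hfst t ht]
    change α t • velo G (z t) - α t • velo G (z t) = 0
    exact sub_self _
  have hβ1' : (fderiv ℝ (hvec G) (z t₀) (β t₀) - α' • hvec G (z t₀)).1 = 0 := by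
    have h1 : HasDerivAt (fun s => (β s).1)
        (fderiv ℝ (hvec G) (z t₀) (β t₀) - α' • hvec G (z t₀)).1 t₀ := by
      simpa using hβ'.hasFDerivAt.fst.hasDerivAt
    have h2 : (fun s => (β s).1) =ᶠ[𝓝 t₀] fun _ => (0 : P2) := by
      filter_upwards [Ioo_mem_nhds ht₀.1 ht₀.2] with s hs
      exact hβ1 s hs
    exact (h1.congr_of_eventuallyEq h2.symm).unique (hasDerivAt_const t₀ (0 : P2))
  have hβ0 : β t₀ = (0, (β t₀).2) := Prod.ext (hβ1 t₀ ht₀) rfl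
  have hvel : velo G ((z t₀).1, (β t₀).2) = α' • velo G (z t₀) := by
    have h1 : (fderiv ℝ (hvec G) (z t₀) (β t₀)).1 = velo G ((z t₀).1, (β t₀).2) := by
      rw [hβ0]
      exact fderiv_hvec_vert_fst hD hG hpos (hzD t₀ ht₀I) _
    rw [← h1]
    exact sub_eq_zero.1 hβ1'
  have hπ : (β t₀).2 = α' • (z t₀).2 := by
    have h1 := (hpos _ (hzD t₀ ht₀I)).apply_inverse (β t₀).2
    have h2 := (hpos _ (hzD t₀ ht₀I)).apply_inverse (z t₀).2
    have h3 : ContinuousLinearMap.inverse (G (z t₀).1) (β t₀).2 =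
        α' • ContinuousLinearMap.inverse (G (z t₀).1) (z t₀).2 := hvel
    rw [h3, map_smul, h2] at h1
    exact h1.symm
  -- the symplectic orthogonality
  have hom : om (m t₀ ζ) (hvec G (z t₀)) = 0 := by
    rw [← propagator_hvec hD hG hpos hz hzD hma hm ht₀I,
      propagator_om hD hG hpos hzc hzD hma hm ht₀I]
    exact hζ
  have hom2 : om (β t₀) (hvec G (z t₀)) = 0 := by
    rw [hβ]
    change om (m t₀ ζ - α t₀ • hvec G (z t₀)) (hvec G (z t₀)) = 0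
    rw [om_sub_left, om_smul_left, om_self, hom]
    ring
  have hα0 : α' = 0 := by
    rw [hβ0, hπ] at hom2
    have h1 : om (0, α' • (z t₀).2) (hvec G (z t₀)) = α' * (z t₀).2 (velo G (z t₀)) := by
      simp only [om, hvec, map_zero, sub_zero]
      rfl
    rw [h1, hpv t₀ ht₀I, mul_one] at hom2
    exact hom2
  have hβz : β t₀ = 0 := by
    rw [hβ0, hπ, hα0, zero_smul]
    rfl
  have hmζ : m t₀ ζ = m t₀ (α t₀ • hvec G (z a)) := by
    rw [map_smul, propagator_hvec hD hG hpos hz hzD hma hm ht₀I]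
    rw [hβ] at hβz
    exact sub_eq_zero.1 hβz
  refine ⟨α t₀, om_ext fun η => ?_⟩
  rw [← propagator_om hD hG hpos hzc hzD hma hm ht₀I η ζ, hmζ,
    propagator_om hD hG hpos hzc hzD hma hm ht₀I]

end Pool.Agent.Helper82.PE
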