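import Pool.Agent.Helper82.PE.TransProp
import Pool.Agent.Helper82.PE.Propag

/-!
# Existence of the transport (module PE-34)
-/

set_option maxSynthPendingDepth 3

namespace Pool.Agent.Helper82.PE

open MeasureTheory Filter Topology Pool.Agent.Helper82.GS
open scoped ContDiff Manifold NNReal

variable {S : Type*} [TopologicalSpace S] [ChartedSpace P2 S] [IsManifold (modelWithCornersSelf ℝ P2) ∞ S]

/-- The propagator exists while the geodesic stays in the chart (`exists_propagator`; `fderiv (hvec _)` is continuous on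
`e.target ×ˢ univ` and `zc g γ e` is continuous by `hasDerivAt_zc`). -/
theorem exists_flow_trans {g : RMetric S} {γ : ℝ → S} (hγ : IsGeodesic g γ) {e : OpenPartialHomeomorph S P2}
    (he : e ∈ atlas P2 S) {a b : ℝ} (hab : a ≤ b) (h : ∀ t ∈ Set.Icc a b, γ t ∈ e.source) :
    ∃ m : ℝ → Ph →L[ℝ] Ph, m a = ContinuousLinearMap.id ℝ Ph ∧ ∀ t ∈ Set.Icc a b,
      HasDerivWithinAt m ((fderiv ℝ (hvec (g.comp e)) (zc g γ e t)) ∘L m t) (Set.Icc a b) t := by
  refine exists_propagator hab ?_
  intro t ht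
  have hmem : zc g γ e t ∈ e.target ×ˢ (Set.univ : Set Cov) :=
    ⟨e.map_source (h t ht), Set.mem_univ _⟩
  have hopen : IsOpen (e.target ×ˢ (Set.univ : Set Cov)) := e.open_target.prod isOpen_univ
  have h1 : ContDiffOn ℝ ∞ (hvec (g.comp e)) (e.target ×ˢ Set.univ) :=
    contDiffOn_hvec e.open_target (g.smooth e he) (g.posDef e he)
  have h2 : ContinuousAt (fderiv ℝ (hvec (g.comp e))) (zc g γ e t) := by
    have h3 : ContDiffAt ℝ 2 (hvec (g.comp e)) (zc g γ e t) :=
      (h1.contDiffAt (hopen.mem_nhds hmem)).of_le (by norm_cast)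
    exact (h3.fderiv_right (m := 1) (by norm_num)).continuousAt
  have h4 : ContinuousAt (zc g γ e) t := (hasDerivAt_zc hγ he (h t ht)).continuousAt
  exact (ContinuousAt.comp (f := zc g γ e) h2 h4).continuousWithinAt

/-- Existence of the transport from `a` to `b`: the set of `t ∈ Icc a b` such that the claim holds for all charts at
`γ t` contains `a` (`Trans.change`), and if `γ` maps `(s - η, s + η)` into the source of a chart `e₁`, `t₁ ≤ t₂` in this
interval and the claim holds at `t₁`, then it holds at `t₂` (transport to the chart `e₁` at time `t₁`, `flow` to `t₂`,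
`change` to `e'`).  Conclude by a Lebesgue number (uniform `η` on `Icc a b`) and induction, or by
`IsClosed.Icc_subset_of_forall_exists_gt`. -/
theorem exists_trans {g : RMetric S} {γ : ℝ → S} (hγ : IsGeodesic g γ) {e e' : OpenPartialHomeomorph S P2}
    (he : e ∈ atlas P2 S) (he' : e' ∈ atlas P2 S) {a b : ℝ} (hab : a ≤ b) (ha : γ a ∈ e.source)
    (hb : γ b ∈ e'.source) : ∃ A, Trans g γ a e b e' A := by
  obtain ⟨t, ht0, hmono, ⟨m, hm⟩, hcov⟩ := exists_monotone_Icc_subset_open_cover_Icc hab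
    (c := fun (i : {e : OpenPartialHomeomorph S P2 // e ∈ atlas P2 S}) =>
      {t : Set.Icc a b | γ t ∈ i.1.source})
    (fun i => i.1.open_source.preimage (hγ.1.comp continuous_subtype_val))
    (fun t _ => Set.mem_iUnion.2 ⟨⟨chartAt P2 (γ t), chart_mem_atlas P2 (γ t)⟩,
      mem_chart_source P2 (γ t)⟩)
  have key : ∀ n : ℕ, ∀ e'' ∈ atlas P2 S, γ (t n) ∈ e''.source →
      ∃ A, Trans g γ a e (t n) e'' A := by
    intro n
    induction n with
    | zero =>
      intro e'' he'' h''
      rw [ht0] at h'' ⊢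
      exact ⟨_, Trans.change a e e'' he he'' ha h''⟩
    | succ n ih =>
      intro e'' he'' h''
      obtain ⟨⟨e1, he1⟩, hsub⟩ := hcov n
      have hle : t n ≤ t (n + 1) := hmono (Nat.le_succ n)
      have hle' : (t n : ℝ) ≤ t (n + 1) := hle
      have hγ1 : ∀ s ∈ Set.Icc (t n : ℝ) (t (n + 1)), γ s ∈ e1.source := by
        intro s hs
        have hs' : s ∈ Set.Icc a b := ⟨(t n).2.1.trans hs.1, hs.2.trans (t (n + 1)).2.2⟩
        exact hsub (a := ⟨s, hs'⟩) ⟨hs.1, hs.2⟩
      obtain ⟨A, hA⟩ := ih e1 he1 (hγ1 _ ⟨le_rfl, hle'⟩)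
      obtain ⟨mm, hma, hmm⟩ := exists_flow_trans hγ he1 hle' hγ1
      have hF : Trans g γ (t n) e1 (t (n + 1)) e1 (mm (t (n + 1))) :=
        Trans.flow (t n) (t (n + 1)) e1 he1 hle' hγ1 mm hma hmm
      have hC := Trans.change (g := g) (γ := γ) (t (n + 1) : ℝ) e1 e'' he1 he''
        (hγ1 _ ⟨hle', le_rfl⟩) h''
      exact ⟨_, (hA.comp hF).comp hC⟩
  have hb' := key m e' he'
  rw [hm m le_rfl] at hb'
  exact hb' hb

end Pool.Agent.Helper82.PE
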