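import Pool.Agent.Helper82.PE.TransProp
import Pool.Agent.Helper82.PE.FlowD
import Pool.Agent.Helper82.PE.Glue
import Pool.Agent.Helper82.PE.NearHvec

/-!
# The geodesic flow of nearby metrics (module PE-35)
-/

set_option maxSynthPendingDepth 3

namespace Pool.Agent.Helper82.PE

open MeasureTheory Filter Topology Pool.Agent.Helper82.GS
open scoped ContDiff Manifold NNReal

variable {S : Type*} [TopologicalSpace S] [ChartedSpace P2 S] [IsManifold (modelWithCornersSelf ℝ P2) ∞ S]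

/-- `FlowData` for the Hamiltonian vector fields in one chart.  `O = e.target ×ˢ univ`; the curve `zc g₀ γ e` is compact on
`Icc a b`, so for some `ρ` all closed balls of radius `ρ` around its points lie in `K ×ˢ closedBall 0 B` with
`K ⊆ e.target` compact (e.g. `K = cthickening ρ` of the image of `e ∘ γ`); closeness: `near_hvec` and the mean value
inequality on the balls (convex). -/
theorem flowData_hvec {g₀ : RMetric S} {γ : ℝ → S} (hγ : IsGeodesic g₀ γ) {e : OpenPartialHomeomorph S P2}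
    (he : e ∈ atlas P2 S) {a b : ℝ} (hab : a ≤ b) (h : ∀ t ∈ Set.Icc a b, γ t ∈ e.source) :
    ∃ ρ, FlowData (𝓝 g₀) (fun g => hvec (g.comp e)) (hvec (g₀.comp e)) (e.target ×ˢ Set.univ) (zc g₀ γ e) a b ρ := by
  have hO : IsOpen (e.target ×ˢ (Set.univ : Set Cov)) := e.open_target.prod isOpen_univ
  have hz : ∀ t ∈ Set.Icc a b, HasDerivAt (zc g₀ γ e) (hvec (g₀.comp e) (zc g₀ γ e t)) t := fun t ht =>
    hasDerivAt_zc hγ he (h t ht)
  have hcont : ContinuousOn (zc g₀ γ e) (Set.Icc a b) := fun t ht => (hz t ht).continuousAt.continuousWithinAt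
  have hC : IsCompact (zc g₀ γ e '' Set.Icc a b) := isCompact_Icc.image_of_continuousOn hcont
  have hCO : zc g₀ γ e '' Set.Icc a b ⊆ e.target ×ˢ (Set.univ : Set Cov) := by
    rintro _ ⟨t, ht, rfl⟩
    exact ⟨e.map_source (h t ht), trivial⟩
  obtain ⟨ρ, hρ, hsub⟩ := hC.exists_cthickening_subset_open hO hCO
  have hCρ : IsCompact (Metric.cthickening ρ (zc g₀ γ e '' Set.Icc a b)) := hC.cthickening
  have hball : ∀ t ∈ Set.Icc a b, Metric.closedBall (zc g₀ γ e t) ρ ⊆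
      Metric.cthickening ρ (zc g₀ γ e '' Set.Icc a b) := fun t ht =>
    Metric.closedBall_subset_cthickening (Set.mem_image_of_mem (zc g₀ γ e) ht) ρ
  have hK : IsCompact (Prod.fst '' Metric.cthickening ρ (zc g₀ γ e '' Set.Icc a b)) :=
    hCρ.image continuous_fst
  have hKe : Prod.fst '' Metric.cthickening ρ (zc g₀ γ e '' Set.Icc a b) ⊆ e.target := by
    rintro _ ⟨z, hz', rfl⟩
    exact (hsub hz').1
  obtain ⟨B, hB⟩ := (hCρ.image continuous_snd).isBounded.exists_norm_le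
  have hsm : ∀ g : RMetric S, ContDiffOn ℝ ∞ (hvec (g.comp e)) (e.target ×ˢ Set.univ) := fun g =>
    contDiffOn_hvec e.open_target (g.smooth e he) (g.posDef e he)
  have hdiff : ∀ g : RMetric S, ∀ z ∈ e.target ×ˢ (Set.univ : Set Cov), DifferentiableAt ℝ (hvec (g.comp e)) z :=
    fun g z hz' => ((hsm g).contDiffAt (hO.mem_nhds hz')).differentiableAt (by simp)
  refine ⟨ρ, hO, (hsm g₀).of_le (by simp), hab, hρ, fun t ht => (hz t ht).hasDerivWithinAt,
    fun t ht => (hball t ht).trans hsub, Eventually.of_forall fun g => (hsm g).continuousOn, ?_⟩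
  intro η hη
  filter_upwards [near_hvec g₀ he hK hKe B hη] with g hg
  have hg' : ∀ z ∈ Metric.cthickening ρ (zc g₀ γ e '' Set.Icc a b),
      ‖hvec (g.comp e) z - hvec (g₀.comp e) z‖ ≤ η ∧
      ‖fderiv ℝ (hvec (g.comp e)) z - fderiv ℝ (hvec (g₀.comp e)) z‖ ≤ η := fun z hz' =>
    hg z ⟨z, hz', rfl⟩ (hB _ ⟨z, hz', rfl⟩)
  intro t ht x hx
  refine ⟨(hg' x (hball t ht hx)).1, ?_⟩
  intro y hy
  have hmv := (convex_closedBall (zc g₀ γ e t) ρ).norm_image_sub_le_of_norm_fderiv_le (𝕜 := ℝ)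
    (f := fun z => hvec (g.comp e) z - hvec (g₀.comp e) z) (C := η) (x := y) (y := x)
    (fun z hz' => (hdiff g z (hsub (hball t ht hz'))).sub (hdiff g₀ z (hsub (hball t ht hz'))))
    (fun z hz' => by
      rw [fderiv_fun_sub (hdiff g z (hsub (hball t ht hz'))) (hdiff g₀ z (hsub (hball t ht hz')))]
      exact (hg' z (hball t ht hz')).2) hy hx
  exact hmv

/-- Induction on `Trans`.  `flow`: `flowData_hvec`, `FlowData.exists_ual_flow`, `isSol_uncrd` (the solution stays in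
`e.target ×ˢ univ` by `hball`), `crd_uncrd_self`.  `change`: `UAL.of_hasStrictFDerivAt` for `ctr e e'` (`contDiffOn_ctr`,
`ctr_zc`), constant curve and `isSol_singleton`, `crd_uncrd`.  `comp`: `UAL.comp`, `UAL.exists_ball`, `IsSol.glue`
(the two solutions agree at the middle time by `crd_inj`). -/
theorem Trans.exists_ual {g₀ : RMetric S} {γ : ℝ → S} (hγ : IsGeodesic g₀ γ) {a b : ℝ}
    {e e' : OpenPartialHomeomorph S P2} {A : Ph →L[ℝ] Ph} (h : Trans g₀ γ a e b e' A) :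
    ∃ F : RMetric S → Ph → Ph, UAL (𝓝 g₀) F A (zc g₀ γ e a) (zc g₀ γ e' b) ∧
      ∃ r > 0, ∀ᶠ g in 𝓝 g₀, ∀ x ∈ Metric.ball (zc g₀ γ e a) r, ∃ ψ : ℝ → S × Cov,
        IsSol g ψ (Set.Icc a b) ∧ (ψ a).1 ∈ e.source ∧ crd e (ψ a) = x ∧ (ψ b).1 ∈ e'.source ∧
          crd e' (ψ b) = F g x := by
  induction h with
  | flow a b e he hab hγ' m hma hm =>
    obtain ⟨ρ, hF⟩ := flowData_hvec hγ he hab hγ'
    obtain ⟨F, hU, r, hr, hev⟩ := hF.exists_ual_flow hma hm
    refine ⟨F, hU, r, hr, ?_⟩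
    filter_upwards [hev] with g hg
    intro x hx
    obtain ⟨α, hαa, hαb, htr⟩ := hg x hx
    have hα : ∀ t ∈ Set.Icc a b, (α t).1 ∈ e.target ∧
        HasDerivWithinAt α (hvec (g.comp e) (α t)) (Set.Icc a b) t := fun t ht =>
      ⟨(hF.hball t ht (htr t ht).2).1, (htr t ht).1⟩
    have ma : a ∈ Set.Icc a b := ⟨le_rfl, hab⟩
    have mb : b ∈ Set.Icc a b := ⟨hab, le_rfl⟩
    refine ⟨fun t => uncrd e (α t), isSol_uncrd he hα, uncrd_mem (hα a ma).1, ?_, uncrd_mem (hα b mb).1, ?_⟩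
    · change crd e (uncrd e (α a)) = x
      rw [crd_uncrd_self he (hα a ma).1, hαa]
    · change crd e (uncrd e (α b)) = F g x
      rw [crd_uncrd_self he (hα b mb).1, hαb]
  | change a e e' he he' h h' =>
    have hmem : zc g₀ γ e a ∈ cdom e e' := zc_mem_cdom h h'
    have hnhds : cdom e e' ∈ 𝓝 (zc g₀ γ e a) := (isOpen_cdom e e').mem_nhds hmem
    have hst : HasStrictFDerivAt (ctr e e') (fderiv ℝ (ctr e e') (zc g₀ γ e a)) (zc g₀ γ e a) :=
      ((contDiffOn_ctr he he').contDiffAt hnhds).hasStrictFDerivAt (by simp)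
    have hU := UAL.of_hasStrictFDerivAt (l := 𝓝 g₀) hst
    rw [ctr_zc hγ he he' h h'] at hU
    obtain ⟨r, hr, hball⟩ := Metric.mem_nhds_iff.1 hnhds
    refine ⟨fun _ => ctr e e', hU, r, hr, Eventually.of_forall fun g x hx => ?_⟩
    have hx' : x ∈ cdom e e' := hball hx
    exact ⟨fun _ => uncrd e x, isSol_singleton g _ a, uncrd_mem hx'.1, crd_uncrd_self he hx'.1, hx'.2,
      crd_uncrd he he' hx'⟩
  | comp hA hB ihA ihB =>
    obtain ⟨F, hU, r, hr, hev⟩ := ihA
    obtain ⟨F', hU', r', hr', hev'⟩ := ihB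
    obtain ⟨s, hs, hevs⟩ := hU.exists_ball hr'
    refine ⟨fun g x => F' g (F g x), hU.comp hU', min r s, lt_min hr hs, ?_⟩
    filter_upwards [hev, hev', hevs] with g h1 h2 h3
    intro x hx
    obtain ⟨ψ₁, hs1, ha1, hc1, hb1, hd1⟩ := h1 x (Metric.ball_subset_ball (min_le_left _ _) hx)
    obtain ⟨ψ₂, hs2, ha2, hc2, hb2, hd2⟩ := h2 (F g x) (h3 x (Metric.ball_subset_ball (min_le_right _ _) hx))
    have heq := crd_inj hA.basic.2.2.1 hb1 ha2 (hd1.trans hc2.symm)
    obtain ⟨ψ, hψ, hψa, hψc⟩ := hs1.glue hA.basic.1 hB.basic.1 hs2 heq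
    refine ⟨ψ, hψ, ?_, ?_, ?_, ?_⟩
    · rw [hψa]; exact ha1
    · rw [hψa]; exact hc1
    · rw [hψc]; exact hb2
    · rw [hψc]; exact hd2

end Pool.Agent.Helper82.PE
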