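import Pool.Agent.Helper82.PE.Defs

/-!
# Zeros of uniformly approximately linear families (module PE-23)
-/

set_option maxSynthPendingDepth 3

namespace Pool.Agent.Helper82.PE

open MeasureTheory Filter Topology Pool.Agent.Helper82.GS
open scoped ContDiff Manifold NNReal

variable {R E : Type*} [NormedAddCommGroup E] [NormedSpace ℝ E] [CompleteSpace E] {l : Filter R}

theorem UAL.exists_zero {F : R → E → E} {A : E ≃L[ℝ] E} {a : E} (h : UAL l F (A : E →L[ℝ] E) a 0) {ε : ℝ}
    (hε : 0 < ε) : ∀ᶠ g in l, ∃ x ∈ Metric.ball a ε, F g x = 0 := by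
  set N : ℝ := ‖(A.symm : E →L[ℝ] E)‖ + 1 with hN
  have hNpos : 0 < N := by positivity
  obtain ⟨r, hr, hF⟩ := h.2 (1 / (2 * N)) (by positivity)
  -- the radius
  set ρ : ℝ := min ε r / 2 with hρ
  have hρpos : 0 < ρ := by positivity
  have hρε : ρ < ε := by
    have : min ε r ≤ ε := min_le_left _ _
    have h2 : 0 < min ε r := by positivity
    linarith
  have hρr : ρ < r := by
    have : min ε r ≤ r := min_le_right _ _
    have h2 : 0 < min ε r := by positivity
    linarith
  have h1 : ∀ᶠ g in l, ‖F g a‖ < ρ / (2 * N) := by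
    have h2 := Metric.tendsto_nhds.1 h.1 (ρ / (2 * N)) (by positivity)
    simpa [dist_eq_norm] using h2
  filter_upwards [hF, h1] with g hg hga
  -- the Newton map
  set Φ : E → E := fun x => x - A.symm (F g x) with hΦ
  have hlip : ∀ x ∈ Metric.closedBall a ρ, ∀ y ∈ Metric.closedBall a ρ, dist (Φ x) (Φ y) ≤ 1 / 2 * dist x y := by
    intro x hx y hy
    have hx' : x ∈ Metric.ball a r := Metric.closedBall_subset_ball hρr hx
    have hy' : y ∈ Metric.ball a r := Metric.closedBall_subset_ball hρr hy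
    have h3 := hg x hx' y hy'
    have h4 : Φ x - Φ y = -(A.symm (F g x - F g y - (A : E →L[ℝ] E) (x - y))) := by
      simp only [hΦ, map_sub]
      simp
      abel
    rw [dist_eq_norm, dist_eq_norm, h4, norm_neg]
    calc ‖A.symm (F g x - F g y - (A : E →L[ℝ] E) (x - y))‖
        ≤ ‖(A.symm : E →L[ℝ] E)‖ * ‖F g x - F g y - (A : E →L[ℝ] E) (x - y)‖ :=
          (A.symm : E →L[ℝ] E).le_opNorm _
      _ ≤ N * (1 / (2 * N) * ‖x - y‖) := by
          refine mul_le_mul ?_ h3 (norm_nonneg _) hNpos.le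
          linarith
      _ = 1 / 2 * ‖x - y‖ := by field_simp
  have ha : dist (Φ a) a ≤ ρ / 2 := by
    rw [dist_eq_norm]
    have h5 : Φ a - a = -(A.symm (F g a)) := by simp [hΦ]
    rw [h5, norm_neg]
    calc ‖A.symm (F g a)‖ ≤ ‖(A.symm : E →L[ℝ] E)‖ * ‖F g a‖ := (A.symm : E →L[ℝ] E).le_opNorm _
      _ ≤ N * (ρ / (2 * N)) := by
          refine mul_le_mul ?_ hga.le (norm_nonneg _) hNpos.le
          linarith
      _ = ρ / 2 := by field_simp
  have hmaps : Set.MapsTo Φ (Metric.closedBall a ρ) (Metric.closedBall a ρ) := by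
    intro x hx
    have h6 := hlip x hx a (Metric.mem_closedBall_self hρpos.le)
    have h7 : dist x a ≤ ρ := hx
    rw [Metric.mem_closedBall]
    calc dist (Φ x) a ≤ dist (Φ x) (Φ a) + dist (Φ a) a := dist_triangle _ _ _
      _ ≤ ρ := by linarith
  have hcomplete : IsComplete (Metric.closedBall a ρ) := Metric.isClosed_closedBall.isComplete
  have hcontr : ContractingWith (1 / 2 : ℝ≥0) (hmaps.restrict Φ (Metric.closedBall a ρ) (Metric.closedBall a ρ)) := by
    refine ⟨by norm_num [← NNReal.coe_lt_coe], LipschitzWith.of_dist_le_mul ?_⟩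
    rintro ⟨x, hx⟩ ⟨y, hy⟩
    have h10 := hlip x hx y hy
    have h11 : ((1 / 2 : ℝ≥0) : ℝ) = 1 / 2 := by norm_num
    rw [h11]
    exact h10
  obtain ⟨x, hx, hfix, -⟩ := hcontr.exists_fixedPoint' hcomplete hmaps (x := a)
    (Metric.mem_closedBall_self hρpos.le) (edist_ne_top _ _)
  refine ⟨x, Metric.closedBall_subset_ball hρε hx, ?_⟩
  have h8 : x - A.symm (F g x) = x := hfix
  have h9 : A.symm (F g x) = 0 := by simpa using h8
  simpa using h9

end Pool.Agent.Helper82.PE
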