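import Pool.Agent.Helper82.PE.FHvec
import Pool.Agent.Helper82.PE.Propag
import Pool.Agent.Helper82.PE.Homog

/-!
# Wronskian identity in a chart (module PE-28)
-/

set_option maxSynthPendingDepth 3

namespace Pool.Agent.Helper82.PE

open MeasureTheory Filter Topology Pool.Agent.Helper82.GS
open scoped ContDiff Manifold NNReal

variable {D : Set P2}

theorem hasDerivWithinAt_apply {m : ℝ → Ph →L[ℝ] Ph} {m' : Ph →L[ℝ] Ph} {I : Set ℝ} {t : ℝ}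
    (h : HasDerivWithinAt m m' I t) (ζ : Ph) : HasDerivWithinAt (fun s => m s ζ) (m' ζ) I t := by
  have := h.clm_apply (hasDerivWithinAt_const t I ζ)
  simpa using this

theorem continuousOn_fderiv_hvec (hD : IsOpen D) {G : P2 → Bil} (hG : ContDiffOn ℝ ∞ G D)
    (hpos : ∀ y ∈ D, PosDef (G y)) {z : ℝ → Ph} {I : Set ℝ} (hz : ContinuousOn z I)
    (hzD : ∀ t ∈ I, (z t).1 ∈ D) : ContinuousOn (fun t => fderiv ℝ (hvec G) (z t)) I := by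
  have h1 : ContinuousOn (fderiv ℝ (hvec G)) (D ×ˢ Set.univ) :=
    (contDiffOn_hvec hD hG hpos).continuousOn_fderiv_of_isOpen (hD.prod isOpen_univ) (by simp)
  exact h1.comp hz fun t ht => ⟨hzD t ht, Set.mem_univ _⟩

/-- `d/dt om (m₁ ζ₁) (m₂ ζ₂) = om (DX₁ m₁ζ₁) (m₂ζ₂) + om (m₁ζ₁) (DX₂ m₂ζ₂) = - D²H₁ (m₁ζ₁, m₂ζ₂) + D²H₂ (m₁ζ₁, m₂ζ₂)`
by `fderiv2_ham`, `fderiv2_ham_symm` and `om_swap`; the right side is continuous on `Icc a b`; fundamental theorem. -/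
theorem wronskian (hD : IsOpen D) {G₁ G₂ : P2 → Bil} (hG₁ : ContDiffOn ℝ ∞ G₁ D) (hpos₁ : ∀ y ∈ D, PosDef (G₁ y))
    (hG₂ : ContDiffOn ℝ ∞ G₂ D) (hpos₂ : ∀ y ∈ D, PosDef (G₂ y)) {z : ℝ → Ph} {a b : ℝ} (hab : a ≤ b)
    (hz : ContinuousOn z (Set.Icc a b)) (hzD : ∀ t ∈ Set.Icc a b, (z t).1 ∈ D) {m₁ m₂ : ℝ → Ph →L[ℝ] Ph}
    (hm₁a : m₁ a = ContinuousLinearMap.id ℝ Ph) (hm₂a : m₂ a = ContinuousLinearMap.id ℝ Ph)
    (hm₁ : ∀ t ∈ Set.Icc a b, HasDerivWithinAt m₁ ((fderiv ℝ (hvec G₁) (z t)) ∘L m₁ t) (Set.Icc a b) t)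
    (hm₂ : ∀ t ∈ Set.Icc a b, HasDerivWithinAt m₂ ((fderiv ℝ (hvec G₂) (z t)) ∘L m₂ t) (Set.Icc a b) t)
    (ζ₁ ζ₂ : Ph) :
    om (m₁ b ζ₁) (m₂ b ζ₂) - om ζ₁ ζ₂ = ∫ t in a..b, (fderiv ℝ (fderiv ℝ (ham G₂)) (z t) (m₁ t ζ₁) (m₂ t ζ₂) -
      fderiv ℝ (fderiv ℝ (ham G₁)) (z t) (m₁ t ζ₁) (m₂ t ζ₂)) := by
  have hd : ∀ t ∈ Set.Icc a b, HasDerivWithinAt (fun s => om (m₁ s ζ₁) (m₂ s ζ₂))
      (om (fderiv ℝ (hvec G₁) (z t) (m₁ t ζ₁)) (m₂ t ζ₂) + om (m₁ t ζ₁) (fderiv ℝ (hvec G₂) (z t) (m₂ t ζ₂)))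
      (Set.Icc a b) t := fun t ht =>
    hasDerivWithinAt_om (hasDerivWithinAt_apply (hm₁ t ht) ζ₁) (hasDerivWithinAt_apply (hm₂ t ht) ζ₂)
  have hc1 : ContinuousOn (fun s => m₁ s ζ₁) (Set.Icc a b) := fun t ht =>
    (hasDerivWithinAt_apply (hm₁ t ht) ζ₁).continuousWithinAt
  have hc2 : ContinuousOn (fun s => m₂ s ζ₂) (Set.Icc a b) := fun t ht =>
    (hasDerivWithinAt_apply (hm₂ t ht) ζ₂).continuousWithinAt
  have hf1 := continuousOn_fderiv_hvec hD hG₁ hpos₁ hz hzD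
  have hf2 := continuousOn_fderiv_hvec hD hG₂ hpos₂ hz hzD
  have hcont : ContinuousOn (fun t => om (fderiv ℝ (hvec G₁) (z t) (m₁ t ζ₁)) (m₂ t ζ₂) +
      om (m₁ t ζ₁) (fderiv ℝ (hvec G₂) (z t) (m₂ t ζ₂))) (Set.Icc a b) :=
    (continuous_om.comp_continuousOn ((hf1.clm_apply hc1).prodMk hc2)).add
      (continuous_om.comp_continuousOn (hc1.prodMk (hf2.clm_apply hc2)))
  have hint : ∫ t in a..b, (om (fderiv ℝ (hvec G₁) (z t) (m₁ t ζ₁)) (m₂ t ζ₂) +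
      om (m₁ t ζ₁) (fderiv ℝ (hvec G₂) (z t) (m₂ t ζ₂))) = om (m₁ b ζ₁) (m₂ b ζ₂) - om (m₁ a ζ₁) (m₂ a ζ₂) := by
    refine intervalIntegral.integral_eq_sub_of_hasDeriv_right_of_le hab
      (fun t ht => (hd t ht).continuousWithinAt) (fun t ht => ?_) ?_
    · exact ((hd t ⟨ht.1.le, ht.2.le⟩).hasDerivAt (Icc_mem_nhds ht.1 ht.2)).hasDerivWithinAt
    · refine ContinuousOn.intervalIntegrable ?_
      rwa [Set.uIcc_of_le hab]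
  rw [hm₁a, hm₂a] at hint
  simp only [ContinuousLinearMap.id_apply] at hint
  rw [← hint]
  refine intervalIntegral.integral_congr fun t ht => ?_
  rw [Set.uIcc_of_le hab] at ht
  rw [fderiv2_ham_symm hD hG₂ hpos₂ (hzD t ht), fderiv2_ham hD hG₂ hpos₂ (hzD t ht),
    fderiv2_ham hD hG₁ hpos₁ (hzD t ht), om_swap (m₂ t ζ₂)]
  ring

end Pool.Agent.Helper82.PE
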