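import Pool.Agent.Helper82.PE.Solve
import Pool.Agent.Helper82.PE.Propag
import Pool.Agent.Helper82.PE.UALc
import Pool.Agent.Helper82.PE.UALz
import Pool.Agent.Helper82.PE.FlowData
import Pool.Agent.Helper82.PE.FlowA
import Pool.Agent.Helper82.PE.FlowB
import Pool.Agent.Helper82.PE.FlowC
import Pool.Agent.Helper82.PE.FlowD
import Pool.Agent.Helper82.PE.Wron
import Pool.Agent.Helper82.PE.PropSymp
import Pool.Agent.Helper82.PE.Tang
import Pool.Agent.Helper82.PE.Orth
import Pool.Agent.Helper82.PE.Bad
import Pool.Agent.Helper82.PE.TransProp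
import Pool.Agent.Helper82.PE.TransEx
import Pool.Agent.Helper82.PE.TransUAL
import Pool.Agent.Helper82.PE.Period
import Pool.Agent.Helper82.PE.Cross
import Pool.Agent.Helper82.PE.LocDef
import Pool.Agent.Helper82.PE.SqBump
import Pool.Agent.Helper82.PE.Bump
import Pool.Agent.Helper82.PE.Pert
import Pool.Agent.Helper82.PE.IterClose
import Pool.Agent.Helper82.PE.Small
import Pool.Agent.Helper82.PE.CertFixed
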