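import Pool.Agent.Helper82.PE.Iface

/-!
# Persistence block: definitions

Phase space of the plane, Hamiltonian vector field of a metric, change of charts on the cotangent bundle, phase curves
on the surface, transport along a geodesic, uniformly approximately linear families.
-/

set_option maxSynthPendingDepth 3

namespace Pool.Agent.Helper82.PE

open MeasureTheory Filter Topology Pool.Agent.Helper82.GS
open scoped ContDiff Manifold

/-- Covectors of the plane. -/
abbrev Cov := P2 →L[ℝ] ℝ

/-- The phase space of the plane: position and momentum. -/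
abbrev Ph := P2 × Cov

/-- The symplectic form. -/
def om (z w : Ph) : ℝ := z.2 w.1 - w.2 z.1

/-- The velocity of a phase point for the metric `G`. -/
noncomputable def velo (G : P2 → Bil) (z : Ph) : P2 := ContinuousLinearMap.inverse (G z.1) z.2

/-- The Hamiltonian (kinetic energy). -/
noncomputable def ham (G : P2 → Bil) (z : Ph) : ℝ := (1 / 2) * z.2 (velo G z)

/-- The Hamiltonian vector field: `q' = v`, `p' = (1/2) (D G) (v, v)`. -/
noncomputable def hvec (G : P2 → Bil) (z : Ph) : Ph :=
  (velo G z, (1 / 2 : ℝ) • ((fderiv ℝ G z.1).flip (velo G z)).flip (velo G z))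

/-- Uniformly approximately linear families of maps: `F g` is, for `g` deep in the filter `l` and near the point `a`,
as close as we want (in the Lipschitz sense) to the linear map `A`, and `F g a` tends to `b`. -/
def UAL {R E E' : Type*} [NormedAddCommGroup E] [NormedSpace ℝ E] [NormedAddCommGroup E'] [NormedSpace ℝ E']
    (l : Filter R) (F : R → E → E') (A : E →L[ℝ] E') (a : E) (b : E') : Prop :=
  Tendsto (fun g => F g a) l (𝓝 b) ∧
    ∀ η > 0, ∃ r > 0, ∀ᶠ g in l, ∀ x ∈ Metric.ball a r, ∀ y ∈ Metric.ball a r,
      ‖F g x - F g y - A (x - y)‖ ≤ η * ‖x - y‖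

section Surface

variable {S : Type*} [TopologicalSpace S]

/-- The change of charts on the cotangent bundle. -/
noncomputable def ctr (e e' : OpenPartialHomeomorph S P2) (z : Ph) : Ph :=
  (e' (e.symm z.1), z.2 ∘L fderiv ℝ (e ∘ e'.symm) (e' (e.symm z.1)))

/-- The domain of the change of charts. -/
def cdom (e e' : OpenPartialHomeomorph S P2) : Set Ph := {z | z.1 ∈ e.target ∧ e.symm z.1 ∈ e'.source}

variable [ChartedSpace P2 S]

/-- The position and momentum, in the chart `e`, of a curve. -/
noncomputable def zc (g : RMetric S) (γ : ℝ → S) (e : OpenPartialHomeomorph S P2) (t : ℝ) : Ph :=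
  (e (γ t), g.comp e (e (γ t)) (deriv (e ∘ γ) t))

/-- The coordinates in the chart `e` of a phase point of the surface (a point `x.1` and a covector `x.2`, expressed in
the preferred chart at `x.1`). -/
noncomputable def crd (e : OpenPartialHomeomorph S P2) (x : S × Cov) : Ph :=
  ctr (chartAt P2 x.1) e (chartAt P2 x.1 x.1, x.2)

/-- The phase point of the surface with given coordinates in the chart `e`. -/
noncomputable def uncrd (e : OpenPartialHomeomorph S P2) (z : Ph) : S × Cov :=
  (e.symm z.1, (ctr e (chartAt P2 (e.symm z.1)) z).2)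

/-- Solutions, on the set `I` of times, of the Hamilton equations of the metric `g`. -/
def IsSol (g : RMetric S) (ψ : ℝ → S × Cov) (I : Set ℝ) : Prop :=
  ContinuousOn (fun t => (ψ t).1) I ∧ ∀ e ∈ atlas P2 S, ∀ t ∈ I, (ψ t).1 ∈ e.source →
    HasDerivWithinAt (fun s => crd e (ψ s)) (hvec (g.comp e) (crd e (ψ t))) I t

/-- The kinetic energy of a phase point of the surface. -/
noncomputable def energy (g : RMetric S) (x : S × Cov) : ℝ :=
  ham (g.comp (chartAt P2 x.1)) (crd (chartAt P2 x.1) x)

/-- `Trans g γ a e b e' A`: the linear map `A` is the linearised geodesic flow along `γ` from time `a` (in the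
coordinates of the chart `e`) to time `b` (in the coordinates of the chart `e'`). -/
inductive Trans (g : RMetric S) (γ : ℝ → S) :
    ℝ → OpenPartialHomeomorph S P2 → ℝ → OpenPartialHomeomorph S P2 → (Ph →L[ℝ] Ph) → Prop
  | flow (a b : ℝ) (e : OpenPartialHomeomorph S P2) (he : e ∈ atlas P2 S) (hab : a ≤ b)
      (hγ : ∀ t ∈ Set.Icc a b, γ t ∈ e.source) (m : ℝ → Ph →L[ℝ] Ph) (hma : m a = ContinuousLinearMap.id ℝ Ph)
      (hm : ∀ t ∈ Set.Icc a b,
        HasDerivWithinAt m ((fderiv ℝ (hvec (g.comp e)) (zc g γ e t)) ∘L m t) (Set.Icc a b) t) :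
      Trans g γ a e b e (m b)
  | change (a : ℝ) (e e' : OpenPartialHomeomorph S P2) (he : e ∈ atlas P2 S) (he' : e' ∈ atlas P2 S)
      (h : γ a ∈ e.source) (h' : γ a ∈ e'.source) : Trans g γ a e a e' (fderiv ℝ (ctr e e') (zc g γ e a))
  | comp {a b c : ℝ} {e e' e'' : OpenPartialHomeomorph S P2} {A B : Ph →L[ℝ] Ph} (hA : Trans g γ a e b e' A)
      (hB : Trans g γ b e' c e'' B) : Trans g γ a e c e'' (B ∘L A)

end Surface

end Pool.Agent.Helper82.PE
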