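import Pool.Agent.Helper82.PE.Small
import Pool.Agent.Helper82.PE.CertFixed
import Pool.Agent.Helper82.PE.NearC2
import Pool.Agent.Helper82.GS.Final

/-!
# The closing lemma from the min-max block and the persistence block (module PE-47)
-/

set_option maxSynthPendingDepth 3

namespace Pool.Agent.Helper82.PE

open MeasureTheory Filter Topology Pool.Agent.Helper82.GS
open scoped ContDiff Manifold NNReal

section

variable {S : Type*} [TopologicalSpace S] [ChartedSpace P2 S]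

/-- A closed geodesic passes near the point `p` of the chart `e` with direction near the kernel of `ℓ`. -/
def Passes (g : RMetric S) (e : OpenPartialHomeomorph S P2) (p : P2) (ℓ : P2 →L[ℝ] ℝ) (r : ℝ) : Prop :=
  ∃ (γ : ℝ → S) (T : ℝ), IsClosedGeodesic g γ T ∧
    ∃ t, γ t ∈ e.source ∧ ‖e (γ t) - p‖ < r ∧ |ℓ (deriv (e ∘ γ) t)| < r * ‖deriv (e ∘ γ) t‖

theorem closed_shift {g : RMetric S} {γ : ℝ → S} {T : ℝ} (h : IsClosedGeodesic g γ T) (s : ℝ) :
    IsClosedGeodesic g (fun t => γ (t + s)) T := by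
  obtain ⟨⟨hc, hg⟩, hT, hper⟩ := h
  refine ⟨⟨hc.comp (by fun_prop), ?_⟩, hT, ?_⟩
  · intro e he t ht
    obtain ⟨h1, h2, h3⟩ := hg e he (t + s) ht
    have e1 : (e ∘ fun t => γ (t + s)) = fun t => (e ∘ γ) (t + s) := rfl
    have d1 : ∀ t, deriv (fun t => (e ∘ γ) (t + s)) t = deriv (e ∘ γ) (t + s) := fun t =>
      deriv_comp_add_const _ _ _
    have d1' : deriv (fun t => (e ∘ γ) (t + s)) = fun t => deriv (e ∘ γ) (t + s) := funext d1
    have d2 : deriv (deriv (fun t => (e ∘ γ) (t + s))) t = deriv (deriv (e ∘ γ)) (t + s) := by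
      rw [d1']
      exact deriv_comp_add_const _ _ _
    rw [e1]
    refine ⟨?_, ?_, ?_⟩
    · exact ContDiffAt.comp (g := e ∘ γ) (f := fun t : ℝ => t + s) t h1 (by fun_prop)
    · rw [d1]
      exact h2
    · intro w
      rw [d1, d2]
      exact h3 w
  · intro t
    have : t + T + s = t + s + T := by ring
    simp only [this, hper]

end

section

variable {S : Type*} [TopologicalSpace S] [CompactSpace S] [T2Space S] [ChartedSpace P2 S]
    [IsManifold (modelWithCornersSelf ℝ P2) ∞ S] [MeasurableSpace S] [BorelSpace S]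

theorem dense_interior_passes (hM : MinMaxClosing S) (hP : PersistenceBlock S)
    {e : OpenPartialHomeomorph S P2} (he : e ∈ atlas P2 S) {p : P2} {ℓ : P2 →L[ℝ] ℝ} (hℓ : ℓ ≠ 0) {r : ℝ}
    (hr : 0 < r) (hball : Metric.closedBall p r ⊆ e.target) :
    Dense (interior {g : RMetric S | Passes g e p ℓ r}) := by
  rw [dense_iff_inter_open]
  intro U hU hUne
  obtain ⟨g₁, hg₁U, hg₁⟩ := (dense_cert he hℓ hr hball).inter_open_nonempty U hU hUne
  obtain ⟨L, b, u, hL, hLb, hb, hbL, hu, huL, hint, δ, hδ, hineq⟩ :=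
    cert_fixed e.open_target (g₁.smooth e he) (g₁.posDef e he) hr hball hg₁
  have hLe : L ⊆ e.target := hLb.trans (Metric.ball_subset_closedBall.trans hball)
  obtain ⟨μ, hμ, -⟩ := exists_unique_area g₁
  have hneg : ∫ x, ext e b x ∂μ < 0 := by
    rw [hμ.integral_ext he hb.continuous hL hLe hbL]
    exact hint
  have hsm : SmoothFun (ext e b) := ext_smooth he hb hL hLe hbL
  have hN := inter_mem (hU.mem_nhds hg₁U) (near_C2 g₁ he (isCompact_closedBall p r) hball hδ)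
  obtain ⟨δ₂, hδ₂, hsmall⟩ := scale_small g₁ hsm (σ := Real.exp) (by fun_prop) Real.exp_zero hN
  obtain ⟨t, ht0, htδ, g', hg', γ, T, hγ, hγneg⟩ := hM g₁ μ hμ (ext e b) hsm hneg δ₂ hδ₂
  have hg'N := hsmall t (by rwa [abs_of_nonneg ht0]) g' hg'
  obtain ⟨hg'U, hg'c⟩ := hg'N
  have hin := hineq (g'.comp e) (g'.smooth e he) (g'.posDef e he) (fun y hy => (hg'c y hy).1)
    (fun y hy => (hg'c y hy).2.1)
  obtain ⟨s, hs1, hs2, hs3⟩ : ∃ s, γ s ∈ e.source ∧ ‖e (γ s) - p‖ < r ∧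
      |ℓ (deriv (e ∘ γ) s)| < r * ‖deriv (e ∘ γ) s‖ := by
    by_contra hcon
    push Not at hcon
    have := integral_nonneg_of_avoid hγ he hr hball hL hLb hb.continuous hbL hu huL hin hcon
    linarith
  -- shift
  set γ₁ : ℝ → S := fun t => γ (t + s) with hγ₁
  have hγ₁c : IsClosedGeodesic g' γ₁ T := closed_shift hγ s
  have h10 : γ₁ 0 = γ s := by simp [hγ₁]
  have h1d : deriv (e ∘ γ₁) 0 = deriv (e ∘ γ) s := by
    have e1 : (e ∘ γ₁) = fun t => (e ∘ γ) (t + s) := rfl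
    rw [e1, deriv_comp_add_const, zero_add]
  -- the open condition
  have hO : IsOpen {q : P2 × P2 | ‖q.1 - p‖ < r ∧ |ℓ q.2| < r * ‖q.2‖} := by
    have o1 : IsOpen {q : P2 × P2 | ‖q.1 - p‖ < r} := isOpen_lt (by fun_prop) (by fun_prop)
    have o2 : IsOpen {q : P2 × P2 | |ℓ q.2| < r * ‖q.2‖} := isOpen_lt (by fun_prop) (by fun_prop)
    exact o1.inter o2
  have hmem : (e (γ₁ 0), deriv (e ∘ γ₁) 0) ∈ {q : P2 × P2 | ‖q.1 - p‖ < r ∧ |ℓ q.2| < r * ‖q.2‖} := by
    rw [h10, h1d]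
    exact ⟨hs2, hs3⟩
  obtain ⟨ε, hε, hεO⟩ := Metric.isOpen_iff.1 hO _ hmem
  obtain ⟨g'', hg''U, hg''⟩ := hP g' γ₁ T hγ₁c e he (by rw [h10]; exact hs1) U (hU.mem_nhds hg'U)
  refine ⟨g'', hg''U, mem_interior_iff_mem_nhds.2 ?_⟩
  filter_upwards [hg'' ε hε] with h hh
  obtain ⟨γ', T', hγ', h1, h2, h3⟩ := hh
  have h4 : (e (γ' 0), deriv (e ∘ γ') 0) ∈ Metric.ball (e (γ₁ 0), deriv (e ∘ γ₁) 0) ε := by
    rw [Metric.mem_ball, Prod.dist_eq, max_lt_iff, dist_eq_norm, dist_eq_norm]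
    exact ⟨h2, h3⟩
  exact ⟨γ', T', hγ', 0, h1, (hεO h4).1, (hεO h4).2⟩

/-- The closing lemma, from the two blocks. -/
theorem closing (hM : MinMaxClosing S) (hP : PersistenceBlock S) :
    ∀ᶠ g in residual (RMetric S), ClosedGeodesicsDense g := by
  obtain ⟨F, hFfin, hFat, hFcov⟩ := exists_finite_cover S
  obtain ⟨Q, hQc, hQd⟩ := TopologicalSpace.exists_countable_dense P2
  obtain ⟨L, hLc, hLd⟩ := TopologicalSpace.exists_countable_dense (P2 →L[ℝ] ℝ)
  have hev : ∀ᶠ g in residual (RMetric S), ∀ e ∈ F, ∀ p ∈ Q, ∀ ℓ ∈ L, ∀ n : ℕ, ℓ ≠ 0 →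
      Metric.closedBall p (1 / ((n : ℝ) + 1)) ⊆ e.target → Passes g e p ℓ (1 / ((n : ℝ) + 1)) := by
    rw [eventually_countable_ball hFfin.countable]
    intro e he
    rw [eventually_countable_ball hQc]
    intro p _
    rw [eventually_countable_ball hLc]
    intro ℓ _
    rw [eventually_countable_forall]
    intro n
    by_cases hℓ : ℓ = 0
    · exact Eventually.of_forall fun g h => absurd hℓ h
    by_cases hb : Metric.closedBall p (1 / ((n : ℝ) + 1)) ⊆ e.target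
    · have hr : (0 : ℝ) < 1 / ((n : ℝ) + 1) := by positivity
      have := residual_of_dense_open isOpen_interior (dense_interior_passes hM hP (hFat he) hℓ hr hb)
      filter_upwards [this] with g hg _ _
      exact (interior_subset hg : g ∈ {g : RMetric S | Passes g e p ℓ (1 / ((n : ℝ) + 1))})
    · exact Eventually.of_forall fun g _ h => absurd h hb
  filter_upwards [hev] with g hg
  refine dense_of_cover hFat hFcov ?_
  intro e he y hy v hv ε hε
  obtain ⟨p, hp, ℓ, hℓ, n, hℓ0, hball, hU⟩ := exists_direction e.open_target (g.smooth e (hFat he))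
    (g.posDef e (hFat he)) hQd hLd hy hv hε
  obtain ⟨γ, T, hγ, t, ht, h1, h2⟩ := hg e he p hp ℓ hℓ n hℓ0 hball
  have hunit : g.comp e (e (γ t)) (deriv (e ∘ γ) t) (deriv (e ∘ γ) t) = 1 := (hγ.1.2 e (hFat he) t ht).2.1
  obtain ⟨h3, h4⟩ := hU _ _ h1 h2 hunit
  rcases h4 with h4 | h4
  · exact ⟨γ, T, hγ, t, ht, h3, h4⟩
  · refine ⟨fun s => γ (-s), T, hγ.reverse, -t, by simpa using ht, by simpa using h3, ?_⟩
    have hd : deriv (e ∘ fun s => γ (-s)) (-t) = -deriv (e ∘ γ) t := by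
      have h5 : (e ∘ fun s => γ (-s)) = fun s => (e ∘ γ) (-s) := rfl
      rw [h5, deriv_comp_neg]
      simp
    rw [hd]
    exact h4

end

end Pool.Agent.Helper82.PE
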