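import Pool.Agent.Helper82.PE.P1
import Pool.Agent.Helper82.PE.FinalG
import Pool.Agent.Helper82.GS.Bridge2

/-!
# The closing lemma for the metrics of the statement, from the min-max block (module PE-48)
-/

set_option maxSynthPendingDepth 3

namespace Pool.Agent.Helper82.PE

open MeasureTheory Filter Topology Pool.Agent.Helper82.GS
open scoped ContDiff Manifold NNReal

theorem closing_stmt (S : Type*) [TopologicalSpace S] [CompactSpace S] [T2Space S] [ChartedSpace P2 S]
    [IsManifold (modelWithCornersSelf ℝ P2) ∞ S] [MeasurableSpace S] [BorelSpace S] (hM : MinMaxClosing S) :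
    ∀ᶠ g in residual (Stmt.RMetric P2 S), Stmt.ClosedGeodesicsDense g := by
  have h := (tendsto_residual_of_isOpenMap (continuous_toR (S := S)) isOpenMap_toR).eventually
    (closing hM persistenceBlock)
  filter_upwards [h] with g hg
  exact dense_of_dense hg

end Pool.Agent.Helper82.PE
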