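import Pool.Agent.Helper82.PE.Defs

/-!
# The symplectic form (module PE-1)
-/

set_option maxSynthPendingDepth 3

namespace Pool.Agent.Helper82.PE

open MeasureTheory Filter Topology Pool.Agent.Helper82.GS
open scoped ContDiff Manifold NNReal

theorem om_self (z : Ph) : om z z = 0 := by
  simp [om]

theorem om_swap (z w : Ph) : om z w = -om w z := by
  simp [om]

theorem om_add_left (z z' w : Ph) : om (z + z') w = om z w + om z' w := by
  simp [om]
  ring

theorem om_add_right (z w w' : Ph) : om z (w + w') = om z w + om z w' := by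
  simp [om]
  ring

theorem om_sub_left (z z' w : Ph) : om (z - z') w = om z w - om z' w := by
  simp [om]
  ring

theorem om_sub_right (z w w' : Ph) : om z (w - w') = om z w - om z w' := by
  simp [om]
  ring

theorem om_smul_left (c : ℝ) (z w : Ph) : om (c • z) w = c * om z w := by
  simp [om]
  ring

theorem om_smul_right (c : ℝ) (z w : Ph) : om z (c • w) = c * om z w := by
  simp [om]
  ring

theorem om_zero_left (w : Ph) : om 0 w = 0 := by
  simp [om]

theorem om_zero_right (z : Ph) : om z 0 = 0 := by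
  simp [om]

/-- The symplectic form is nondegenerate. -/
theorem om_ext {z w : Ph} (h : ∀ ζ, om ζ z = om ζ w) : z = w := by
  have h2 : z.2 = w.2 := by
    ext u
    have := h (u, 0)
    simp [om] at this
    linarith
  have h1 : z.1 = w.1 := by
    have key : ∀ π : Cov, π z.1 = π w.1 := by
      intro π
      have := h (0, π)
      simpa [om] using this
    have h3 : ∀ i, z.1 i = w.1 i := by
      intro i
      exact key (EuclideanSpace.proj i)
    ext i
    exact h3 i
  exact Prod.ext h1 h2

theorem om_bound (z w : Ph) : |om z w| ≤ 2 * ‖z‖ * ‖w‖ := by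
  unfold om
  have h1 : |z.2 w.1| ≤ ‖z‖ * ‖w‖ := by
    rw [← Real.norm_eq_abs]
    exact (z.2.le_opNorm w.1).trans (mul_le_mul (norm_snd_le z) (norm_fst_le w) (norm_nonneg _) (norm_nonneg _))
  have h2 : |w.2 z.1| ≤ ‖w‖ * ‖z‖ := by
    rw [← Real.norm_eq_abs]
    exact (w.2.le_opNorm z.1).trans (mul_le_mul (norm_snd_le w) (norm_fst_le z) (norm_nonneg _) (norm_nonneg _))
  calc |z.2 w.1 - w.2 z.1| ≤ |z.2 w.1| + |w.2 z.1| := abs_sub _ _
    _ ≤ 2 * ‖z‖ * ‖w‖ := by linarith

theorem hasDerivWithinAt_fst {x : ℝ → Ph} {x' : Ph} {I : Set ℝ} {t : ℝ} (hx : HasDerivWithinAt x x' I t) :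
    HasDerivWithinAt (fun s => (x s).1) x'.1 I t := by
  simpa using hx.hasFDerivWithinAt.fst.hasDerivWithinAt

theorem hasDerivWithinAt_snd {x : ℝ → Ph} {x' : Ph} {I : Set ℝ} {t : ℝ} (hx : HasDerivWithinAt x x' I t) :
    HasDerivWithinAt (fun s => (x s).2) x'.2 I t := by
  simpa using hx.hasFDerivWithinAt.snd.hasDerivWithinAt

theorem hasDerivWithinAt_om {x y : ℝ → Ph} {x' y' : Ph} {I : Set ℝ} {t : ℝ} (hx : HasDerivWithinAt x x' I t)
    (hy : HasDerivWithinAt y y' I t) :
    HasDerivWithinAt (fun s => om (x s) (y s)) (om x' (y t) + om (x t) y') I t := by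
  have h1 : HasDerivWithinAt (fun s => (x s).2 (y s).1) (x'.2 (y t).1 + (x t).2 y'.1) I t :=
    (hasDerivWithinAt_snd hx).clm_apply (hasDerivWithinAt_fst hy)
  have h2 : HasDerivWithinAt (fun s => (y s).2 (x s).1) (y'.2 (x t).1 + (y t).2 x'.1) I t :=
    (hasDerivWithinAt_snd hy).clm_apply (hasDerivWithinAt_fst hx)
  refine (h1.sub h2).congr_deriv ?_
  simp only [om]
  ring

theorem continuous_om : Continuous fun q : Ph × Ph => om q.1 q.2 := by
  unfold om
  exact (continuous_fst.snd.clm_apply continuous_snd.fst).sub (continuous_snd.snd.clm_apply continuous_fst.fst)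

end Pool.Agent.Helper82.PE
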