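import Pool.Agent.Helper82.PE.TransUAL
import Pool.Agent.Helper82.PE.UALz
import Pool.Agent.Helper82.PE.NearHam
import Pool.Agent.Helper82.PE.Lift

/-!
# Persistence of nondegenerate closed geodesics (module PE-46)
-/

set_option maxSynthPendingDepth 3

namespace Pool.Agent.Helper82.PE

open MeasureTheory Filter Topology Pool.Agent.Helper82.GS
open scoped ContDiff Manifold NNReal

/-- The linear form `om · V`. -/
noncomputable def omL (V : Ph) : Ph →L[ℝ] ℝ :=
  LinearMap.toContinuousLinearMap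
    { toFun := fun ζ => om ζ V
      map_add' := fun x y => om_add_left x y V
      map_smul' := fun c x => om_smul_left c x V }

theorem omL_apply (V ζ : Ph) : omL V ζ = om ζ V := rfl

/-- The linear algebra: a symplectic map `A` fixing `X`, with fixed space spanned by `X`, becomes an isomorphism after
adding the rank one map `om · V • V` to `A - 1`, if `om V X = 1`. -/
theorem exists_equiv_of_nondeg {A : Ph →L[ℝ] Ph} {X V : Ph} (hA : ∀ ζ η, om (A ζ) (A η) = om ζ η) (hX : A X = X)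
    (hV : om V X = 1) (hnd : ∀ ζ, A ζ = ζ → ∃ c : ℝ, ζ = c • X) :
    ∃ B : Ph ≃L[ℝ] Ph, (B : Ph →L[ℝ] Ph) = A + (-ContinuousLinearMap.id ℝ Ph + (omL V).smulRight V) := by
  set C : Ph →L[ℝ] Ph := A + (-ContinuousLinearMap.id ℝ Ph + (omL V).smulRight V) with hC
  have hCa : ∀ ζ, C ζ = A ζ + (-ζ + om ζ V • V) := by
    intro ζ
    simp [hC, omL_apply]
  have hinj : Function.Injective (C : Ph →ₗ[ℝ] Ph) := by
    rw [← LinearMap.ker_eq_bot, LinearMap.ker_eq_bot']
    intro ζ hζ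
    have h1 : A ζ + (-ζ + om ζ V • V) = 0 := by
      rw [← hCa]
      exact hζ
    have h2 : om (A ζ + (-ζ + om ζ V • V)) X = 0 := by
      rw [h1, om_zero_left]
    have h3 : om (A ζ) X = om ζ X := by
      conv_lhs => rw [← hX]
      exact hA ζ X
    have h4 : om (-ζ) X = -om ζ X := by
      have := om_smul_left (-1) ζ X
      simpa using this
    rw [om_add_left, om_add_left, om_smul_left, h3, h4, hV] at h2
    have h5 : om ζ V = 0 := by linarith
    rw [h5, zero_smul, add_zero] at h1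
    have h6 : A ζ = ζ := by
      have := eq_neg_of_add_eq_zero_left h1
      simpa using this
    obtain ⟨c, rfl⟩ := hnd ζ h6
    rw [om_smul_left, om_swap, hV] at h5
    have : c = 0 := by linarith
    rw [this, zero_smul]
  refine ⟨(LinearEquiv.ofInjectiveEndo (C : Ph →ₗ[ℝ] Ph) hinj).toContinuousLinearEquiv, ?_⟩
  ext ζ <;> rfl

section

variable {S : Type*} [TopologicalSpace S] [ChartedSpace P2 S]

theorem zc_periodic {g : RMetric S} {γ : ℝ → S} {T : ℝ} (hγ : ∀ t, γ (t + T) = γ t)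
    (e : OpenPartialHomeomorph S P2) (t : ℝ) : zc g γ e (t + T) = zc g γ e t := by
  have h1 : deriv (e ∘ γ) (t + T) = deriv (e ∘ γ) t := by
    have h2 : (fun s => (e ∘ γ) (s + T)) = e ∘ γ := by
      funext s
      simp [hγ s]
    rw [← deriv_comp_add_const, h2]
  simp only [zc, hγ t, h1]

variable [IsManifold (modelWithCornersSelf ℝ P2) ∞ S]

theorem persistence {g₀ : RMetric S} {γ : ℝ → S} {T : ℝ} (hγ : IsClosedGeodesic g₀ γ T)
    {e : OpenPartialHomeomorph S P2} (he : e ∈ atlas P2 S) (h0 : γ 0 ∈ e.source) {A : Ph →L[ℝ] Ph}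
    (hA : Trans g₀ γ 0 e T e A)
    (hnd : ∀ ζ, A ζ = ζ → ∃ c : ℝ, ζ = c • hvec (g₀.comp e) (zc g₀ γ e 0)) {ε : ℝ} (hε : 0 < ε) :
    ∀ᶠ h in 𝓝 g₀, ∃ (γ' : ℝ → S) (T' : ℝ), IsClosedGeodesic h γ' T' ∧ γ' 0 ∈ e.source ∧
      ‖e (γ' 0) - e (γ 0)‖ < ε ∧ ‖deriv (e ∘ γ') 0 - deriv (e ∘ γ) 0‖ < ε := by
  obtain ⟨hgeo, hT, hper⟩ := hγ
  set z := zc g₀ γ e 0 with hz
  have hzT : zc g₀ γ e T = z := by
    have := zc_periodic (g := g₀) hper e 0
    rwa [zero_add] at this
  obtain ⟨F, hF, r₀, hr₀, hsol⟩ := hA.exists_ual hgeo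
  rw [hzT, ← hz] at hF
  rw [← hz] at hsol
  have hzt : z.1 ∈ e.target := e.map_source h0
  set X := hvec (g₀.comp e) z with hX
  set V : Ph := (0, z.2) with hV
  have hVX : om V X = 1 := by
    rw [hV, hX, om_radial, hz, ham_zc hgeo he h0]
    norm_num
  have hAX : A X = X := by
    have := hA.map_hvec hgeo
    rwa [hzT, ← hz] at this
  obtain ⟨B, hB⟩ := exists_equiv_of_nondeg (hA.om_eq hgeo) hAX hVX hnd
  -- the zero
  have hΨ : UAL (𝓝 g₀) (fun g x => F g x + (-x + om (x - z) V • V)) (B : Ph →L[ℝ] Ph) z 0 := by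
    rw [hB]
    have h1 : HasStrictFDerivAt (fun x : Ph => -x + om (x - z) V • V)
        (-ContinuousLinearMap.id ℝ Ph + (omL V).smulRight V) z := by
      have h2 : HasStrictFDerivAt (fun x : Ph => -x) (-ContinuousLinearMap.id ℝ Ph) z :=
        (hasStrictFDerivAt_id z).neg
      have h3 : HasStrictFDerivAt (fun x : Ph => om (x - z) V • V) ((omL V).smulRight V) z := by
        have h4 : HasStrictFDerivAt (fun x : Ph => omL V (x - z)) (omL V) z := by
          have h5 : HasStrictFDerivAt (fun x : Ph => x - z) (ContinuousLinearMap.id ℝ Ph) z :=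
            (hasStrictFDerivAt_id z).sub_const z
          have h6 : HasStrictFDerivAt (omL V) (omL V) (z - z) := (omL V).hasStrictFDerivAt
          exact HasStrictFDerivAt.comp (f := fun x : Ph => x - z) z h6 h5
        have h7 := h4.smul_const V
        exact h7
      exact h2.add h3
    have h2 := hF.add (UAL.of_hasStrictFDerivAt (l := 𝓝 g₀) h1)
    have h3 : z + (-z + om (z - z) V • V) = 0 := by
      rw [sub_self, om_zero_left, zero_smul]
      simp
    rw [h3] at h2
    exact h2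
  -- continuity of the normalisation
  have hv₀ : velo (g₀.comp e) z = deriv (e ∘ γ) 0 := velo_zc he h0
  have hcont : ContinuousAt (fun q : ℝ × P2 => (Real.sqrt (2 * q.1))⁻¹ • q.2) (1 / 2, velo (g₀.comp e) z) := by
    have h1 : ContinuousAt (fun q : ℝ × P2 => (Real.sqrt (2 * q.1))⁻¹) (1 / 2, velo (g₀.comp e) z) := by
      refine ContinuousAt.inv₀ (by fun_prop) ?_
      simp
    exact h1.smul continuousAt_snd
  obtain ⟨η₁, hη₁, hη₁c⟩ := Metric.continuousAt_iff.1 hcont ε hε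
  set η := min η₁ (1 / 4) with hη
  have hηp : 0 < η := lt_min hη₁ (by norm_num)
  obtain ⟨r₁, hr₁, hvel⟩ := near_velo g₀ he hzt hηp
  have hH := ual_ham g₀ he hzt
  have hHz : ham (g₀.comp e) z = 1 / 2 := ham_zc hgeo he h0
  rw [hHz] at hH
  obtain ⟨r₂, hr₂, hHb⟩ := hH.exists_ball hηp
  obtain ⟨r₃, hr₃, hHl⟩ := hH.2 (1 / (2 * (‖V‖ + 1))) (by positivity)
  obtain ⟨r₄, hr₄, hFb⟩ := hF.exists_ball hr₃
  set ρ := min (min (min r₀ r₁) (min r₂ r₃)) (min r₄ ε) with hρ
  have hρp : 0 < ρ := lt_min (lt_min (lt_min hr₀ hr₁) (lt_min hr₂ hr₃)) (lt_min hr₄ hε)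
  filter_upwards [hΨ.exists_zero hρp, hsol, hvel, hHb, hHl, hFb] with g hg1 hg2 hg3 hg4 hg5 hg6
  obtain ⟨x, hx, hx0⟩ := hg1
  have hxρ : dist x z < ρ := hx
  have hx0' : x ∈ Metric.ball z r₀ :=
    lt_of_lt_of_le hxρ ((min_le_left _ _).trans ((min_le_left _ _).trans (min_le_left _ _)))
  have hx1 : x ∈ Metric.ball z r₁ :=
    lt_of_lt_of_le hxρ ((min_le_left _ _).trans ((min_le_left _ _).trans (min_le_right _ _)))
  have hx2 : x ∈ Metric.ball z r₂ :=
    lt_of_lt_of_le hxρ ((min_le_left _ _).trans ((min_le_right _ _).trans (min_le_left _ _)))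
  have hx3 : x ∈ Metric.ball z r₃ :=
    lt_of_lt_of_le hxρ ((min_le_left _ _).trans ((min_le_right _ _).trans (min_le_right _ _)))
  have hx4 : x ∈ Metric.ball z r₄ := lt_of_lt_of_le hxρ ((min_le_right _ _).trans (min_le_left _ _))
  have hx5 : dist x z < ε := lt_of_lt_of_le hxρ ((min_le_right _ _).trans (min_le_right _ _))
  obtain ⟨ψ, hψ, hs0, hc0, hsT, hcT⟩ := hg2 x hx0'
  -- the energy argument
  set s := om (x - z) V with hs
  have hFx : F g x = x - s • V := by
    have h1 : F g x + (-x + s • V) = 0 := hx0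
    have h2 : F g x = -(-x + s • V) := eq_neg_of_add_eq_zero_left h1
    rw [h2]
    abel
  have hEq : ham (g.comp e) (F g x) = ham (g.comp e) x := by
    rw [← hcT, ← hc0, ham_crd g he hsT, ham_crd g he hs0]
    exact hψ.energy_eq hT.le
  have hs0' : s = 0 := by
    by_contra hne
    have h1 := hg5 x hx3 (F g x) (hg6 x hx4)
    rw [hEq, sub_self, zero_sub, norm_neg] at h1
    have h2 : x - F g x = s • V := by rw [hFx]; abel
    rw [h2, map_smul, fderiv_ham e.open_target (g₀.smooth e he) (g₀.posDef e he) hzt, ← hX, hVX, norm_smul,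
      norm_smul] at h1
    simp only [norm_one, mul_one] at h1
    have h3 : 0 < ‖s‖ := norm_pos_iff.2 hne
    have h4 : 1 / (2 * (‖V‖ + 1)) * (‖s‖ * ‖V‖) < ‖s‖ := by
      rw [div_mul_eq_mul_div, one_mul, div_lt_iff₀ (by positivity)]
      nlinarith [norm_nonneg V]
    linarith
  have hFx' : F g x = x := by
    rw [hFx, hs0', zero_smul, sub_zero]
  have hψT : ψ 0 = ψ T := crd_inj he hs0 hsT (by rw [hc0, hcT, hFx'])
  obtain ⟨ψ', hψ', hper', hψ0⟩ := hψ.periodic hT hψT
  -- normalisation of the energy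
  set E := energy g (ψ' 0) with hE
  have hEx : E = ham (g.comp e) x := by
    rw [hE, hψ0, ← ham_crd g he hs0, hc0]
  have hEd : dist E (1 / 2) < η := by
    rw [hEx]
    exact hg4 x hx2
  have hEpos : 0 < E := by
    have h1 : |E - 1 / 2| < η := by rwa [Real.dist_eq] at hEd
    have h2 : η ≤ 1 / 4 := min_le_right _ _
    have h3 := (abs_lt.1 h1).1
    linarith
  set c := (Real.sqrt (2 * E))⁻¹ with hc
  have hcpos : 0 < c := inv_pos.2 (Real.sqrt_pos.2 (by linarith))
  have hc2 : c ^ 2 * E = 1 / 2 := by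
    rw [hc, inv_pow, Real.sq_sqrt (by linarith)]
    field_simp
  have hψ'' := hψ'.rescale c
  have hen : ∀ t, energy g ((ψ' (c * t)).1, c • (ψ' (c * t)).2) = 1 / 2 := by
    intro t
    rw [energy_smul, Prod.mk.eta, hψ'.energy_eq_univ (c * t) 0, ← hE, hc2]
  have hgeo' := isGeodesic_of_isSol hψ'' hen
  have hsrc : (ψ' 0).1 ∈ e.source := by
    rw [hψ0]
    exact hs0
  refine ⟨fun t => (ψ' (c * t)).1, T / c, ⟨hgeo', div_pos hT hcpos, fun t => ?_⟩, ?_, ?_, ?_⟩
  · have h1 : c * (t + T / c) = c * t + T := by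
      field_simp
    simp only [h1, hper']
  · simpa using hsrc
  · have h1 : e (ψ' (c * 0)).1 = x.1 := by
      rw [mul_zero, ← crd_fst e (ψ' 0), hψ0, hc0]
    rw [h1]
    have h2 : ‖x.1 - z.1‖ ≤ ‖x - z‖ := norm_fst_le (x - z)
    have h3 : ‖x - z‖ < ε := by rwa [← dist_eq_norm]
    exact lt_of_le_of_lt h2 h3
  · have h1 := deriv_of_isSol hψ'' he (t := 0) (by simpa using hsrc)
    rw [h1]
    simp only [mul_zero]
    rw [crd_smul, Prod.mk.eta, hψ0, hc0, velo_smul, Prod.mk.eta, ← hv₀]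
    have h2 : dist ((E, velo (g.comp e) x) : ℝ × P2) (1 / 2, velo (g₀.comp e) z) < η₁ := by
      rw [Prod.dist_eq, max_lt_iff]
      refine ⟨hEd.trans_le (min_le_left _ _), ?_⟩
      rw [dist_eq_norm]
      exact (hg3 x hx1).trans_le (min_le_left _ _)
    have h3 := hη₁c h2
    simp only at h3
    have h4 : (Real.sqrt (2 * (1 / 2 : ℝ)))⁻¹ • velo (g₀.comp e) z = velo (g₀.comp e) z := by
      norm_num
    rw [h4, dist_eq_norm] at h3
    exact h3

end

end Pool.Agent.Helper82.PE
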