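import Pool.Agent.Helper82.PE.Bad
import Pool.Agent.Helper82.PE.TransEx
import Pool.Agent.Helper82.PE.Bump
import Pool.Agent.Helper82.PE.Pert
import Pool.Agent.Helper82.PE.Small
import Pool.Agent.Helper82.PE.P2

/-!
# Perturbation to a nondegenerate closed geodesic (module PE-45)
-/

set_option maxSynthPendingDepth 3

namespace Pool.Agent.Helper82.PE

open MeasureTheory Filter Topology Pool.Agent.Helper82.GS
open scoped ContDiff Manifold NNReal

variable {S : Type*} [TopologicalSpace S] [T2Space S] [ChartedSpace P2 S]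
  [IsManifold (modelWithCornersSelf ℝ P2) ∞ S]

theorem exists_nondegenerate {g : RMetric S} {γ : ℝ → S} {T : ℝ} (hγ : IsClosedGeodesic g γ T)
    {e : OpenPartialHomeomorph S P2} (he : e ∈ atlas P2 S) (h0 : γ 0 ∈ e.source) {N : Set (RMetric S)}
    (hN : N ∈ 𝓝 g) :
    ∃ g' ∈ N, ∃ T₀, IsClosedGeodesic g' γ T₀ ∧ ∃ A, Trans g' γ 0 e T₀ e A ∧
      ∀ ζ, A ζ = ζ → ∃ c : ℝ, ζ = c • hvec (g'.comp e) (zc g' γ e 0) := by
  classical
  have : Nonempty (RMetric S) := ⟨g⟩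
  obtain ⟨T₀, hγ₀, hmin⟩ := exists_min_period hγ
  obtain ⟨b₁, hb₁, hb₁T, hsrc, f, K, hf, hK, hKe, hfK, hf0, hfar, hf2, s₁, s₂, h₁, h₁₂, h₂, hf3⟩ :=
    exists_bump hγ₀ hmin he h0
  obtain ⟨ε₀, hε₀, hpert⟩ := exists_pert g he hf hK hKe hfK
  -- small parameters give metrics in `N`
  have hsm : SmoothFun (ext e f) := ext_smooth he hf hK hKe hfK
  have hσ : ContDiffOn ℝ ∞ (fun x : ℝ => (1 + x)⁻¹) (Set.Ioo (-1) 1) := by
    refine ContDiffOn.inv (by fun_prop) ?_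
    intro x hx
    have := hx.1
    intro h
    linarith
  obtain ⟨δ, hδ, hδN⟩ := scale_small g hsm hσ (by norm_num) hN
  -- the parameters
  set P : Set ℝ := {ε | |ε| < ε₀} with hP
  choose! G' hG' using fun ε (hε : ε ∈ P) => (hpert ε hε).2
  have hpos : ∀ ε ∈ P, ∀ y, 0 < 1 + ε * f y := fun ε hε => (hpert ε hε).1
  have hGgeo : ∀ ε ∈ P, IsGeodesic (G' ε) γ ∧ ∀ e' ∈ atlas P2 S, ∀ t, γ t ∈ e'.source →
      zc (G' ε) γ e' t = zc g γ e' t := fun ε hε =>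
    pert_geodesic he hf hK hKe hfK (hpos ε hε) (hG' ε hε) hγ₀.1 hf0
  -- the propagators on the first piece
  have hm : ∀ ε ∈ P, ∃ m : ℝ → Ph →L[ℝ] Ph, m 0 = ContinuousLinearMap.id ℝ Ph ∧ ∀ t ∈ Set.Icc 0 b₁,
      HasDerivWithinAt m ((fderiv ℝ (hvec ((G' ε).comp e)) (zc (G' ε) γ e t)) ∘L m t) (Set.Icc 0 b₁) t :=
    fun ε hε => exists_flow_trans (hGgeo ε hε).1 he hb₁.le hsrc
  choose! m hm0 hm using hm
  -- the rest of the loop
  have hγb : γ b₁ ∈ e.source := hsrc b₁ ⟨hb₁.le, le_rfl⟩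
  have hγT : γ T₀ ∈ e.source := by
    have := hγ₀.2.2 0
    rw [zero_add] at this
    rw [this]
    exact h0
  obtain ⟨R, hR⟩ := exists_trans hγ₀.1 he he hb₁T.le hγb hγT
  have hRε : ∀ ε ∈ P, Trans (G' ε) γ b₁ e T₀ e R := by
    intro ε hε
    refine hR.of_eventuallyEq ?_
    intro t ht e' he' hte'
    exact pert_local hK hKe hfK (hG' ε hε) (hfar t ht) he' hte'
  have hzT : zc g γ e T₀ = zc g γ e 0 := by
    have := zc_periodic (g := g) hγ₀.2.2 e 0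
    rwa [zero_add] at this
  -- the bad parameters
  have hGc : ∀ ε ∈ P, ∀ y ∈ e.target, (G' ε).comp e y = (1 + ε * f y)⁻¹ • g.comp e y := by
    intro ε hε y hy
    rw [hG' ε hε e he y hy, ext_of_mem f (e.map_target hy), e.right_inv hy]
  have hbad := countable_bad e.open_target (g.smooth e he) (g.posDef e he) hf (Gε := fun ε => (G' ε).comp e)
    (P := P) hpos hGc (z := zc g γ e) (a := 0) (b := b₁) hb₁
    (fun t ht => (hasDerivAt_zc hγ₀.1 he (hsrc t ht)).hasDerivWithinAt)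
    (fun t ht => e.map_source (hsrc t ht)) (fun t ht => ham_zc hγ₀.1 he (hsrc t ht))
    (fun t ht => hf0 t (hsrc t ht)) hf2 h₁ h₁₂ h₂
    (fun t ht u hu => by
      obtain ⟨c, hc⟩ := hf3 t ht u hu
      refine ⟨c, ?_⟩
      rw [hc, velo_zc he (hsrc t ⟨h₁.trans ht.1.le, ht.2.le.trans h₂⟩)])
    (m := m) hm0 (fun ε hε t ht => by
      have := hm ε hε t ht
      rwa [(hGgeo ε hε).2 e he t (hsrc t ht)] at this)
    (Rr := R) (hR.om_eq hγ₀.1) (by rw [hR.map_hvec hγ₀.1, hzT]) (τ := T₀ - b₁)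
    (by
      have := hγ₀.2.1
      intro h
      linarith)
    (by rw [hR.map_radial hγ₀.1, hzT])
  -- a good parameter
  have hunc : ¬ (Set.Ioo 0 (min ε₀ δ)).Countable := by
    have h3 : (0 : ℝ) < min ε₀ δ := lt_min hε₀ hδ
    exact Cardinal.Real.Ioo_countable_iff.not.2 (by simpa using h3)
  obtain ⟨ε, hε, hεb⟩ : ∃ ε ∈ Set.Ioo 0 (min ε₀ δ), ε ∉ {ε | ε ∈ P ∧ ∃ ζ, R (m ε b₁ ζ) = ζ ∧
      ∀ c : ℝ, ζ ≠ c • hvec (g.comp e) (zc g γ e 0)} := by
    by_contra hcon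
    push Not at hcon
    exact hunc (hbad.mono hcon)
  have hεP : ε ∈ P := by
    rw [hP, Set.mem_ofPred_eq, abs_of_pos hε.1]
    exact hε.2.trans_le (min_le_left _ _)
  have hεδ : |ε| < δ := by
    rw [abs_of_pos hε.1]
    exact hε.2.trans_le (min_le_right _ _)
  have hzε : zc (G' ε) γ e 0 = zc g γ e 0 := (hGgeo ε hεP).2 e he 0 h0
  have hhv : hvec ((G' ε).comp e) (zc g γ e 0) = hvec (g.comp e) (zc g γ e 0) :=
    (hvec_conf e.open_target (g.smooth e he) hf (hpos ε hεP) (hGc ε hεP) (e.map_source h0) (hf0 0 h0).1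
      (hf0 0 h0).2).1
  refine ⟨G' ε, hδN ε hεδ (G' ε) (fun e' he' y hy => hG' ε hεP e' he' y hy), T₀,
    ⟨(hGgeo ε hεP).1, hγ₀.2⟩, R ∘L m ε b₁,
    Trans.comp (Trans.flow 0 b₁ e he hb₁.le hsrc (m ε) (hm0 ε hεP) (hm ε hεP)) (hRε ε hεP), ?_⟩
  intro ζ hζ
  rw [hzε, hhv]
  by_contra hcon
  push Not at hcon
  exact hεb ⟨hεP, ζ, hζ, hcon⟩

/-- The persistence block. -/
theorem persistenceBlock : PersistenceBlock S := by
  intro g γ T hγ e he h0 N hN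
  obtain ⟨g', hg', T₀, hγ', A, hA, hnd⟩ := exists_nondegenerate hγ he h0 hN
  exact ⟨g', hg', fun ε hε => persistence hγ' he h0 hA hnd hε⟩

end Pool.Agent.Helper82.PE
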