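import Pool.Agent.Helper82.PE.Crd
import Pool.Agent.Helper82.PE.CtrHam

/-!
# Solutions can be checked in one chart (module PE-15)
-/

set_option maxSynthPendingDepth 3

namespace Pool.Agent.Helper82.PE

open MeasureTheory Filter Topology Pool.Agent.Helper82.GS
open scoped ContDiff Manifold NNReal

variable {S : Type*} [TopologicalSpace S] [ChartedSpace P2 S] [IsManifold (modelWithCornersSelf ℝ P2) ∞ S]

/-- Proof: let `e'` be another chart at `(ψ t).1`.  For `s` in `I` near `t` both charts are defined at `(ψ s).1`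
(continuity), so `crd e' (ψ s) = ctr e e' (crd e (ψ s))` (`ctr_crd`), and the chain rule with `fderiv_ctr_hvec` gives the
derivative `hvec (g.comp e') (crd e' (ψ t))`. -/
theorem isSol_of_local {g : RMetric S} {ψ : ℝ → S × Cov} {I : Set ℝ} (hc : ContinuousOn (fun t => (ψ t).1) I)
    (h : ∀ t ∈ I, ∃ e ∈ atlas P2 S, (ψ t).1 ∈ e.source ∧
      HasDerivWithinAt (fun s => crd e (ψ s)) (hvec (g.comp e) (crd e (ψ t))) I t) : IsSol g ψ I := by
  refine ⟨hc, fun e' he' t ht ht' => ?_⟩
  obtain ⟨e, he, hte, hd⟩ := h t ht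
  have hz : crd e (ψ t) ∈ cdom e e' := crd_mem_cdom hte ht'
  have h1 : ContDiffAt ℝ ∞ (ctr e e') (crd e (ψ t)) :=
    (contDiffOn_ctr he he').contDiffAt ((isOpen_cdom e e').mem_nhds hz)
  have h2 : HasFDerivAt (ctr e e') (fderiv ℝ (ctr e e') (crd e (ψ t))) (crd e (ψ t)) :=
    (h1.differentiableAt (by simp)).hasFDerivAt
  have h3 : HasDerivWithinAt (fun s => ctr e e' (crd e (ψ s)))
      (fderiv ℝ (ctr e e') (crd e (ψ t)) (hvec (g.comp e) (crd e (ψ t)))) I t :=
    HasFDerivAt.comp_hasDerivWithinAt (f := fun s => crd e (ψ s)) t h2 hd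
  rw [fderiv_ctr_hvec g he he' hz, ctr_crd he he' hte ht'] at h3
  refine h3.congr_of_eventuallyEq ?_ (ctr_crd he he' hte ht').symm
  have h4 : ∀ᶠ s in 𝓝[I] t, (ψ s).1 ∈ e.source ∩ e'.source :=
    (hc t ht).eventually ((e.open_source.inter e'.open_source).mem_nhds ⟨hte, ht'⟩)
  filter_upwards [h4] with s hs
  exact (ctr_crd he he' hs.1 hs.2).symm

/-- A solution in a chart gives a solution on the surface. -/
theorem isSol_uncrd {g : RMetric S} {e : OpenPartialHomeomorph S P2} (he : e ∈ atlas P2 S) {α : ℝ → Ph}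
    {I : Set ℝ} (hα : ∀ t ∈ I, (α t).1 ∈ e.target ∧ HasDerivWithinAt α (hvec (g.comp e) (α t)) I t) :
    IsSol g (fun t => uncrd e (α t)) I := by
  refine isSol_of_local ?_ fun t ht => ⟨e, he, uncrd_mem (hα t ht).1, ?_⟩
  · change ContinuousOn (fun t => e.symm (α t).1) I
    have h1 : ContinuousOn (fun t => (α t).1) I := fun t ht =>
      continuous_fst.continuousAt.comp_continuousWithinAt (hα t ht).2.continuousWithinAt
    exact e.continuousOn_symm.comp h1 fun t ht => (hα t ht).1
  · rw [crd_uncrd_self he (hα t ht).1]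
    exact (hα t ht).2.congr (fun s hs => crd_uncrd_self he (hα s hs).1)
      (crd_uncrd_self he (hα t ht).1)

end Pool.Agent.Helper82.PE
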