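import Pool.Agent.Helper82.PE.Defs

/-!
# Global solutions of Lipschitz differential equations (module PE-20)
-/

set_option maxSynthPendingDepth 3

namespace Pool.Agent.Helper82.PE

open MeasureTheory Filter Topology Pool.Agent.Helper82.GS
open scoped ContDiff Manifold NNReal

variable {E : Type*} [NormedAddCommGroup E] [NormedSpace ℝ E]

/-- Gluing two solutions.  At `t = b` use `HasDerivWithinAt.union` on `Icc a b ∪ Icc b c`; at the other points the
derivative within `Icc a c` is the derivative within the piece. -/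
theorem glue_deriv {v : ℝ → E → E} {a b c : ℝ} (hab : a ≤ b) (hbc : b ≤ c) {α β : ℝ → E}
    (hα : ∀ t ∈ Set.Icc a b, HasDerivWithinAt α (v t (α t)) (Set.Icc a b) t)
    (hβ : ∀ t ∈ Set.Icc b c, HasDerivWithinAt β (v t (β t)) (Set.Icc b c) t) (h : α b = β b) :
    ∃ δ : ℝ → E, δ a = α a ∧ δ c = β c ∧ (∀ t ∈ Set.Icc a b, δ t = α t) ∧ (∀ t ∈ Set.Icc b c, δ t = β t) ∧
      ∀ t ∈ Set.Icc a c, HasDerivWithinAt δ (v t (δ t)) (Set.Icc a c) t := by
  classical
  let δ : ℝ → E := fun t => if t ≤ b then α t else β t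
  have e1 : ∀ t ∈ Set.Icc a b, δ t = α t := fun t ht => if_pos ht.2
  have e2 : ∀ t ∈ Set.Icc b c, δ t = β t := by
    intro t ht
    by_cases htb : t ≤ b
    · have : t = b := le_antisymm htb ht.1
      subst this
      change (if t ≤ t then α t else β t) = β t
      rw [if_pos le_rfl, h]
    · exact if_neg htb
  have s1 : ∀ t ∈ Set.Icc a b, HasDerivWithinAt δ (v t (δ t)) (Set.Icc a b) t := by
    intro t ht
    rw [e1 t ht]
    exact (hα t ht).congr e1 (e1 t ht)
  have s2 : ∀ t ∈ Set.Icc b c, HasDerivWithinAt δ (v t (δ t)) (Set.Icc b c) t := by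
    intro t ht
    rw [e2 t ht]
    exact (hβ t ht).congr e2 (e2 t ht)
  have hU : Set.Icc a c = Set.Icc a b ∪ Set.Icc b c := (Set.Icc_union_Icc_eq_Icc hab hbc).symm
  refine ⟨δ, e1 a ⟨le_rfl, hab⟩, e2 c ⟨hbc, le_rfl⟩, e1, e2, ?_⟩
  intro t _
  rw [hU]
  have key : ∀ {x y : ℝ}, (∀ t ∈ Set.Icc x y, HasDerivWithinAt δ (v t (δ t)) (Set.Icc x y) t) →
      HasDerivWithinAt δ (v t (δ t)) (Set.Icc x y) t := by
    intro x y hsol
    by_cases hm : t ∈ Set.Icc x y
    · exact hsol t hm
    · have : t ∉ closure (Set.Icc x y) := by rwa [isClosed_Icc.closure_eq]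
      exact HasFDerivWithinAt.of_notMem_closure this
  exact (key s1).union (key s2)

theorem exists_solution_local [CompleteSpace E] {v : ℝ → E → E} {K : ℝ≥0} {a b : ℝ} (hab : a ≤ b)
    (hK : (K : ℝ) * (b - a) ≤ 1 / 2)
    (hlip : ∀ t ∈ Set.Icc a b, LipschitzWith K (v t))
    (hcont : ∀ x, ContinuousOn (fun t => v t x) (Set.Icc a b)) (x : E) :
    ∃ α : ℝ → E, α a = x ∧ ∀ t ∈ Set.Icc a b, HasDerivWithinAt α (v t (α t)) (Set.Icc a b) t := by
  obtain ⟨C, hC⟩ := isCompact_Icc.exists_bound_of_continuousOn (hcont x)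
  have hC0 : 0 ≤ C := (norm_nonneg _).trans (hC a ⟨le_rfl, hab⟩)
  have hba : 0 ≤ b - a := by linarith
  have hR0 : 0 ≤ 2 * C * (b - a) + 1 := by positivity
  have hP : IsPicardLindelof v (tmin := a) (tmax := b) ⟨a, le_rfl, hab⟩ x
      (⟨2 * C * (b - a) + 1, hR0⟩ : ℝ≥0) 0 (⟨C, hC0⟩ + K * ⟨2 * C * (b - a) + 1, hR0⟩) K := by
    constructor
    · intro t ht
      exact (hlip t ht).lipschitzOnWith
    · intro y _
      exact hcont y
    · intro t ht y hy
      have h1 : ‖v t y - v t x‖ ≤ K * ‖y - x‖ := by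
        have := (hlip t ht).dist_le_mul y x
        rwa [dist_eq_norm, dist_eq_norm] at this
      have h2 : ‖y - x‖ ≤ 2 * C * (b - a) + 1 := by
        rw [Metric.mem_closedBall, dist_eq_norm] at hy
        exact hy
      have h3 : (K : ℝ) * ‖y - x‖ ≤ K * (2 * C * (b - a) + 1) :=
        mul_le_mul_of_nonneg_left h2 K.coe_nonneg
      have h4 := hC t ht
      have h5 : ‖v t y‖ ≤ ‖v t x‖ + ‖v t y - v t x‖ := by
        have := norm_add_le (v t x) (v t y - v t x)
        rwa [add_sub_cancel] at this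
      change ‖v t y‖ ≤ C + K * (2 * C * (b - a) + 1)
      linarith
    · change (C + K * (2 * C * (b - a) + 1)) * max (b - a) (a - a) ≤
        (2 * C * (b - a) + 1) - 0
      rw [sub_self, max_eq_left hba, sub_zero]
      have h6 : 0 ≤ C * (b - a) := by positivity
      nlinarith
  obtain ⟨α, h1, h2⟩ := hP.exists_eq_forall_mem_Icc_hasDerivWithinAt₀
  exact ⟨α, h1, h2⟩

/-- Global existence.  Step 1: if `K * (b - a) ≤ 1/2`, let `C = sup ‖v t x‖` over `Icc a b` (compact) and apply
`IsPicardLindelof` (`IsPicardLindelof.exists_eq_forall_mem_Icc_hasDerivWithinAt` or similar) on the closed ball of radius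
`R = 2 C (b - a) + 1` around `x`, where `‖v t y‖ ≤ C + K R`, `(C + K R) (b - a) ≤ R`.  Step 2: induction on `n` with
`K * (b - a) ≤ n / 2`, with `glue_deriv`. -/
theorem exists_solution_of_lipschitz [CompleteSpace E] {v : ℝ → E → E} {K : ℝ≥0} {a b : ℝ} (hab : a ≤ b)
    (hlip : ∀ t ∈ Set.Icc a b, LipschitzWith K (v t))
    (hcont : ∀ x, ContinuousOn (fun t => v t x) (Set.Icc a b)) (x : E) :
    ∃ α : ℝ → E, α a = x ∧ ∀ t ∈ Set.Icc a b, HasDerivWithinAt α (v t (α t)) (Set.Icc a b) t := by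
  have main : ∀ n : ℕ, ∀ a b : ℝ, a ≤ b → (K : ℝ) * (b - a) ≤ (n + 1 : ℝ) / 2 →
      (∀ t ∈ Set.Icc a b, LipschitzWith K (v t)) →
      (∀ x, ContinuousOn (fun t => v t x) (Set.Icc a b)) → ∀ x : E,
      ∃ α : ℝ → E, α a = x ∧ ∀ t ∈ Set.Icc a b, HasDerivWithinAt α (v t (α t)) (Set.Icc a b) t := by
    intro n
    induction n with
    | zero =>
      intro a b hab hK h1 h2 x
      exact exists_solution_local hab (by simpa using hK) h1 h2 x
    | succ n ih =>
      intro a b hab hK h1 h2 x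
      by_cases hcase : (K : ℝ) * (b - a) ≤ (n + 1 : ℝ) / 2
      · exact ih a b hab hcase h1 h2 x
      · push Not at hcase
        have hKpos : 0 < (K : ℝ) := by
          rcases eq_or_lt_of_le K.coe_nonneg with h | h
          · rw [← h, zero_mul] at hcase
            have : (0 : ℝ) ≤ (n + 1 : ℝ) / 2 := by positivity
            linarith
          · exact h
        let c : ℝ := a + (n + 1 : ℝ) / 2 / K
        have hc1 : a ≤ c := by
          have : 0 ≤ (n + 1 : ℝ) / 2 / K := by positivity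
          change a ≤ a + (n + 1 : ℝ) / 2 / K
          linarith
        have hc2 : c ≤ b := by
          change a + (n + 1 : ℝ) / 2 / K ≤ b
          have : (n + 1 : ℝ) / 2 / K ≤ b - a := by
            rw [div_le_iff₀ hKpos]
            linarith
          linarith
        have hc3 : (K : ℝ) * (c - a) = (n + 1 : ℝ) / 2 := by
          change (K : ℝ) * (a + (n + 1 : ℝ) / 2 / K - a) = _
          field_simp
          ring
        have hs1 : Set.Icc a c ⊆ Set.Icc a b := Set.Icc_subset_Icc_right hc2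
        have hs2 : Set.Icc c b ⊆ Set.Icc a b := Set.Icc_subset_Icc_left hc1
        obtain ⟨α, hα0, hα⟩ := ih a c hc1 hc3.le (fun t ht => h1 t (hs1 ht))
          (fun y => (h2 y).mono hs1) x
        have hK2 : (K : ℝ) * (b - c) ≤ 1 / 2 := by
          push_cast at hK
          have : (K : ℝ) * (b - c) = K * (b - a) - K * (c - a) := by ring
          rw [this, hc3]
          linarith
        obtain ⟨β, hβ0, hβ⟩ := exists_solution_local hc2 hK2 (fun t ht => h1 t (hs2 ht))
          (fun y => (h2 y).mono hs2) (α c)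
        obtain ⟨δ, hδ1, _, _, _, hδ5⟩ := glue_deriv hc1 hc2 hα hβ hβ0.symm
        exact ⟨δ, hδ1.trans hα0, hδ5⟩
  obtain ⟨n, hn⟩ := exists_nat_ge (2 * ((K : ℝ) * (b - a)))
  refine main n a b hab ?_ hlip hcont x
  linarith

end Pool.Agent.Helper82.PE
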