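import Pool.Agent.Helper82.PE.PropSymp
import Pool.Agent.Helper82.PE.Zc

/-!
# Properties of the transport (module PE-33)
-/

set_option maxSynthPendingDepth 3

namespace Pool.Agent.Helper82.PE

open MeasureTheory Filter Topology Pool.Agent.Helper82.GS
open scoped ContDiff Manifold NNReal

variable {S : Type*} [TopologicalSpace S] [ChartedSpace P2 S] {g : RMetric S} {γ : ℝ → S} {a b : ℝ}
  {e e' : OpenPartialHomeomorph S P2} {A : Ph →L[ℝ] Ph}

/-- Induction on `Trans`. -/
theorem Trans.basic (h : Trans g γ a e b e' A) :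
    a ≤ b ∧ e ∈ atlas P2 S ∧ e' ∈ atlas P2 S ∧ γ a ∈ e.source ∧ γ b ∈ e'.source := by
  induction h with
  | flow a b e he hab hγ m hma hm =>
    exact ⟨hab, he, he, hγ a (Set.left_mem_Icc.2 hab), hγ b (Set.right_mem_Icc.2 hab)⟩
  | change a e e' he he' h h' => exact ⟨le_rfl, he, he', h, h'⟩
  | comp hA hB ihA ihB => exact ⟨ihA.1.trans ihB.1, ihA.2.1, ihB.2.2.1, ihA.2.2.2.1, ihB.2.2.2.2⟩

variable [IsManifold (modelWithCornersSelf ℝ P2) ∞ S]

/-- Induction: `propagator_om` (with `z = zc g γ e`, `hasDerivAt_zc`), `om_ctr`. -/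
theorem Trans.om_eq (hγ : IsGeodesic g γ) (h : Trans g γ a e b e' A) (ζ η : Ph) : om (A ζ) (A η) = om ζ η := by
  induction h generalizing ζ η with
  | flow a b e he hab hγ' m hma hm =>
    exact propagator_om e.open_target (g.smooth e he) (g.posDef e he)
      (fun t ht => (hasDerivAt_zc hγ he (hγ' t ht)).continuousAt.continuousWithinAt)
      (fun t ht => e.map_source (hγ' t ht)) hma hm (Set.right_mem_Icc.2 hab) ζ η
  | change a e e' he he' h h' => exact om_ctr he he' (zc_mem_cdom h h') ζ η
  | comp hA hB ihA ihB =>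
    rw [ContinuousLinearMap.comp_apply, ContinuousLinearMap.comp_apply, ihB, ihA]

/-- Induction: `propagator_hvec`, `fderiv_ctr_hvec` and `ctr_zc`. -/
theorem Trans.map_hvec (hγ : IsGeodesic g γ) (h : Trans g γ a e b e' A) :
    A (hvec (g.comp e) (zc g γ e a)) = hvec (g.comp e') (zc g γ e' b) := by
  induction h with
  | flow a b e he hab hγ' m hma hm =>
    exact propagator_hvec e.open_target (g.smooth e he) (g.posDef e he)
      (fun t ht => (hasDerivAt_zc hγ he (hγ' t ht)).hasDerivWithinAt)
      (fun t ht => e.map_source (hγ' t ht)) hma hm (Set.right_mem_Icc.2 hab)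
  | change a e e' he he' h h' =>
    rw [fderiv_ctr_hvec g he he' (zc_mem_cdom h h'), ctr_zc hγ he he' h h']
  | comp hA hB ihA ihB =>
    rw [ContinuousLinearMap.comp_apply, ihA, ihB]

/-- Induction: `propagator_radial`, `fderiv_ctr_radial`; for compositions use `Trans.map_hvec`. -/
theorem Trans.map_radial (hγ : IsGeodesic g γ) (h : Trans g γ a e b e' A) :
    A (0, (zc g γ e a).2) = (0, (zc g γ e' b).2) + (b - a) • hvec (g.comp e') (zc g γ e' b) := by
  induction h with
  | flow a b e he hab hγ' m hma hm =>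
    exact propagator_radial e.open_target (g.smooth e he) (g.posDef e he)
      (fun t ht => (hasDerivAt_zc hγ he (hγ' t ht)).hasDerivWithinAt)
      (fun t ht => e.map_source (hγ' t ht)) hma hm (Set.right_mem_Icc.2 hab)
  | change a e e' he he' h h' =>
    rw [fderiv_ctr_radial he he' (zc_mem_cdom h h'), ctr_zc hγ he he' h h', sub_self, zero_smul, add_zero]
  | @comp a b c e e' e'' A B hA hB ihA ihB =>
    rw [ContinuousLinearMap.comp_apply, ihA, map_add, map_smul, ihB, hB.map_hvec hγ]
    rw [add_assoc, ← add_smul]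
    congr 2
    ring

/-- Locality: if the components of `g'` agree with those of `g` near the points of the arc, the transport is the same.
For `flow`: `zc` and `fderiv (hvec _)` at `zc` only depend on the germ of the components (`hvec` on a neighbourhood of
`zc g γ e t`); the `change` maps do not depend on the metric except for the base point `zc g γ e a`. -/
theorem Trans.of_eventuallyEq {g' : RMetric S} (h : Trans g γ a e b e' A)
    (hg : ∀ t ∈ Set.Icc a b, ∀ e ∈ atlas P2 S, γ t ∈ e.source → g'.comp e =ᶠ[𝓝 (e (γ t))] g.comp e) :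
    Trans g' γ a e b e' A := by
  have hzc : ∀ (t : ℝ) (e : OpenPartialHomeomorph S P2), g'.comp e =ᶠ[𝓝 (e (γ t))] g.comp e →
      zc g' γ e t = zc g γ e t := by
    intro t e h
    unfold zc
    rw [h.eq_of_nhds]
  induction h with
  | flow a b e he hab hγ m hma hm =>
    refine Trans.flow a b e he hab hγ m hma fun t ht => ?_
    have h1 := hg t ht e he (hγ t ht)
    have h2 : fderiv ℝ (hvec (g'.comp e)) (zc g' γ e t) = fderiv ℝ (hvec (g.comp e)) (zc g γ e t) := by
      rw [hzc t e h1]
      refine Filter.EventuallyEq.fderiv_eq ?_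
      have h3 : ∀ᶠ w : Ph in 𝓝 (zc g γ e t), g'.comp e =ᶠ[𝓝 w.1] g.comp e := by
        have h4 : ∀ᶠ y in 𝓝 (e (γ t)), g'.comp e =ᶠ[𝓝 y] g.comp e := h1.eventuallyEq_nhds
        have h5 : Tendsto (fun w : Ph => w.1) (𝓝 (zc g γ e t)) (𝓝 (e (γ t))) := continuous_fst.continuousAt
        exact h5.eventually h4
      filter_upwards [h3] with w hw
      have h6 : velo (g'.comp e) w = velo (g.comp e) w := by
        unfold velo
        rw [hw.eq_of_nhds]
      unfold hvec
      rw [h6, hw.fderiv_eq]
    rw [h2]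
    exact hm t ht
  | change a e e' he he' h h' =>
    have h1 := Trans.change (g := g') a e e' he he' h h'
    rwa [hzc a e (hg a (Set.left_mem_Icc.2 le_rfl) e he h)] at h1
  | @comp a b c e e' e'' A B hA hB ihA ihB =>
    refine Trans.comp (ihA fun t ht => hg t ⟨ht.1, ht.2.trans hB.basic.1⟩)
      (ihB fun t ht => hg t ⟨hA.basic.1.trans ht.1, ht.2⟩)

end Pool.Agent.Helper82.PE
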